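import Pool.Agent.Lib.MP_d44e50_ag.St2

/-! Linear algebra. -/

namespace Pool.Agent.Lib.MP_d44e50_ag

open Pool.Agent.Lib.MP_813db1_ag.HS Complex Matrix
open scoped ComplexOrder

namespace Alg

section

variable {ι : Type} [Fintype ι] {P Q : Mat ι}

theorem qf_eq (P : Mat ι) (a b : V ι) : qf P a b = star b ⬝ᵥ P *ᵥ a := by
  simp only [qf, dotProduct, mulVec, Finset.mul_sum, Pi.star_apply]
  rw [Finset.sum_comm]
  exact Finset.sum_congr rfl fun _ _ => Finset.sum_congr rfl fun _ _ => by ring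

theorem qf_psd (h : P.PosSemidef) (a : V ι) : 0 ≤ (qf P a a).re :=
  qf_eq P a a ▸ (Complex.nonneg_iff.1 (h.dotProduct_mulVec_nonneg a)).1

theorem qf_sub (a : V ι) (h : (Q - P).PosSemidef) : (qf P a a).re ≤ (qf Q a a).re := by
  have := qf_psd h a
  rw [qf_eq, sub_mulVec, dotProduct_sub, sub_re, ← qf_eq, ← qf_eq] at this
  linarith

theorem qf_sym (h : P.IsHermitian) (a b : V ι) : (qf P a b).re = (qf P b a).re := by
  rw [qf_eq, qf_eq, ← conj_re, ← star_def, star_dotProduct, star_star, star_mulVec, h.eq,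
    ← dotProduct_mulVec]

theorem qf_l (P : Mat ι) (a b c : V ι) (t : ℝ) :
    (qf P (a + (t : ℂ) • b) c).re = (qf P a c).re + t * (qf P b c).re := by
  simp only [qf_eq, mulVec_add, mulVec_smul, dotProduct_add, dotProduct_smul, smul_eq_mul, add_re,
    re_ofReal_mul]

theorem qf_sq (h : P.IsHermitian) (a b : V ι) (t : ℝ) :
    (qf P (a + (t : ℂ) • b) (a + (t : ℂ) • b)).re =
      (qf P a a).re + 2 * t * (qf P a b).re + t ^ 2 * (qf P b b).re := by
  rw [qf_l, qf_sym h a, qf_sym h b, qf_l, qf_l, qf_sym h b a]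
  ring

theorem qf_nv [DecidableEq ι] (P : Mat ι) (a : V ι) : (qf P a a).re = nV P (star a) := by
  rw [qf_eq, Mat.nv_eq]

theorem sum_le (a : V ι) : ∑ i, ‖a i‖ ^ 2 ≤ Fintype.card ι * ‖a‖ ^ 2 := by
  simpa using Finset.sum_le_card_nsmul Finset.univ (fun i => ‖a i‖ ^ 2) (‖a‖ ^ 2) fun i _ =>
    pow_le_pow_left₀ (norm_nonneg _) (norm_le_pi_norm a i) 2

theorem le_sum (a : V ι) : ‖a‖ ^ 2 ≤ ∑ i, ‖a i‖ ^ 2 := by
  have : ‖a‖ ≤ √(∑ i, ‖a i‖ ^ 2) := (pi_norm_le_iff_of_nonneg (Real.sqrt_nonneg _)).2 fun i =>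
    Real.le_sqrt_of_sq_le (Finset.single_le_sum (f := fun i => ‖a i‖ ^ 2) (fun _ _ => by positivity)
      (Finset.mem_univ i))
  exact (Real.le_sqrt (norm_nonneg _) (by positivity)).1 this

end

variable {ι κ : Type} [Fintype ι] [DecidableEq ι] [Fintype κ] [DecidableEq κ] {G : Mat ι}
  {B : Matrix ι κ ℂ}

omit [DecidableEq κ] in
theorem gm_psd (h : G.PosDef) : (gm G B).PosSemidef :=
  h.inv.posSemidef.conjTranspose_mul_mul_same B

theorem gm_pd (h : G.PosDef) (h0 : (gm G B).det ≠ 0) : (gm G B).PosDef :=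
  (gm_psd h).posDef_iff_isUnit.2 ((isUnit_iff_isUnit_det _).2 h0.isUnit)

theorem pj_psd (h : G.PosDef) (h0 : (gm G B).det ≠ 0) :
    (pj G B).PosSemidef ∧ (G⁻¹ - pj G B).PosSemidef ∧ pj G B * B = G⁻¹ * B := by
  refine ⟨?_, ?_, ?_⟩
  · have := (gm_pd h h0).inv.posSemidef.mul_mul_conjTranspose_same (G⁻¹ * B)
    rwa [conjTranspose_mul, h.inv.1.eq, ← Matrix.mul_assoc] at this
  · have := Sub.schur (X := Bᴴ) h.inv (by rw [conjTranspose_conjTranspose]; exact gm_pd h h0)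
    rwa [conjTranspose_conjTranspose] at this
  · rw [pj, Matrix.mul_assoc, Matrix.mul_assoc, ← Matrix.mul_assoc Bᴴ, ← gm,
      nonsing_inv_mul_cancel_right _ _ h0.isUnit]

theorem frame (h : G.PosDef) (h0 : (gm G B).det ≠ 0) : ∃ ξ : Matrix ι κ ℂ, ξᴴ * G * ξ = 1 ∧
    pj G B = ξ * ξᴴ ∧ ‖(ξᴴ * B).det‖ ^ 2 = (gm G B).det.re := by
  obtain ⟨S, hS⟩ := Sub.fac (gm_pd h h0).inv.posSemidef
  have u : IsUnit G.det := (isUnit_iff_isUnit_det _).1 h.isUnit
  have e : (G⁻¹ * B * Sᴴ)ᴴ * B = S * gm G B := by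
    simp only [conjTranspose_mul, conjTranspose_conjTranspose, h.inv.1.eq, gm, Matrix.mul_assoc]
  have e1 : S * gm G B * Sᴴ = 1 := by
    rw [Matrix.mul_assoc, mul_eq_one_comm, Matrix.mul_assoc, ← hS, mul_nonsing_inv _ h0.isUnit]
  refine ⟨G⁻¹ * B * Sᴴ, ?_, ?_, ?_⟩
  · rw [Matrix.mul_assoc, show G * (G⁻¹ * B * Sᴴ) = B * Sᴴ by
      rw [Matrix.mul_assoc G⁻¹, mul_nonsing_inv_cancel_left _ _ u], ← Matrix.mul_assoc, e, e1]
  · simp only [pj, hS, conjTranspose_mul, conjTranspose_conjTranspose, h.inv.1.eq, Matrix.mul_assoc]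
  · have d := congrArg (fun A => ‖det A‖) e1
    have n := Mat.norm_det (gm_pd h h0)
    simp only [det_mul, det_conjTranspose, norm_mul, norm_star, det_one, norm_one, n] at d
    rw [e, det_mul, norm_mul, n]
    linear_combination (gm G B).det.re * d

theorem inv_bd (h : G.PosDef) {L : ℝ} (h1 : Bd L G) : Bd L G⁻¹⁻¹ := by
  rwa [nonsing_inv_nonsing_inv _ ((isUnit_iff_isUnit_det _).1 h.isUnit)]

end Alg

open Alg in
theorem alg : AlgS where
  gm_psd _ _ _ _ _ _ _ h := gm_psd h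
  gm_pd _ _ _ _ _ _ _ _ h h0 := gm_pd h h0
  gm_inj _ _ _ _ _ _ _ _ h hB := (h.inv.conjTranspose_mul_mul_same hB).det_pos.ne'
  gm_zero _ _ _ _ _ _ G B ξ h h0 := by
    by_contra q
    refine (h.inv.conjTranspose_mul_mul_same (B := B) fun v w e => ?_).det_pos.ne' h0
    refine mulVec_injective_iff_isUnit.2 ((isUnit_iff_isUnit_det _).2 (Ne.isUnit q)) ?_
    rw [← mulVec_mulVec, ← mulVec_mulVec, e]
  pj_psd _ _ _ _ _ _ _ _ h h0 := pj_psd h h0
  trX ι κ _ _ _ _ G J B h := by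
    have u : IsUnit Jᵀ.det := by rw [det_transpose]; exact h.isUnit
    have v : IsUnit (J.map star).det := by rw [Mat.det_star]; exact h.isUnit.star
    have t : Jᵀᴴ = J.map star := by rw [← Mat.map_ct, conjTranspose_conjTranspose]
    have e : gm (pull J G) (Jᵀ * B) = gm G B := by
      simp only [gm, pull, Matrix.mul_inv_rev, conjTranspose_mul, t, Matrix.mul_assoc,
        mul_nonsing_inv_cancel_left _ _ v, nonsing_inv_mul_cancel_left _ _ u]
    refine ⟨e, ?_⟩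
    rw [pj, pj, e]
    simp only [pull, Matrix.mul_inv_rev, conjTranspose_mul, t, Matrix.mul_assoc,
      mul_nonsing_inv_cancel_left _ _ v, nonsing_inv_mul_cancel_left _ _ u, nonsing_inv_mul _ u,
      Matrix.mul_one]
  trY ι κ _ _ _ _ G B A h := by
    have v : IsUnit Aᴴ.det := by rw [det_conjTranspose]; exact h.isUnit.star
    have e : gm G (B * A) = Aᴴ * gm G B * A := by
      simp only [gm, conjTranspose_mul, Matrix.mul_assoc]
    refine ⟨?_, ?_⟩
    · rw [e, det_mul, det_mul, det_conjTranspose, mul_right_comm, mul_comm (star _), ← Green.nsq,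
        re_ofReal_mul]
    · simp only [pj, e, Matrix.mul_inv_rev, conjTranspose_mul, Matrix.mul_assoc,
        mul_nonsing_inv_cancel_left _ _ h.isUnit, nonsing_inv_mul_cancel_left _ _ v]
  frame _ _ _ _ _ _ _ _ h h0 := frame h h0
  bd ι κ _ _ _ _ L := by
    obtain ⟨c, c0, hc⟩ := mat.nv ι L
    refine ⟨√c⁻¹, fun G ξ h h1 h2 e i a => (norm_le_pi_norm (fun i => ξ i a) i).trans
      (Real.le_sqrt_of_sq_le ?_)⟩
    have := (hc G h h1 h2 (star fun i => ξ i a)).1
    rw [Mat.nv_eq, norm_star, show (star fun i => ξ i a) ⬝ᵥ G *ᵥ (fun i => ξ i a) =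
      (ξᴴ * G * ξ) a a by rw [Matrix.mul_assoc]; rfl, e, one_apply_eq, one_re] at this
    rwa [← one_div, le_div_iff₀' c0]
  qf_psd _ _ _ a h := qf_psd h a
  qf_sub _ _ _ _ a h := qf_sub a h
  qf_cs _ _ P a b t h := by
    rw [qf_sq h.1, qf_l, qf_sym h.1 b a]
    linarith [qf_psd h a]
  qf_add _ _ P a b h := by
    have e1 := qf_sq h.1 a b 1
    have e2 := qf_psd h (a + ((2 : ℝ) : ℂ) • b)
    rw [ofReal_one, one_smul] at e1
    rw [qf_sq h.1] at e2
    linarith
  qf_bas ι κ _ _ _ _ L := by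
    obtain ⟨c, c0, hc⟩ := mat.nv ι L
    have n : (0 : ℝ) ≤ Fintype.card ι := Nat.cast_nonneg _
    refine ⟨c / (Fintype.card ι + 1), by positivity, fun G B v b h h1 h2 h0 => ?_⟩
    obtain ⟨p1, p2, p3⟩ := pj_psd h h0
    have k := fun a => hc G⁻¹ h.inv h2 (inv_bd h h1) (star a)
    simp only [← qf_nv, norm_star] at k
    rw [div_mul_eq_mul_div, div_mul_eq_mul_div, div_le_iff₀ (by positivity),
      div_le_iff₀ (by positivity), qf_eq _ (B *ᵥ v), mulVec_mulVec, p3, ← mulVec_mulVec, ← qf_eq]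
    have := sum_le (B *ᵥ v)
    have := le_sum b
    have := qf_sub b p2
    have := qf_psd h.inv.posSemidef (B *ᵥ v)
    have := sq_nonneg ‖b‖
    exact ⟨by nlinarith [(k (B *ᵥ v)).1], by nlinarith [(k b).2]⟩

open Alg in
theorem adjS : AdjS := by
  intro ι _ _ L L'
  obtain ⟨c, c0, hc⟩ := mat.nv ι L
  have n : (0 : ℝ) ≤ Fintype.card ι := Nat.cast_nonneg _
  let b : ℝ := (Fintype.card ι).factorial • (|L| + 1) ^ Fintype.card ι
  let l : ℝ := |L'| + 1
  have b0 : 0 < b := by simp only [b, nsmul_eq_mul]; positivity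
  have l0 : 0 < l := by positivity
  refine ⟨l / l ^ Fintype.card ι / b * (c / (Fintype.card ι + 1)), by positivity,
    fun G₀ G a h0 h h1 h2 ht => ?_⟩
  have k1 := (hc G₀⁻¹ h0.inv h2 (inv_bd h0 h1) (star a)).1
  rw [← qf_nv, norm_star] at k1
  have k2 : 1 ≤ b * G₀.det.re := by
    have : ‖G₀⁻¹.det‖ ≤ b := det_le (abv := NormedField.toAbsoluteValue ℂ) fun i j =>
      (h2 i j).trans ((le_abs_self L).trans (le_add_of_nonneg_right zero_le_one))
    rwa [det_nonsing_inv, Ring.inverse_eq_inv', norm_inv, Mat.norm_det h0,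
      inv_le_iff_one_le_mul₀ (Green.det_pos h0)] at this
  have k3 : l / l ^ Fintype.card ι * (G₀.det.re * (qf G₀⁻¹ a a).re) ≤ G.det.re * (qf G⁻¹ a a).re := by
    obtain ⟨T, d, hT, hd, rfl, e⟩ := Mat.sim h h0.posSemidef
    have hT' : IsUnit Tᴴ.det := by rw [det_conjTranspose]; exact hT.star
    rw [e, Mat.trm_diag hT] at ht
    have dl : ∀ i, d i ≤ l := fun i => (Finset.single_le_sum (fun i _ => hd i)
      (Finset.mem_univ i)).trans (ht.trans ((le_abs_self _).trans (lt_add_one _).le))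
    have e0 : G₀.det = (∏ i, d i : ℝ) * (Tᴴ * T).det := by
      rw [e, det_mul, det_mul, det_mul, det_diagonal, ofReal_prod]
      ring
    have d0 : ∀ i, d i ≠ 0 := fun i q => h0.det_pos.ne' (by
      rw [e0, Finset.prod_eq_zero (Finset.mem_univ i) q, ofReal_zero, zero_mul])
    have q : ∀ A : Mat ι, qf (Tᴴ * A * T)⁻¹ a a = qf A⁻¹ (Tᴴ⁻¹ *ᵥ a) (Tᴴ⁻¹ *ᵥ a) := fun A => by
      rw [qf_eq, qf_eq, Matrix.mul_inv_rev, Matrix.mul_inv_rev, star_mulVec, ← dotProduct_mulVec,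
        conjTranspose_nonsing_inv, conjTranspose_conjTranspose, mulVec_mulVec, mulVec_mulVec,
        Matrix.mul_assoc]
    have q1 := q 1
    have i1 : (diagonal fun i => (d i : ℂ))⁻¹ = diagonal fun i => (((d i)⁻¹ : ℝ) : ℂ) :=
      inv_eq_left_inv (by
        rw [diagonal_mul_diagonal, ← diagonal_one]
        exact congrArg _ (funext fun i => by
          rw [← ofReal_mul, inv_mul_cancel₀ (d0 i), ofReal_one]))
    have q2 : ∀ (t : ι → ℝ) (v : V ι), (qf (diagonal fun i => (t i : ℂ)) v v).re =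
        ∑ i, t i * ‖v i‖ ^ 2 := fun t v => by
      rw [qf_eq, dotProduct, re_sum]
      refine Finset.sum_congr rfl fun i _ => ?_
      rw [mulVec_diagonal, Pi.star_apply, mul_left_comm, mul_comm (star _), ← Green.nsq,
        ← ofReal_mul, ofReal_re]
    rw [Matrix.mul_one, inv_one, ← diagonal_one] at q1
    rw [e0, re_ofReal_mul, q1, e, q, i1, q2, show (fun _ : ι => (1 : ℂ)) = fun _ => ((1 : ℝ) : ℂ)
      from rfl, q2, mul_comm (∏ i, d i), mul_assoc, mul_left_comm, Finset.mul_sum, Finset.mul_sum]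
    refine mul_le_mul_of_nonneg_left (Finset.sum_le_sum fun i _ => ?_) (Green.det_pos h).le
    rw [← mul_assoc, ← mul_assoc]
    refine mul_le_mul_of_nonneg_right ?_ (sq_nonneg _)
    have p := Finset.prod_le_pow_card (Finset.univ.erase i) (fun i => (d i).toNNReal) l.toNNReal
      fun j _ => Real.toNNReal_le_toNNReal (dl j)
    have p' : ∏ j ∈ Finset.univ.erase i, d j ≤ l ^ (Finset.univ.erase i).card := by
      simpa [NNReal.coe_prod, hd, l0.le] using NNReal.coe_le_coe.2 p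
    rw [← Finset.prod_erase_mul _ _ (Finset.mem_univ i), mul_assoc, mul_inv_cancel_right₀ (d0 i),
      ← Finset.card_univ, ← Finset.card_erase_add_one (Finset.mem_univ i), pow_succ,
      div_mul_cancel_right₀ l0.ne', inv_mul_le_iff₀ (by positivity), mul_one]
    exact p'
  refine le_trans ?_ k3
  have k4 : c / (Fintype.card ι + 1) * ∑ i, ‖a i‖ ^ 2 ≤ (qf G₀⁻¹ a a).re := by
    rw [div_mul_eq_mul_div, div_le_iff₀ (by positivity)]
    nlinarith [sum_le a, qf_psd h0.inv.posSemidef a]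
  rw [mul_assoc, div_mul_eq_mul_div _ b, mul_div_assoc]
  refine mul_le_mul_of_nonneg_left ?_ (by positivity)
  rw [div_le_iff₀ b0]
  nlinarith [qf_psd h0.inv.posSemidef a]

end Pool.Agent.Lib.MP_d44e50_ag
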