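import Pool.Agent.Lib.MP_d44e50_ag.St2

/-! The local inequality, the upper bound and properness. -/

namespace Pool.Agent.Lib.MP_d44e50_ag

open Pool.Agent.Lib.MP_813db1_ag.HS MeasureTheory Complex Matrix Filter Topology Set
open scoped ContDiff ComplexOrder

set_option linter.unusedSectionVars false

namespace G12

variable {ι κ X Y : Type} [Fintype ι] [DecidableEq ι] [Fintype κ] [DecidableEq κ]
  [TopologicalSpace X] [ChartedSpace (ι → ℂ) X] [TopologicalSpace Y] [ChartedSpace (κ → ℂ) Y]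
  {N : ℕ} {D : Dat ι κ X Y N} {m a : ℕ} {s : Ch κ Y → V κ → ℂ}

theorem notI {x : X} (hx : x ∈ D.Wr) : x ∉ D.I := fun h =>
  hx (by rw [show D.σ (D.M.ch x) (D.M.ch x x) = 0 from h]; rfl)

theorem kon (y : X) : KOn (D.M.repF D.g (D.M.ch y)) (D.M.ch y).target := D.isK _ (D.M.ch_mem y)

theorem pd (x : X) : (D.g x).PosDef := by
  rw [← RepA.repF_self D.M D.g x]
  exact (kon x).2 _ ((D.M.ch x).map_source (D.M.mem x))

theorem cdm {n : WithTop ℕ∞} (hn : n ≤ ∞) {y x : X} (hx : x ∈ (D.M.ch y).source) :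
    CdM n (D.M.repF D.g (D.M.ch y)) (D.M.ch y x) ∧
      (D.M.repF D.g (D.M.ch y) (D.M.ch y x)).det ≠ 0 :=
  ⟨fun i j => ((kon y).1.1 _ ((D.M.ch y).map_source hx) i j).of_le hn,
    ((kon y).2 _ ((D.M.ch y).map_source hx)).det_pos.ne'⟩

theorem loc (hb : D.Bas) (hs : IsSec D.ρ m a s) {y x : X} (hy : x ∈ (D.M.ch y).source)
    (hx : x ∈ D.Wr) : AnalyticAt ℂ (D.Φ (D.M.ch y) (D.cf x)) (D.M.ch y x) ∧
    AnalyticAt ℂ (fun v => s (D.cf x) v / D.ρ (D.cf x) v D.j ^ a)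
      (D.Φ (D.M.ch y) (D.cf x) (D.M.ch y x)) ∧
    ∀ᶠ w in 𝓝 (D.M.ch y x), D.P (D.M.ch y) w =
      pj (D.M.repF D.g (D.M.ch y) w) (jr (D.Φ (D.M.ch y) (D.cf x)) w) ∧
      D.tau m a s ((D.M.ch y).symm w) = ‖s (D.cf x) (D.Φ (D.M.ch y) (D.cf x) w) /
        D.ρ (D.cf x) (D.Φ (D.M.ch y) (D.cf x) w) D.j ^ a‖ ^ 2 *
        (gm (D.M.repF D.g (D.M.ch y) w) (jr (D.Φ (D.M.ch y) (D.cf x)) w)).det.re ^ m := by
  obtain ⟨hf, hφ⟩ := hb.cfA x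
  obtain ⟨h1, h2, h3⟩ := hb.an y _ hf x hy (notI hx) hφ
  refine ⟨h1, ?_, ?_⟩
  · rw [hb.val y _ x hy]
    have ht := (D.cf x).map_source hφ
    exact (hb.sec_an m a s hs _ hf _ ht).div
      ((analyticAt_pi_iff.1 (D.hρ.1 _ hf _ ht) D.j).pow a) (pow_ne_zero _ (h2.1 hx))
  · filter_upwards [h3, ev_mem hb.opW hx hy] with w hw hw'
    have e := (D.M.ch y).right_inv hw.1
    have q := (D.M.ch y).map_target hw.1
    have p1 := hb.P_eq y _ hf _ q hw.2.1 hw.2.2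
    have p2 := hb.tau_eq m a s hs y _ hf _ q hw'.2 hw.2.2
    rw [e] at p1 p2
    exact ⟨p1, p2⟩

theorem tau_cont (hb : D.Bas) (hs : IsSec D.ρ m a s) : ContinuousOn (D.tau m a s) D.Wr := by
  intro x hx
  obtain ⟨h1, h2, h3⟩ := loc hb hs (D.M.mem x) hx
  obtain ⟨c1, c2⟩ := cdm (D := D) (n := 0) zero_le (D.M.mem x)
  have c3 := (((h2.continuousAt.comp h1.continuousAt).norm.pow 2).mul
    ((continuous_re.continuousAt.comp (cd_det_gm c1 c2 h1).continuousAt).pow m)).congr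
    (h3.mono fun w hw => hw.2.symm)
  refine ((c3.comp ((D.M.ch x).continuousAt (D.M.mem x))).congr ?_).continuousWithinAt
  filter_upwards [(D.M.ch x).open_source.mem_nhds (D.M.mem x)] with y hy
  simp only [Function.comp, (D.M.ch x).left_inv hy]

theorem ne_of {u : ℝ} {d : ℂ} (hm : 1 ≤ m) (h : u * d.re ^ m ≠ 0) : u ≠ 0 ∧ d ≠ 0 := by
  refine ⟨left_ne_zero_of_mul h, fun q => right_ne_zero_of_mul h ?_⟩
  rw [q, zero_re, zero_pow (by omega)]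

theorem main (hl : LocS) (hb : D.Bas) (hs : IsSec D.ρ m a s) (hm : 1 ≤ m) {y x : X}
    (hy : x ∈ (D.M.ch y).source) (hx : x ∈ D.W m a s) :
    (∀ i j, ContDiffAt ℝ ∞ (fun w => D.P (D.M.ch y) w i j) (D.M.ch y x)) ∧
    ContDiffAt ℝ ∞ (fun w => D.F m a s ((D.M.ch y).symm w)) (D.M.ch y x) ∧
    (D.M.repF D.g (D.M.ch y) (D.M.ch y x)).det.re *
      (m * rq (D.M.repF D.g (D.M.ch y)) (D.M.ch y x) (D.P (D.M.ch y) (D.M.ch y x))) ≤
      (dvP (D.M.repF D.g (D.M.ch y)) (D.P (D.M.ch y)) (fn (D.F m a s) (D.M.ch y))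
        (D.M.ch y x)).re := by
  obtain ⟨h1, h2, h3⟩ := loc hb hs hy hx.1
  have h4 := h3.self_of_nhds.2
  rw [(D.M.ch y).left_inv hy] at h4
  obtain ⟨n1, n2⟩ := ne_of hm (h4 ▸ hx.2)
  exact hl ι κ _ _ _ _ _ _ m (fun w => D.F m a s ((D.M.ch y).symm w)) (D.M.ch y).open_target
    (kon y) ((D.M.ch y).map_source hy) h1 n2 h2 (fun q => n1 (by rw [q, norm_zero]; norm_num))
    (h3.mono fun w hw => ⟨hw.1, congrArg Real.log hw.2⟩)

theorem P_self (hb : D.Bas) {x : X} (hx : x ∈ D.Wr) : D.P (D.M.ch x) (D.M.ch x x) =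
    pj (D.g x) (jr (D.Φ (D.M.ch x) (D.cf x)) (D.M.ch x x)) := by
  rw [hb.P_eq x _ (hb.cfA x).1 x (D.M.mem x) (notI hx) (hb.cfA x).2, RepA.repF_self]

theorem det_bd {A : Matrix κ κ ℂ} {x : ℝ} (h : ∀ i j, ‖A i j‖ ≤ x) :
    ‖A.det‖ ≤ (Fintype.card κ).factorial • x ^ Fintype.card κ :=
  det_le (abv := IsAbsoluteValue.toAbsoluteValue (norm : ℂ → ℝ)) h

/-- the section in a chart of the source. -/
theorem sec (hb : D.Bas) (hs : IsSec D.ρ m a s) (y : X) : ∃ h : Matrix ι κ ℂ → V ι → ℂ,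
    ∀ ξ, ∀ x ∈ (D.M.ch y).source, x ∉ D.I → ∀ f ∈ atlas (κ → ℂ) Y, D.φ x ∈ f.source → ∀ l : ℂ,
      D.σ (D.M.ch y) (D.M.ch y x) = l • D.ρ f (f (D.φ x)) → h ξ (D.M.ch y x) =
        s f (f (D.φ x)) * l ^ a * (ξᴴ * jr (D.Φ (D.M.ch y) f) (D.M.ch y x)).det ^ m := by
  have ex : ∀ x, x ∈ (D.M.ch y).source → x ∉ D.I → ∃ l : ℂ,
      D.σ (D.M.ch y) (D.M.ch y x) = l • D.ρ (D.cf x) (D.cf x (D.φ x)) := fun x hx hI =>
    ((D.mero.hol _ (D.chA y) x hx (mt (hb.memI y x hx).2 hI)).2 _ (hb.cfA x).1 (hb.cfA x).2).2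
  choose! l0 hl0 using ex
  refine ⟨fun ξ w => s (D.cf ((D.M.ch y).symm w)) (D.cf ((D.M.ch y).symm w)
    (D.φ ((D.M.ch y).symm w))) * l0 ((D.M.ch y).symm w) ^ a *
    (ξᴴ * jr (D.Φ (D.M.ch y) (D.cf ((D.M.ch y).symm w))) w).det ^ m, ?_⟩
  intro ξ x hx hI f hf hφ l hl
  simp only [(D.M.ch y).left_inv hx]
  obtain ⟨hf0, hφ0⟩ := hb.cfA x
  obtain ⟨c, -, -, hc⟩ := D.hρ.2 _ hf0 f hf _ hφ0 hφ
  have hc := hc.self_of_nhds
  rw [(D.cf x).left_inv hφ0] at hc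
  have e1 : l = l0 x * c (D.cf x (D.φ x)) := by
    have q := hl0 x hx hI
    rw [hl, hc, smul_smul] at q
    exact smul_left_injective ℂ (D.ρ0 f hf _ (f.map_source hφ)) q
  rw [hs.2 _ hf0 f hf _ hφ0 hφ _ hc, (hb.jrY y _ hf0 f hf x hx hI hφ0 hφ).2, ← Matrix.mul_assoc,
    det_mul, det_transpose, e1]
  ring

theorem sec_loc (hb : D.Bas) (hs : IsSec D.ρ m a s) {y : X} {h : Matrix ι κ ℂ → V ι → ℂ}
    (hh : ∀ ξ, ∀ x ∈ (D.M.ch y).source, x ∉ D.I → ∀ f ∈ atlas (κ → ℂ) Y, D.φ x ∈ f.source →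
      ∀ l : ℂ, D.σ (D.M.ch y) (D.M.ch y x) = l • D.ρ f (f (D.φ x)) → h ξ (D.M.ch y x) =
        s f (f (D.φ x)) * l ^ a * (ξᴴ * jr (D.Φ (D.M.ch y) f) (D.M.ch y x)).det ^ m)
    {z : V ι} (hz : z ∈ (D.M.ch y).target) (hI : (D.M.ch y).symm z ∉ D.I) :
    ∃ (u : V ι → ℂ) (J : V ι → Matrix ι κ ℂ), AnalyticAt ℂ u z ∧
      (∀ i α, AnalyticAt ℂ (fun w => J w i α) z) ∧
      ∀ᶠ w in 𝓝 z, ∀ ξ, h ξ w = u w * (ξᴴ * J w).det ^ m := by
  obtain ⟨x, hx, rfl⟩ : ∃ x ∈ (D.M.ch y).source, D.M.ch y x = z :=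
    ⟨_, (D.M.ch y).map_target hz, (D.M.ch y).right_inv hz⟩
  rw [(D.M.ch y).left_inv hx] at hI
  obtain ⟨hf, hφ⟩ := hb.cfA x
  obtain ⟨h1, -, h3⟩ := hb.an y _ hf x hx hI hφ
  have ht := (D.cf x).map_source hφ
  obtain ⟨i, hi⟩ := Function.ne_iff.1 (D.ρ0 _ hf _ ht)
  have hv := hb.val y (D.cf x) x hx
  have a1 : AnalyticAt ℂ (fun w => D.ρ (D.cf x) (D.Φ (D.M.ch y) (D.cf x) w) i) (D.M.ch y x) :=
    (analyticAt_pi_iff.1 (D.hρ.1 _ hf _ ht) i).fun_comp_of_eq h1 hv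
  have n1 : D.ρ (D.cf x) (D.Φ (D.M.ch y) (D.cf x) (D.M.ch y x)) i ≠ 0 := hv ▸ hi
  refine ⟨fun w => s (D.cf x) (D.Φ (D.M.ch y) (D.cf x) w) *
    (D.σ (D.M.ch y) w i / D.ρ (D.cf x) (D.Φ (D.M.ch y) (D.cf x) w) i) ^ a,
    jr (D.Φ (D.M.ch y) (D.cf x)), ((hb.sec_an m a s hs _ hf _ ht).fun_comp_of_eq h1 hv).mul
      (((analyticAt_pi_iff.1 (D.hσ.1 _ (D.chA y) _ hz) i).div a1 n1).pow a), jr_an h1, ?_⟩
  filter_upwards [h3, a1.continuousAt.eventually_ne n1] with w hw hn ξ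
  have e := (D.M.ch y).right_inv hw.1
  have q := (D.M.ch y).map_target hw.1
  obtain ⟨l, hl⟩ := ((D.mero.hol _ (D.chA y) _ q (mt (hb.memI y _ q).2 hw.2.1)).2 _ hf hw.2.2).2
  have p := hh ξ _ q hw.2.1 _ hf hw.2.2 l hl
  rw [e] at p hl
  have e2 : l = D.σ (D.M.ch y) w i / D.ρ (D.cf x) (D.Φ (D.M.ch y) (D.cf x) w) i := by
    rw [eq_div_iff hn, hl]
    rfl
  rw [p, ← e2]
  rfl

theorem bd_loc {h : Matrix ι κ ℂ → V ι → ℂ} {u : V ι → ℂ} {J : V ι → Matrix ι κ ℂ} {z : V ι}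
    (C : ℝ) (hu : AnalyticAt ℂ u z) (hJ : ∀ i α, AnalyticAt ℂ (fun w => J w i α) z)
    (he : ∀ᶠ w in 𝓝 z, ∀ ξ, h ξ w = u w * (ξᴴ * J w).det ^ m) :
    ∃ B, ∀ᶠ w in 𝓝 z, ∀ ξ, (∀ i α, ‖ξ i α‖ ≤ C) → ‖h ξ w‖ ≤ B := by
  have c : ContinuousAt (fun w => ∑ α, ∑ i, C * ‖J w i α‖) z :=
    tendsto_finsetSum _ fun α _ => tendsto_finsetSum _ fun i _ =>
      (hJ i α).continuousAt.norm.const_mul C
  refine ⟨(‖u z‖ + 1) * ((Fintype.card κ).factorial •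
    (∑ α, ∑ i, C * ‖J z i α‖ + 1) ^ Fintype.card κ) ^ m, ?_⟩
  filter_upwards [he, hu.continuousAt.norm.eventually_lt_const (lt_add_one _),
    c.eventually_lt_const (lt_add_one _)] with w h1 h2 h3 ξ hξ
  rw [h1, norm_mul, norm_pow]
  refine mul_le_mul h2.le (pow_le_pow_left₀ (norm_nonneg _) (det_bd fun β α => ?_) m)
    (by positivity) (by positivity)
  have t : ∀ i α, 0 ≤ C * ‖J w i α‖ := fun i α =>
    mul_nonneg ((norm_nonneg _).trans (hξ i β)) (norm_nonneg _)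
  refine le_trans ?_ ((Finset.single_le_sum (f := fun α => ∑ i, C * ‖J w i α‖)
    (fun α _ => Finset.sum_nonneg fun i _ => t i α) (Finset.mem_univ α)).trans h3.le)
  rw [Matrix.mul_apply]
  refine (norm_sum_le _ _).trans (Finset.sum_le_sum fun i _ => ?_)
  rw [norm_mul, conjTranspose_apply, norm_star]
  exact mul_le_mul_of_nonneg_right (hξ i β) (norm_nonneg _)

theorem up_loc (ha : AlgS) (ht : ThinS) (hb : D.Bas) (hs : IsSec D.ρ m a s) (hm : 1 ≤ m)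
    {r : X → ℝ} (hr : D.RL r) (y : X) :
    ∃ C, ∀ᶠ x in 𝓝 y, x ∈ D.W m a s → D.F m a s x + a * r x ≤ C := by
  obtain ⟨h, hh⟩ := sec hb hs y
  obtain ⟨β, hβ, hrl⟩ := hr y
  have hy := D.M.mem y
  set e := D.M.ch y with he
  set E := {z | z ∈ e.target ∧ e.symm z ∈ D.I} with hE
  have hU : ∀ z ∈ e.target \ E, z ∈ e.target ∧ e.symm z ∉ D.I := fun z hz =>
    ⟨hz.1, fun q => hz.2 ⟨hz.1, q⟩⟩
  have ho : IsOpen (e.target \ E) := by
    convert e.isOpen_inter_preimage_symm hb.clI.isOpen_compl using 1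
    exact Set.ext fun z => ⟨hU z, fun q => ⟨q.1, fun t => q.2 t.2⟩⟩
  obtain ⟨K, hK, hKU, hrem⟩ := ht.rem ι e.target E (e y) e.open_target ho (hb.thin y)
    (e.map_source hy)
  obtain ⟨c1, c2⟩ := cdm (D := D) (n := 0) zero_le hy
  obtain ⟨L, hL⟩ := loc_bd c1 c2
  obtain ⟨C, hC⟩ := ha.bd ι κ L
  obtain ⟨B, hB⟩ := unif_bd (p := fun B w => ∀ ξ : Matrix ι κ ℂ,
    (∀ i α, ‖ξ i α‖ ≤ C) → ‖h ξ w‖ ≤ B) hK
    (fun _ _ _ q t ξ hξ => (t ξ hξ).trans q) fun z hz => by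
      obtain ⟨u, J, h1, h2, h3⟩ := sec_loc hb hs hh (hU z (hKU hz)).1 (hU z (hKU hz)).2
      exact bd_loc C h1 h2 h3
  have hd : ∀ ξ, DifferentiableOn ℂ (h ξ) (e.target \ E) := fun ξ z hz => by
    obtain ⟨u, J, h1, h2, h3⟩ := sec_loc hb hs hh (hU z hz).1 (hU z hz).2
    refine (DifferentiableAt.congr_of_eventuallyEq ?_ (h3.mono fun w q => q ξ)).differentiableWithinAt
    refine (h1.mul (AnalyticAt.pow ?_ m)).differentiableAt
    simp only [det_apply', Matrix.mul_apply]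
    exact Finset.analyticAt_fun_sum _ fun _ _ => analyticAt_const.mul
      (Finset.analyticAt_fun_prod _ fun _ _ => Finset.analyticAt_fun_sum _ fun _ _ =>
        analyticAt_const.mul (h2 _ _))
  refine ⟨B ^ 2 + a * (β (e y) + 1), ?_⟩
  filter_upwards [(e.continuousAt hy).eventually (hrem.and (hL.and (hrl.and
    (hβ.continuousAt.eventually_lt_const (lt_add_one _))))), e.open_source.mem_nhds hy]
    with x ⟨h1, h2, h3, h4⟩ hx hW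
  have hI := notI hW.1
  have hj := (hb.memW y x hx).1 hW.1
  have h5 := h3 hj
  rw [e.left_inv hx] at h5
  obtain ⟨hf, hφ⟩ := hb.cfA x
  have t := hb.tau_eq m a s hs y _ hf x hx hW.1 hφ
  obtain ⟨-, n2⟩ := ne_of hm (t ▸ hW.2)
  have hp := (kon y).2 _ (e.map_source hx)
  obtain ⟨ξ, f1, -, f3⟩ := ha.frame ι κ _ _ hp n2
  obtain ⟨l, hl⟩ := ((D.mero.hol _ (D.chA y) x hx (mt (hb.memI y x hx).2 hI)).2 _ hf hφ).2
  have b := h1 (fun q => hI (e.left_inv hx ▸ q.2)) _ B (hd ξ)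
    fun w hw => hB w hw ξ (hC _ ξ hp h2.1 h2.2 f1)
  have n3 := ((hb.an y _ hf x hx hI hφ).2.1).1 hW.1
  have e1 : D.tau m a s x * (‖D.σ e (e x) D.j‖ ^ 2) ^ a = ‖h ξ (e x)‖ ^ 2 := by
    have n4 := norm_ne_zero_iff.2 n3
    rw [t, hh ξ x hx hI _ hf hφ l hl, hl, ← f3, Pi.smul_apply, smul_eq_mul]
    simp only [norm_mul, norm_div, norm_pow, he]
    field_simp
    ring
  have e2 : D.F m a s x + a * Real.log (‖D.σ e (e x) D.j‖ ^ 2) = Real.log (‖h ξ (e x)‖ ^ 2) := by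
    rw [← e1, Real.log_mul hW.2 (pow_ne_zero _ (pow_ne_zero _ (norm_ne_zero_iff.2 hj))),
      Real.log_pow _ a]
    rfl
  have e3 := (Real.log_le_self (sq_nonneg ‖h ξ (e x)‖)).trans
    (pow_le_pow_left₀ (norm_nonneg _) b 2)
  have e4 := mul_le_mul_of_nonneg_left h4.le (Nat.cast_nonneg (α := ℝ) a)
  rw [h5, mul_add]
  linarith

end G12

open G12

theorem g1 (ha : AlgS) (hl : LocS) : G1S := by
  intro ι κ X Y _ _ _ _ _ _ _ _ N D m a s c hb hs hm hc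
  have n : ∀ x ∈ D.W m a s, (gm (D.g x) (jr (D.Φ (D.M.ch x) (D.cf x)) (D.M.ch x x))).det ≠ 0 :=
    fun x hx => (ne_of hm hx.2).2
  refine ⟨(tau_cont hb hs).isOpen_inter_preimage hb.opW isOpen_ne, tau_cont hb hs,
    ⟨fun y x hx hy i j => ((main hl hb hs hm hy hx).1 i j).of_le (by exact_mod_cast le_top),
      fun y x hx hy => ?_⟩, fun x hx => ?_, fun y x hx hy => ?_, fun x hx => ?_⟩
  · rw [P_self hb hx.1, hb.P_eq y _ (hb.cfA x).1 x hy (notI hx.1) (hb.cfA x).2,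
      hb.jrX y _ (hb.cfA x).1 x hy (notI hx.1) (hb.cfA x).2, RepA.repF_apply D.M D.g hy]
    exact (ha.trX ι κ _ _ _ (RepA.tj_det D.M _ (D.M.ch_mem y) _ (D.M.ch_mem x) x hy (D.M.mem x))).2
  · rw [P_self hb hx.1]
    exact ⟨(ha.pj_psd ι κ _ _ (pd x) (n x hx)).1, (ha.pj_psd ι κ _ _ (pd x) (n x hx)).2.1⟩
  · exact ofRealCLM.contDiff.contDiffAt.comp _
      ((main hl hb hs hm hy hx).2.1.of_le (WithTop.coe_le_coe.2 (le_top (a := (2 : ℕ∞)))))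
  · have q := (main hl hb hs hm (D.M.mem x) hx).2.2
    rw [RepA.repF_self, P_self hb hx.1] at q
    exact (mul_le_mul_of_nonneg_left (mul_le_mul_of_nonneg_left (hc x _ (n x hx))
      (Nat.cast_nonneg m)) (pos_iff.1 (pd x).det_pos).1.le).trans q

theorem g2 (ha : AlgS) (ht : ThinS) : G2T := by
  intro ι κ X Y _ _ _ _ _ _ _ _ _ N D m a s g₀ r C hb hs hm hr hE hτ
  obtain ⟨C0, h0⟩ := unif_bd (p := fun C x => x ∈ D.W m a s → D.F m a s x + a * r x ≤ C)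
    isCompact_univ (fun _ _ _ q t hx => (t hx).trans q) fun y _ => up_loc ha ht hb hs hm hr y
  have h1 : ∀ x ∈ D.W m a s, D.F m a s x + (a + 1) * r x ≤ C0 + r x := fun x hx => by
    linarith [h0 x (mem_univ x) hx]
  refine ⟨⟨C0, h1⟩, fun t => ?_⟩
  have c : ContinuousOn (fun x => D.tau m a s x * Real.exp ((a + 1) * r x))
      {x | x ∈ D.Wr ∧ t - C0 ≤ r x} := fun x hx => ((hτ x hx.1).mono fun _ q => q.1).mul
    ((hE.ck.cont hx.1).const_mul _).rexp.continuousWithinAt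
  have p : ∀ x ∈ D.W m a s, D.tau m a s x * Real.exp ((a + 1) * r x) =
      Real.exp (D.F m a s x + (a + 1) * r x) := fun x hx => by
    have : 0 ≤ D.tau m a s x := mul_nonneg (sq_nonneg _)
      (pow_nonneg (nonneg_iff.1 (ha.gm_psd ι κ _ _ (pd x)).det_nonneg).1 _)
    rw [Real.exp_add, Dat.F, Real.exp_log (this.lt_of_ne' hx.2)]
  convert c.preimage_isClosed_of_isClosed (hE.cl _) (isClosed_Ici (a := Real.exp t)) using 1
  refine Set.ext fun x => ⟨fun q => ⟨⟨q.1.1, by linarith [h1 x q.1, q.2]⟩, ?_⟩, fun q => ?_⟩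
  · exact (Real.exp_le_exp.2 q.2).trans_eq (p x q.1).symm
  · have w : x ∈ D.W m a s := ⟨q.1.1, left_ne_zero_of_mul ((Real.exp_pos t).trans_le q.2).ne'⟩
    exact ⟨w, Real.exp_le_exp.1 (le_of_le_of_eq q.2 (p x w))⟩

end Pool.Agent.Lib.MP_d44e50_ag
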