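import Pool.Agent.Lib.MP_d44e50_ag.St2

/-! The lower bound for the energy. -/

namespace Pool.Agent.Lib.MP_d44e50_ag

open Pool.Agent.Lib.MP_813db1_ag.HS MeasureTheory Complex Matrix Filter Topology Set Metric
open Pool.Agent.Lib.MP_bbd4b9_ag.LC
open scoped ContDiff ComplexOrder

set_option linter.unusedSectionVars false

namespace G4

variable {ι κ : Type} [Fintype ι] [DecidableEq ι] [Fintype κ] [DecidableEq κ] {G : Mat ι}
  {B : Matrix ι κ ℂ}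

theorem qf_eq (Q : Mat ι) (a b : V ι) : qf Q a b = star b ⬝ᵥ Q *ᵥ a := by
  rw [qf, Finset.sum_comm]
  simp only [dotProduct, mulVec, Finset.mul_sum, Pi.star_apply]
  exact Finset.sum_congr rfl fun i _ => Finset.sum_congr rfl fun j _ => by ring

theorem inj (h : (gm G B).det ≠ 0) : Function.Injective B.mulVec := fun v w q =>
  mulVec_injective_iff_isUnit.2 ((isUnit_iff_isUnit_det _).2 h.isUnit) (by
    rw [gm, ← mulVec_mulVec, ← mulVec_mulVec w, q])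

theorem core (ha : AlgS) {v : V κ} (b : V ι) {c : ℝ} (pd : G.PosDef) (h0 : (gm G B).det ≠ 0)
    (hc : c * ∑ i, ‖(B *ᵥ v) i‖ ^ 2 ≤ G.det.re * (qf G⁻¹ (B *ᵥ v) (B *ᵥ v)).re) :
    0 ≤ G.det.re * (qf (pj G B) (B *ᵥ v + b) (B *ᵥ v + b)).re ∧
    c / 2 * ∑ i, ‖(B *ᵥ v) i‖ ^ 2 - G.det.re * (qf G⁻¹ b b).re ≤
      G.det.re * (qf (pj G B) (B *ᵥ v + b) (B *ᵥ v + b)).re := by
  obtain ⟨p1, p2, p3⟩ := ha.pj_psd ι κ G B pd h0
  have d := (Green.det_pos pd).le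
  have e1 := mul_le_mul_of_nonneg_left (ha.qf_add ι _ (B *ᵥ v) b p1) d
  have e2 := mul_le_mul_of_nonneg_left (ha.qf_sub ι _ _ b p2) d
  have e3 : qf (pj G B) (B *ᵥ v) (B *ᵥ v) = qf G⁻¹ (B *ᵥ v) (B *ᵥ v) := by
    rw [qf_eq, qf_eq, mulVec_mulVec, mulVec_mulVec, p3]
  rw [e3] at e1
  exact ⟨mul_nonneg d (ha.qf_psd ι _ _ p1), by linarith⟩

theorem dlog {Φ : V ι → V κ} {s : V κ → ℂ} {z : V ι} (h : AnalyticAt ℂ Φ z)
    (hs : AnalyticAt ℂ s (Φ z)) (h0 : s (Φ z) ≠ 0) : ∃ v, (fun i =>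
      dz (fun w => (Real.log (‖s (Φ w)‖ ^ 2) : ℂ)) i z) = jr Φ z *ᵥ v := by
  have a : AnalyticAt ℂ (fun w => s (Φ w)) z := hs.comp h
  refine ⟨((((‖s (Φ z)‖ ^ 2)⁻¹ : ℝ) : ℂ) * star (s (Φ z))) •
    fun α => fderiv ℂ s (Φ z) (Pi.single α 1), funext fun i => ?_⟩
  rw [dz_real_comp (Real.hasDerivAt_log (pow_ne_zero 2 (norm_ne_zero_iff.2 h0)))
    ((DvA.cd_nsq a 1).differentiableAt one_ne_zero), DvA.dz_nsq a,
    dz_comp_jr hs.differentiableAt h.differentiableAt, mulVec_smul, Pi.smul_apply, smul_eq_mul]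
  ring

/-- the estimate in a chart. -/
theorem chart (ha : AlgS) {G : V ι → Mat ι} {U : Set (V ι)} {Φ : V ι → V κ} {s : V κ → ℂ}
    {β : V ι → ℝ} {z0 : V ι} {R c : ℝ} (hK : KOn G U)
    (h : ∀ w ∈ closedBall z0 R, w ∈ U ∧ AnalyticAt ℂ Φ w ∧ AnalyticAt ℂ s (Φ w) ∧
      (gm (G w) (jr Φ w)).det ≠ 0 ∧ ContDiffAt ℝ 1 β w ∧
      ∀ a : V ι, c * ∑ i, ‖a i‖ ^ 2 ≤ (G w).det.re * (qf (G w)⁻¹ a a).re) :
    ∃ C : ℝ, ∀ T > 0, C ≤ T → ∀ w ∈ closedBall z0 R, s (Φ w) ≠ 0 → ∀ u : V ι → ℂ,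
      (u =ᶠ[𝓝 w] fun y => (Real.log (‖s (Φ y)‖ ^ 2) : ℂ) + β y) →
      c / 2 * (pp 1 (Real.log (‖s (Φ w)‖ ^ 2) / T + 1) / T *
        ∑ i, ‖dz (fun y => (Real.log (‖s (Φ y)‖ ^ 2) : ℂ)) i w‖ ^ 2) ≤
      (G w).det.re * (pp 1 ((Real.log (‖s (Φ w)‖ ^ 2) + β w) / T + 2) / T *
        (qf (pj (G w) (jr Φ w)) (fun i => dz u i w) fun i => dz u i w).re) + 2 * C / T := by
  have c1 : ContinuousOn (fun w => ‖s (Φ w)‖ ^ 2 + |β w| + |(G w).det.re * (qf (G w)⁻¹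
      (fun i => dz (fun y => (β y : ℂ)) i w) fun i => dz (fun y => (β y : ℂ)) i w).re|)
      (closedBall z0 R) := fun w hw => by
    obtain ⟨h1, h2, h3, -, h5, -⟩ := h w hw
    have h6 := contDiffAt_ofReal.2 h5
    exact ((((h3.comp h2).continuousAt.norm.pow 2).add h5.continuousAt.abs).add
      ((continuous_re.continuousAt.comp (hK.1.1.det h1).continuousAt).mul
      (continuous_re.continuousAt.comp (Green.cd_grL (CdM.of_le (hK.1.1.cd h1) zero_le)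
        (Green.det_ne (hK.2 w h1)) h6 h6).continuousAt)).abs).continuousWithinAt
  obtain ⟨C, hC⟩ := (isCompact_closedBall z0 R).bddAbove_image c1
  refine ⟨C, fun T hT hC' w hw h0 u hu => ?_⟩
  obtain ⟨h1, h2, h3, h4, h5, h6⟩ := h w hw
  obtain ⟨v, hv⟩ := dlog h2 h3 h0
  have e1 : (fun i => dz u i w) = jr Φ w *ᵥ v + fun i => dz (fun y => (β y : ℂ)) i w := by
    rw [← hv]
    funext i
    rw [dz_congr hu, dz_add ((contDiffAt_ofReal.2 (DvA.cd_log (s := fun y => s (Φ y))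
      (h3.comp h2) h0 1)).differentiableAt one_ne_zero)
      ((contDiffAt_ofReal.2 h5).differentiableAt one_ne_zero)]
    rfl
  obtain ⟨k1, k2⟩ := core ha (fun i => dz (fun y => (β y : ℂ)) i w) (hK.2 w h1) h4
    (h6 (jr Φ w *ᵥ v))
  have b := hC (mem_image_of_mem _ hw)
  rw [← e1, ← hv] at k2
  rw [← e1] at k1
  simp only at b k2
  generalize (G w).det.re * (qf (G w)⁻¹ _ _).re = q at b k2
  have l := Real.log_le_self (sq_nonneg ‖s (Φ w)‖)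
  have n := sq_nonneg ‖s (Φ w)‖
  generalize ‖s (Φ w)‖ ^ 2 = t at b l n ⊢
  have p1 : pp 1 (Real.log t / T + 1) / T ≤ pp 1 ((Real.log t + β w) / T + 2) / T := by
    refine div_le_div_of_nonneg_right (pp_mono 1 ?_) hT.le
    have : -1 ≤ β w / T := (le_div_iff₀ hT).2 (by linarith [neg_abs_le (β w), abs_nonneg q])
    rw [add_div]
    linarith
  have p2 : pp 1 (Real.log t / T + 1) / T ≤ 2 / T := by
    refine div_le_div_of_nonneg_right ((pp_mono 1 (b := 2) ?_).trans_eq (by norm_num [pp])) hT.le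
    linarith [(div_le_one hT).2
      (show Real.log t ≤ T by linarith [abs_nonneg (β w), abs_nonneg q])]
  have p3 := div_nonneg (pp_nonneg 1 (Real.log t / T + 1)) hT.le
  have p4 : q ≤ C := by linarith [abs_nonneg (β w), le_abs_self q]
  have p5 : 0 ≤ C := by linarith [abs_nonneg (β w), abs_nonneg q]
  rw [mul_left_comm, mul_left_comm (G w).det.re, mul_div_right_comm]
  nlinarith [mul_le_mul_of_nonneg_left k2 p3, mul_le_mul_of_nonneg_right p1 k1,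
    mul_le_mul_of_nonneg_left p4 p3, mul_le_mul_of_nonneg_right p2 p5]

end G4

open G4

theorem g4 (ha : AlgS) (hadj : AdjS) (hgp : GpS) (hl : LelS) : G4T := by
  intro ι κ X Y _ _ _ _ _ _ _ _ _ _ _ _ N D r O L hB hr hO
  have hA := kA ι X D.M
  have he := D.M.ch_mem D.x0
  have m0 := D.M.mem D.x0
  have hz := (D.M.ch D.x0).map_source m0
  have K0 := D.isK _ he
  have nI : ∀ x ∈ D.Wr, x ∉ D.I := fun x hx q => hx (congrFun q D.j)
  obtain ⟨f1, f2⟩ := hB.cfA D.x0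
  obtain ⟨a1, -, a3⟩ := hB.an D.x0 _ f1 D.x0 m0 (nI _ D.j0) f2
  obtain ⟨L0, hL⟩ := loc_bd (CdM.of_le (K0.1.1.cd hz) zero_le) (Green.det_ne (K0.2 _ hz))
  obtain ⟨R, R0, hR⟩ := nhds_basis_closedBall.eventually_iff.1 ((a3.and hL).and
    (((ev_mem hB.opW D.j0 m0).and (((D.M.ch D.x0).tendsto_symm m0).eventually hO)).and
      ((cd_det_gm (K0.1.1.cd hz) (Green.det_ne (K0.2 _ hz)) a1).continuousAt.eventually_ne
        ((hA.repF_self D.g D.x0).symm ▸ hB.rk0))))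
  obtain ⟨c1, c10, h1⟩ := hl ι (D.M.ch D.x0 D.x0) R R0
  obtain ⟨c2, c20, h2⟩ := hadj ι L0 L
  refine ⟨c2 / 2 * c1, by positivity, ?_⟩
  rintro g hg μ _ rfl hE hμ hO' m a n s hs hm hW hP hF s1 s2 ε hε
  have hK := hg _ he
  let β : V ι → ℝ := fun w =>
    Real.log (‖(D.ρ (D.cf D.x0) (D.Φ (D.M.ch D.x0) (D.cf D.x0) w) D.j ^ a)⁻¹‖ ^ 2) +
      m * Real.log (gm (D.M.repF g (D.M.ch D.x0) w)
        (jr (D.Φ (D.M.ch D.x0) (D.cf D.x0)) w)).det.re + (a + 1) * r ((D.M.ch D.x0).symm w)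
  have k : ∀ w ∈ closedBall (D.M.ch D.x0 D.x0) R, (w ∈ (D.M.ch D.x0).target ∧
      AnalyticAt ℂ (D.Φ (D.M.ch D.x0) (D.cf D.x0)) w ∧
      AnalyticAt ℂ (s (D.cf D.x0)) (D.Φ (D.M.ch D.x0) (D.cf D.x0) w) ∧
      (gm (D.M.repF g (D.M.ch D.x0) w) (jr (D.Φ (D.M.ch D.x0) (D.cf D.x0)) w)).det ≠ 0 ∧
      ContDiffAt ℝ 1 β w ∧ ∀ b : V ι, c2 * ∑ i, ‖b i‖ ^ 2 ≤ (D.M.repF g (D.M.ch D.x0) w).det.re *
        (qf (D.M.repF g (D.M.ch D.x0) w)⁻¹ b b).re) ∧ (D.setG g hg).P (D.M.ch D.x0) w =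
      pj (D.M.repF g (D.M.ch D.x0) w) (jr (D.Φ (D.M.ch D.x0) (D.cf D.x0)) w) ∧ (D.S s w ≠ 0 →
      (D.M.ch D.x0).symm w ∈ (D.setG g hg).W m a s ∧ (D.setG g hg).F m a s ((D.M.ch D.x0).symm w) +
        (a + 1) * r ((D.M.ch D.x0).symm w) = Real.log (‖D.S s w‖ ^ 2) + β w) := fun w hw => by
    obtain ⟨⟨⟨w1, w2, w3⟩, w4⟩, ⟨⟨-, w5⟩, w6⟩, w7⟩ := hR hw
    have w8 := (D.M.ch D.x0).map_target w1
    have ri := (D.M.ch D.x0).right_inv w1
    obtain ⟨b1, b2, -⟩ := hB.an D.x0 _ f1 _ w8 w2 w3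
    have t : D.Φ (D.M.ch D.x0) (D.cf D.x0) w ∈ _ := (D.cf D.x0).map_source w3
    have b3 := hr D.x0 _ w5 w8
    have b4 := (hA.trm_rep g D.g _ he _ w8).trans_le (hO' _ w6)
    have b5 := hE.P_eq D.x0 _ f1 _ w8 w2 w3
    have b6 := hE.tau_eq m a s hs D.x0 _ f1 _ w8 w5 w3
    change (D.setG g hg).P (D.M.ch D.x0) (D.M.ch D.x0 _) = pj (D.M.repF g (D.M.ch D.x0)
      (D.M.ch D.x0 _)) (jr (D.Φ (D.M.ch D.x0) (D.cf D.x0)) (D.M.ch D.x0 _)) at b5
    change _ = ‖D.S s w / D.ρ (D.cf D.x0) (D.Φ (D.M.ch D.x0) (D.cf D.x0) w) D.j ^ a‖ ^ 2 *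
      (gm (D.M.repF g (D.M.ch D.x0) (D.M.ch D.x0 _))
        (jr (D.Φ (D.M.ch D.x0) (D.cf D.x0)) (D.M.ch D.x0 _))).det.re ^ m at b6
    rw [ri] at b1 b3 b4 b5 b6
    have pd := hK.2 w w1
    have d0 := ha.gm_inj ι κ _ _ pd (inj w7)
    have d1 := (Green.det_pos (ha.gm_pd ι κ _ _ pd d0)).ne'
    have r0 : D.ρ (D.cf D.x0) (D.Φ (D.M.ch D.x0) (D.cf D.x0) w) D.j ^ a ≠ 0 :=
      pow_ne_zero a (b2.1 w5)
    have r1 := pow_ne_zero 2 (norm_ne_zero_iff.2 (inv_ne_zero r0))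
    refine ⟨⟨w1, b1, hB.sec_an m a s hs _ f1 _ t, d0, ((DvA.cd_log ((((analyticAt_pi_iff.1
      (D.hρ.1 _ f1 _ t) D.j).comp b1).pow a).inv r0) (inv_ne_zero r0) 1).add
      (contDiffAt_const.mul ((reCLM.contDiff.contDiffAt.comp w (cd_det_gm (CdM.of_le (hK.1.1.cd w1)
        (by norm_cast)) (Green.det_ne pd) b1)).log d1))).add (contDiffAt_const.mul
          (contDiffAt_ofReal.1 (b3.of_le one_le_two))),
      fun b => h2 _ _ b (K0.2 w w1) pd w4.1 w4.2 b4⟩, b5, fun q => ?_⟩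
    have q1 := pow_ne_zero 2 (norm_ne_zero_iff.2 q)
    rw [div_eq_mul_inv, norm_mul, mul_pow] at b6
    refine ⟨⟨w5, b6 ▸ mul_ne_zero (mul_ne_zero q1 r1) (pow_ne_zero m d1)⟩, ?_⟩
    rw [Dat.F, b6, Real.log_mul (mul_ne_zero q1 r1) (pow_ne_zero m d1), Real.log_mul q1 r1,
      Real.log_pow _ m]
    ring
  obtain ⟨C, hC⟩ := chart ha hK fun w hw => (k w hw).1
  have an : AnalyticOnNhd ℂ (D.S s) (ball (D.M.ch D.x0 D.x0) R) := fun w hw =>
    (k w (ball_subset_closedBall hw)).1.2.2.1.comp (k w (ball_subset_closedBall hw)).1.2.1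
  have oA : IsOpen (ball (D.M.ch D.x0 D.x0) R ∩ {z | D.S s z ≠ 0}) :=
    an.continuousOn.isOpen_inter_preimage isOpen_ball isOpen_compl_singleton
  have u1 : CkOn D.M 1 ((D.setG g hg).W m a s) fun x => (D.setG g hg).F m a s x + (a + 1) * r x :=
    (hF.mono one_le_two subset_rfl).lin (hr.mono one_le_two fun _ q => q.1) _
  have lim : Tendsto (fun T : ℝ => 2 * C / T * (volume (ball (D.M.ch D.x0 D.x0) R)).toReal) atTop
      (𝓝 (0 * _)) := (tendsto_const_nhds.div_atTop tendsto_id).mul_const _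
  filter_upwards [h1 _ n an s1 s2 (ε / c2) (by positivity), eventually_gt_atTop 0,
    eventually_ge_atTop C,
    lim.eventually_lt_const ((zero_mul _).trans_lt (half_pos hε))] with T t1 t2 t3 t4
  have i1 := ((kV ι X D.M g hg).2 μ hμ).lint _ he _ oA.measurableSet
    (fun w hw => (k w (ball_subset_closedBall hw.1)).1.1) fun x => ENNReal.ofReal
      (pp 1 (((D.setG g hg).F m a s x + (a + 1) * r x) / T + 2) / T * gp D.M (D.setG g hg).P
        (fun x => (D.setG g hg).F m a s x + (a + 1) * r x)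
        (fun x => (D.setG g hg).F m a s x + (a + 1) * r x) x)
  refine le_trans ?_ (i1.symm.trans_le (lintegral_mono_set fun x hx => ?_))
  swap
  · exact (D.M.ch D.x0).left_inv hx.1 ▸ ((k _ (ball_subset_closedBall hx.2.1)).2.2 hx.2.2).1
  rw [show c2 / 2 * c1 * n - ε = c2 / 2 * (c1 * n - ε / c2) - ε / 2 by field_simp; ring,
    ENNReal.ofReal_sub _ (half_pos hε).le, tsub_le_iff_right,
    ENNReal.ofReal_mul (half_pos c20).le]
  refine (mul_le_mul_right t1 _).trans ?_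
  rw [← lintegral_const_mul' _ _ ENNReal.ofReal_ne_top]
  refine (setLIntegral_mono' oA.measurableSet fun w hw => ?_).trans
    ((lintegral_add_right _ (measurable_const (a := ENNReal.ofReal (2 * C / T)))).trans_le
      (add_le_add_right ?_ _))
  · obtain ⟨k1, k2, k3⟩ := k w (ball_subset_closedBall hw.1)
    obtain ⟨k4, k5⟩ := k3 hw.2
    have e := (hgp ι X D.M _ _ _ _ hW hP u1 u1).2 D.x0 _ k4 ((D.M.ch D.x0).map_target k1.1)
    rw [(D.M.ch D.x0).right_inv k1.1, k2] at e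
    rw [← ENNReal.ofReal_mul (half_pos c20).le,
      ← ENNReal.ofReal_mul (Green.det_pos (hK.2 w k1.1)).le, e, k5]
    refine (ENNReal.ofReal_le_ofReal (hC T t2 t3 w (ball_subset_closedBall hw.1) hw.2 _ ?_)).trans
      ENNReal.ofReal_add_le
    filter_upwards [oA.mem_nhds hw] with y hy
    rw [fn, ((k y (ball_subset_closedBall hy.1)).2.2 hy.2).2, ofReal_add]
    rfl
  · rw [setLIntegral_const]
    refine (mul_le_mul_right (measure_mono inter_subset_left) _).trans ?_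
    rw [← ENNReal.ofReal_toReal (measure_ball_lt_top (μ := volume)).ne, mul_comm,
      ← ENNReal.ofReal_mul ENNReal.toReal_nonneg, mul_comm]
    exact ENNReal.ofReal_le_ofReal t4.le

end Pool.Agent.Lib.MP_d44e50_ag
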