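import Pool.Agent.Lib.MP_d44e50_ag.Kit

/-! Integration by parts on an open set. -/

namespace Pool.Agent.Lib.MP_d44e50_ag

open Pool.Agent.Lib.MP_813db1_ag.HS MeasureTheory Complex Matrix Filter Topology Set
open scoped ContDiff ComplexOrder

set_option linter.unusedSectionVars false

namespace Ibp

variable {ι X : Type} [Fintype ι] [DecidableEq ι] [TopologicalSpace X] {M : Atl ι X} {W : Set X}
  {P : Ch ι X → V ι → Mat ι} {g : X → Mat ι} {F u : X → ℝ} {θ : ℝ → ℝ} {t : ℝ}

theorem qf_eq (Q : Mat ι) (a b : V ι) : qf Q a b = star b ⬝ᵥ Q *ᵥ a := by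
  rw [qf, Finset.sum_comm]
  simp only [dotProduct, mulVec, Finset.mul_sum, Pi.star_apply]
  exact Finset.sum_congr rfl fun i _ => Finset.sum_congr rfl fun j _ => by ring

theorem star_vm (J : Mat ι) (b : V ι) : star (b ᵥ* J) = star b ᵥ* J.map star := by
  funext j
  simp [vecMul, dotProduct]

theorem qf_tr (J Q : Mat ι) (a b : V ι) :
    qf (J.map star * Q * Jᵀ) a b = qf Q (a ᵥ* J) (b ᵥ* J) := by
  rw [qf_eq, qf_eq, star_vm, ← mulVec_mulVec, ← mulVec_mulVec, dotProduct_mulVec, mulVec_transpose]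

/-- the vector field. -/
noncomputable def A (M : Atl ι X) (g : X → Mat ι) (P : Ch ι X → V ι → Mat ι) (F : X → ℝ)
    (e : Ch ι X) (w : V ι) (i : ι) : ℂ :=
  (M.repF g e w).det * ∑ j, P e w j i * dzb (fn F e) j w

theorem cd_A (hg : M.IsK g) (hP : Ten M W P) (hF : CkOn M 2 W F) {x y : X} (hx : x ∈ W)
    (hy : x ∈ (M.ch y).source) (i : ι) :
    ContDiffAt ℝ 1 (fun w => A M g P F (M.ch y) w i) (M.ch y x) :=
  (((hg _ (M.ch_mem y)).1.1.det ((M.ch y).map_source hy)).of_le (by norm_cast)).mul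
    (ContDiffAt.sum fun j _ => (hP.sm y x hx hy j i).mul (contDiffAt_dzb (hF y x hx hy) le_rfl j))

theorem A_tr (hP : Ten M W P) (hF : CkOn M 2 W F) {x y : X} (hx : x ∈ W)
    (hy : x ∈ (M.ch y).source) : tj (M.ch y) (M.ch x) x *ᵥ A M g P F (M.ch y) (M.ch y x) =
      ((‖(tj (M.ch y) (M.ch x) x).det‖ ^ 2 : ℝ) : ℂ) •
        (g x).det • (P (M.ch x) (M.ch x x))ᵀ *ᵥ star (M.dfn F x) := by
  have ha := kA ι X M
  have e : A M g P F (M.ch y) (M.ch y x) = (M.repF g (M.ch y) (M.ch y x)).det •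
      (P (M.ch y) (M.ch y x))ᵀ *ᵥ star (M.dfn F x ᵥ* tj (M.ch y) (M.ch x) x) := by
    rw [← (kB ι X M).dfn_rep F _ (M.ch_mem y) x hy ((hF y x hx hy).differentiableAt two_ne_zero)]
    funext i
    exact congrArg _ (Finset.sum_congr rfl fun j _ =>
      congrArg _ (dzb_ofReal (fun z => F ((M.ch y).symm z)) j _))
  rw [e, Atl.repF, (M.ch y).left_inv hy, (mat.pull_pd ι _ (g x)
    (ha.tj_det _ (M.ch_mem y) _ (M.ch_mem x) x hy (M.mem x))).2.2.2.1, ← hP.tr y x hx hy, star_vm,
    ← mulVec_transpose, mulVec_smul, mul_smul, transpose_mul, transpose_mul, transpose_transpose,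
    mulVec_mulVec, mulVec_mulVec, Matrix.mul_assoc]

end Ibp

open Ibp

theorem gpS : GpS := by
  intro ι X _ _ _ M W P u v hW hP hu hv
  have e : ∀ y, ∀ x ∈ W, x ∈ (M.ch y).source → gp M P u v x = (qf (P (M.ch y) (M.ch y x))
      (fun i => dz (fn u (M.ch y)) i (M.ch y x)) fun i => dz (fn v (M.ch y)) i (M.ch y x)).re :=
    fun y x hx hy => by
      rw [(kB ι X M).dfn_rep u _ (M.ch_mem y) x hy ((hu y x hx hy).differentiableAt one_ne_zero),
        (kB ι X M).dfn_rep v _ (M.ch_mem y) x hy ((hv y x hx hy).differentiableAt one_ne_zero),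
        ← qf_tr, hP.tr y x hx hy, gp]
  refine ⟨fun x hx => ContinuousAt.continuousWithinAt ?_, e⟩
  have c : ContDiffAt ℝ 0 (fun w => qf (P (M.ch x) w) (fun i => dz (fn u (M.ch x)) i w)
      fun i => dz (fn v (M.ch x)) i w) (M.ch x x) :=
    ContDiffAt.sum fun i _ => ContDiffAt.sum fun j _ =>
      (((hP.sm x x hx (M.mem x) j i).of_le zero_le).mul
        (contDiffAt_dz (hu x x hx (M.mem x)) (by norm_num) i)).mul
        (Green.cd_star (contDiffAt_dz (hv x x hx (M.mem x)) (by norm_num) j))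
  refine (continuous_re.continuousAt.comp
    (c.continuousAt.comp ((M.ch x).continuousAt (M.mem x)))).congr ?_
  filter_upwards [(M.ch x).open_source.mem_nhds (M.mem x), hW.mem_nhds hx] with y h1 h2
    using (e x y h2 h1).symm

theorem ibp (hg : GpS) : IbpS := by
  intro ι X _ _ _ _ _ _ _ M g μ W P F u c θ t hK hμ hW hP hF hu hc hD hcl hθ h0 ht
  have ha := kA ι X M
  have := ((kV ι X M g hK).2 μ hμ).fin
  have hd : ∀ s, HasDerivAt θ (deriv θ s) s := fun s =>
    (hθ.differentiable one_ne_zero s).hasDerivAt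
  have cu : ContinuousOn u W := fun x hx => (hu.cont hx).continuousWithinAt
  have ig : ∀ f : X → ℝ, ContinuousOn f W → (∀ x, u x < t → f x = 0) → IntegrableOn f W μ :=
    fun f h1 h2 => ((h1.mono fun _ q => q.1).integrableOn_compact
      hcl.isCompact).of_forall_sdiff_eq_zero hW.measurableSet fun x hx =>
        h2 x (not_le.1 fun q => hx.2 ⟨hx.1, q⟩)
  have i1 : IntegrableOn (fun x => θ (u x) * c x) W μ :=
    ig _ ((hθ.continuous.comp_continuousOn cu).mul hc) fun x q => by rw [ht _ q.le, zero_mul]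
  have i2 : IntegrableOn (fun x => deriv θ (u x) * gp M P u F x) W μ :=
    ig _ (((hθ.continuous_deriv le_rfl).comp_continuousOn cu).mul
      (hg ι X M W P u F hW hP hu (hF.mono one_le_two subset_rfl)).1) fun x q => by
        rw [Filter.EventuallyEq.deriv_eq (f := fun _ => 0)
          ((eventually_lt_nhds q).mono fun s r => ht s r.le), deriv_const, zero_mul]
  refine ⟨i1, i2, ?_⟩
  let χ : X → ℝ := W.indicator fun x => θ (u x)
  let B : Ch ι X → V ι → V ι := fun e w => (χ (e.symm w) : ℂ) • A M g P F e w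
  have z0 : ∀ (e : Ch ι X), ∀ x ∈ e.source, x ∉ W → ∀ i,
      (fun w => B e w i) =ᶠ[𝓝 (e x)] fun _ => 0 := fun e x hx hn i => by
    filter_upwards [(e.tendsto_symm hx).eventually (hcl.isOpen_compl.mem_nhds fun q => hn q.1)]
      with w hw
    have : χ (e.symm w) = 0 := indicator_apply_eq_zero.2 fun q =>
      ht _ (not_le.1 fun r => hw ⟨q, r⟩).le
    simp only [B, this, ofReal_zero, zero_smul, Pi.zero_apply]
  have z1 : ∀ (e : Ch ι X), ∀ x ∈ e.source, x ∈ W → ∀ i, (fun w => B e w i) =ᶠ[𝓝 (e x)]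
      fun w => (θ (u (e.symm w)) : ℂ) * A M g P F e w i := fun e x hx hn i =>
    (ev_mem hW hn hx).mono fun w hw => by
      simp only [B, χ, indicator_of_mem hw.2, Pi.smul_apply, smul_eq_mul]
  have cr : ∀ y, ∀ x ∈ W, x ∈ (M.ch y).source →
      ContDiffAt ℝ 1 (fun w => u ((M.ch y).symm w)) (M.ch y x) := fun y x hx hy =>
    reCLM.contDiff.contDiffAt.comp _ (hu y x hx hy)
  have tr : ∀ y, ∀ x ∈ (M.ch y).source, tj (M.ch y) (M.ch x) x *ᵥ B (M.ch y) (M.ch y x) =
      ((‖(tj (M.ch y) (M.ch x) x).det‖ ^ 2 : ℝ) : ℂ) • (χ x : ℂ) •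
        (g x).det • (P (M.ch x) (M.ch x x))ᵀ *ᵥ star (M.dfn F x) := fun y x hy => by
    simp only [B, (M.ch y).left_inv hy, mulVec_smul]
    by_cases hx : x ∈ W
    · rw [A_tr hP hF hx hy, smul_comm]
    · simp only [χ, indicator_of_notMem hx, ofReal_zero, zero_smul, smul_zero]
  obtain ⟨d, cd, d0, hd'⟩ := kD ι X M g μ (range M.ch) (fun e => e.target) B hK hμ
    (range_subset_iff.2 M.ch_mem) (fun e _ => ⟨e.open_target, subset_rfl⟩)
    (fun x => ⟨_, ⟨x, rfl⟩, M.mem x, (M.ch x).map_source (M.mem x)⟩)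
    (by
      rintro _ ⟨y, rfl⟩ z hz
      obtain ⟨x, hx, rfl⟩ : ∃ x ∈ (M.ch y).source, M.ch y x = z :=
        ⟨_, (M.ch y).map_target hz, (M.ch y).right_inv hz⟩
      refine contDiffAt_pi.2 fun i => ?_
      by_cases hn : x ∈ W
      · exact ((ofRealCLM.contDiff.contDiffAt.comp _ (hθ.contDiffAt.comp _ (cr y x hn hx))).mul
          (cd_A hK hP hF hn hx i)).congr_of_eventuallyEq (z1 _ x hx hn i)
      · exact contDiffAt_const.congr_of_eventuallyEq (z0 _ x hx hn i))
    (by
      rintro _ ⟨y, rfl⟩ _ ⟨y', rfl⟩ x hx hx' - -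
      have e1 := tr y x hx
      rw [ha.tj_mul _ (M.ch_mem y) _ (M.ch_mem y') _ (M.ch_mem x) x hx hx' (M.mem x),
        ← mulVec_mulVec, det_mul, norm_mul, mul_pow, ofReal_mul, mul_comm, mul_smul,
        ← tr y' x hx', ← mulVec_smul] at e1
      exact mulVec_injective_iff_isUnit.2 ((isUnit_iff_isUnit_det _).2
        (ha.tj_det _ (M.ch_mem y') _ (M.ch_mem x) x hx' (M.mem x)).isUnit) e1)
  have pd := fun x => mat.det ι _ (((ha.isK_iff g).1 hK).2 x)
  have e1 := fun x => hd' _ ⟨x, rfl⟩ x (M.mem x) ((M.ch x).map_source (M.mem x))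
  simp only [ha.repF_self] at e1
  have i3 : Integrable (fun x => (d x).re) μ :=
    (continuous_re.comp cd).integrable_of_hasCompactSupport (HasCompactSupport.of_compactSpace _)
  have d1 : ∫ x in W, (d x).re ∂μ = 0 := by
    rw [setIntegral_eq_integral_of_forall_compl_eq_zero fun x hx => ?_]
    · exact (reCLM.integral_comp_comm (cd.integrable_of_hasCompactSupport
        (HasCompactSupport.of_compactSpace _))).trans (by rw [d0, map_zero])
    · have e2 := e1 x
      simp only [dz_congr (z0 _ x (M.mem x) hx _), dz_const, Finset.sum_const_zero] at e2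
      rw [(mul_eq_zero.1 e2.symm).resolve_left (ofReal_ne_zero.2 (pd x).1.ne'), zero_re]
  rw [← integral_add i1 i2, ← d1]
  refine setIntegral_mono_on (i1.add i2) i3.integrableOn hW.measurableSet fun x hx => ?_
  have du := (cr x x hx (M.mem x)).differentiableAt one_ne_zero
  have e2 : ∑ i, dz (fun w => B (M.ch x) w i) i (M.ch x x) =
      ((deriv θ (u x) : ℝ) : ℂ) * ((g x).det * qf (P (M.ch x) (M.ch x x)) (M.dfn u x) (M.dfn F x)) +
        θ (u x) * dvP (M.repF g (M.ch x)) (P (M.ch x)) (fn F (M.ch x)) (M.ch x x) := by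
    simp only [qf, dvP, Finset.mul_sum (s := Finset.univ) (a := (θ (u x) : ℂ)),
      Finset.mul_sum (s := Finset.univ) (a := (g x).det),
      Finset.mul_sum (s := Finset.univ) (a := ((deriv θ (u x) : ℝ) : ℂ)), ← Finset.sum_add_distrib]
    refine Finset.sum_congr rfl fun i _ => ?_
    rw [dz_congr (z1 _ x (M.mem x) hx i), dz_mul (f := fun w => (θ (u ((M.ch x).symm w)) : ℂ))
      (ofRealCLM.differentiableAt.comp _ ((hd _).differentiableAt.comp _ du))
      ((cd_A hK hP hF hx (M.mem x) i).differentiableAt one_ne_zero), dz_real_comp (hd _) du,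
      (M.ch x).left_inv (M.mem x)]
    congr 1
    simp only [A, ha.repF_self, Finset.mul_sum]
    refine Finset.sum_congr rfl fun j _ => ?_
    rw [show dzb (fn F (M.ch x)) j (M.ch x x) = star (M.dfn F x j) from
      dzb_ofReal (fun z => F ((M.ch x).symm z)) j _,
      show dz (fun w => (u ((M.ch x).symm w) : ℂ)) i (M.ch x x) = M.dfn u x i from rfl]
    ring
  have e3 := congrArg re ((e1 x).symm.trans e2)
  rw [(pd x).2] at e3
  simp only [add_re, re_ofReal_mul, ofReal_re] at e3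
  refine le_of_mul_le_mul_left ?_ (pd x).1
  rw [e3, gp]
  nlinarith [mul_le_mul_of_nonneg_left (hD x hx) (h0 (u x))]

end Pool.Agent.Lib.MP_d44e50_ag
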