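import Pool.Agent.Lib.MP_d44e50_ag.Kit

/-! The lower bound for the energy by the order of vanishing. -/

namespace Pool.Agent.Lib.MP_d44e50_ag

open Pool.Agent.Lib.MP_813db1_ag.HS MeasureTheory Complex Matrix Filter Topology Set Metric
open Asymptotics Pool.Agent.Lib.MP_bbd4b9_ag.LC
open scoped ContDiff ComplexOrder

namespace Lel

set_option linter.unusedSectionVars false

variable {ι : Type} [Fintype ι] [DecidableEq ι] {S : V ι → ℂ} {T r d : ℝ} {z p y : V ι}

theorem nrm (y : V ι) : ‖y‖ ^ 2 ≤ eq2 y := by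
  have h : 0 ≤ eq2 y := Finset.sum_nonneg fun _ _ => by positivity
  rw [← Real.le_sqrt (norm_nonneg _) h, pi_norm_le_iff_of_nonneg (Real.sqrt_nonneg _)]
  exact fun i => Real.le_sqrt_of_sq_le (Finset.single_le_sum (f := fun i => ‖y i‖ ^ 2)
    (fun _ _ => by positivity) (Finset.mem_univ i))

theorem cont : Continuous (eq2 : V ι → ℝ) := by
  unfold eq2
  fun_prop

theorem tri (y p z : V ι) : eq2 (y - z) ≤ 2 * eq2 (y - p) + 2 * eq2 (p - z) := by
  simp only [eq2, Finset.mul_sum, ← Finset.sum_add_distrib, Pi.sub_apply]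
  refine Finset.sum_le_sum fun i _ => ?_
  have := pow_le_pow_left₀ (norm_nonneg _) (norm_sub_le_norm_sub_add_norm_sub (y i) (p i) (z i)) 2
  nlinarith [sq_nonneg (‖y i - p i‖ - ‖p i - z i‖)]

theorem symm (y p : V ι) : eq2 (y - p) = eq2 (p - y) := by
  simp only [eq2, Pi.sub_apply, norm_sub_rev (y _)]

theorem ker_nonneg (hr : 0 < r) (y : V ι) : 0 ≤ ker r y := div_nonneg (pp_nonneg _ _) (by positivity)

theorem neg (hr : 0 < r) (h : ¬ eq2 y ≤ r) : 1 - eq2 y / r ≤ 0 :=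
  sub_nonpos.2 ((one_le_div hr).2 (not_le.1 h).le)

theorem ker_zero (hr : 0 < r) (h : ¬ eq2 y ≤ r) : ker r y = 0 := by
  rw [ker, pp_of_nonpos 1 (neg hr h), zero_div]

theorem intg (hr : 0 < r) {w : V ι → ℝ} (hw : ∀ y, eq2 (y - p) ≤ r → ContinuousAt w y) :
    Integrable fun y => w y * ker r (y - p) := by
  have c : Continuous fun y => eq2 (y - p) := cont.comp (continuous_sub_right p)
  have k : IsCompact {y | eq2 (y - p) ≤ r} := (isCompact_closedBall p √r).of_isClosed_subset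
    (isClosed_le c continuous_const) fun y hy => mem_closedBall_iff_norm.2
      (Real.le_sqrt_of_sq_le ((nrm _).trans hy))
  refine IntegrableOn.integrable_of_forall_notMem_eq_zero (ContinuousOn.integrableOn_compact k
    (fun y hy => ((hw y hy).mul ?_).continuousWithinAt)) fun y hy => by rw [ker_zero hr hy, mul_zero]
  exact (((continuous_pp 2).comp (continuous_const.sub (c.div_const r))).div_const _).continuousAt

theorem ker_le (hd : 0 < d) (hp : eq2 (z - p) ≤ d / 2) (y : V ι) :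
    ker d (y - z) ≤ 3 ^ (Fintype.card ι + 2) * ker (3 * d) (y - p) := by
  by_cases h : eq2 (y - z) ≤ d
  swap
  · rw [ker_zero hd h]
    exact mul_nonneg (by positivity) (ker_nonneg (by positivity) _)
  have h1 : 0 ≤ 1 - eq2 (y - z) / d := sub_nonneg.2 ((div_le_one hd).2 h)
  have h2 : (1 - eq2 (y - z) / d) / 3 ≤ 1 - eq2 (y - p) / (3 * d) := by
    have := tri y z p
    field_simp
    linarith
  have h3 := pp_mono 2 h2
  rw [pp_of_nonneg 2 (by positivity)] at h3
  rw [ker, ker, pp_of_nonneg 2 h1, mul_pow, pow_add]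
  generalize pp 2 (1 - eq2 (y - p) / (3 * d)) = a at h3
  generalize 1 - eq2 (y - z) / d = b at h3
  field_simp
  linarith

theorem core {m M M' r0 J : ℝ} {w : V ι → ℝ} (h1 : ∀ (p : V ι), ∀ r > 0, ∫ y : V ι, ker r (y - p) = m)
    (hd : 0 < d) (hp : eq2 (z - p) ≤ d / 2) (hw : ∀ y, eq2 (y - z) ≤ 7 * d → ContinuousAt w y)
    (hM : ∀ y, eq2 (y - z) ≤ 7 * d → w y ≤ M) (h0 : r0 ∈ Ioc 0 d)
    (hM' : ∀ y, eq2 (y - z) ≤ r0 → w y ≤ M') (h2 : m * w p ≤ ∫ y, w y * ker (3 * d) (y - p))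
    (h3 : (∫ y, w y * ker d (y - z)) - ∫ y, w y * ker r0 (y - z) ≤ J) :
    m * M - 3 ^ (Fintype.card ι + 2) * (m * (M - w p)) - m * M' ≤ J := by
  have t : ∀ y, eq2 (y - p) ≤ 3 * d → eq2 (y - z) ≤ 7 * d := fun y hy => by
    linarith [tri y p z, symm p z]
  have d3 : 0 < 3 * d := by positivity
  have k : ∀ (a : ℝ) (p : V ι) (r : ℝ), 0 < r → Integrable (fun y => a * ker r (y - p)) ∧
      ∫ y, a * ker r (y - p) = m * a := fun a p r hr =>
    ⟨intg hr fun _ _ => continuousAt_const, by rw [integral_const_mul, h1 p r hr, mul_comm]⟩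
  have i1 := intg (p := z) hd fun y hy => hw y (by linarith)
  have i2 := intg d3 fun y hy => hw y (t y hy)
  have i3 := intg (p := z) h0.1 fun y hy => hw y (by linarith [h0.2])
  have a1 := integral_mono ((k M z d hd).1.sub i1)
    (((k M p _ d3).1.sub i2).const_mul (3 ^ (Fintype.card ι + 2))) fun y => by
      have := ker_le hd hp y
      simp only [Pi.sub_apply, ← sub_mul]
      by_cases h : eq2 (y - p) ≤ 3 * d
      · rw [mul_left_comm]
        exact mul_le_mul_of_nonneg_left this (sub_nonneg.2 (hM y (t y h)))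
      · rw [ker_zero d3 h, mul_zero] at this
        rw [ker_zero d3 h, this.antisymm (ker_nonneg hd _), mul_zero, mul_zero]
  have a2 := integral_mono i3 (k M' z r0 h0.1).1 fun y => by
    by_cases h : eq2 (y - z) ≤ r0
    · exact mul_le_mul_of_nonneg_right (hM' y h) (ker_nonneg h0.1 _)
    · simp only [ker_zero h0.1 h, mul_zero, le_refl]
  rw [integral_const_mul, integral_sub' (k M z d hd).1 i1, integral_sub' (k M p _ d3).1 i2,
    (k M z d hd).2, (k M p _ d3).2] at a1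
  rw [(k M' z r0 h0.1).2] at a2
  have a3 : (3 : ℝ) ^ (Fintype.card ι + 2) * (m * M - ∫ y, w y * ker (3 * d) (y - p)) ≤
      3 ^ (Fintype.card ι + 2) * (m * (M - w p)) :=
    mul_le_mul_of_nonneg_left (by linarith) (by positivity)
  linarith

/-- the truncated logarithm. -/
noncomputable def lw (S : V ι → ℂ) (T : ℝ) (z : V ι) : ℝ :=
  if S z = 0 then 0 else T / 3 * pp 3 (Real.log (‖S z‖ ^ 2) / T + 1)

theorem lw_zero (hT : 0 < T) (h : AnalyticAt ℂ S z) (h0 : S z = 0) : lw S T =ᶠ[𝓝 z] fun _ => 0 := by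
  filter_upwards [(DvA.cd_nsq h 0).continuousAt.eventually_lt_const
    (show ‖S z‖ ^ 2 < Real.exp (-T) by simp [h0, Real.exp_pos])] with y hy
  rw [lw]
  split_ifs with e
  · rfl
  · have := (Real.log_lt_iff_lt_exp (by positivity)).2 hy
    rw [pp_of_nonpos 2 (by rw [← le_neg_iff_add_nonpos_right, div_le_iff₀ hT]; linarith), mul_zero]

theorem lw_ne (h : AnalyticAt ℂ S z) (h0 : S z ≠ 0) :
    lw S T =ᶠ[𝓝 z] fun y => T / 3 * pp 3 (Real.log (‖S y‖ ^ 2) / T + 1) :=
  (h.continuousAt.eventually_ne h0).mono fun _ hy => if_neg hy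

theorem lw_cd (hT : 0 < T) (h : AnalyticAt ℂ S z) : ContDiffAt ℝ 2 (lw S T) z := by
  by_cases h0 : S z = 0
  · exact contDiffAt_const.congr_of_eventuallyEq (lw_zero hT h h0)
  · exact (contDiffAt_const.mul ((contDiff_pp2 0).contDiffAt.comp z (((DvA.cd_log h h0 2).div_const
      T).add contDiffAt_const))).congr_of_eventuallyEq (lw_ne h h0)

theorem levi_zero (hT : 0 < T) (h : AnalyticAt ℂ S z) (h0 : S z = 0) :
    levi (fun x => (lw S T x : ℂ)) z = 0 :=
  (levi_congr ((lw_zero hT h h0).mono fun _ e => congrArg ofReal e)).trans (levi_const _ _)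

theorem levi_ne (hT : 0 < T) (h : AnalyticAt ℂ S z) (h0 : S z ≠ 0) :
    levi (fun x => (lw S T x : ℂ)) z = ((2 * (pp 1 (Real.log (‖S z‖ ^ 2) / T + 1) / T) : ℝ) : ℂ) •
      rk1 fun i => dz (fun w => (Real.log (‖S w‖ ^ 2) : ℂ)) i z := by
  have e : ∀ k t, HasDerivAt (fun t => pp (k + 2) (t / T + 1))
      ((k + 2) * pp (k + 1) (t / T + 1) * (1 / T)) t := fun k t =>
    (hasDerivAt_pp k _).comp t (((hasDerivAt_id t).div_const T).add_const 1)
  rw [levi_congr ((lw_ne h h0).mono fun _ e => congrArg ofReal e)]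
  ext i j
  rw [levi_real_comp (Φ := fun t => T / 3 * pp 3 (t / T + 1)) (Φ₁ := fun t => pp 2 (t / T + 1))
    (u := fun w => Real.log (‖S w‖ ^ 2)) (.of_forall fun t => by
      refine ((e 1 t).const_mul (T / 3)).congr_deriv ?_
      field_simp
      norm_num) (e 0 _) (DvA.cd_log h h0 2), DvA.levi_log h h0, dzb_ofReal]
  simp [rk1, vecMulVec_apply, div_eq_mul_inv, mul_assoc]

theorem lw_psd (hT : 0 < T) (h : AnalyticAt ℂ S z) :
    (levi (fun x => (lw S T x : ℂ)) z).PosSemidef := by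
  by_cases h0 : S z = 0
  · exact levi_zero hT h h0 ▸ PosSemidef.zero
  · exact levi_ne hT h h0 ▸ (posSemidef_vecMulVec_self_star _).smul
      (zero_le_real.2 (mul_nonneg zero_le_two (div_nonneg (pp_nonneg _ _) hT.le)))

theorem lw_tr (hT : 0 < T) (h : AnalyticAt ℂ S z) (h0 : S z ≠ 0) :
    (trace (levi (fun x => (lw S T x : ℂ)) z)).re = 2 * (pp 1 (Real.log (‖S z‖ ^ 2) / T + 1) / T *
      ∑ i, ‖dz (fun w => (Real.log (‖S w‖ ^ 2) : ℂ)) i z‖ ^ 2) := by
  rw [levi_ne hT h h0, trace_smul, smul_eq_mul, re_ofReal_mul, mul_assoc, trace, re_sum]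
  congr 3
  funext i
  simp only [diag_apply, rk1, vecMulVec_apply, Pi.star_apply, RCLike.star_def, mul_conj,
    ofReal_re, normSq_eq_norm_sq]

theorem lw_ge (hT : 0 < T) (h0 : S z ≠ 0) : T / 3 + Real.log (‖S z‖ ^ 2) ≤ lw S T z := by
  rw [lw, if_neg h0]
  obtain ⟨x, hx⟩ : ∃ x, Real.log (‖S z‖ ^ 2) = T * x := ⟨_, (mul_div_cancel₀ _ hT.ne').symm⟩
  rw [hx, mul_div_cancel_left₀ _ hT.ne']
  have : 1 + 3 * x ≤ pp 3 (x + 1) := by
    rcases le_total 0 (x + 1) with h | h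
    · rw [pp_of_nonneg _ h]
      nlinarith [mul_nonneg (sq_nonneg x) h, sq_nonneg x]
    · rw [pp_of_nonpos 2 h]
      linarith
  nlinarith

theorem lw_le {a : ℝ} (hT : 0 < T) (ha : |a| ≤ T) (h : ‖S z‖ ^ 2 ≤ Real.exp a) :
    lw S T z ≤ T / 3 + a + 2 * a ^ 2 / T := by
  have h1 : T / 3 * pp 3 (a / T + 1) ≤ T / 3 + a + 2 * a ^ 2 / T := by
    obtain ⟨x, rfl⟩ : ∃ x, a = T * x := ⟨_, (mul_div_cancel₀ _ hT.ne').symm⟩
    rw [abs_mul, abs_of_pos hT, mul_le_iff_le_one_right hT, abs_le] at ha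
    rw [mul_div_cancel_left₀ _ hT.ne', pp_of_nonneg _ (by linarith)]
    field_simp
    nlinarith [mul_nonneg (sq_nonneg x) (sub_nonneg.2 ha.2), sq_nonneg x]
  refine le_trans ?_ h1
  rw [lw]
  split_ifs with e
  · exact mul_nonneg (by positivity) (pp_nonneg _ _)
  · refine mul_le_mul_of_nonneg_left (pp_mono 3 ?_) (by positivity)
    gcongr
    exact (Real.log_le_iff_le_exp (by positivity)).2 h

end Lel

open Lel in
theorem lel (hr : RadS) : LelS := by
  intro ι _ _ z R hR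
  obtain ⟨m, m0, h1, h2⟩ := hr ι
  obtain ⟨d, hd⟩ : ∃ d, d = R ^ 2 / 16 := ⟨_, rfl⟩
  have d0 : 0 < d := by rw [hd]; positivity
  obtain ⟨K, hK⟩ : ∃ K, K = 2 * (d / 3 / d ^ Fintype.card ι) := ⟨_, rfl⟩
  have K0 : 0 < K := by rw [hK]; positivity
  refine ⟨m / K, by positivity, fun S n hS h0 hO ε e0 => ?_⟩
  have b1 : ∀ y, eq2 (y - z) ≤ 7 * d → y ∈ closedBall z (3 / 4 * R) := fun y hy =>
    mem_closedBall_iff_norm.2 (le_of_sq_le_sq (by nlinarith [nrm (y - z)]) (by positivity))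
  have b2 : closedBall z (3 / 4 * R) ⊆ ball z R := closedBall_subset_ball (by linarith)
  obtain ⟨B, hB⟩ := (isCompact_closedBall z _).exists_bound_of_continuousOn
    (hS.continuousOn.mono b2)
  obtain ⟨p, p0, hp⟩ := (h0.and_eventually
    ((cont.comp (continuous_sub_left z)).continuousAt.eventually_le_const
      (show eq2 (z - z) < d / 2 by simp [eq2, d0]))).exists
  obtain ⟨C, C0, hC⟩ := hO.exists_pos
  obtain ⟨δ, δ0, hδ⟩ := Metric.eventually_nhds_iff.1 hC.bound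
  obtain ⟨Q, hQ⟩ : ∃ Q, Q = 3 ^ (Fintype.card ι + 2) * (m * (3 * B ^ 2 - Real.log (‖S p‖ ^ 2))) +
    m * (Real.log (C ^ 2) + n * Real.log d - 3 * B ^ 2) := ⟨_, rfl⟩
  obtain ⟨L, ⟨L0, L1⟩, L2⟩ := (((eventually_gt_atTop 0).and
    ((Real.tendsto_exp_neg_atTop_nhds_zero.const_mul d).eventually_lt_const
      (show d * 0 < δ ^ 2 by rw [mul_zero]; positivity))).and
    (eventually_ge_atTop (Q / (ε * K / 2)))).exists
  rw [div_le_iff₀ (by positivity)] at L2
  obtain ⟨a, ha⟩ : ∃ a, a = Real.log (C ^ 2) + n * (Real.log d - L) := ⟨_, rfl⟩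
  filter_upwards [eventually_gt_atTop 0, eventually_ge_atTop |B ^ 2|, eventually_ge_atTop |a|,
    eventually_ge_atTop (m * (2 * a ^ 2) / (L * (ε * K / 2)))] with T T0 T1 T2 T3
  have r0 : d * Real.exp (-L) ∈ Ioc 0 d := ⟨by positivity,
    mul_le_of_le_one_right d0.le (Real.exp_le_one_iff.2 (by linarith))⟩
  have hw := fun y (hy : y ∈ ball z R) => And.intro (lw_cd T0 (hS y hy)) (lw_psd T0 (hS y hy))
  have k := core (M := T / 3 + 3 * B ^ 2) (M' := T / 3 + a + 2 * a ^ 2 / T) h1 d0 hp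
    (fun y hy => (hw y (b2 (b1 y hy))).1.continuousAt) (fun y hy => ?_) r0 (fun y hy => ?_)
    (h2 _ _ p _ isOpen_ball (by positivity) (fun y hy => b2 (b1 y ?_)) hw).1
    ((h2 _ _ z d isOpen_ball d0 (fun y hy => b2 (b1 y (by linarith))) hw).2 _ r0)
  rotate_left
  · have := lw_le T0 T1 ((pow_le_pow_left₀ (norm_nonneg _) (hB y (b1 y hy)) 2).trans
      (by linarith [Real.add_one_le_exp (B ^ 2)]))
    have e : 2 * (B ^ 2) ^ 2 / T ≤ 2 * B ^ 2 := by
      rw [div_le_iff₀ T0]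
      nlinarith [le_abs_self (B ^ 2), sq_nonneg B]
    linarith
  · have e := (nrm _).trans hy
    have q := hδ (y := y) (by
      rw [dist_eq_norm]
      exact lt_of_pow_lt_pow_left₀ 2 δ0.le (e.trans_lt L1))
    refine lw_le T0 T2 ((pow_le_pow_left₀ (norm_nonneg _) q 2).trans ?_)
    rw [ha, Real.exp_add, Real.exp_log (by positivity), Real.exp_nat_mul, sub_eq_add_neg (Real.log d),
      Real.exp_add, Real.exp_log d0, mul_pow, norm_pow, norm_norm, ← pow_mul, mul_comm n, pow_mul]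
    gcongr
  · linarith [tri y p z, symm p z, show eq2 (z - p) ≤ d / 2 from hp]
  rw [div_mul_cancel_left₀ d0.ne', ← Real.exp_neg, Real.log_exp, neg_neg] at k
  generalize hJ : (∫ y, (trace (levi (fun x => (lw S T x : ℂ)) y)).re * kerP d (y - z)) = J at k
  have j1 : m / K * n - ε ≤ J / K := by
    have e1 : (3 : ℝ) ^ (Fintype.card ι + 2) * (m * (T / 3 + 3 * B ^ 2 - lw S T p)) ≤
        3 ^ (Fintype.card ι + 2) * (m * (3 * B ^ 2 - Real.log (‖S p‖ ^ 2))) := by
      gcongr _ * (_ * ?_)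
      linarith [lw_ge T0 p0]
    have e2 : m * (2 * a ^ 2 / T) ≤ L * (ε * K / 2) := by
      rw [div_le_iff₀ (by positivity)] at T3
      rw [← mul_div_assoc, div_le_iff₀ T0]
      linarith
    rw [le_div_iff₀ K0, sub_mul, div_mul_eq_mul_div, div_mul_cancel₀ _ K0.ne']
    refine le_of_mul_le_mul_left ?_ L0
    generalize 2 * a ^ 2 / T = u at k e2
    rw [ha] at k
    linarith
  refine (ENNReal.ofReal_le_ofReal j1).trans ((Real.ofReal_le_enorm _).trans ?_)
  rw [← hJ, ← integral_div]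
  refine (enorm_integral_le_lintegral_enorm _).trans
    ((lintegral_mono fun y => ?_).trans (lintegral_indicator_le _ _))
  by_cases hy : eq2 (y - z) ≤ d
  swap
  · simp [kerP, pp_of_nonpos 2 (neg d0 hy)]
  have y1 := b2 (b1 y (by linarith))
  by_cases y0 : S y = 0
  · simp [levi_zero T0 (hS y y1) y0]
  rw [indicator_of_mem (show y ∈ ball z R ∩ {z | S z ≠ 0} from ⟨y1, y0⟩), lw_tr T0 (hS y y1) y0]
  generalize hE : pp 1 (Real.log (‖S y‖ ^ 2) / T + 1) / T *
    ∑ i, ‖dz (fun w => (Real.log (‖S w‖ ^ 2) : ℂ)) i y‖ ^ 2 = E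
  have E0 : 0 ≤ E := hE ▸ mul_nonneg (div_nonneg (pp_nonneg _ _) T0.le) (by positivity)
  have g0 := pp_nonneg 3 (1 - eq2 (y - z) / d)
  have g1 : pp 3 (1 - eq2 (y - z) / d) ≤ 1 := (pp_mono 3 (sub_le_self 1
    (div_nonneg ((sq_nonneg _).trans (nrm _)) d0.le))).trans_eq (by simp [pp])
  have e : 2 * E * kerP d (y - z) / K = E * pp 3 (1 - eq2 (y - z) / d) := by
    rw [kerP, hK]
    field_simp
  rw [e, Real.enorm_of_nonneg (mul_nonneg E0 g0)]
  exact ENNReal.ofReal_le_ofReal (mul_le_of_le_one_right E0 g1)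

end Pool.Agent.Lib.MP_d44e50_ag
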