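import Pool.Agent.Lib.MP_d44e50_ag.Kit

/-! The local inequality. -/

namespace Pool.Agent.Lib.MP_d44e50_ag

open Pool.Agent.Lib.MP_813db1_ag.HS Pool.Agent.Lib.MP_bbd4b9_ag.LC
open Pool.Agent.Lib.MP_813db1_ag.HS.Sub Complex Matrix Filter Topology Set
open scoped ContDiff ComplexOrder

set_option linter.unusedSectionVars false

noncomputable section

namespace Loc

variable {ι κ : Type} [Fintype ι] [DecidableEq ι] [Fintype κ] [DecidableEq κ]
  {G : V ι → Mat ι} {U : Set (V ι)} {z : V ι} {Φ : V ι → V κ}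

/-- the covariant derivative of the differential. -/
def cv (G : V ι → Mat ι) (Φ : V ι → V κ) (k : ι) (w : V ι) : Matrix ι κ ℂ :=
  DM (-I) (jr Φ) k w + -gam G k w * jr Φ w

/-- the logarithm of the Gram determinant. -/
def lgm (G : V ι → Mat ι) (Φ : V ι → V κ) (w : V ι) : ℂ :=
  (Real.log (gm (G w) (jr Φ w)).det.re : ℂ)

theorem dM_eq (G : V ι → Mat ι) (k : ι) (w : V ι) : DM (-I) G k w = dM G k w := by
  ext i j
  simp only [DM, dM, of_apply, Sub.dz_eq]

theorem sI : star I = -I := by simp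

theorem sI' : star (-I) = I := by simp

theorem dB (h : AnalyticAt ℂ Φ z) : Df (jr Φ) z := fun i α =>
  (jr_an h i α).differentiableAt.restrictScalars ℝ

theorem dB0 (h : AnalyticAt ℂ Φ z) (k : ι) : DM I (jr Φ) k z = 0 := by
  ext i α
  exact dd_hol_zero (jr_an h i α).differentiableAt

theorem dB1 (h : AnalyticAt ℂ Φ z) (k i : ι) (α : κ) :
    AnalyticAt ℂ (fun w => DM (-I) (jr Φ) k w i α) z :=
  (((ContinuousLinearMap.apply ℂ ℂ (Pi.single k 1 : V ι)).analyticAt _).comp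
    (jr_an h i α).fderiv).congr (h.eventually_analyticAt.mono fun _ hw =>
      (dd_hol_one (jr_an hw i α).differentiableAt).symm)

theorem cv_sym (hK : KOn G U) (hz : z ∈ U) (h : AnalyticAt ℂ Φ z) (k i : ι) (α : κ) :
    cv G Φ k z i α = cv G Φ i z k α := by
  have e : ∀ i, (fun w => jr Φ w i α) =ᶠ[𝓝 z] dz (fun w => Φ w α) i := fun i =>
    h.eventually_analyticAt.mono fun w hw => jr_eq_dz hw.differentiableAt i α
  simp only [cv, gam, Matrix.add_apply, DM, of_apply, ← Sub.dz_eq, Matrix.mul_apply, Matrix.neg_apply,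
    dM_apply, hK.1.2.2 z hz i _ k]
  rw [dz_congr (e i), dz_congr (e k),
    dz_dz_comm ((contDiffAt_pi.1 (h.contDiffAt.restrict_scalars ℝ)) α) k i]

variable (hK : KOn G U) (hz : z ∈ U) (h : AnalyticAt ℂ Φ z)

include hK hz

theorem dG : Df G z := hK.1.1.df hz

theorem dH : Df (fun w => (G w)⁻¹) z := (dG hK hz).inv (Green.det_ne (hK.2 z hz))

theorem dH1 (k : ι) : DM (-I) (fun w => (G w)⁻¹) k z = -((G z)⁻¹ * gam G k z) := by
  rw [DM_inv (dG hK hz) (Green.det_ne (hK.2 z hz)), dM_eq, gam, Matrix.mul_assoc]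

include h

theorem dHB (k : ι) : DM (-I) (fun w => (G w)⁻¹ * jr Φ w) k z = (G z)⁻¹ * cv G Φ k z := by
  rw [DM_mul (dH hK hz) (dB h), dH1 hK hz, cv, Matrix.mul_add, add_comm, Matrix.neg_mul,
    Matrix.neg_mul, Matrix.mul_neg, Matrix.mul_assoc]

theorem dN : Df (fun w => gm (G w) (jr Φ w)) z := ((dB h).ct.mul (dH hK hz)).mul (dB h)

theorem dN1 (k : ι) : DM (-I) (fun w => gm (G w) (jr Φ w)) k z =
    (jr Φ z)ᴴ * (G z)⁻¹ * cv G Φ k z := by
  simp only [gm, Matrix.mul_assoc]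
  rw [DM_mul (dB h).ct ((dH hK hz).mul (dB h)), DM_ct (dB h), sI', dB0 h, dHB hK hz h,
    conjTranspose_zero, Matrix.zero_mul, zero_add]

variable (ha : AlgS) (hU : IsOpen U) (h0 : (gm (G z) (jr Φ z)).det ≠ 0)

include ha hU h0

theorem dL (k : ι) : dz (lgm G Φ) k z =
    trace ((gm (G z) (jr Φ z))⁻¹ * ((jr Φ z)ᴴ * (G z)⁻¹) * cv G Φ k z) := by
  unfold lgm
  rw [Sub.dz_eq, dd_log (dN hK hz h)
    (mem_of_superset (hU.mem_nhds hz) fun w hw => ha.gm_psd _ _ _ _ (hK.2 w hw))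
    (ha.gm_pd _ _ _ _ (hK.2 z hz) h0), dN1 hK hz h, trace_mul_comm, Matrix.mul_assoc _ (_ * _)]

omit ha in
theorem ev : ∀ᶠ w in 𝓝 z, w ∈ U ∧ AnalyticAt ℂ Φ w ∧ (gm (G w) (jr Φ w)).det ≠ 0 :=
  (hU.eventually_mem hz).and (h.eventually_analyticAt.and
    ((dN hK hz h).det.continuousAt.eventually_ne h0))

omit hU in
theorem cdL : ContDiffAt ℝ ∞ (fun w => Real.log (gm (G w) (jr Φ w)).det.re) z :=
  (reCLM.contDiff.contDiffAt.comp z (cd_det_gm (hK.1.1.cd hz) (Green.det_ne (hK.2 z hz)) h)).log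
    (Green.det_pos (ha.gm_pd _ _ _ _ (hK.2 z hz) h0)).ne'

theorem lev (k l : ι) : levi (lgm G Φ) z k l =
    trace ((gm (G z) (jr Φ z))⁻¹ * ((cv G Φ l z)ᴴ * ((G z)⁻¹ - pj (G z) (jr Φ z)) *
      (cv G Φ k z)ᴴᴴ)) + trace ((Matrix.of fun i j => curv G z i j k l) * pj (G z) (jr Φ z)) := by
  have g1 : Df (gam G k) z := ((hK.1.1.dM k).df hz).mul (dH hK hz)
  have g2 : Df (fun w => -gam G k w) z := fun i j => (g1 i j).neg
  have b1 : Df (DM (-I) (jr Φ) k) z := fun i α => (dB1 h k i α).differentiableAt.restrictScalars ℝ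
  have x1 : Df (cv G Φ k) z := b1.add (g2.mul (dB h))
  have x2 : DM I (cv G Φ k) l z = (Matrix.of fun i j => curv G z i j k l) * (G z)⁻¹ * jr Φ z := by
    have e1 : DM I (DM (-I) (jr Φ) k) l z = 0 := by
      ext i α
      exact dd_hol_zero (dB1 h k i α).differentiableAt
    have e2 : DM I (fun w => -gam G k w) l z = (Matrix.of fun i j => curv G z i j k l) * (G z)⁻¹ :=
      (dMb_neg (gam G k) l z).trans (by
        rw [kC.dbar_gam ι G U hU hK.1.1 (fun w hw => Green.det_ne (hK.2 w hw)) z hz, neg_mul,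
          neg_neg])
    unfold cv
    rw [DM_add b1 (g2.mul (dB h)), DM_mul g2 (dB h), e1, e2,
      dB0 h, Matrix.mul_zero, add_zero, zero_add]
  have c1 : Df (fun w => (jr Φ w)ᴴ * (G w)⁻¹) z := (dB h).ct.mul (dH hK hz)
  have c2 : DM I (fun w => (jr Φ w)ᴴ * (G w)⁻¹) l z = (cv G Φ l z)ᴴ * (G z)⁻¹ := by
    rw [DM_congr (B := fun w => ((G w)⁻¹ * jr Φ w)ᴴ) (mem_of_superset (hU.mem_nhds hz) fun w hw => by
      simp only [mem_ofPred_eq, conjTranspose_mul, (hK.2 w hw).inv.1.eq]),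
      DM_ct ((dH hK hz).mul (dB h)), sI, dHB hK hz h, conjTranspose_mul, (hK.2 z hz).inv.1.eq]
  have n2 : DM I (fun w => gm (G w) (jr Φ w)) l z = (cv G Φ l z)ᴴ * (G z)⁻¹ * jr Φ z := by
    simp only [gm]
    rw [DM_mul c1 (dB h), c2, dB0 h, Matrix.mul_zero, add_zero]
  have n1 := (dN hK hz h).inv h0
  rw [levi_apply, dz_dzb_comm (f := lgm G Φ)
    ((contDiffAt_ofReal.2 (cdL hK hz h ha h0)).of_le (by norm_cast)),
    dzb_congr ((ev hK hz h hU h0).mono fun w q => dL hK q.1 q.2.1 ha hU q.2.2 k), Sub.dzb_eq,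
    dd_trace ((n1.mul c1).mul x1), DM_mul (n1.mul c1) x1, DM_mul n1 c1, DM_inv (dN hK hz h) h0, n2,
    c2, x2, conjTranspose_conjTranspose, pj, trace_add]
  generalize (gm (G z) (jr Φ z))⁻¹ = A
  congr 1
  · simp only [Matrix.mul_sub, Matrix.sub_mul, Matrix.add_mul, Matrix.neg_mul, Matrix.mul_assoc]
    rw [neg_add_eq_sub]
  · rw [Matrix.mul_assoc _ _ (jr Φ z), trace_mul_comm]
    simp only [Matrix.mul_assoc]

theorem c1 : rq G z (pj (G z) (jr Φ z)) ≤
    (∑ i, ∑ j, pj (G z) (jr Φ z) j i * levi (lgm G Φ) z i j).re := by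
  obtain ⟨p1, p2, -⟩ := ha.pj_psd _ _ _ _ (hK.2 z hz) h0
  have g := gram p1.transpose p2 (ha.gm_pd _ _ _ _ (hK.2 z hz) h0).inv.posSemidef
    fun k => (cv G Φ k z)ᴴ
  rw [Finset.sum_comm] at g
  simp only [lev hK hz h ha hU h0, mul_add, Finset.sum_add_distrib, add_re]
  refine le_add_of_nonneg_of_le (g.trans_eq (congrArg re (Finset.sum_congr rfl fun i _ =>
    Finset.sum_congr rfl fun j _ => mul_comm _ _))) (le_of_eq (congrArg re ?_))
  simp only [trace, diag, Matrix.mul_apply, of_apply, Finset.mul_sum]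
  rw [Roy.sw13 fun i j k l => _, Roy.sw24 fun i j k l => _]
  exact Finset.sum_congr rfl fun _ _ => Finset.sum_congr rfl fun _ _ =>
    Finset.sum_congr rfl fun _ _ => Finset.sum_congr rfl fun _ _ => by ring

omit ha hU in
theorem dP : Df (fun w => pj (G w) (jr Φ w)) z :=
  ((((dH hK hz).mul (dB h)).mul ((dN hK hz h).inv h0)).mul (dB h).ct).mul (dH hK hz)

theorem c2 (j : ι) : ∑ i, dz (fun w => (G w).det * pj (G w) (jr Φ w) j i) i z =
    (G z).det * ∑ i, ((G z)⁻¹ - pj (G z) (jr Φ z)) j i * dz (lgm G Φ) i z := by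
  have n1 := (dN hK hz h).inv h0
  have b1 := (dH hK hz).mul (dB h)
  have e1 : ∀ k, DM (-I) (fun w => pj (G w) (jr Φ w)) k z =
      ((G z)⁻¹ - pj (G z) (jr Φ z)) * (cv G Φ k z * ((gm (G z) (jr Φ z))⁻¹ *
        ((jr Φ z)ᴴ * (G z)⁻¹))) - pj (G z) (jr Φ z) * gam G k z := fun k => by
    simp only [pj]
    rw [DM_mul ((b1.mul n1).mul (dB h).ct) (dH hK hz), DM_mul (b1.mul n1) (dB h).ct, DM_mul b1 n1,
      DM_ct (dB h), sI', dB0 h, DM_inv (dN hK hz h) h0, dN1 hK hz h, dHB hK hz h, dH1 hK hz]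
    simp only [conjTranspose_zero, Matrix.mul_zero, add_zero, Matrix.add_mul,
      Matrix.neg_mul, Matrix.mul_neg, Matrix.mul_assoc, sub_eq_add_neg]
  have e2 : ∀ k, dz (fun w => (G w).det) k z = (G z).det * trace (gam G k z) := fun k => by
    rw [Sub.dz_eq, dd_det (dG hK hz), gam, dM_eq, Matrix.inv_def, Matrix.mul_smul, trace_smul,
      smul_eq_mul, Ring.inverse_eq_inv', mul_inv_cancel_left₀ (Green.det_ne (hK.2 z hz))]
  have e3 : ∀ i, dz (fun w => (G w).det * pj (G w) (jr Φ w) j i) i z = (G z).det *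
      (pj (G z) (jr Φ z) j i * trace (gam G i z) +
        DM (-I) (fun w => pj (G w) (jr Φ w)) i z j i) := fun i => by
    rw [dz_mul (dG hK hz).det (dP hK hz h h0 j i), e2, Sub.dz_eq]
    simp only [DM, of_apply]
    ring
  have s : ∀ k i p, gam G k z i p = gam G i z k p := fun k i p => by
    simp only [gam, Matrix.mul_apply, dM_apply, hK.1.2.2 z hz i _ k]
  simp only [e3, e1, ← Finset.mul_sum, dL hK hz h ha hU h0, trace_mul_comm _ (cv G Φ _ z)]
  generalize (G z)⁻¹ - pj (G z) (jr Φ z) = Q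
  generalize (gm (G z) (jr Φ z))⁻¹ * ((jr Φ z)ᴴ * (G z)⁻¹) = C
  generalize pj (G z) (jr Φ z) = P
  congr 1
  simp only [Matrix.sub_apply, Finset.sum_add_distrib, Finset.sum_sub_distrib, trace, diag,
    Matrix.mul_apply, Finset.mul_sum]
  rw [Finset.sum_comm (f := fun x i => P j i * gam G x z i x),
    Finset.sum_comm (f := fun x i => ∑ a, Q j i * (cv G Φ x z i a * C a x))]
  simp only [fun k i => s k i k, fun k i a => cv_sym hK hz h k i a]
  ring

end Loc

open Loc in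
theorem loc (ha : AlgS) : LocS := by
  intro ι κ _ _ _ _ G P U z Φ s m F hU hK hz h h0 hs s0 hP
  have t1 : AnalyticAt ℂ (fun w => s (Φ w)) z := hs.comp h
  have eP : ∀ i j, (fun w => P w i j) =ᶠ[𝓝 z] fun w => pj (G w) (jr Φ w) i j := fun i j =>
    hP.mono fun w q => by simp only [q.1]
  have eF : F =ᶠ[𝓝 z] fun w => Real.log (‖s (Φ w)‖ ^ 2) +
      m * Real.log (gm (G w) (jr Φ w)).det.re := by
    filter_upwards [hP, ev hK hz h hU h0, t1.continuousAt.eventually_ne s0] with w q1 q2 q3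
    rw [q1.2, Real.log_mul (by positivity) (pow_ne_zero _
      (Green.det_pos (ha.gm_pd _ _ _ _ (hK.2 w q2.1) q2.2.2)).ne'), Real.log_pow _ m]
  have eC : (fun w => (F w : ℂ)) =ᶠ[𝓝 z] fun w => (Real.log (‖s (Φ w)‖ ^ 2) : ℂ) + m * lgm G Φ w :=
    eF.mono fun w q => by simp only [q, lgm, ofReal_add, ofReal_mul, ofReal_natCast]
  have l1 := cdL hK hz h ha h0
  have cF : ContDiffAt ℝ ∞ F z :=
    ((DvA.cd_log t1 s0 ∞).add (contDiffAt_const.mul l1)).congr_of_eventuallyEq eF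
  refine ⟨fun i j => ContDiffAt.congr_of_eventuallyEq ?_ (eP i j), cF, ?_⟩
  · have g := (hK.1.1.cd hz).inv (Green.det_ne (hK.2 z hz))
    have b : ∀ i α, ContDiffAt ℝ ∞ (fun w => jr Φ w i α) z := fun i α => DvA.cd_an (jr_an h i α) _
    have n : ∀ α β, ContDiffAt ℝ ∞ (fun w => (gm (G w) (jr Φ w))⁻¹ α β) z := fun α β => by
      have c := cd_gm (hK.1.1.cd hz) (Green.det_ne (hK.2 z hz)) h
      simp only [Matrix.inv_def, Ring.inverse_eq_inv', Matrix.smul_apply, smul_eq_mul,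
        adjugate_apply]
      refine ((cd_det_gm (hK.1.1.cd hz) (Green.det_ne (hK.2 z hz)) h).inv h0).mul ?_
      simp only [det_apply', updateRow_apply]
      refine ContDiffAt.sum fun _ _ => contDiffAt_const.mul (contDiffAt_prod fun _ _ => ?_)
      split_ifs
      exacts [contDiffAt_const, c _ _]
    simp only [pj, Matrix.mul_apply, conjTranspose_apply]
    exact ContDiffAt.sum fun _ _ => (ContDiffAt.sum fun _ _ => (ContDiffAt.sum fun _ _ =>
      (ContDiffAt.sum fun _ _ => (g _ _).mul (b _ _)).mul (n _ _)).mul (DvA.cd_star (b _ _))).mul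
      (g _ _)
  have c2F : ContDiffAt ℝ 2 (fun w => (F w : ℂ)) z :=
    (contDiffAt_ofReal.2 cF).of_le (by norm_cast)
  have c2L : ContDiffAt ℝ 2 (lgm G Φ) z := (contDiffAt_ofReal.2 l1).of_le (by norm_cast)
  have c2s := contDiffAt_ofReal.2 (DvA.cd_log t1 s0 2)
  have e1 : levi (fun w => (F w : ℂ)) z = (m : ℂ) • levi (lgm G Φ) z := by
    rw [levi_congr eC, levi_add c2s (contDiffAt_const.mul c2L), DvA.levi_log t1 s0, zero_add,
      levi_cmul _ c2L]
  obtain ⟨v, hv⟩ : ∃ v : V κ, ∀ i, dz (fun w => (F w : ℂ)) i z =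
      (jr Φ z *ᵥ v) i + m * dz (lgm G Φ) i z := by
    refine ⟨((((‖s (Φ z)‖ ^ 2)⁻¹ : ℝ) : ℂ) * star (s (Φ z))) •
      fun α => fderiv ℂ s (Φ z) (Pi.single α 1), fun i => ?_⟩
    rw [dz_congr eC, dz_add (c2s.differentiableAt two_ne_zero)
      ((c2L.differentiableAt two_ne_zero).const_mul _), dz_cmul _ (c2L.differentiableAt two_ne_zero),
      dz_real_comp (u := fun w => ‖s (Φ w)‖ ^ 2) (Real.hasDerivAt_log (by positivity))
      ((DvA.cd_nsq t1 1).differentiableAt one_ne_zero), DvA.dz_nsq t1,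
      dz_comp_jr hs.differentiableAt h.differentiableAt, mulVec_smul, Pi.smul_apply, smul_eq_mul]
    ring
  obtain ⟨-, p2, p3⟩ := ha.pj_psd _ _ _ _ (hK.2 z hz) h0
  have dd : ∀ j i, DifferentiableAt ℝ (fun w => (G w).det * pj (G w) (jr Φ w) j i) z := fun j i =>
    (dG hK hz).det.mul (dP hK hz h h0 j i)
  have e2 : dvP G P (fun w => (F w : ℂ)) z = ∑ i, ∑ j,
      (dz (fun w => (G w).det * pj (G w) (jr Φ w) j i) i z * star (dz (fun w => (F w : ℂ)) j z) +
        (G z).det * (m * (pj (G z) (jr Φ z) j i * levi (lgm G Φ) z i j))) := by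
    refine Finset.sum_congr rfl fun i _ => ?_
    rw [dz_congr (g := fun w => ∑ j, (G w).det * pj (G w) (jr Φ w) j i *
        dzb (fun w => (F w : ℂ)) j w) (hP.mono fun w q => by
          simp only [q.1, Finset.mul_sum, mul_assoc]),
      dz_sum _ fun j _ => (dd j i).fun_mul (differentiableAt_dzb c2F j)]
    refine Finset.sum_congr rfl fun j _ => ?_
    rw [dz_mul (dd j i) (differentiableAt_dzb c2F j), dzb_ofReal, ← levi_apply, e1,
      Matrix.smul_apply, smul_eq_mul]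
    ring
  have e3 : ∑ j, (∑ i, ((G z)⁻¹ - pj (G z) (jr Φ z)) j i * dz (lgm G Φ) i z) *
      star ((jr Φ z *ᵥ v) j) = 0 := by
    have q : (jr Φ z)ᴴ * ((G z)⁻¹ - pj (G z) (jr Φ z)) = 0 := by
      rw [← p2.1.eq, ← conjTranspose_mul, Matrix.sub_mul, p3, sub_self, conjTranspose_zero]
    have := congrArg (fun A => star v ⬝ᵥ A *ᵥ fun i => dz (lgm G Φ) i z) q
    simp only [zero_mulVec, dotProduct_zero, ← mulVec_mulVec, dotProduct_mulVec (star v),
      ← star_mulVec] at this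
    rw [← this, dotProduct_comm]
    rfl
  have e4 := ha.qf_psd ι _ (fun i => dz (lgm G Φ) i z) p2
  have e5 := c1 hK hz h ha hU h0
  have e6 : dvP G P (fun w => (F w : ℂ)) z = ((G z).det.re : ℂ) * ((m : ℝ) *
      (qf ((G z)⁻¹ - pj (G z) (jr Φ z)) (fun i => dz (lgm G Φ) i z) (fun i => dz (lgm G Φ) i z) +
        ∑ i, ∑ j, pj (G z) (jr Φ z) j i * levi (lgm G Φ) z i j)) := by
    rw [e2, ← (mat.det ι _ (hK.2 z hz)).2]
    simp only [Finset.sum_add_distrib, ← Finset.mul_sum]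
    rw [Finset.sum_comm]
    simp only [← Finset.sum_mul, c2 hK hz h ha hU h0, hv, star_add, mul_add, mul_assoc,
      Finset.sum_add_distrib, ← Finset.mul_sum, e3, qf, star_mul', star_natCast, ofReal_natCast]
    rw [Finset.sum_comm (f := fun i j => _ * (dz (lgm G Φ) i z * _))]
    simp only [Finset.sum_mul, Finset.mul_sum, mul_zero, zero_add]
    congr 1
    exact Finset.sum_congr rfl fun _ _ => Finset.sum_congr rfl fun _ _ => by ring
  rw [e6, re_ofReal_mul, re_ofReal_mul, add_re, hP.self_of_nhds.1]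
  exact mul_le_mul_of_nonneg_left (mul_le_mul_of_nonneg_left (by linarith) m.cast_nonneg)
    (Green.det_pos (hK.2 z hz)).le

end

end Pool.Agent.Lib.MP_d44e50_ag
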