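import Pool.Agent.Lib.MP_d44e50_ag.Kit

/-! Analytic sets outside a small set are null; the good set has full measure. -/

namespace Pool.Agent.Lib.MP_d44e50_ag

open Pool.Agent.Lib.MP_813db1_ag.HS MeasureTheory Complex Matrix Filter Topology Set Metric
open scoped ContDiff ComplexOrder

namespace Nul

variable {ι X : Type} [Fintype ι] [DecidableEq ι] [TopologicalSpace X]

omit [DecidableEq ι] in
/-- points of a chart ball form a neighbourhood. -/
theorem ev_ball (e : Ch ι X) {x : X} (hx : x ∈ e.source) {r : ℝ} (hr : 0 < r) :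
    ∀ᶠ y in 𝓝 x, y ∈ e.source ∧ e y ∈ ball (e x) r :=
  (e.open_source.eventually_mem hx).and
    ((e.continuousAt hx).eventually (isOpen_ball.mem_nhds (mem_ball_self hr)))

omit [DecidableEq ι] in
/-- a ball on which the local description holds. -/
theorem ex_ball {M : Atl ι X} {I Z : Set X} {A : Type} (hI : IsClosed I) {x : X} (hx : x ∉ I)
    (h : ∃ h : A → V ι → ℂ, ∀ᶠ w in 𝓝 (M.ch x x), (∀ a, AnalyticAt ℂ (h a) w) ∧
      ((M.ch x).symm w ∈ Z ↔ ∀ a, h a w = 0)) :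
    ∃ (h : A → V ι → ℂ) (r : ℝ), 0 < r ∧ ∀ w ∈ ball (M.ch x x) r, w ∈ (M.ch x).target ∧
      (M.ch x).symm w ∉ I ∧ (∀ a, AnalyticAt ℂ (h a) w) ∧
      ((M.ch x).symm w ∈ Z ↔ ∀ a, h a w = 0) := by
  obtain ⟨h, hh⟩ := h
  have e := ((M.ch x).open_target.eventually_mem ((M.ch x).map_source (M.mem x))).and
    ((((M.ch x).tendsto_symm (M.mem x)).eventually (hI.isOpen_compl.mem_nhds hx)).and hh)
  obtain ⟨r, hr, q⟩ := Metric.eventually_nhds_iff_ball.1 e
  exact ⟨h, r, hr, fun w hw => ⟨(q w hw).1, (q w hw).2.1, (q w hw).2.2⟩⟩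

omit [DecidableEq ι] in
theorem of_ball {e : Ch ι X} {I Z : Set X} {x : X} (hx : x ∈ e.source) {r : ℝ} (hr : 0 < r)
    (h : ∀ w ∈ ball (e x) r, e.symm w ∉ I → e.symm w ∈ Z) : ∀ᶠ y in 𝓝 x, y ∉ I → y ∈ Z := by
  filter_upwards [ev_ball e hx hr] with y hy hn
  have := h _ hy.2
  rw [e.left_inv hy.1] at this
  exact this hn

omit [DecidableEq ι] in
/-- a point of the closure has a point of the set in each chart ball. -/
theorem near {e : Ch ι X} {O : Set X} {x : X} (hx : x ∈ e.source) {r : ℝ} (hr : 0 < r)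
    (hc : x ∈ closure O) : ∃ y ∈ O, y ∈ e.source ∧ e y ∈ ball (e x) r := by
  obtain ⟨y, a, b⟩ := ((mem_closure_iff_frequently.1 hc).and_eventually (ev_ball e hx hr)).exists
  exact ⟨y, a, b⟩

end Nul

open Nul in
theorem nul (ht : ThinS) : NulS := by
  intro ι X _ _ _ _ _ _ _ _ M g μ I Z A x0 hK hμ hI hT h0 hh hf
  set O : Set X := {x | ∀ᶠ y in 𝓝 x, y ∉ I → y ∈ Z} with hO
  have ho : IsOpen O := isOpen_setOf_eventually_nhds
  have k1 : ∀ x ∈ closure O, x ∉ I → x ∈ O := fun x hc hx => by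
    obtain ⟨h, r, hr, q⟩ := ex_ball hI hx (hh x hx)
    obtain ⟨y, a, b, c⟩ := near (M.mem x) hr hc
    refine of_ball (M.mem x) hr fun w hw _ => (q w hw).2.2.2.2 fun i => ?_
    have an : AnalyticOnNhd ℂ (h i) (ball (M.ch x x) r) := fun w hw => (q w hw).2.2.1 i
    refine an.eqOn_zero_of_preconnected_of_eventuallyEq_zero (convex_ball _ _).isPreconnected c
      ?_ hw
    filter_upwards [isOpen_ball.mem_nhds c, ((M.ch x).tendsto_symm b).eventually a] with v hv u
    exact (q v hv).2.2.2.1 (u (q v hv).2.1) i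
  have k2 : IsClosed O := by
    refine closure_subset_iff_isClosed.1 fun x hc => ?_
    set e := M.ch x
    set E : Set (V ι) := {z | z ∈ e.target ∧ e.symm z ∈ I}
    obtain ⟨r, hr, q⟩ := Metric.mem_nhds_iff.1 (e.open_target.mem_nhds (e.map_source (M.mem x)))
    have cs : ContinuousOn e.symm (ball (e x) r) := e.continuousOn_symm.mono q
    have eo : ball (e x) r \ E = ball (e x) r ∩ e.symm ⁻¹' Iᶜ := by
      ext z
      exact ⟨fun u => ⟨u.1, fun v => u.2 ⟨q u.1, v⟩⟩, fun u => ⟨u.1, fun v => u.2 v.2⟩⟩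
    have op : IsOpen (ball (e x) r \ E) :=
      eo ▸ cs.isOpen_inter_preimage isOpen_ball hI.isOpen_compl
    have pc := (ht.conn ι _ E (convex_ball _ _) op isOpen_ball (hT x)).image _
      (cs.mono diff_subset)
    obtain ⟨y, a, b, c⟩ := near (M.mem x) hr hc
    obtain ⟨z, z1, z2, z3⟩ := ((ht.dense ι E (e y) (hT x)).and_eventually
      ((isOpen_ball.eventually_mem c).and ((e.tendsto_symm b).eventually (ho.mem_nhds a)))).exists
    have sub := pc.subset_of_closure_inter_subset ho ⟨e.symm z, ⟨z, ⟨z2, z1⟩, rfl⟩, z3⟩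
      (by
        rintro _ ⟨u, w, hw, rfl⟩
        exact k1 _ u fun v => hw.2 ⟨q hw.1, v⟩)
    exact of_ball (M.mem x) hr fun w hw hn =>
      Eventually.self_of_nhds (sub ⟨w, ⟨hw, fun v => hn v.2⟩, rfl⟩) hn
  have n0 : x0 ∉ O := fun u =>
    hf (((hI.isOpen_compl.eventually_mem h0).and u).mono fun y v => not_not.2 (v.2 v.1))
  have k3 : ∀ x, x ∉ O := fun x u => by
    rcases isClopen_iff.1 ⟨k2, ho⟩ with v | v
    · exact (v ▸ u : x ∈ (∅ : Set X))
    · exact n0 (v ▸ mem_univ x0)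
  letI : ChartedSpace (V ι) X := ⟨M.A, M.ch, M.mem, M.ch_mem⟩
  haveI := ChartedSpace.secondCountable_of_sigmaCompact (V ι) X
  refine measure_null_of_locally_null _ fun x hx => ?_
  obtain ⟨h, r, hr, q⟩ := ex_ball hI hx.2 (hh x hx.2)
  have ex : ∃ i, ∃ w ∈ ball (M.ch x x) r, h i w ≠ 0 := by
    by_contra u
    push Not at u
    exact k3 x (of_ball (M.mem x) hr fun w hw _ => (q w hw).2.2.2.2 fun i => u i w hw)
  obtain ⟨i, hi⟩ := ex
  have z := zero ι _ (h i) isOpen_ball (convex_ball _ _).isPreconnected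
    (fun w hw => (q w hw).2.2.1 i) hi
  set S := toMeasurable volume {w ∈ ball (M.ch x x) r | h i w = 0} ∩ ball (M.ch x x) r
  have ms : MeasurableSet S := (measurableSet_toMeasurable _ _).inter measurableSet_ball
  have zs : volume S = 0 :=
    measure_mono_null inter_subset_left (by rw [measure_toMeasurable]; exact z)
  have l := ((kV ι X M g hK).2 μ hμ).lint _ (M.ch_mem x) S ms (fun w hw => (q w hw.2).1) fun _ => 1
  rw [setLIntegral_measure_zero _ _ zs, setLIntegral_one] at l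
  refine ⟨_, ?_, l⟩
  filter_upwards [mem_nhdsWithin_of_mem_nhds (ev_ball (M.ch x) (M.mem x) hr),
    self_mem_nhdsWithin] with y hy hz
  refine ⟨hy.1, subset_toMeasurable _ _ ⟨hy.2, (q _ hy.2).2.2.2.1 ?_ i⟩, hy.2⟩
  rw [(M.ch x).left_inv hy.1]
  exact hz.1

namespace Nul

variable {ι κ X Y : Type} [Fintype ι] [DecidableEq ι] [Fintype κ] [DecidableEq κ]
  [TopologicalSpace X] [ChartedSpace (ι → ℂ) X] [TopologicalSpace Y] [ChartedSpace (κ → ℂ) Y]
  {N : ℕ} {D : Dat ι κ X Y N} {m a : ℕ} {s : Ch κ Y → V κ → ℂ}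

theorem pd (x : X) {w : V ι} (hw : w ∈ (D.M.ch x).target) :
    (D.M.repF D.g (D.M.ch x) w).PosDef := (D.isK _ (D.M.ch_mem x)).2 w hw

/-- the good set in a chart. -/
theorem memW (ha : AlgS) (hB : D.Bas) (hs : IsSec D.ρ m a s) (hm : 1 ≤ m) (x : X) {f : Ch κ Y}
    (hf : f ∈ atlas (κ → ℂ) Y) {w : V ι} (hw : w ∈ (D.M.ch x).target)
    (hI : (D.M.ch x).symm w ∉ D.I) (hφ : D.φ ((D.M.ch x).symm w) ∈ f.source) :
    (D.M.ch x).symm w ∈ D.W m a s ↔ D.σ (D.M.ch x) w D.j ≠ 0 ∧ s f (D.Φ (D.M.ch x) f w) ≠ 0 ∧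
      (gm (D.M.repF D.g (D.M.ch x) w) (jr (D.Φ (D.M.ch x) f) w)).det ≠ 0 := by
  have hy := (D.M.ch x).map_target hw
  have e := (D.M.ch x).right_inv hw
  have r := hB.memW x _ hy
  rw [e] at r
  refine (and_congr_right fun u => ?_).trans (and_congr_left' r)
  have t := hB.tau_eq m a s hs x f hf _ hy u hφ
  have p := (hB.an x f hf _ hy hI hφ).2.1.1 u
  rw [e] at t
  rw [t]
  constructor
  · intro v
    refine ⟨fun z => v ?_, fun z => v ?_⟩
    · have z' : s f (f (D.φ ((D.M.ch x).symm w))) = 0 := z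
      simp [z']
    · simp [z, Nat.one_le_iff_ne_zero.1 hm]
  · intro v
    have d := (ha.gm_pd ι κ _ _ (pd x hw) v.2).det_pos
    have v1 : s f (f (D.φ ((D.M.ch x).symm w))) ≠ 0 := v.1
    exact mul_ne_zero (pow_ne_zero _ (norm_ne_zero_iff.2 (div_ne_zero v1 (pow_ne_zero _ p))))
      (pow_ne_zero _ (Complex.pos_iff.1 d).1.ne')

theorem an_det {Φ : V ι → V κ} {z : V ι} (h : AnalyticAt ℂ Φ z) (ξ : Matrix ι κ ℂ) :
    AnalyticAt ℂ (fun w => (ξᴴ * jr Φ w).det) z := by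
  simp only [det_apply', Matrix.mul_apply]
  exact Finset.analyticAt_fun_sum _ fun _ _ => analyticAt_const.mul
    (Finset.analyticAt_fun_prod _ fun _ _ => Finset.analyticAt_fun_sum _ fun _ _ =>
      analyticAt_const.mul (jr_an h _ _))

theorem an_σ (x : X) {w : V ι} (hw : w ∈ (D.M.ch x).target) :
    AnalyticAt ℂ (fun w => D.σ (D.M.ch x) w D.j) w :=
  analyticAt_pi_iff.1 (D.hσ.1 _ (D.chA x) w hw) D.j

end Nul

open Nul in
theorem g3 (ha : AlgS) (hn : NulS) : G3S := by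
  intro ι κ X Y _ _ _ _ _ _ _ _ _ _ _ _ _ N D μ m a s hB hμ hs hm h0
  have w0 : D.x0 ∈ D.Wr := D.j0
  have i0 : D.x0 ∉ D.I := fun u => D.j0 (congrFun u D.j)
  have z1 := hn ι X D.M D.g μ ∅ D.Wrᶜ Unit D.x0 D.isK hμ isClosed_empty
    (fun y u => u.elim fun _ v => v.2.elim) (notMem_empty _)
    (fun x _ => ⟨fun _ w => D.σ (D.M.ch x) w D.j, by
      filter_upwards [(D.M.ch x).open_target.mem_nhds ((D.M.ch x).map_source (D.M.mem x))]
        with w hw
      refine ⟨fun _ => an_σ x hw, ?_⟩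
      have r := hB.memW x _ ((D.M.ch x).map_target hw)
      rw [(D.M.ch x).right_inv hw] at r
      rw [mem_compl_iff, r, not_not]
      exact ⟨fun u _ => u, fun u => u ()⟩⟩)
    ((hB.opW.eventually_mem w0).frequently.mono fun _ u v => v u)
  rw [diff_empty] at z1
  have zI : μ D.I = 0 :=
    measure_mono_null (t := D.Wrᶜ) (fun x u (v : x ∈ D.Wr) => v (congrFun u D.j)) z1
  have z2 := hn ι X D.M D.g μ D.I (D.W m a s)ᶜ (Matrix ι κ ℂ) D.x0 D.isK hμ hB.clI hB.thin i0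
    (fun x hx => ⟨fun ξ w => D.σ (D.M.ch x) w D.j * s (D.cf x) (D.Φ (D.M.ch x) (D.cf x) w) *
      (ξᴴ * jr (D.Φ (D.M.ch x) (D.cf x)) w).det, by
      filter_upwards [(hB.an x _ (hB.cfA x).1 x (D.M.mem x) hx (hB.cfA x).2).2.2] with w hw
      have an := (hB.an x _ (hB.cfA x).1 _ ((D.M.ch x).map_target hw.1) hw.2.1 hw.2.2).1
      rw [(D.M.ch x).right_inv hw.1] at an
      refine ⟨fun ξ => ((an_σ x hw.1).mul (AnalyticAt.comp (g := s (D.cf x))
        (hB.sec_an m a s hs _ (hB.cfA x).1 _ ((D.cf x).map_source hw.2.2)) an)).mul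
        (an_det an ξ), ?_⟩
      rw [mem_compl_iff, memW ha hB hs hm x (hB.cfA x).1 hw.1 hw.2.1 hw.2.2]
      constructor
      · intro u ξ
        by_contra v
        simp only [mul_eq_zero, not_or] at v
        exact u ⟨v.1.1, v.1.2, fun z => v.2 (ha.gm_zero ι κ _ _ ξ (pd x hw.1) z)⟩
      · intro u v
        obtain ⟨ξ, -, -, e⟩ := ha.frame ι κ _ _ (pd x hw.1) v.2.2
        have d := (Complex.pos_iff.1 (ha.gm_pd ι κ _ _ (pd x hw.1) v.2.2).det_pos).1
        refine mul_ne_zero (mul_ne_zero v.1 v.2.1) (fun z => ?_) (u ξ)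
        rw [z, norm_zero] at e
        simp only [← e] at d
        norm_num at d⟩)
    (by
      have t0 := (D.M.ch D.x0).map_source (D.M.mem D.x0)
      have an := hB.an D.x0 _ (hB.cfA D.x0).1 D.x0 (D.M.mem D.x0) i0 (hB.cfA D.x0).2
      have c := (cd_det_gm (n := 0) (fun i j =>
        ((D.isK _ (D.M.ch_mem D.x0)).1.1 _ t0 i j).of_le (by simp))
        (pd D.x0 t0).det_pos.ne' an.1).continuousAt
      have c0 := c.eventually_ne (y := 0) (by
        simp only [(kA ι X D.M).repF_self]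
        exact hB.rk0)
      have s0 := (an_σ D.x0 t0).continuousAt.eventually_ne D.j0
      refine ((D.M.ch D.x0).tendsto_symm (D.M.mem D.x0)).frequently ?_
      refine (h0.and_eventually (an.2.2.and (c0.and s0))).mono fun w u v => v ?_
      exact (memW ha hB hs hm D.x0 (hB.cfA D.x0).1 u.2.1.1 u.2.1.2.1 u.2.1.2.2).2
        ⟨u.2.2.2, u.1, u.2.2.1⟩)
  exact measure_mono_null (t := (D.W m a s)ᶜ \ D.I ∪ D.I)
    (fun x u => (em (x ∈ D.I)).elim Or.inr fun v => Or.inl ⟨u, v⟩) (measure_union_null z2 zI)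

end Pool.Agent.Lib.MP_d44e50_ag
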