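import Pool.Agent.Lib.MP_d44e50_ag.St2
import Pool.Agent.Lib.MP_813db1_ag.HS.Main

/-! The pointwise condition is a special case. -/

namespace Pool.Agent.Lib.MP_d44e50_ag

open Pool.Agent.Lib.MP_813db1_ag.HS MeasureTheory Complex Matrix Filter Topology Set
open scoped ContDiff ComplexOrder Manifold

theorem alm_of {ι X : Type} (κ : Type) [Fintype ι] [DecidableEq ι] [Fintype κ] [DecidableEq κ]
    [TopologicalSpace X] [T2Space X] [CompactSpace X] [Nonempty X] [MeasurableSpace X]
    [BorelSpace X] [ChartedSpace (ι → ℂ) X] [IsManifold 𝓘(ℂ, ι → ℂ) ω X] {K : Kahler ι X}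
    (h : HscGe K fun _ => 0) : Alm κ K := by
  obtain ⟨M, g, hA, -, hg, hrep⟩ := maxAtl kA ι X K
  obtain ⟨⟨μ, hμ⟩, -⟩ := kV ι X M g hg
  have t : ∀ x, trK K K x = Fintype.card ι := fun x => by
    rw [trK, Matrix.mul_nonsing_inv _ (K.pos _ (chart_mem_atlas _ x) _
      (mem_chart_target _ x)).det_pos.ne'.isUnit, trace_one, natCast_re]
  refine ⟨max (Fintype.card ι) (∫ x, trK K K x ∂μ), univ, isOpen_univ, univ_nonempty, fun ε e =>
    ⟨K, μ, fun _ => 0, fun f hf => ?_, continuous_const, .inl h, by simpa using e.le,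
      le_max_right _ _, fun x _ => (t x).trans_le (le_max_left _ _)⟩⟩
  rw [hμ _ (hA hf)]
  congr 1
  refine withDensity_congr_ae ?_
  filter_upwards [ae_restrict_mem f.open_target.measurableSet] with w hw
  rw [hrep _ hf w hw]

end Pool.Agent.Lib.MP_d44e50_ag
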