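import Pool.Agent.Lib.MP_d44e50_ag.Kit

/-! Radial means of plurisubharmonic functions. -/

namespace Pool.Agent.Lib.MP_d44e50_ag

open Pool.Agent.Lib.MP_813db1_ag.HS MeasureTheory Complex Matrix Filter Topology Set Metric
open scoped ContDiff ComplexOrder

set_option linter.unusedSectionVars false

noncomputable section

namespace Rad

variable {ι : Type} [Fintype ι] [DecidableEq ι] {p : V ι} {r s : ℝ} {O : Set (V ι)}

theorem an (p y : V ι) (i : ι) : AnalyticAt ℂ (fun x : V ι => (x - p) i) y :=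
  analyticAt_pi_iff.1 (analyticAt_id.sub analyticAt_const) i

theorem dz_c (p y : V ι) (i k : ι) : dz (fun x : V ι => (x - p) i) k y = if i = k then 1 else 0 := by
  simp only [Pi.sub_apply]
  rw [dz_sub (by fun_prop) (by fun_prop), dz_coord, dz_const, sub_zero]

theorem cd_q (p y : V ι) (n : WithTop ℕ∞) : ContDiffAt ℝ n (fun x => eq2 (x - p)) y :=
  ContDiffAt.sum fun i _ => MP_bbd4b9_ag.LC.DvA.cd_nsq (an p y i) n

theorem cont_q (p : V ι) : Continuous fun x => eq2 (x - p) :=
  continuous_iff_continuousAt.2 fun y => (cd_q p y 0).continuousAt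

theorem dz_q (p y : V ι) (k : ι) : dz (fun x => (eq2 (x - p) : ℂ)) k y = star ((y - p) k) := by
  simp only [eq2, ofReal_sum]
  rw [dz_sum _ fun i _ => differentiableAt_ofReal.2
    ((MP_bbd4b9_ag.LC.DvA.cd_nsq (an p y i) 1).differentiableAt one_ne_zero)]
  simp only [MP_bbd4b9_ag.LC.DvA.dz_nsq (an p y _), dz_c, ite_mul, one_mul, zero_mul,
    Finset.sum_ite_eq', Finset.mem_univ, if_true]

theorem le_q (y : V ι) : ‖y‖ ≤ √(eq2 y) :=
  (pi_norm_le_iff_of_nonneg (Real.sqrt_nonneg _)).2 fun i => Real.le_sqrt_of_sq_le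
    (Finset.single_le_sum (f := fun i => ‖y i‖ ^ 2) (fun _ _ => by positivity) (Finset.mem_univ i))

theorem cpt (p : V ι) (r : ℝ) : IsCompact {y | eq2 (y - p) ≤ r} :=
  (isCompact_closedBall p √r).of_isClosed_subset (isClosed_le (cont_q p) continuous_const)
    fun _ hy => mem_closedBall_iff_norm.2 ((le_q _).trans (Real.sqrt_le_sqrt hy))

theorem pp0 (k : ℕ) {t : ℝ} (hs : 0 < s) (h : s ≤ t) : pp (k + 1) (1 - t / s) = 0 :=
  pp_of_nonpos k (sub_nonpos.2 ((one_le_div hs).2 h))

theorem key (hO : IsOpen O) (hs : ∀ y, eq2 (y - p) ≤ r → y ∈ O) {A : V ι → V ι}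
    (hA : ∀ y ∈ O, ∀ i, ContDiffAt ℝ 1 (fun x => A x i) y) {g g' : ℝ → ℝ} (hg : ContDiff ℝ 1 g)
    (hd : ∀ t, HasDerivAt g (g' t) t) (h0 : ∀ t, r ≤ t → g t = 0 ∧ g' t = 0) {a b : V ι → ℝ}
    (ha : ContinuousOn a {y | eq2 (y - p) ≤ r}) (hb : ContinuousOn b {y | eq2 (y - p) ≤ r})
    (e : ∀ y ∈ O, (g (eq2 (y - p)) * Div.dv A y + g' (eq2 (y - p)) *
      ∑ i, star ((y - p) i) * A y i).re = a y - b y) :
    ∫ y in {y | eq2 (y - p) ≤ r}, a y = ∫ y in {y | eq2 (y - p) ≤ r}, b y := by
  have c : ∀ y, ContDiffAt ℝ 1 (fun x => (g (eq2 (x - p)) : ℂ)) y := fun y =>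
    contDiffAt_ofReal.2 (hg.contDiffAt.comp y (cd_q p y 1))
  have c' : ∀ y ∈ O, ContDiffAt ℝ 1 (fun x => (g (eq2 (x - p)) : ℂ) • A x) y := fun y hy =>
    (c y).smul (contDiffAt_pi.2 (hA y hy))
  have d : ∀ y ∈ O, Div.dv (fun x => (g (eq2 (x - p)) : ℂ) • A x) y = g (eq2 (y - p)) * Div.dv A y +
      g' (eq2 (y - p)) * ∑ i, star ((y - p) i) * A y i := fun y hy => by
    simp only [Div.dv, Pi.smul_apply, smul_eq_mul, Finset.mul_sum, ← Finset.sum_add_distrib]
    refine Finset.sum_congr rfl fun i _ => ?_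
    rw [dz_mul ((c y).differentiableAt one_ne_zero) ((hA y hy i).differentiableAt one_ne_zero),
      dz_real_comp (hd _) ((cd_q p y 1).differentiableAt one_ne_zero), dz_q]
    ring
  have hs' : {y | eq2 (y - p) ≤ r} ⊆ O := hs
  have i0 := Div.int_dv hO (cpt p r) hs' c' fun y _ hy => by
    rw [(h0 _ (not_le.1 hy).le).1, ofReal_zero, zero_smul]
  rw [setIntegral_eq_of_subset_of_forall_sdiff_eq_zero hO.measurableSet hs' fun y hy => by
    rw [d y hy.1, (h0 _ (not_le.1 hy.2).le).1, (h0 _ (not_le.1 hy.2).le).2]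
    simp] at i0
  have ig : IntegrableOn (Div.dv fun x => (g (eq2 (x - p)) : ℂ) • A x) {y | eq2 (y - p) ≤ r} :=
    ContinuousOn.integrableOn_compact (cpt p r) fun y hy => ContinuousAt.continuousWithinAt
      (tendsto_finsetSum _ fun i _ => (contDiffAt_dz (m := 0)
        (contDiffAt_pi.1 (c' y (hs y hy)) i) (by simp) i).continuousAt)
  rw [← sub_eq_zero, ← integral_sub (ha.integrableOn_compact (cpt p r))
    (hb.integrableOn_compact (cpt p r)), ← zero_re, ← i0, ← reCLM_apply,
    ← reCLM.integral_comp_comm ig]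
  exact setIntegral_congr_fun (cpt p r).measurableSet fun y hy => by
    simp only [reCLM_apply, d y (hs y hy), e y (hs y hy)]

theorem dv_eu {f : V ι → ℂ} {y : V ι} (hf : ContDiffAt ℝ 1 f y) :
    Div.dv (fun x i => (x - p) i * f x) y = Fintype.card ι * f y + ∑ i, (y - p) i * dz f i y := by
  simp only [Div.dv, dz_mul ((an p y _).differentiableAt.restrictScalars ℝ)
    (hf.differentiableAt one_ne_zero), dz_c, if_true, one_mul, Finset.sum_add_distrib,
    Finset.sum_const, Finset.card_univ, nsmul_eq_mul]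

theorem sum_eu (v : V ι) (c : ℂ) : ∑ i, star (v i) * (v i * c) = eq2 v * c := by
  rw [eq2, ofReal_sum, Finset.sum_mul]
  exact Finset.sum_congr rfl fun i _ => by rw [Green.nsq]; ring

/-- the derivative of the kernel in the radius. -/
def dk (n : ℕ) (s t : ℝ) : ℝ :=
  (2 * pp 1 (1 - t / s) * (t / s) - n * pp 2 (1 - t / s)) / s ^ n / s

theorem hd_s (n : ℕ) (hs : 0 < s) (t : ℝ) :
    HasDerivAt (fun s => pp 2 (1 - t / s) / s ^ n) (dk n s t) s := by
  have := ((hasDerivAt_pp 0 _).comp s (((hasDerivAt_inv hs.ne').const_mul t).const_sub 1)).div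
    (hasDerivAt_pow n s) (pow_ne_zero n hs.ne')
  simp only [dk, div_eq_mul_inv t]
  refine this.congr_deriv ?_
  have := hs.ne'
  rcases n with _ | n
  all_goals
    simp only [Function.comp, Nat.add_sub_cancel, Nat.cast_zero, zero_add, pow_succ, pow_zero]
    field_simp
    try ring

theorem hd_t (k : ℕ) (c s t : ℝ) : HasDerivAt (fun t => c * pp (k + 2) (1 - t / s))
    (c * ((k + 2) * pp (k + 1) (1 - t / s) * -(1 / s))) t :=
  ((hasDerivAt_pp k _).comp t (((hasDerivAt_id t).div_const s).const_sub 1)).const_mul c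

theorem cd_t (k : ℕ) (c s : ℝ) : ContDiff ℝ 1 fun t => c * pp (k + 2) (1 - t / s) :=
  contDiff_const.mul ((contDiff_pp1 k).comp (contDiff_const.sub (contDiff_id.div_const s)))

theorem cont_p (k : ℕ) (s : ℝ) (p : V ι) : Continuous fun y => pp k (1 - eq2 (y - p) / s) :=
  (continuous_pp k).comp (continuous_const.sub ((cont_q p).div_const s))

theorem cont_k (s : ℝ) (p : V ι) : Continuous fun y => ker s (y - p) := (cont_p 2 s p).div_const _

theorem cont_d (n : ℕ) (s : ℝ) (p : V ι) : Continuous fun y => dk n s (eq2 (y - p)) :=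
  ((((continuous_const.mul (cont_p 1 s p)).mul ((cont_q p).div_const s)).sub
    (continuous_const.mul (cont_p 2 s p))).div_const _).div_const _

theorem der {f : V ι → ℝ} (hf : ContinuousOn f {y | eq2 (y - p) ≤ r}) (hs : 0 < s) :
    HasDerivAt (fun s => ∫ y in {y | eq2 (y - p) ≤ r}, f y * ker s (y - p))
      (∫ y in {y | eq2 (y - p) ≤ r}, f y * dk (Fintype.card ι) s (eq2 (y - p))) s := by
  have h2 : ∀ x ∈ Icc (s / 2) (2 * s), 0 < x := fun x hx => (half_pos hs).trans_le hx.1
  have c : ∀ k, ContinuousOn (fun x : ℝ × V ι => pp k (1 - eq2 (x.2 - p) / x.1))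
      (Icc (s / 2) (2 * s) ×ˢ {y | eq2 (y - p) ≤ r}) := fun k =>
    (continuous_pp k).comp_continuousOn (continuousOn_const.sub
      (((cont_q p).comp continuous_snd).continuousOn.div continuousOn_fst fun x hx => (h2 _ hx.1).ne'))
  obtain ⟨C, hC⟩ := (isCompact_Icc.prod (cpt p r)).exists_bound_of_continuousOn
    (f := fun x : ℝ × V ι => f x.2 * dk (Fintype.card ι) x.1 (eq2 (x.2 - p)))
    ((hf.comp continuousOn_snd fun x hx => hx.2).mul (((((continuousOn_const.mul (c 1)).mul
      (((cont_q p).comp continuous_snd).continuousOn.div continuousOn_fst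
        fun x hx => (h2 _ hx.1).ne')).sub (continuousOn_const.mul (c 2))).div
      (continuousOn_fst.pow _) fun x hx => pow_ne_zero _ (h2 _ hx.1).ne').div continuousOn_fst
        fun x hx => (h2 _ hx.1).ne'))
  have m := (cpt p r).measurableSet
  refine (hasDerivAt_integral_of_dominated_loc_of_deriv_le (bound := fun _ => C)
    (F' := fun s y => f y * dk (Fintype.card ι) s (eq2 (y - p)))
    (Icc_mem_nhds (half_lt_self hs) (lt_two_mul_self hs))
    (.of_forall fun x => (hf.mul (cont_k x p).continuousOn).aestronglyMeasurable m)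
    ((hf.mul (cont_k s p).continuousOn).integrableOn_compact (cpt p r))
    ((hf.mul (cont_d _ s p).continuousOn).aestronglyMeasurable m)
    ((ae_restrict_mem m).mono fun y hy x hx => hC (x, y) ⟨hx, hy⟩)
    (continuousOn_const.integrableOn_compact (cpt p r))
    (.of_forall fun y x hx => (hd_s _ (h2 x hx) _).const_mul _)).2

theorem mono {f f' : ℝ → ℝ} (h : ∀ s ∈ Ioc 0 r, HasDerivAt f (f' s) s ∧ 0 ≤ f' s) :
    MonotoneOn f (Ioc 0 r) :=
  monotoneOn_of_deriv_nonneg (convex_Ioc 0 r)
    (fun s hs => (h s hs).1.continuousAt.continuousWithinAt)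
    (fun s hs => (h s (interior_subset hs)).1.differentiableAt.differentiableWithinAt)
    fun s hs => (h s (interior_subset hs)).1.deriv ▸ (h s (interior_subset hs)).2

theorem ker_nn (hs : 0 < s) (y : V ι) : 0 ≤ ker s y := div_nonneg (pp_nonneg _ _) (by positivity)

theorem mass (p : V ι) (hr : 0 < r) : ∫ y : V ι, ker r (y - p) = ∫ y : V ι, ker 1 y := by
  have e : ∀ y : V ι, ker r y = ker 1 ((√r)⁻¹ • y) / r ^ Fintype.card ι := fun y => by
    have : eq2 ((√r)⁻¹ • y) = eq2 y / r := by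
      simp only [eq2, Pi.smul_apply, norm_smul, mul_pow, norm_inv, Real.norm_eq_abs, inv_pow, sq_abs,
        Real.sq_sqrt hr.le, ← Finset.mul_sum, div_eq_inv_mul]
    rw [ker, ker, this, one_pow, div_one, div_one]
  rw [integral_sub_right_eq_self (ker r) p]
  simp only [e]
  rw [integral_div, Measure.integral_comp_inv_smul_of_nonneg _ _ (Real.sqrt_nonneg r),
    Module.finrank_pi_fintype, Finset.sum_const, finrank_real_complex, Finset.card_univ,
    smul_eq_mul, smul_eq_mul, mul_comm _ 2, pow_mul, Real.sq_sqrt hr.le,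
    mul_div_cancel_left₀ _ (pow_ne_zero _ hr.ne')]

end Rad

open Rad in
theorem rad : RadS := by
  intro ι _ _
  have z0 : ∀ (p : V ι) {r s : ℝ}, s ∈ Ioc 0 r → ∀ y, ¬eq2 (y - p) ≤ r → ker s (y - p) = 0 :=
    fun p r s hs y hy => by rw [ker, pp0 1 hs.1 (hs.2.trans (not_le.1 hy).le), zero_div]
  refine ⟨∫ y : V ι, ker 1 y, ?_, fun p r => mass p, fun O w p r hO hr hs hw => ?_⟩
  · have c := cont_k 1 (0 : V ι)
    simp only [sub_zero] at c
    refine c.integral_pos_of_hasCompactSupport_nonneg_nonzero (x := 0)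
      (HasCompactSupport.intro (cpt 0 1) fun y hy => ?_) (ker_nn one_pos) (by simp [ker, eq2, pp])
    simpa using z0 0 ⟨one_pos, le_rfl⟩ y hy
  have w2 := fun y hy => contDiffAt_ofReal.2 (hw y hy).1
  let E : V ι → ℂ := fun y => ∑ j, star ((y - p) j) * dzb (fun x => (w x : ℂ)) j y
  have c1 : ∀ y j, ContDiffAt ℝ 1 (fun x : V ι => (x - p) j) y := fun y j =>
    (an p y j).contDiffAt.restrict_scalars ℝ
  have cE : ∀ y ∈ O, ContDiffAt ℝ 1 E y := fun y hy => ContDiffAt.sum fun j _ =>
    (Green.cd_star (c1 y j)).mul (contDiffAt_dzb (w2 y hy) le_rfl j)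
  have dE : ∀ y ∈ O, ∑ i, (y - p) i * dz E i y = ipV (levi (fun x => (w x : ℂ)) y) (y - p) (y - p) :=
    fun y hy => Finset.sum_congr rfl fun i _ => by
      have d := fun j => (Green.cd_star (c1 y j)).differentiableAt one_ne_zero
      rw [dz_sum _ fun j _ => (d j).fun_mul (differentiableAt_dzb (w2 y hy) j), Finset.mul_sum]
      refine Finset.sum_congr rfl fun j _ => ?_
      rw [dz_mul (d j) (differentiableAt_dzb (w2 y hy) j), dz_star,
        dzb_hol (an p y j).differentiableAt, levi_apply, star_zero]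
      ring
  have cw : ContinuousOn w {y | eq2 (y - p) ≤ r} := fun y hy =>
    (hw y (hs y hy)).1.continuousAt.continuousWithinAt
  have ce : ContinuousOn (fun y => (E y).re) {y | eq2 (y - p) ≤ r} := fun y hy =>
    (continuous_re.continuousAt.comp (cE y (hs y hy)).continuousAt).continuousWithinAt
  have cL : ∀ y ∈ O, CdM 0 (levi fun x => (w x : ℂ)) y := fun y hy i j =>
    contDiffAt_levi (w2 y hy) (by norm_num) i j
  let J : ℝ → ℝ := fun s => ∫ y in {y | eq2 (y - p) ≤ r}, (E y).re * ker s (y - p)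
  let I : ℝ → ℝ := fun s => ∫ y in {y | eq2 (y - p) ≤ r}, w y * ker s (y - p)
  have k0 : ∀ s ∈ Ioc 0 r, ∀ k (c d : ℝ) t, r ≤ t → c * pp (k + 2) (1 - t / s) = 0 ∧
      c * ((k + 2) * pp (k + 1) (1 - t / s) * d) = 0 := fun s h k c d t ht => by
    simp [pp0 _ h.1 (h.2.trans ht)]
  have ea : ∀ s ∈ Ioc 0 r, J s = ∫ y in {y | eq2 (y - p) ≤ r},
      (trace (levi (fun x => (w x : ℂ)) y)).re * kerP s (y - p) := fun s h =>
    (key hO hs (A := fun y i => dzb (fun x => (w x : ℂ)) i y)
      (a := fun y => (trace (levi (fun x => (w x : ℂ)) y)).re * kerP s (y - p))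
      (b := fun y => (E y).re * ker s (y - p))
      (fun y hy i => contDiffAt_dzb (w2 y hy) le_rfl i) (cd_t 1 (s / 3 / s ^ Fintype.card ι) s)
      (hd_t 1 _ s) (k0 s h 1 _ _) (ContinuousOn.mul (fun y hy => (continuous_re.continuousAt.comp
        (cL y (hs y hy)).tr.continuousAt).continuousWithinAt)
        (((continuous_const.mul (cont_p 3 s p)).div_const _).div_const _).continuousOn)
      (ce.mul (cont_k s p).continuousOn) fun y hy => by
        have := h.1.ne'
        rw [add_re, re_ofReal_mul, re_ofReal_mul, ker, kerP,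
          show Div.dv (fun y i => dzb (fun x => (w x : ℂ)) i y) y = trace (levi _ y) from rfl]
        simp only [E]
        field_simp
        ring).symm
  have eb : ∀ {f : V ι → ℂ} {a : V ι → ℝ}, (∀ y ∈ O, ContDiffAt ℝ 1 f y) →
      ContinuousOn a {y | eq2 (y - p) ≤ r} → (∀ y ∈ O, (∑ i, (y - p) i * dz f i y).re = a y) →
      ∀ s ∈ Ioc 0 r, HasDerivAt (fun s => ∫ y in {y | eq2 (y - p) ≤ r}, (f y).re * ker s (y - p))
        ((∫ y in {y | eq2 (y - p) ≤ r}, a y * ker s (y - p)) / s) s := fun {f a} hf ha e s h => by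
    have cf : ContinuousOn (fun y => (f y).re) {y | eq2 (y - p) ≤ r} := fun y hy =>
      (continuous_re.continuousAt.comp (hf y (hs y hy)).continuousAt).continuousWithinAt
    rw [← integral_div, key hO hs (A := fun x i => (x - p) i * f x)
      (a := fun y => a y * ker s (y - p) / s)
      (b := fun y => (f y).re * dk (Fintype.card ι) s (eq2 (y - p)))
      (fun y hy i => (c1 y i).mul (hf y hy)) (cd_t 0 (1 / s ^ Fintype.card ι / s) s) (hd_t 0 _ s)
      (k0 s h 0 _ _) ((ha.mul (cont_k s p).continuousOn).div_const s)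
      (cf.mul (cont_d (Fintype.card ι) s p).continuousOn) fun y hy => by
        have := h.1.ne'
        rw [dv_eu (hf y hy), sum_eu, add_re, re_ofReal_mul, re_ofReal_mul, re_ofReal_mul, add_re, e y hy,
          ← ofReal_natCast, re_ofReal_mul, ker, dk]
        simp only [Nat.cast_zero, zero_add]
        field_simp
        ring]
    exact der cf h.1
  have dI : ∀ s ∈ Ioc 0 r, HasDerivAt I (J s / s) s :=
    eb (f := fun x => (w x : ℂ)) (fun y hy => (w2 y hy).of_le one_le_two) ce fun y _ => by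
      rw [← conj_re, map_sum]
      simp only [E, dzb_ofReal, map_mul, star_def]
  have mJ : MonotoneOn J (Ioc 0 r) := mono fun s h => ⟨eb (a := fun y =>
    nV (levi (fun x => (w x : ℂ)) y) (y - p)) cE (fun y hy => (continuous_re.continuousAt.comp
      (Green.cd_ipV (cL y (hs y hy)) (fun i => (c1 y i).of_le zero_le)
        fun i => (c1 y i).of_le zero_le).continuousAt).continuousWithinAt)
    (fun y hy => congrArg re (dE y hy)) s h, div_nonneg (setIntegral_nonneg (cpt p r).measurableSet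
      fun y hy => mul_nonneg (mat.nv_mono ι _ _ (hw y (hs y hy)).2) (ker_nn h.1 _)) h.1.le⟩
  have mI : MonotoneOn I (Ioc 0 r) := mono fun s h => ⟨dI s h, div_nonneg (ea s h ▸
    setIntegral_nonneg (cpt p r).measurableSet fun y hy => mul_nonneg
      (Complex.nonneg_iff.1 (hw y (hs y hy)).2.trace_nonneg).1 (by
        have := h.1
        have := pp_nonneg 3 (1 - eq2 (y - p) / s)
        rw [kerP]
        positivity)) h.1.le⟩
  have r1 : r ∈ Ioc 0 r := ⟨hr, le_rfl⟩
  have eI : ∀ s ∈ Ioc 0 r, ∫ y, w y * ker s (y - p) = I s := fun s h =>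
    (setIntegral_eq_integral_of_forall_compl_eq_zero fun y hy => by rw [z0 p h y hy, mul_zero]).symm
  refine ⟨?_, fun s h => ?_⟩
  · rw [eI r r1]
    refine le_of_tendsto (x := 𝓝[<] w p) (f := fun a => (∫ y : V ι, ker 1 y) * a)
      ((tendsto_nhdsWithin_of_tendsto_nhds tendsto_id).const_mul _)
      (eventually_mem_nhdsWithin.mono fun a ha => ?_)
    obtain ⟨δ, δ0, hδ⟩ := Metric.eventually_nhds_iff_ball.1
      ((hw p (hs p (by simp [eq2, hr.le]))).1.continuousAt.eventually_const_lt ha)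
    have h : min r ((δ / 2) ^ 2) ∈ Ioc 0 r := ⟨by positivity, min_le_left _ _⟩
    refine le_trans ?_ (mI h r1 h.2)
    rw [← mass p h.1, ← integral_mul_const, ← setIntegral_eq_integral_of_forall_compl_eq_zero
      (s := {y | eq2 (y - p) ≤ r}) fun y hy => by rw [z0 p h y hy, zero_mul]]
    refine setIntegral_mono_on (((cont_k _ p).mul continuous_const).continuousOn.integrableOn_compact
      (cpt p r)) ((cw.mul (cont_k _ p).continuousOn).integrableOn_compact (cpt p r))
      (cpt p r).measurableSet fun y _ => ?_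
    by_cases q : eq2 (y - p) ≤ min r ((δ / 2) ^ 2)
    · rw [mul_comm]
      exact mul_le_mul_of_nonneg_right (hδ y (mem_ball_iff_norm.2 (((le_q _).trans
        (Real.sqrt_le_iff.2 ⟨by positivity, q.trans (min_le_right _ _)⟩)).trans_lt
          (half_lt_self δ0)))).le (ker_nn h.1 _)
    · rw [z0 p ⟨h.1, le_rfl⟩ y q, mul_zero, zero_mul]
  · have := mono (f := fun s => J r * Real.log s - I s) (fun s h =>
      ⟨((Real.hasDerivAt_log h.1.ne').const_mul _).sub (dI s h), sub_nonneg.2
        (mul_le_mul_of_nonneg_right (mJ h r1 h.2) (inv_nonneg.2 h.1.le))⟩) h r1 h.2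
    rw [eI r r1, eI s h, ← setIntegral_eq_integral_of_forall_compl_eq_zero
      (s := {y | eq2 (y - p) ≤ r}) fun y hy => by
        rw [kerP, pp0 2 hr (not_le.1 hy).le, mul_zero, zero_div, zero_div, mul_zero], ← ea r r1,
      Real.log_div hr.ne' h.1.ne']
    linarith

end

end Pool.Agent.Lib.MP_d44e50_ag
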