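import Pool.Agent.Lib.MP_d44e50_ag.St2

/-! A smooth metric on the line bundle. -/

namespace Pool.Agent.Lib.MP_d44e50_ag

open Pool.Agent.Lib.MP_813db1_ag.HS MeasureTheory Complex Matrix Filter Topology Set
open Pool.Agent.Lib.MP_bbd4b9_ag.LC
open scoped ContDiff ComplexOrder

set_option linter.unusedSectionVars false

namespace Rf

variable {ι κ X Y : Type} [Fintype ι] [DecidableEq ι] [Fintype κ] [DecidableEq κ]
  [TopologicalSpace X] [ChartedSpace (ι → ℂ) X] [TopologicalSpace Y] [ChartedSpace (κ → ℂ) Y]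
  {N : ℕ} (D : Dat ι κ X Y N) {r : X → ℝ}

theorem dom (L : ℝ) : ∃ C : ℝ, ∀ G B : Mat ι, G.PosDef → B.IsHermitian → Bd L G → Bd L G⁻¹ →
    Bd L B → ((C : ℂ) • G + B).PosSemidef := by
  obtain ⟨C, hC⟩ := mat.dom ι L
  refine ⟨C.re, fun G B h1 h2 h3 h4 h5 => ?_⟩
  have p := (hC G B h1 h2 h3 h4 h5).1.posSemidef
  have e := p.1.eq
  rw [conjTranspose_add, conjTranspose_smul, h1.1.eq, h2.eq, add_left_inj] at e
  rwa [re_eq_add_conj, div_eq_inv_mul, mul_smul, add_smul, starRingEnd_apply, e, ← two_smul ℂ,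
    inv_smul_smul₀ two_ne_zero]

theorem an (y : X) {w : V ι} (hw : w ∈ (D.M.ch y).target) :
    AnalyticAt ℂ (fun w => D.σ (D.M.ch y) w D.j) w :=
  analyticAt_pi_iff.1 (D.hσ.1 _ (D.chA y) w hw) D.j

theorem exRL [T2Space X] [CompactSpace X] : ∃ r, D.RL r := by
  obtain ⟨t, ht⟩ := isCompact_univ.elim_finite_subcover (fun y => (D.M.ch y).source)
    (fun y => (D.M.ch y).open_source) fun x _ => mem_iUnion.2 ⟨x, D.M.mem x⟩
  obtain ⟨χ, h1, h2⟩ := kP ι X D.M t (fun a => (D.M.ch a).source)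
    (fun a => (D.M.ch a).open_source) fun x => by simpa using ht (mem_univ x)
  refine ⟨fun x => ∑ a, χ a x * Real.log (‖D.σ (D.M.ch a) (D.M.ch a x) D.j‖ ^ 2), fun y => ?_⟩
  have hz := (D.M.ch y).map_source (D.M.mem y)
  have : ∀ a : t, ∃ c : V ι → ℂ, AnalyticAt ℂ c (D.M.ch y y) ∧ c (D.M.ch y y) ≠ 0 ∧
      ∀ᶠ w in 𝓝 (D.M.ch y y), χ a ((D.M.ch y).symm w) = 0 ∨
        D.σ (D.M.ch y) w = c w • D.σ (D.M.ch a) (D.M.ch a ((D.M.ch y).symm w)) := fun a => by
    by_cases q : y ∈ (D.M.ch a).source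
    · obtain ⟨c, c1, c2, c3⟩ := D.hσ.2 _ (D.chA y) _ (D.chA a) y (D.M.mem y) q
      exact ⟨c, c1, c2, c3.mono fun _ => .inr⟩
    · exact ⟨fun _ => 1, analyticAt_const, one_ne_zero,
        (((D.M.ch y).tendsto_symm (D.M.mem y)).eventually (notMem_tsupport_iff_eventuallyEq.1
          fun e => q ((h1 a).2.2 e))).mono fun _ => .inl⟩
  choose c c1 c2 c3 using this
  refine ⟨fun w => -∑ a, χ a ((D.M.ch y).symm w) * Real.log (‖c a w‖ ^ 2),
    (ContDiffAt.sum fun a _ => (contDiffAt_ofReal.1 ((h1 a).1 _ (D.M.ch_mem y) _ hz)).mul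
      (DvA.cd_log (c1 a) (c2 a) _)).neg, ?_⟩
  filter_upwards [eventually_all.2 c3] with w hw h0
  rw [← one_mul (Real.log _), ← h2 ((D.M.ch y).symm w), Finset.sum_mul, ← sub_eq_add_neg,
    ← Finset.sum_sub_distrib]
  refine Finset.sum_congr rfl fun a _ => (hw a).elim (fun q => by simp [q]) fun q => ?_
  rw [q, Pi.smul_apply, smul_eq_mul] at h0 ⊢
  rw [norm_mul, mul_pow, Real.log_mul (pow_ne_zero _ (norm_ne_zero_iff.2 (left_ne_zero_of_mul h0)))
    (pow_ne_zero _ (norm_ne_zero_iff.2 (right_ne_zero_of_mul h0)))]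
  ring

/-- the local form of `r` near points of the good set. -/
theorem loc (h : D.RL r) (y : X) : ∃ β : V ι → ℝ, ContDiffAt ℝ ∞ β (D.M.ch y y) ∧
    ∀ᶠ w in 𝓝 (D.M.ch y y), D.σ (D.M.ch y) w D.j ≠ 0 →
      r ((D.M.ch y).symm w) = Real.log (‖D.σ (D.M.ch y) w D.j‖ ^ 2) + β w ∧
      ContDiffAt ℝ 2 (fun w => (β w : ℂ)) w ∧ ContDiffAt ℝ 2 (fn r (D.M.ch y)) w ∧
      levi (fn r (D.M.ch y)) w = levi (fun w => (β w : ℂ)) w := by
  obtain ⟨β, b1, b2⟩ := h y
  refine ⟨β, b1, ?_⟩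
  filter_upwards [b2.eventually_nhds, (b1.of_le (m := 2) (by norm_cast)).eventually (by simp),
    (D.M.ch y).open_target.mem_nhds ((D.M.ch y).map_source (D.M.mem y))] with w w1 w2 w3 h0
  have a := an D y w3
  have c1 := contDiffAt_ofReal.2 (DvA.cd_log a h0 2)
  have c2 := contDiffAt_ofReal.2 w2
  have e : fn r (D.M.ch y) =ᶠ[𝓝 w]
      fun w => (Real.log (‖D.σ (D.M.ch y) w D.j‖ ^ 2) : ℂ) + (β w : ℂ) := by
    filter_upwards [w1, a.continuousAt.eventually_ne h0] with v v1 v2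
    rw [fn, v1 v2, ofReal_add]
  exact ⟨w1.self_of_nhds h0, c2, (c1.add c2).congr_of_eventuallyEq e, by
    rw [levi_congr e, levi_add c1 c2, DvA.levi_log a h0, zero_add]⟩

theorem bd (hB : D.Bas) (h : D.RL r) (y : X) : ∃ C : ℝ, ∀ᶠ x in 𝓝 y, x ∈ D.Wr →
    r x ≤ C ∧ ((C : ℂ) • D.g x + D.M.ddc r x).PosSemidef := by
  obtain ⟨β, b1, b2⟩ := loc D h y
  have ha := kA ι X D.M
  have he := D.M.ch_mem y
  have hz := (D.M.ch y).map_source (D.M.mem y)
  obtain ⟨L, hL⟩ := loc_bd (CdM.of_le ((D.isK _ he).1.1.cd hz) zero_le)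
    (Green.det_ne ((D.isK _ he).2 _ hz))
  have c1 : ContinuousAt (fun w => ‖(fun i j => levi (fun w => (β w : ℂ)) w i j : ι → ι → ℂ)‖)
      (D.M.ch y y) := (continuousAt_pi.2 fun i => continuousAt_pi.2 fun j =>
    (contDiffAt_levi_top (contDiffAt_ofReal.2 b1) i j).continuousAt).norm
  have c2 := (DvA.cd_nsq (an D y hz) 0).continuousAt.add b1.continuousAt
  have hL' := c1.eventually_lt_const (lt_add_one _)
  have hC' := c2.eventually_lt_const (lt_add_one _)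
  generalize _ + (1 : ℝ) = L' at hL'
  generalize _ + (1 : ℝ) = C' at hC'
  obtain ⟨C, hC⟩ := dom (ι := ι) (max L L')
  refine ⟨max C C', ?_⟩
  filter_upwards [((D.M.ch y).continuousAt (D.M.mem y)).eventually ((b2.and hL).and (hL'.and hC')),
    (D.M.ch y).open_source.mem_nhds (D.M.mem y)] with x ⟨⟨x1, x2⟩, x3, x4⟩ hx hW
  obtain ⟨e1, e2, e3, e4⟩ := x1 ((hB.memW y x hx).1 hW)
  rw [(D.M.ch y).left_inv hx] at e1
  refine ⟨e1.trans_le (le_max_of_le_right ((add_le_add_left (Real.log_le_self (sq_nonneg _))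
    _).trans x4.le)), ?_⟩
  have pd := (D.isK _ he).2 _ ((D.M.ch y).map_source hx)
  have p1 := hC _ _ pd (levi_herm_ofReal e2) (fun i j => (x2.1 i j).trans (le_max_left _ _))
    (fun i j => (x2.2 i j).trans (le_max_left _ _)) fun i j => le_max_of_le_right
      (((norm_le_pi_norm _ j).trans (norm_le_pi_norm
        (fun i j => levi (fun w => (β w : ℂ)) (D.M.ch y x) i j) i)).trans x3.le)
  have p2 := (pd.posSemidef.smul (zero_le_real.2 (sub_nonneg.2 (le_max_left C C')))).add p1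
  rw [← add_assoc, ← add_smul, ← ofReal_add, sub_add_cancel, ← e4,
    ← (kB ι X D.M).ddc_rep r _ he x hx e3] at p2
  have p3 := (mat.pull_pd ι _ _ (ha.tj_det _ (D.M.ch_mem x) _ he x (D.M.mem x) hx)).2.1 p2
  have t := fun B => (ha.repF_self B x).symm.trans
    (ha.repF_tr B _ (D.M.ch_mem x) _ he x (D.M.mem x) hx)
  rwa [t D.g, t (D.M.ddc r), pull, pull, ← Matrix.smul_mul, ← Matrix.mul_smul, ← Matrix.add_mul,
    ← Matrix.mul_add]

end Rf

open Rf

theorem rT : RT := by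
  intro ι κ X Y _ _ _ _ _ _ _ _ _ _ N D hB
  obtain ⟨r, h⟩ := exRL D
  have pd := (((kA ι X D.M).isK_iff D.g).1 D.isK).2
  have mo : ∀ a b : ℝ, ∀ x, a ≤ b → (x ∈ D.Wr → r x ≤ a ∧
      ((a : ℂ) • D.g x + D.M.ddc r x).PosSemidef) → x ∈ D.Wr → r x ≤ b ∧
      ((b : ℂ) • D.g x + D.M.ddc r x).PosSemidef := fun a b x hab q hx => by
    have := ((pd x).posSemidef.smul (zero_le_real.2 (sub_nonneg.2 hab))).add (q hx).2
    rw [← add_assoc, ← add_smul, ← ofReal_add, sub_add_cancel] at this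
    exact ⟨(q hx).1.trans hab, this⟩
  obtain ⟨C, hC⟩ := unif_bd isCompact_univ mo fun y _ => bd D hB h y
  have k := fun x => mo C _ x (le_max_left C 0) (hC x trivial)
  refine ⟨r, max C 0, h, le_max_right _ _, hB.opW, fun y x hx hy => ?_, fun x hx => (k x hx).1,
    fun x hx => (k x hx).2, fun t => isClosed_iff_frequently.2 fun y hy => ?_⟩
  · obtain ⟨β, -, b⟩ := loc D h x
    have c := (b.self_of_nhds hx).2.2.1
    have a := D.M.hol _ (D.M.ch_mem y) _ (D.M.ch_mem x) x hy (D.M.mem x)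
    have e : (D.M.ch x ∘ (D.M.ch y).symm) (D.M.ch y x) = D.M.ch x x :=
      congrArg _ ((D.M.ch y).left_inv hy)
    refine (ContDiffAt.comp _ (e ▸ c) (a.contDiffAt.restrict_scalars ℝ)).congr_of_eventuallyEq ?_
    filter_upwards [ev_mem (D.M.ch x).open_source (D.M.mem x) hy] with w hw
    simp only [fn, Function.comp, (D.M.ch x).left_inv hw.2]
  · obtain ⟨β, b1, b2⟩ := h y
    have c := (D.M.ch y).continuousAt (D.M.mem y)
    have p : ∀ s : ℂ, s ≠ 0 → 0 < ‖s‖ ^ 2 := fun s q => pow_pos (norm_pos_iff.2 q) 2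
    have l : Real.exp (t - β (D.M.ch y y)) ≤ ‖D.σ (D.M.ch y) (D.M.ch y y) D.j‖ ^ 2 := by
      refine le_of_tendsto_of_tendsto_of_frequently
        ((continuousAt_const.sub (b1.continuousAt.comp c)).rexp) ((DvA.cd_nsq (an D y
          ((D.M.ch y).map_source (D.M.mem y))) 0).continuousAt.comp c) ?_
      refine (hy.and_eventually ((c.eventually b2).and
        ((D.M.ch y).open_source.mem_nhds (D.M.mem y)))).mono fun x ⟨⟨x1, x2⟩, x3, x4⟩ => ?_
      have n0 := (hB.memW y x x4).1 x1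
      have e := x3 n0
      rw [(D.M.ch y).left_inv x4] at e
      exact (Real.le_log_iff_exp_le (p _ n0)).1 (sub_le_iff_le_add.2 (x2.trans_eq e))
    have n0 : D.σ (D.M.ch y) (D.M.ch y y) D.j ≠ 0 := fun q =>
      (Real.exp_pos _).not_ge (l.trans_eq (by rw [q, norm_zero, zero_pow two_ne_zero]))
    have e := b2.self_of_nhds n0
    rw [(D.M.ch y).left_inv (D.M.mem y)] at e
    exact ⟨n0, (sub_le_iff_le_add.1 ((Real.le_log_iff_exp_le (p _ n0)).2 l)).trans_eq e.symm⟩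

end Pool.Agent.Lib.MP_d44e50_ag
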