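import Pool.Agent.Lib.MP_d44e50_ag.Kit

/-! The horizontal scalar curvature, and jets. -/

namespace Pool.Agent.Lib.MP_d44e50_ag

open Pool.Agent.Lib.MP_813db1_ag.HS Complex Matrix Filter Topology Asymptotics
open scoped ComplexOrder

namespace Sc

variable {ι : Type} [Fintype ι] (R : ι → ι → ι → ι → ℂ) (G P : Mat ι) (c : ℂ) (v : V ι)

theorem s4 {f g : ι → ι → ι → ι → ℂ} (h : ∀ i j k l, f i j k l = g i j k l) :
    ∑ i, ∑ j, ∑ k, ∑ l, f i j k l = ∑ i, ∑ j, ∑ k, ∑ l, g i j k l := by
  simp only [h]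

theorem e1 : ∑ i, ∑ j, ∑ k, ∑ l, P j i * P l k * (-R i j k l + c * (G i j * G k l + G i l * G k j)) =
    -(∑ i, ∑ j, ∑ k, ∑ l, P j i * P l k * R i j k l) +
      c * (trace (G * P) * trace (G * P) + trace (G * P * (G * P))) := by
  have a : trace (G * P) * trace (G * P) = ∑ i, ∑ j, ∑ k, ∑ l, G i j * P j i * (G k l * P l k) := by
    simp only [trace, diag, Matrix.mul_apply, Finset.sum_mul, Finset.mul_sum]
    rw [Roy.sw13, Roy.sw24]
  have b : trace (G * P * (G * P)) = ∑ i, ∑ j, ∑ k, ∑ l, G i l * P l k * (G k j * P j i) := by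
    simp only [trace, diag, Matrix.mul_apply, Finset.sum_mul, Finset.mul_sum]
    rw [Roy.sw23]
  simp only [a, b, Finset.mul_sum, ← Finset.sum_add_distrib, ← Finset.sum_neg_distrib]
  exact s4 fun _ _ _ _ => by ring

theorem e2 : ∑ i, ∑ j, ∑ k, ∑ l, (-R i j k l + c * (G i j * G k l + G i l * G k j)) *
    v i * star (v j) * v k * star (v l) =
    -(∑ i, ∑ j, ∑ k, ∑ l, R i j k l * v i * star (v j) * v k * star (v l)) +
      c * (ipV G v v * ipV G v v + ipV G v v * ipV G v v) := by
  have a : ipV G v v * ipV G v v = ∑ i, ∑ j, ∑ k, ∑ l,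
      G i j * v i * star (v j) * (G k l * v k * star (v l)) := by
    simp only [ipV, Finset.sum_mul, Finset.mul_sum]
    rw [Roy.sw13, Roy.sw24]
  have b := a.trans (Roy.sw24 _)
  nth_rewrite 1 [a, b]
  simp only [Finset.mul_sum, ← Finset.sum_add_distrib, ← Finset.sum_neg_distrib]
  exact s4 fun _ _ _ _ => by ring

theorem e3 {κ : Type} [Fintype κ] (ξ : Matrix ι κ ℂ) : ∑ a, ∑ b, ∑ i, ∑ j, ∑ k, ∑ l,
    R i j k l * star (ξ i a) * star (star (ξ j a)) * star (ξ k b) * star (star (ξ l b)) =
    ∑ i, ∑ j, ∑ k, ∑ l, (ξ * ξᴴ) j i * (ξ * ξᴴ) l k * R i j k l := by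
  simp only [Matrix.mul_apply, conjTranspose_apply, Finset.sum_mul, Finset.mul_sum, star_star,
    Finset.sum_comm (s := (Finset.univ : Finset κ)) (t := (Finset.univ : Finset ι))]
  exact s4 fun _ _ _ _ => Finset.sum_comm.trans
    (Finset.sum_congr rfl fun _ _ => Finset.sum_congr rfl fun _ _ => by ring)

end Sc

theorem sc (ha : AlgS) : ScS := by
  intro ι κ _ _ _ _ G U z B c hU hK hz h0
  obtain ⟨ξ, e1, e2, -⟩ := ha.frame ι κ _ B (hK.2 z hz) h0
  have hs := kC.sym ι G U hU hK z hz
  have hH := (hK.2 z hz).1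
  refine ⟨fun h => ?_, fun h => (h (fun a i => star (ξ i a)) fun a b => ?_).trans_eq ?_⟩
  · have r := (roy ι (fun i j k l => -curv G z i j k l +
      ((c / 2 : ℝ) : ℂ) * (G z i j * G z k l + G z i l * G z k j)) _
      (fun i j k l => by rw [(hs i j k l).1]; ring) (fun i j k l => by rw [(hs i j k l).2.1]; ring)
      (fun i j k l => by
        simp only [star_add, star_neg, star_mul', (hs i j k l).2.2, hH.apply]
        rw [star_def, conj_ofReal]
        ring) (fun v => ?_) (ha.pj_psd ι κ _ B (hK.2 z hz) h0).1).1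
    · have t1 : trace (G z * pj (G z) B) = Fintype.card κ := by
        rw [e2, ← Matrix.mul_assoc, trace_mul_comm, ← Matrix.mul_assoc, e1, trace_one]
      have t2 : trace (G z * pj (G z) B * (G z * pj (G z) B)) = Fintype.card κ := by
        rw [← t1, e2, Matrix.mul_assoc, Matrix.mul_assoc ξ, ← Matrix.mul_assoc ξᴴ,
          ← Matrix.mul_assoc (ξᴴ * G z), e1, Matrix.one_mul]
      rw [Sc.e1, t1, t2, add_re, neg_re, re_ofReal_mul] at r
      simp only [add_re, mul_re, natCast_re, natCast_im] at r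
      rw [rq]
      linarith
    · have i0 : (ipV (G z) v v).im = 0 := by
        have := hH.im_star_dotProduct_mulVec_self (star v)
        rwa [star_star, ← Mat.ip_eq] at this
      have : c * (ipV (G z) v v).re ^ 2 ≤ _ := h v
      rw [Sc.e2, add_re, neg_re, re_ofReal_mul, add_re, mul_re, i0]
      rw [hsc] at this
      linarith
  · have := congrFun (congrFun e1 a) b
    simp only [Matrix.mul_apply, conjTranspose_apply, Finset.sum_mul, one_apply] at this
    rw [← this, Finset.sum_comm]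
    exact Finset.sum_congr rfl fun _ _ => Finset.sum_congr rfl fun _ _ => by rw [star_star]; ring
  · rw [rq, e2, Sc.e3]

theorem jet : JetS := by
  classical
  intro ι _ n
  refine ⟨Fintype.card (Σ i : Fin n, Fin i → ι), fun Q S z0 hQ hS => ?_⟩
  choose p hp using hS
  let A : Matrix (Σ i : Fin n, Fin i → ι) (Fin Q) ℂ :=
    Matrix.of fun t j => p j t.1 fun k => Pi.single (t.2 k) 1
  obtain ⟨c, c1, c0⟩ := Submodule.exists_mem_ne_zero_of_ne_bot
    (LinearMap.ker_ne_bot_of_finrank_lt (f := A.mulVecLin) (by simpa using hQ))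
  refine ⟨c, c0, ?_⟩
  have e : ∀ y, ∑ j, c j * (p j).partialSum n y = 0 := fun y => by
    simp only [FormalMultilinearSeries.partialSum, Finset.mul_sum]
    rw [Finset.sum_comm]
    refine Finset.sum_eq_zero fun i hi => ?_
    have : ∑ j, c j • p j i = 0 := ContinuousMultilinearMap.toMultilinearMap_injective
      (Module.Basis.ext_multilinear (fun _ => Pi.basisFun ℂ ι) fun m => by
        have := congrFun c1 ⟨⟨i, Finset.mem_range.1 hi⟩, m⟩
        simpa [A, mulVec, dotProduct, mul_comm] using this)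
    simpa using congrArg (fun q => q fun _ => y) this
  have b := (IsBigO.sum (s := Finset.univ) fun j _ =>
    ((hp j).isBigO_sub_partialSum_pow n).const_mul_left (c j)).comp_tendsto
    (show Tendsto (fun z => z - z0) (𝓝 z0) (𝓝 0) from tendsto_sub_nhds_zero_iff.2 tendsto_id)
  simpa [Function.comp_def, mul_sub, e] using b

end Pool.Agent.Lib.MP_d44e50_ag
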