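import Pool.Agent.Lib.MP_d44e50_ag.Stmt

/-! Small sets do not matter for holomorphic functions. -/

namespace Pool.Agent.Lib.MP_d44e50_ag

open Pool.Agent.Lib.MP_813db1_ag.HS MeasureTheory Complex Filter Topology Set Metric

namespace ThinA

variable {ι : Type} [Fintype ι] {E : Set (V ι)}

theorem rank (κ : Type) [Fintype κ] : Module.finrank ℝ (κ → ℂ) = 2 * Fintype.card κ := by
  rw [Module.finrank_pi_fintype, Finset.sum_const, Complex.finrank_real_complex, smul_eq_mul,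
    mul_comm, Finset.card_univ]

/-- Almost all complex lines through a point miss a small set. -/
theorem dir (hE : Thin E) (x : V ι) {v0 : V ι} (h0 : v0 ≠ 0) {ε : ℝ} (hε : 0 < ε) :
    ∃ v, ‖v - v0‖ < ε ∧ ∀ t : ℂ, t ≠ 0 → x + t • v ∉ E := by
  classical
  rcases E.eq_empty_or_nonempty with rfl | hne
  · exact ⟨v0, by simpa using hε, fun _ _ h => h⟩
  obtain ⟨i0, hi⟩ := Function.ne_iff.1 h0
  replace hi : v0 i0 ≠ 0 := hi
  let f : V ι → {i // i ≠ i0} → ℂ := fun z i => (z i - x i) / (z i0 - x i0)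
  have h1 : dimH (f '' (E ∩ {z | z i0 - x i0 ≠ 0})) ≤ dimH E := by
    refine (dimH_image_le_of_locally_lipschitzOn fun z hz => ?_).trans (dimH_mono inter_subset_left)
    have hf : ContDiffAt ℂ 1 f z := contDiffAt_pi.2 fun i => ContDiffAt.div
      (f := fun z : V ι => z i - x i) (g := fun z : V ι => z i0 - x i0) (by fun_prop) (by fun_prop)
      hz.2
    have : ContDiffAt ℝ 1 f z := hf.restrict_scalars ℝ
    obtain ⟨C, t, ht, hf⟩ := this.exists_lipschitzOnWith
    exact ⟨C, t, mem_nhdsWithin_of_mem_nhds ht, hf⟩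
  have h2 : Fintype.card ι = Fintype.card {i // i ≠ i0} + 1 := by
    have := Fintype.card_pos_iff.2 ⟨i0⟩
    rw [Fintype.card_subtype_compl, Fintype.card_subtype_eq]
    omega
  have h3 : dimH E < Module.finrank ℝ ({i // i ≠ i0} → ℂ) := by
    have := hE hne
    rw [h2, Nat.cast_add, Nat.cast_one, mul_add, mul_one] at this
    rw [rank, Nat.cast_mul, Nat.cast_ofNat]
    exact lt_of_add_lt_add_right this
  have hn := norm_pos_iff.2 hi
  obtain ⟨u, hu, hu'⟩ := (dense_compl_of_dimH_lt_finrank (h1.trans_lt h3)).exists_dist_lt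
    (fun i => v0 i / v0 i0) (div_pos hε hn)
  refine ⟨fun i => if h : i = i0 then v0 i0 else v0 i0 * u ⟨i, h⟩, ?_, fun t ht hm => hu ?_⟩
  · refine (pi_norm_lt_iff hε).2 fun i => ?_
    rw [Pi.sub_apply]
    split_ifs with h
    · simpa [h] using hε
    · have := (dist_le_pi_dist _ u ⟨i, h⟩).trans_lt hu'
      rw [dist_comm, dist_eq_norm, lt_div_iff₀ hn, ← norm_mul] at this
      rwa [sub_mul, div_mul_cancel₀ _ hi, mul_comm] at this
  · refine ⟨_, ⟨hm, by simpa using ⟨ht, hi⟩⟩, funext fun i => ?_⟩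
    simp only [f, Pi.add_apply, Pi.smul_apply, smul_eq_mul, dif_neg i.2, dif_pos,
      add_sub_cancel_left]
    field_simp

theorem dense (p : V ι) (hE : Thin E) : ∃ᶠ z in 𝓝 p, z ∉ E := by
  rcases E.eq_empty_or_nonempty with rfl | hne
  · exact (Eventually.of_forall fun _ h => h).frequently
  · refine mem_closure_iff_frequently.1 (dense_compl_of_dimH_lt_finrank ?_ p)
    rw [rank, Nat.cast_mul, Nat.cast_ofNat]
    exact le_self_add.trans_lt (hE hne)

theorem conn {U : Set (V ι)} (hc : Convex ℝ U) (ho : IsOpen (U \ E)) (hE : Thin E) :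
    IsPreconnected (U \ E) := by
  refine isPreconnected_of_forall_pair fun p hp q hq => ?_
  rcases eq_or_ne q p with rfl | hne
  · exact ⟨{q}, singleton_subset_iff.2 hq, rfl, rfl, isPreconnected_singleton⟩
  obtain ⟨r, hr, hb⟩ := Metric.isOpen_iff.1 ho q hq
  obtain ⟨v, hv, hv'⟩ := dir hE p (sub_ne_zero.2 hne) hr
  have hm : p + v ∈ ball q r := by
    rw [mem_ball, dist_eq_norm]
    rwa [show p + v - q = v - (q - p) by abel]
  refine ⟨segment ℝ p (p + v) ∪ ball q r, union_subset (fun z hz => ⟨hc.segment_subset hp.1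
    (hb hm).1 hz, ?_⟩) hb, Or.inl (left_mem_segment _ _ _), Or.inr (mem_ball_self hr),
    IsPreconnected.union (p + v) (right_mem_segment _ _ _) hm
      (convex_segment _ _).isPreconnected (convex_ball _ _).isPreconnected⟩
  rw [segment_eq_image'] at hz
  obtain ⟨t, -, rfl⟩ := hz
  rcases eq_or_ne t 0 with rfl | ht
  · simpa using hp.2
  · simpa using hv' t (ofReal_ne_zero.2 ht)

theorem rem {U : Set (V ι)} {p : V ι} (hU : IsOpen U) (ho : IsOpen (U \ E)) (hE : Thin E)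
    (hp : p ∈ U) : ∃ K, IsCompact K ∧ K ⊆ U \ E ∧ ∀ᶠ z in 𝓝 p, z ∉ E →
      ∀ (h : V ι → ℂ) (B : ℝ), DifferentiableOn ℂ h (U \ E) → (∀ w ∈ K, ‖h w‖ ≤ B) → ‖h z‖ ≤ B := by
  by_cases hpE : p ∉ E
  · obtain ⟨r, hr, hb⟩ := nhds_basis_closedBall.mem_iff.1 (ho.mem_nhds ⟨hp, hpE⟩)
    refine ⟨_, isCompact_closedBall p r, hb, ?_⟩
    filter_upwards [closedBall_mem_nhds p hr] with z hz _ h B _ hB using hB z hz
  have hι : Nonempty ι := by
    have := hE ⟨p, not_not.1 hpE⟩
    by_contra h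
    rw [Fintype.card_eq_zero_iff.2 (not_nonempty_iff.1 h)] at this
    simp at this
  obtain ⟨v, hv, hv'⟩ := dir hE p (one_ne_zero (α := V ι)) one_pos
  have v0 : v ≠ 0 := by
    rintro rfl
    simp at hv
  obtain ⟨δ, hδ, hb⟩ := Metric.isOpen_iff.1 hU p hp
  have hn : 0 < ‖v‖ + 1 := by positivity
  obtain ⟨R, hR, hR'⟩ : ∃ R : ℝ, 0 < R ∧ R * (‖v‖ + 1) = δ / 2 :=
    ⟨δ / 2 / (‖v‖ + 1), by positivity, by field_simp⟩
  have hin : ∀ (z w : V ι) (t : ℂ), ‖z - p‖ < δ / 2 → ‖w‖ ≤ ‖v‖ + 1 → ‖t‖ ≤ R → z + t • w ∈ U := by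
    intro z w t h1 h2 h3
    refine hb (mem_ball_iff_norm.2 ?_)
    have := mul_le_mul h3 h2 (norm_nonneg _) hR.le
    rw [add_sub_right_comm]
    refine (norm_add_le _ _).trans_lt ?_
    rw [norm_smul]
    linarith
  have hC : IsCompact ((fun t : ℂ => p + t • v) '' sphere 0 R) :=
    (isCompact_sphere _ _).image (by fun_prop)
  obtain ⟨η, hη, hK⟩ := hC.exists_cthickening_subset_open ho (by
    rintro _ ⟨t, ht, rfl⟩
    rw [mem_sphere_zero_iff_norm] at ht
    exact ⟨hin p v t (by simpa using hδ) (by linarith) ht.le, hv' t (norm_pos_iff.1 (ht ▸ hR))⟩)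
  refine ⟨_, hC.cthickening, hK, ?_⟩
  filter_upwards [ball_mem_nhds p (lt_min (half_pos hδ) (half_pos hη))] with z hz hzE h B hh hB
  rw [mem_ball_iff_norm, lt_min_iff] at hz
  obtain ⟨w, hw, hw'⟩ := dir hE z v0 (lt_min one_pos (div_pos (half_pos hη) hR))
  rw [lt_min_iff, lt_div_iff₀ hR] at hw
  have h1 : ‖w‖ ≤ ‖v‖ + 1 := by linarith [norm_le_norm_add_norm_sub' w v, hw.1]
  have h2 : DifferentiableOn ℂ (fun t : ℂ => h (z + t • w)) (closure (ball 0 R)) := by
    rw [closure_ball _ hR.ne']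
    refine hh.comp (f := fun t : ℂ => z + t • w) (by fun_prop) fun t ht =>
      ⟨hin z w t hz.1 h1 (mem_closedBall_zero_iff.1 ht), ?_⟩
    rcases eq_or_ne t 0 with rfl | h0
    · simpa using hzE
    · exact hw' t h0
  have := Complex.norm_le_of_forall_mem_frontier_norm_le isBounded_ball h2.diffContOnCl (C := B)
    (fun t ht => ?_) (subset_closure (mem_ball_self hR))
  · simpa using this
  rw [frontier_ball _ hR.ne'] at ht
  refine hB _ (mem_cthickening_of_dist_le _ _ _ _ ⟨t, ht, rfl⟩ ?_)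
  rw [mem_sphere_zero_iff_norm] at ht
  have e : z + t • w - (p + t • v) = z - p + t • (w - v) := by rw [smul_sub]; abel
  rw [dist_eq_norm, e]
  refine (norm_add_le _ _).trans ?_
  rw [norm_smul, ht]
  linarith [hz.2, hw.2]

end ThinA

theorem thin : ThinS :=
  ⟨fun _ _ _ _ _ hU ho hE hp => ThinA.rem hU ho hE hp,
    fun _ _ _ _ hc ho _ hE => ThinA.conn hc ho hE, fun _ _ _ p hE => ThinA.dense p hE⟩

end Pool.Agent.Lib.MP_d44e50_ag
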