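import Pool.Agent.Lib.MP_d44e50_ag.St2

/-! The upper bound for the energy. -/

namespace Pool.Agent.Lib.MP_d44e50_ag

open Pool.Agent.Lib.MP_813db1_ag.HS MeasureTheory Complex Matrix Filter Topology Set
open scoped ContDiff ComplexOrder

set_option linter.unusedSectionVars false

namespace Up

variable {ι X : Type} [Fintype ι] [DecidableEq ι] [TopologicalSpace X] {M : Atl ι X} {W : Set X}
  {g g₀ : X → Mat ι} {F r : X → ℝ} {C T : ℝ}

theorem ten (hg : M.IsK g) : Ten M W fun e z => (M.repF g e z)⁻¹ where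
  sm y x _ hy := (CdM.of_le ((hg _ (M.ch_mem y)).1.1.cd ((M.ch y).map_source hy))
    (by norm_cast)).inv (Green.det_ne ((hg _ (M.ch_mem y)).2 _ ((M.ch y).map_source hy)))
  tr y x _ hy := by
    have h := (kA ι X M).tj_det _ (M.ch_mem y) _ (M.ch_mem x) x hy (M.mem x)
    have h' : ((tj (M.ch y) (M.ch x) x).map star).det ≠ 0 := by
      rw [← det_transpose]
      exact (det_conjTranspose _).trans_ne (star_ne_zero.2 h)
    rw [(kA ι X M).repF_self, Atl.repF, (M.ch y).left_inv hy, (mat.pull_pd ι _ (g x) h).2.2.2.2.1,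
      Matrix.mul_assoc, nonsing_inv_mul_cancel_right _ _ (isUnit_det_transpose _ h.isUnit),
      mul_nonsing_inv_cancel_left _ _ h'.isUnit]

theorem dv (hg : M.IsK g) (h : RE M g₀ W r C) :
    DvGe M g W (fun e z => (M.repF g e z)⁻¹) r fun x => -(C * trm (g x) (g₀ x)) := by
  intro x hx
  have ha := kA ι X M
  have hz := (M.ch x).map_source (M.mem x)
  have hK := hg _ (M.ch_mem x)
  have pd := ((ha.isK_iff g).1 hg).2 x
  have e : ∀ A : Mat ι, A.det ≠ 0 → A.adjugate = A.det • A⁻¹ := fun A q => by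
    rw [Matrix.inv_def, Ring.inverse_eq_inv', smul_smul, mul_inv_cancel₀ q, one_smul]
  have e1 : dvP (M.repF g (M.ch x)) (fun z => (M.repF g (M.ch x) z)⁻¹) (fn r (M.ch x))
      (M.ch x x) = (g x).det * trace (M.ddc r x * (g x)⁻¹) := by
    rw [trace_mul_comm, ← smul_eq_mul, ← trace_smul, ← Matrix.smul_mul, ← e _ pd.det_pos.ne',
      ← ha.repF_self g x, Atl.ddc,
      ← Green.div_adj kC (M.ch x).open_target hK.1 hz (h.ck x x hx (M.mem x))]
    refine Finset.sum_congr rfl fun i _ => dz_congr ?_ i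
    filter_upwards [(M.ch x).open_target.mem_nhds hz] with w hw
    simp only [e _ (Green.det_ne (hK.2 w hw)), mulVec, dotProduct, transpose_apply,
      Matrix.smul_apply, smul_eq_mul, Finset.mul_sum, mul_assoc]
  have e2 := mat.trm_nonneg ι _ _ pd (h.psd x hx)
  rw [trm, Matrix.add_mul, trace_add, Matrix.smul_mul, trace_smul, smul_eq_mul, add_re,
    re_ofReal_mul] at e2
  rw [e1, (mat.det ι _ pd).2, re_ofReal_mul, ofReal_re]
  exact mul_le_mul_of_nonneg_left (neg_le_iff_add_nonneg'.2 e2) (mat.det ι _ pd).1.le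

theorem dfn_lin (hF : CkOn M 1 W F) (hr : CkOn M 1 W r) (b : ℝ) {x : X} (hx : x ∈ W) :
    M.dfn (fun x => F x + b * r x) x = M.dfn F x + (b : ℂ) • M.dfn r x := by
  have d1 := (hF x x hx (M.mem x)).differentiableAt one_ne_zero
  have d2 := (hr x x hx (M.mem x)).differentiableAt one_ne_zero
  funext i
  have e : fn (fun x => F x + b * r x) (M.ch x) =
      fun w => fn F (M.ch x) w + b * fn r (M.ch x) w := by
    funext w
    simp only [fn, ofReal_add, ofReal_mul]
  rw [Atl.dfn, e, dz_add d1 (d2.const_mul _), dz_cmul _ d2]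
  rfl

theorem cut (a : ℝ) (hT : 0 < T) : ContDiff ℝ 1 (fun s => pp 2 (s / T + a)) ∧
    (∀ s ≤ -a * T, pp 2 (s / T + a) = 0) ∧
    deriv (fun s => pp 2 (s / T + a)) = fun s => 2 * (pp 1 (s / T + a) / T) := by
  refine ⟨(contDiff_pp1 0).comp ((contDiff_id.div_const T).add contDiff_const), fun s hs =>
    pp_of_nonpos 1 (by linarith [(div_le_iff₀ hT).2 hs]), funext fun s => ?_⟩
  have := ((hasDerivAt_pp 0 (s / T + a)).comp s
    (((hasDerivAt_id s).div_const T).add_const a)).deriv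
  refine this.trans ?_
  simp only [Nat.cast_zero, zero_add]
  ring

theorem pp_le (k : ℕ) {s a : ℝ} (hT : 0 < T) (hs : s ≤ T) (ha : 0 ≤ a) :
    pp k (s / T + a) ≤ (1 + a) ^ k :=
  (pp_mono k (add_le_add_left ((div_le_one hT).2 hs) a)).trans_eq
    (pp_of_nonneg k (by positivity))

end Up

open Up

theorem up (ha : AlgS) (hi : IbpS) : UpT := by
  intro ι X _ _ _ _ _ _ _ M g₀ g μ Wr W r F c P C b C0 hg₀ hg hμ hr hW hs h0 hP hp hF hc hD hb
    hcl ε hε
  have hA := kA ι X M
  have := ((kV ι X M g hg).2 μ hμ).fin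
  have pd := ((hA.isK_iff g).1 hg).2
  have aW : ∀ᵐ x ∂μ, x ∈ W := h0
  have rW := Measure.restrict_eq_self_of_ae_mem aW
  have rW' := Measure.restrict_eq_self_of_ae_mem (aW.mono fun x q => hs q)
  have ig : ∀ f : X → ℝ, Continuous f → Integrable f μ := fun f q =>
    q.integrable_of_hasCompactSupport (HasCompactSupport.of_compactSpace _)
  have cτ : Continuous fun x => trm (g x) (g₀ x) := hA.cont _ fun e he z hz =>
    (hA.ck_trm g g₀ hg (fun e he => (hg₀ e he).1.1) e he z hz).of_le zero_le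
  have r1 : CkOn M 1 W r := hr.ck.mono one_le_two hs
  have F1 : CkOn M 1 W F := hF.mono one_le_two subset_rfl
  have h2 := fun T (hT : 0 < T) => hi ι X M g μ W P F _ c _ _ hg hμ hW hP hF (F1.lin r1 b)
    hc.continuousOn hD (hcl _) (cut 2 hT).1 (fun _ => pp_nonneg _ _) (cut 2 hT).2.1
  simp only [IntegrableOn, rW] at h2
  have lim : Tendsto (fun T => ∫ x, pp 2 ((F x + b * r x) / T + 2) * c x ∂μ) atTop
      (𝓝 (∫ x, 4 * c x ∂μ)) := by
    refine tendsto_integral_filter_of_dominated_convergence (fun x => 9 * ‖c x‖)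
      ((eventually_gt_atTop 0).mono fun T hT => (h2 T hT).1.aestronglyMeasurable) ?_
      ((ig c hc).norm.const_mul 9) (.of_forall fun x => Tendsto.mul_const _ ?_)
    · filter_upwards [eventually_gt_atTop 0, eventually_ge_atTop (C0 + C)] with T hT hT'
      filter_upwards [aW] with x hx
      rw [norm_mul, Real.norm_of_nonneg (pp_nonneg _ _)]
      exact mul_le_mul_of_nonneg_right ((pp_le 2 hT (by linarith [hb x hx, hr.le x (hs hx)])
        zero_le_two).trans_eq (by norm_num)) (norm_nonneg _)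
    · have := ((continuous_pp 2).tendsto _).comp
        ((tendsto_const_nhds (x := F x + b * r x).div_atTop tendsto_id).add_const 2)
      rwa [pp_of_nonneg 2 (by norm_num), show ((0 : ℝ) + 2) ^ 2 = 4 by norm_num] at this
  rw [integral_const_mul] at lim
  filter_upwards [eventually_gt_atTop 0, eventually_ge_atTop C0, eventually_ge_atTop C,
    lim.eventually_const_lt (sub_lt_self _ hε)] with T hT hT0 hTC hl
  obtain ⟨i1, i2, i3⟩ := hi ι X M g μ Wr _ r r (fun x => -(C * trm (g x) (g₀ x))) _ _ hg hμ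
    hr.opn (ten hg) hr.ck
    (hr.ck.mono one_le_two subset_rfl) (continuous_const.mul cτ).neg.continuousOn (dv hg hr)
    (hr.cl _) (cut 3 hT).1 (fun _ => pp_nonneg _ _) (cut 3 hT).2.1
  obtain ⟨-, j2, j3⟩ := h2 T hT
  simp only [IntegrableOn, rW', (cut 3 hT).2.2, (cut 2 hT).2.2] at i1 i2 i3 j2 j3
  have i4 : ∫ x, -(16 * C) * trm (g x) (g₀ x) ∂μ ≤
      ∫ x, pp 2 (r x / T + 3) * -(C * trm (g x) (g₀ x)) ∂μ := by
    refine integral_mono_ae ((ig _ cτ).const_mul _) i1 (aW.mono fun x hx => ?_)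
    have e1 := pp_le 2 hT ((hr.le x (hs hx)).trans hTC) (zero_le_three)
    have e2 := mul_nonneg hr.nn
      (mat.trm_nonneg ι _ _ (pd x) (((hA.isK_iff g₀).1 hg₀).2 x).posSemidef)
    nlinarith [mul_le_mul_of_nonneg_right e1 e2]
  rw [integral_const_mul] at i4
  have key : ∀ x ∈ W, pp 1 ((F x + b * r x) / T + 2) / T *
      gp M P (fun x => F x + b * r x) (fun x => F x + b * r x) x ≤
      2 * (pp 1 ((F x + b * r x) / T + 2) / T) * gp M P (fun x => F x + b * r x) F x +
        b ^ 2 / 2 * (2 * (pp 1 (r x / T + 3) / T) *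
          gp M (fun e z => (M.repF g e z)⁻¹) r r x) := fun x hx => by
    have e1 := ha.qf_cs ι _ (M.dfn F x) (M.dfn r x) b (hp x hx).1
    have e2 := ha.qf_sub ι _ _ (M.dfn r x) (hp x hx).2
    have e3 := ha.qf_psd ι _ (M.dfn r x) (hp x hx).1
    have e4 : pp 1 ((F x + b * r x) / T + 2) / T ≤ pp 1 (r x / T + 3) / T := by
      refine div_le_div_of_nonneg_right (pp_mono 1 ?_) hT.le
      have := div_le_div_of_nonneg_right ((hb x hx).trans (add_le_add_left hT0 _)) hT.le
      rw [add_div T, div_self hT.ne'] at this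
      linarith
    have e5 := div_nonneg (pp_nonneg 1 ((F x + b * r x) / T + 2)) hT.le
    simp only [gp, dfn_lin F1 r1 b hx, hA.repF_self]
    nlinarith [mul_le_mul_of_nonneg_left e1 e5, mul_le_mul_of_nonneg_left
      (mul_le_mul e4 e2 e3 (e5.trans e4)) (sq_nonneg b)]
  have iD := j2.add (i2.const_mul (b ^ 2 / 2))
  rw [en, rW]
  refine (lintegral_mono_ae (aW.mono fun x hx => ENNReal.ofReal_le_ofReal (key x hx))).trans ?_
  refine (ofReal_integral_eq_lintegral_ofReal iD (aW.mono fun x hx => (mul_nonneg (div_nonneg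
    (pp_nonneg _ _) hT.le) (ha.qf_psd ι _ _ (hp x hx).1)).trans (key x hx))).symm.trans_le
    (ENNReal.ofReal_le_ofReal ?_)
  refine (integral_add j2 (i2.const_mul _)).trans_le ?_
  rw [integral_const_mul]
  nlinarith [mul_le_mul_of_nonneg_left (show ∫ x, 2 * (pp 1 (r x / T + 3) / T) *
    gp M (fun e z => (M.repF g e z)⁻¹) r r x ∂μ ≤ 16 * C * ∫ x, trm (g x) (g₀ x) ∂μ by linarith)
    (sq_nonneg b)]

end Pool.Agent.Lib.MP_d44e50_ag
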