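import Pool.Agent.Lib.MP_d44e50_ag.Main2
import Pool.Agent.Lib.MP_d44e50_ag.Pw
import Pool.Agent.Lib.MP_d44e50_ag.Alg
import Pool.Agent.Lib.MP_d44e50_ag.Sc
import Pool.Agent.Lib.MP_d44e50_ag.Loc
import Pool.Agent.Lib.MP_d44e50_ag.Ibp
import Pool.Agent.Lib.MP_d44e50_ag.Up
import Pool.Agent.Lib.MP_d44e50_ag.Rad
import Pool.Agent.Lib.MP_d44e50_ag.Lel
import Pool.Agent.Lib.MP_d44e50_ag.Thin
import Pool.Agent.Lib.MP_d44e50_ag.Nls
import Pool.Agent.Lib.MP_d44e50_ag.Bas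
import Pool.Agent.Lib.MP_d44e50_ag.Rf
import Pool.Agent.Lib.MP_d44e50_ag.G12
import Pool.Agent.Lib.MP_d44e50_ag.G4

/-! The theorem. -/

namespace Pool.Agent.Lib.MP_d44e50_ag

theorem mainT : MainT :=
  main2 alg (sc alg) (up alg (ibp gpS)) jet (bas alg) rT idS (g1 alg (loc alg)) (g2 alg thin)
    (g3 alg (nul thin)) (g4 alg adjS gpS (lel rad))

end Pool.Agent.Lib.MP_d44e50_ag
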