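import Pool.Agent.Lib.MP_d44e50_ag.Kit
import Pool.Agent.Lib.MP_caab05_ag.GB.Osg

/-! Change of charts. -/

namespace Pool.Agent.Lib.MP_d44e50_ag

open Pool.Agent.Lib.MP_813db1_ag.HS Complex Matrix Filter Topology Set
open scoped ComplexOrder

set_option linter.unusedSectionVars false

namespace Bas

variable {ι κ X Y : Type} [Fintype ι] [DecidableEq ι] [Fintype κ] [DecidableEq κ]

theorem fd_eq (Φ : V ι → V κ) (z v : V ι) : fderiv ℂ Φ z v = v ᵥ* jr Φ z := by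
  conv_lhs => rw [pi_eq_sum_univ' v, map_sum]
  funext α
  simp only [map_smul, Finset.sum_apply, Pi.smul_apply, smul_eq_mul, vecMul, dotProduct, jr,
    of_apply]

theorem jr_comp {τ : Type} [Fintype τ] [DecidableEq τ] {Φ : V κ → V τ} {Ψ : V ι → V κ} {z : V ι}
    (h : DifferentiableAt ℂ Φ (Ψ z)) (h' : DifferentiableAt ℂ Ψ z) :
    jr (Φ ∘ Ψ) z = jr Ψ z * jr Φ (Ψ z) := by
  ext i α
  rw [jr, of_apply, fderiv_comp z h h', ContinuousLinearMap.comp_apply, fd_eq Φ]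
  rfl

theorem jr_congr {Φ Ψ : V ι → V κ} {z : V ι} (h : Φ =ᶠ[𝓝 z] Ψ) : jr Φ z = jr Ψ z := by
  rw [jr, jr, h.fderiv_eq]

variable [TopologicalSpace X] [TopologicalSpace Y] {N : ℕ}

theorem lift_eq [ChartedSpace (ι → ℂ) X] {σ : Ch ι X → V ι → Fin N → ℂ} (h : Lift σ) {e e' : Ch ι X}
    (he : e ∈ atlas (ι → ℂ) X) (he' : e' ∈ atlas (ι → ℂ) X) {x : X} (hx : x ∈ e.source)
    (hx' : x ∈ e'.source) : ∃ c : ℂ, c ≠ 0 ∧ σ e (e x) = c • σ e' (e' x) := by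
  obtain ⟨c, -, c0, hc⟩ := h.2 e he e' he' x hx hx'
  exact ⟨_, c0, by rw [hc.self_of_nhds, e.left_inv hx]⟩

theorem ev_src {e e' : Ch ι X} {x : X} (hx : x ∈ e.source) (hx' : x ∈ e'.source) :
    ∀ᶠ w in 𝓝 (e x), e.symm w ∈ e'.source :=
  (e.tendsto_symm hx).eventually (e'.open_source.mem_nhds hx')

variable [ChartedSpace (ι → ℂ) X] [ChartedSpace (κ → ℂ) Y] (D : Dat ι κ X Y N)

theorem memI (y x : X) (hx : x ∈ (D.M.ch y).source) :
    x ∈ D.I ↔ D.σ (D.M.ch y) (D.M.ch y x) = 0 := by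
  obtain ⟨c, c0, e⟩ := lift_eq D.hσ (D.chA x) (D.chA y) (D.M.mem x) hx
  rw [Dat.I, mem_ofPred_eq, e, smul_eq_zero_iff_right c0]

theorem memW (y x : X) (hx : x ∈ (D.M.ch y).source) :
    x ∈ D.Wr ↔ D.σ (D.M.ch y) (D.M.ch y x) D.j ≠ 0 := by
  obtain ⟨c, c0, e⟩ := lift_eq D.hσ (D.chA x) (D.chA y) (D.M.mem x) hx
  rw [Dat.Wr, mem_ofPred_eq, e, Pi.smul_apply, smul_eq_mul, mul_ne_zero_iff_left c0]

theorem cont (x : X) : ContinuousAt (fun y => D.σ (D.M.ch x) (D.M.ch x y)) x :=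
  ContinuousAt.comp (D.hσ.1 _ (D.chA x) _ ((D.M.ch x).map_source (D.M.mem x))).continuousAt
    ((D.M.ch x).continuousAt (D.M.mem x))

theorem clI : IsClosed D.I := isOpen_compl_iff.1 (isOpen_iff_mem_nhds.2 fun x hx => by
  filter_upwards [(cont D x).eventually_ne hx, (D.M.ch x).open_source.mem_nhds (D.M.mem x)]
    with y a b using fun q => a ((memI D x y b).1 q))

theorem val (y : X) (f : Ch κ Y) (x : X) (hx : x ∈ (D.M.ch y).source) :
    D.Φ (D.M.ch y) f (D.M.ch y x) = f (D.φ x) := by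
  simp only [Dat.Φ, Function.comp, (D.M.ch y).left_inv hx]

theorem hol (y : X) {x : X} (hx : x ∈ (D.M.ch y).source) (hI : x ∉ D.I) : ContinuousAt D.φ x ∧
    ∀ f ∈ atlas (κ → ℂ) Y, D.φ x ∈ f.source → AnalyticAt ℂ (D.Φ (D.M.ch y) f) (D.M.ch y x) ∧
      ∃ c : ℂ, D.σ (D.M.ch y) (D.M.ch y x) = c • D.ρ f (f (D.φ x)) :=
  D.mero.hol _ (D.chA y) x hx fun q => hI ((memI D y x hx).2 q)

theorem ev (y : X) {f : Ch κ Y} {x : X} (hx : x ∈ (D.M.ch y).source) (hI : x ∉ D.I)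
    (hf : D.φ x ∈ f.source) : ∀ᶠ w in 𝓝 (D.M.ch y x), w ∈ (D.M.ch y).target ∧
      (D.M.ch y).symm w ∉ D.I ∧ D.φ ((D.M.ch y).symm w) ∈ f.source :=
  ((ev_mem (clI D).isOpen_compl hI hx).and (((D.M.ch y).tendsto_symm hx).eventually
    ((hol D y hx hI).1.eventually_mem (f.open_source.mem_nhds hf)))).mono
    fun _ q => ⟨q.1.1, q.1.2, q.2⟩

theorem jrX (y : X) {f : Ch κ Y} (hf : f ∈ atlas (κ → ℂ) Y) {x : X} (hx : x ∈ (D.M.ch y).source)
    (hI : x ∉ D.I) (hφ : D.φ x ∈ f.source) : jr (D.Φ (D.M.ch y) f) (D.M.ch y x) =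
      (tj (D.M.ch y) (D.M.ch x) x)ᵀ * jr (D.Φ (D.M.ch x) f) (D.M.ch x x) := by
  have e : (D.M.ch x ∘ (D.M.ch y).symm) (D.M.ch y x) = D.M.ch x x := by
    rw [Function.comp, (D.M.ch y).left_inv hx]
  rw [jr_congr (Ψ := D.Φ (D.M.ch x) f ∘ D.M.ch x ∘ (D.M.ch y).symm)
    ((ev_src hx (D.M.mem x)).mono fun w q => by
      simp only [Dat.Φ, Function.comp, (D.M.ch x).left_inv q]),
    jr_comp (e ▸ ((hol D x (D.M.mem x) hI).2 f hf hφ).1.differentiableAt)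
      (D.M.hol _ (D.M.ch_mem y) _ (D.M.ch_mem x) x hx (D.M.mem x)).differentiableAt, e]
  rfl

theorem jrY (y : X) {f f' : Ch κ Y} (hf : f ∈ atlas (κ → ℂ) Y) (hf' : f' ∈ atlas (κ → ℂ) Y) {x : X}
    (hx : x ∈ (D.M.ch y).source) (hI : x ∉ D.I) (hφ : D.φ x ∈ f.source) (hφ' : D.φ x ∈ f'.source) :
    (jac (f' ∘ f.symm) (f (D.φ x))).det ≠ 0 ∧ jr (D.Φ (D.M.ch y) f') (D.M.ch y x) =
      jr (D.Φ (D.M.ch y) f) (D.M.ch y x) * (jac (f' ∘ f.symm) (f (D.φ x)))ᵀ := by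
  have a := (D.anY f hf f' hf' _ hφ hφ').differentiableAt
  refine ⟨fun q => ?_, ?_⟩
  · have e : (f' ∘ f.symm) (f (D.φ x)) = f' (D.φ x) := by rw [Function.comp, f.left_inv hφ]
    have := jac_comp (e ▸ (D.anY f' hf' f hf _ hφ' hφ).differentiableAt) a
    rw [jac_congr (τ := id) (((ev_src hφ hφ').and (f.open_target.eventually_mem
      (f.map_source hφ))).mono fun w q => by
        simp only [Function.comp, f'.left_inv q.1, f.right_inv q.2, id]), jac_id] at this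
    simpa [q] using congrArg det this
  · rw [jr_congr (Ψ := (f' ∘ f.symm) ∘ D.Φ (D.M.ch y) f) ((ev D y hx hI hφ).mono fun w q => by
      simp only [Dat.Φ, Function.comp, f.left_inv q.2.2]),
      jr_comp ((val D y f x hx).symm ▸ a) ((hol D y hx hI).2 f hf hφ).1.differentiableAt,
      val D y f x hx]
    rfl

end Bas

open Bas in
theorem bas (ha : AlgS) : BasS := by
  intro ι κ X Y _ _ _ _ _ _ _ _ N D
  have cA : ∀ x, D.cf x ∈ atlas (κ → ℂ) Y ∧ D.φ x ∈ (D.cf x).source := fun x =>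
    ⟨chart_mem_atlas _ _, mem_chart_source _ _⟩
  have nI : ∀ x ∈ D.Wr, x ∉ D.I := fun x h q => h (congrFun q D.j)
  have aW : ∀ y, ∀ f ∈ atlas (κ → ℂ) Y, ∀ x ∈ (D.M.ch y).source, x ∉ D.I → D.φ x ∈ f.source →
      (x ∈ D.Wr ↔ D.ρ f (f (D.φ x)) D.j ≠ 0) := fun y f hf x hx hI hφ => by
    obtain ⟨c, e⟩ := ((hol D y hx hI).2 f hf hφ).2
    rw [memW D y x hx, e, Pi.smul_apply, smul_eq_mul, mul_ne_zero_iff_left fun q =>
      hI ((memI D y x hx).2 (by rw [e, q, zero_smul]))]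
  refine ⟨memI D, memW D, clI D, isOpen_iff_mem_nhds.2 fun x hx => ?_, fun y => ?_, cA, val D,
    fun y f hf x hx hI hφ => ⟨((hol D y hx hI).2 f hf hφ).1, aW y f hf x hx hI hφ, ev D y hx hI hφ⟩,
    fun y f hf x hx => jrX D y hf hx, fun y f hf f' hf' x hx => jrY D y hf hf' hx,
    fun y f hf x hx hI hφ => ?_, fun m a s hs y f hf x hx hW hφ => ?_,
    fun m a s hs f hf => MP_caab05_ag.GB.osg _ _ _ _ f.open_target (hs.1 f hf),
    ha.gm_inj _ _ _ _ (((kA ι X D.M).isK_iff D.g).1 D.isK |>.2 _) ?_⟩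
  · filter_upwards [((continuous_apply D.j).continuousAt.comp (cont D x)).eventually_ne hx,
      (D.M.ch x).open_source.mem_nhds (D.M.mem x)] with y a b using (memW D x y b).2 a
  · rw [show {z | z ∈ (D.M.ch y).target ∧ (D.M.ch y).symm z ∈ D.I} =
      {z ∈ (D.M.ch y).target | D.σ (D.M.ch y) z = 0} from Set.ext fun z => and_congr_right
        fun q => by rw [memI D y _ ((D.M.ch y).map_target q), (D.M.ch y).right_inv q]]
    exact D.mero.codim _ (D.chA y)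
  · obtain ⟨d, e⟩ := jrY D y hf (cA x).1 hx hI hφ (cA x).2
    rw [Dat.P, (D.M.ch y).left_inv hx, e, (ha.trY _ _ _ _ _ (by rwa [det_transpose])).2]
  · obtain ⟨d, e⟩ := jrY D x (cA x).1 hf (D.M.mem x) (nI x hW) (cA x).2 hφ
    obtain ⟨c, c0, ec⟩ := lift_eq D.hρ (cA x).1 hf (cA x).2 hφ
    rw [Atl.repF, (D.M.ch y).left_inv hx, jrX D y hf hx (nI x hW) hφ, (ha.trX _ _ _ _ _
      ((kA ι X D.M).tj_det _ (D.M.ch_mem y) _ (D.M.ch_mem x) x hx (D.M.mem x))).1, e,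
      (ha.trY _ _ _ _ _ (by rwa [det_transpose])).1, Dat.tau, hs.2 _ (cA x).1 f hf _ (cA x).2 hφ c ec,
      ec, det_transpose, Pi.smul_apply, smul_eq_mul, mul_pow c, mul_assoc, mul_div_assoc,
      mul_div_mul_left _ _ (pow_ne_zero a c0), norm_mul, norm_pow]
    ring
  · have s : Function.Surjective (jr (D.Φ (D.M.ch D.x0) (D.cf D.x0)) (D.M.ch D.x0 D.x0)).vecMul :=
      fun y => (D.surj y).imp fun v q => (fd_eq _ _ v).symm.trans q
    refine (injective_iff_map_eq_zero (Matrix.mulVecLin _)).2 fun v q => funext fun α => ?_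
    obtain ⟨w, hw⟩ := s (Pi.single α 1)
    have := dotProduct_mulVec w (jr (D.Φ (D.M.ch D.x0) (D.cf D.x0)) (D.M.ch D.x0 D.x0)) v
    rw [show _ *ᵥ v = 0 from q, show w ᵥ* _ = _ from hw] at this
    simpa using this.symm

open Bas in
theorem idS : IdS := by
  intro ι κ X Y _ _ _ _ _ _ _ _ _ N D m a s hB hs ⟨f, hf, z, hz, h0⟩ hn
  have tr : ∀ f ∈ atlas (κ → ℂ) Y, ∀ f' ∈ atlas (κ → ℂ) Y, ∀ y ∈ f.source, y ∈ f'.source →
      s f' (f' y) = 0 → s f (f y) = 0 := fun f hf f' hf' y hy hy' q => by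
    obtain ⟨c, -, e⟩ := lift_eq D.hρ hf hf' hy hy'
    rw [hs.2 f hf f' hf' y hy hy' c e, q, mul_zero]
  let Z : Set Y := {y | ∀ᶠ y' in 𝓝 y, s (chartAt (κ → ℂ) y') (chartAt (κ → ℂ) y' y') = 0}
  have mem : ∀ f ∈ atlas (κ → ℂ) Y, ∀ y ∈ f.source, y ∈ Z ↔ ∀ᶠ w in 𝓝 (f y), s f w = 0 :=
    fun f hf y hy => ⟨fun q => by
      filter_upwards [(f.tendsto_symm hy).eventually q, f.open_target.mem_nhds (f.map_source hy)]
        with w a b
      rw [← f.right_inv b]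
      exact tr f hf _ (chart_mem_atlas _ _) _ (f.map_target b) (mem_chart_source _ _) a,
    fun q => by
      filter_upwards [(f.continuousAt hy).eventually q, f.open_source.mem_nhds hy] with w a b
      exact tr _ (chart_mem_atlas _ _) f hf _ (mem_chart_source _ _) b a⟩
  have cl : IsClopen Z := ⟨isOpen_compl_iff.1 (isOpen_iff_mem_nhds.2 fun y hy => by
    have c := chart_mem_atlas (κ → ℂ) y
    obtain ⟨r, r0, hr⟩ := Metric.isOpen_iff.1 (chartAt (κ → ℂ) y).open_target _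
      (mem_chart_target _ y)
    filter_upwards [chart_source_mem_nhds (κ → ℂ) y, ((chartAt (κ → ℂ) y).continuousAt
      (mem_chart_source _ y)).eventually_mem (Metric.ball_mem_nhds _ r0)] with w a' b q
    exact hy ((mem _ c y (mem_chart_source _ y)).2 (mem_of_superset (Metric.ball_mem_nhds _ r0)
      (((hB.sec_an m a s hs _ c).mono hr).eqOn_zero_of_preconnected_of_eventuallyEq_zero
        (convex_ball _ _).isPreconnected b ((mem _ c w a').1 q))))), isOpen_setOfPred_eventually_nhds⟩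
  have x1 : D.x0 ∉ D.I := fun q => D.j0 (congrFun q D.j)
  have an := (hB.an D.x0 _ (hB.cfA _).1 _ (D.M.mem _) x1 (hB.cfA _).2).1
  have z0 : D.φ D.x0 ∈ Z := (mem _ (hB.cfA _).1 _ (hB.cfA _).2).2 (by
    rw [← hB.val D.x0 _ _ (D.M.mem _), ← an.hasStrictFDerivAt.map_nhds_eq_of_surj
      (LinearMap.range_eq_top.2 D.surj)]
    exact hn.mono fun w q => not_not.1 q)
  have := (mem f hf _ (f.map_target hz)).1 (cl.eq_univ ⟨_, z0⟩ ▸ mem_univ _)
  rw [f.right_inv hz] at this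
  exact h0 this.self_of_nhds

end Pool.Agent.Lib.MP_d44e50_ag
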