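import Pool.Agent.Lib.MP_d44e50_ag.InvB
import Pool.Agent.Lib.MP_d44e50_ag.G12
import Pool.Agent.Lib.MP_d44e50_ag.G4

/-! The lower bound for the energy from a second metric of the class. -/

namespace Pool.Agent.Lib.MP_d44e50_ag

open Pool.Agent.Lib.MP_813db1_ag.HS MeasureTheory Complex Matrix Filter Topology Set
open scoped ContDiff ComplexOrder

set_option linter.unusedSectionVars false

namespace G4b

theorem psd {ι : Type} [Fintype ι] [DecidableEq ι] {G G₀ A R : Mat ι} {α b C K S : ℝ}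
    (hG : G.PosDef) (h0 : ((K : ℂ) • G - G₀).PosSemidef) (hA : ((α : ℂ) • G + A).PosSemidef)
    (hR : ((C : ℂ) • G₀ + R).PosSemidef) (hb : 0 ≤ b) (hC : 0 ≤ C) (hS : α + b * C * K ≤ S) :
    ((S : ℂ) • G + (A + (b : ℂ) • R)).PosSemidef := by
  have e : (S : ℂ) • G + (A + (b : ℂ) • R) = ((S - (α + b * C * K) : ℝ) : ℂ) • G +
      ((α : ℂ) • G + A) + (b : ℂ) • ((C : ℂ) • G₀ + R) +
      ((b * C : ℝ) : ℂ) • ((K : ℂ) • G - G₀) := by
    push_cast
    module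
  rw [e]
  exact (((hG.posSemidef.smul (zero_le_real.2 (sub_nonneg.2 hS))).add hA).add
    (hR.smul (zero_le_real.2 hb))).add (h0.smul (zero_le_real.2 (mul_nonneg hb hC)))

theorem dom {ι X : Type} [Fintype ι] [DecidableEq ι] [TopologicalSpace X] [CompactSpace X]
    {M : Atl ι X} {g g₀ : X → Mat ι} (hg : M.IsK g) (h₀ : M.IsK g₀) :
    ∃ K : ℝ, 0 ≤ K ∧ ∀ x, ((K : ℂ) • g x - g₀ x).PosSemidef := by
  obtain ⟨K, hK⟩ := isCompact_univ.bddAbove_image (Inv.cont_trm hg h₀).continuousOn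
  refine ⟨|K|, abs_nonneg K, fun x => ?_⟩
  have p := Green.pd (kA ι X M) hg x
  have e : ((|K| : ℝ) : ℂ) • g x - g₀ x = ((|K| - trm (g x) (g₀ x) : ℝ) : ℂ) • g x +
      ((trm (g x) (g₀ x) : ℂ) • g x - g₀ x) := by
    rw [ofReal_sub]
    module
  rw [e]
  exact (p.posSemidef.smul (zero_le_real.2 (sub_nonneg.2
    ((hK (mem_image_of_mem _ (mem_univ x))).trans (le_abs_self K))))).add
    (Mat.le_trm p (Green.pd (kA ι X M) h₀ x).posSemidef)

end G4b

theorem g4b (ha : AlgS) (h1 : G1S) (h2 : G2T) (h3 : G3S) (hq : QpS) (hm : MasS) (hl : G4L) :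
    G4B := by
  intro ι κ X Y _ _ _ _ _ _ _ _ _ _ _ _ _ N D r C O L m' a s' hB hr hR hO hs' hm' hx0
  have o0 : IsOpen (D.W m' a s') := (G12.tau_cont hB hs').isOpen_inter_preimage hB.opW isOpen_ne
  obtain ⟨K, K1, K2, K3⟩ := local_compact_nhds (inter_mem hO (o0.mem_nhds hx0))
  obtain ⟨c, c0, hc⟩ := hl ι κ X Y N D r K L hB hR.ck K1
  refine ⟨c / 108, by positivity, ?_⟩
  rintro g g' hg μ _ φ h rfl hE hμ hg' hφ hgg hO' hh m n s hs hm1 f1 f2 ε hε
  obtain ⟨μ', hμ'⟩ := (kV ι X D.M g' hg').1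
  obtain ⟨q1, Cq, q2, q3⟩ := hq ι κ X Y N (D.setG g hg) hE
  obtain ⟨K0, k0, k1⟩ := G4b.dom hg D.isK
  have r3 : CkOn D.M 3 D.Wr r := q1 r hr
  have pd := Green.pd (kA ι X D.M) hg
  have a0 : (0 : ℝ) ≤ a + 1 := by positivity
  have l23 : (2 : WithTop ℕ∞) ≤ 3 := by norm_cast
  have l13 : (1 : WithTop ℕ∞) ≤ 3 := by norm_cast
  have re : ∀ m s, IsSec D.ρ m a s → 1 ≤ m → ∃ C1, ∀ S, C1 ≤ S →
      RE D.M g ((D.setG g hg).W m a s) (fun x => (D.setG g hg).F m a s x + (a + 1) * r x) S := by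
    intro m s hs hm1
    obtain ⟨e1, e2, -, -, e5, -⟩ := h1 ι κ X Y N (D.setG g hg) m a s h hE hs hm1 hh
    obtain ⟨⟨C0, e7⟩, e8⟩ := h2 ι κ X Y N (D.setG g hg) m a s D.g r C hE hs hm1 hr hR e2
    have r2 : CkOn D.M 2 ((D.setG g hg).W m a s) r := hR.ck.mono le_rfl fun _ q => q.1
    refine ⟨max (max 0 (C0 + C)) (m * Cq + (a + 1) * C * K0), fun S hS =>
      ⟨((le_max_left _ _).trans (le_max_left _ _)).trans hS, e1, e5.lin r2 _, fun x hx => ?_,
        fun x hx => ?_, e8⟩⟩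
    · linarith [e7 x hx, hR.le x hx.1, ((le_max_right _ _).trans (le_max_left _ _)).trans hS]
    · rw [Inv.ddc_lin (M := D.M) e5 r2 _ hx]
      exact G4b.psd (pd x) (k1 x) ((q3 m a s hs hm1).2.1 x hx) (hR.psd x hx.1) a0 hR.nn
        ((le_max_right _ _).trans hS)
  obtain ⟨C1, R1⟩ := re m s hs hm1
  obtain ⟨C2, R2⟩ := re m' s' hs' hm'
  obtain ⟨e1, -, e3, e4, e5, -⟩ := h1 ι κ X Y N (D.setG g hg) m a s h hE hs hm1 hh
  obtain ⟨F3, -, F4⟩ := q3 m a s hs hm1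
  obtain ⟨G3, G5, -⟩ := q3 m' a s' hs' hm'
  have rW : CkOn D.M 3 ((D.setG g hg).W m a s) r := r3.mono le_rfl fun _ q => q.1
  have rG : CkOn D.M 3 ((D.setG g hg).W m' a s') r := r3.mono le_rfl fun _ q => q.1
  have m0 : (0 : ℝ) < m' := Nat.cast_pos.2 hm'
  have dl : ∀ x ∈ (D.setG g hg).W m' a s', D.M.ddc (fun x => ((D.setG g hg).F m' a s' x +
      (a + 1) * r x) + (m / m' - 1) * (D.setG g hg).F m' a s' x) x =
      ((m / m' : ℝ) : ℂ) • D.M.ddc ((D.setG g hg).F m' a s') x +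
        ((a + 1 : ℝ) : ℂ) • D.M.ddc r x := fun x hx => by
    rw [Inv.ddc_lin (M := D.M) ((G3.lin rG _).mono l23 subset_rfl) (G3.mono l23 subset_rfl) _ hx,
      Inv.ddc_lin (M := D.M) (G3.mono l23 subset_rfl) (rG.mono l23 subset_rfl) _ hx, ofReal_sub, ofReal_one]
    module
  have KG : K ⊆ (D.setG g hg).W m' a s' := fun x hx => by
    obtain ⟨n1, n2⟩ := G12.ne_of hm' (K2 hx).2.2
    exact ⟨(K2 hx).2.1, mul_ne_zero n1 (pow_ne_zero _ (Green.det_pos (ha.gm_pd ι κ _ _ (pd x)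
      (ha.gm_inj ι κ _ _ (pd x) (G4.inj n2)))).ne')⟩
  have up := hm ι X D.M g g' μ μ' φ _ _ (fun x => ((D.setG g hg).F m' a s' x + (a + 1) * r x) +
    (m / m' - 1) * (D.setG g hg).F m' a s' x) _ _ K (D.setG g hg).P
    (max (max C1 C2) (m * Cq + (a + 1) * C * K0)) hg hg' hμ hμ' hφ hgg
    (R2 _ ((le_max_right _ _).trans (le_max_left _ _)))
    (R1 _ ((le_max_left _ _).trans (le_max_left _ _))) (F3.lin rW _) ((G3.lin rG _).lin G3 _)
    (h3 ι κ X Y N (D.setG g hg) μ m a s hE hμ hs hm1 f1) K3 KG e3 (fun x hx => by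
      rw [dl x hx]
      refine G4b.psd (pd x) (k1 x) ?_ (hR.psd x hx.1) a0 hR.nn (le_max_right _ _)
      have := (G5 x hx).smul (zero_le_real.2 (div_nonneg (Nat.cast_nonneg m) m0.le))
      rwa [smul_add, smul_smul, ← ofReal_mul, ← mul_assoc, div_mul_cancel₀ _ m0.ne'] at this)
    (fun x hx => ⟨(e4 x hx).1, (e4 x hx).2, fun hx' => by
      obtain ⟨p1, p2⟩ := F4 m' a s' hs' hm' x hx hx'
      refine ⟨?_, Eq.trans (congrArg _ ?_) p2⟩
      · rw [dl x hx', Inv.ddc_lin (M := D.M) e5 (rW.mono l23 subset_rfl) _ hx]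
        exact congrArg (· + _) p1
      · rw [Up.dfn_lin (M := D.M) ((G3.lin rG _).mono l13 subset_rfl) (G3.mono l13 subset_rfl) _ hx',
          Up.dfn_lin (M := D.M) (G3.mono l13 subset_rfl) (rG.mono l13 subset_rfl) _ hx',
          Up.dfn_lin (M := D.M) (F3.mono l13 subset_rfl) (rW.mono l13 subset_rfl) _ hx, ofReal_sub,
          ofReal_one]
        change _ = D.M.dfn _ x - _ • D.M.dfn _ x
        module⟩) (54 * ε) (by positivity)
  have lo := (tendsto_id.atTop_div_const two_pos).eventually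
    (hc g g' hg μ' _ rfl hE hg' hμ' (fun x hx => hO' x (K2 hx).1) m a n s hs hm1 e1 e5 f1 f2
      (54 * ε) (by positivity))
  filter_upwards [up, lo] with T t1 t2
  have t3 := tsub_le_iff_right.2 (t2.trans t1)
  rw [← ENNReal.ofReal_sub _ (by positivity), show c * n - 54 * ε - 54 * ε =
    108 * (c / 108 * n - ε) by ring, ENNReal.ofReal_mul (by norm_num), ENNReal.ofReal_ofNat] at t3
  exact (ENNReal.mul_le_mul_iff_right (by norm_num) (by norm_num)).1 t3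

end Pool.Agent.Lib.MP_d44e50_ag
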