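import Pool.Agent.Lib.MP_d44e50_ag.St3
import Pool.Agent.Lib.MP_d44e50_ag.G4
import Pool.Agent.Lib.MP_d44e50_ag.Up

/-! The lower bound for the energy near the base point, for a second metric. -/

namespace Pool.Agent.Lib.MP_d44e50_ag

open Pool.Agent.Lib.MP_813db1_ag.HS MeasureTheory Complex Matrix Filter Topology Set Metric
open Pool.Agent.Lib.MP_bbd4b9_ag.LC
open scoped ContDiff ComplexOrder

set_option linter.unusedSectionVars false

open G4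

theorem g4l (ha : AlgS) (hadj : AdjS) (hgp : GpS) (hl : LelS) : G4L := by
  intro ι κ X Y _ _ _ _ _ _ _ _ _ _ _ _ N D r O L hB hr hO
  have hA := kA ι X D.M
  have he := D.M.ch_mem D.x0
  have m0 := D.M.mem D.x0
  have hz := (D.M.ch D.x0).map_source m0
  have K0 := D.isK _ he
  have nI : ∀ x ∈ D.Wr, x ∉ D.I := fun x hx q => hx (congrFun q D.j)
  obtain ⟨f1, f2⟩ := hB.cfA D.x0
  obtain ⟨a1, -, a3⟩ := hB.an D.x0 _ f1 D.x0 m0 (nI _ D.j0) f2
  obtain ⟨L0, hL⟩ := loc_bd (CdM.of_le (K0.1.1.cd hz) zero_le) (Green.det_ne (K0.2 _ hz))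
  obtain ⟨R, R0, hR⟩ := nhds_basis_closedBall.eventually_iff.1 ((a3.and hL).and
    (((ev_mem hB.opW D.j0 m0).and (((D.M.ch D.x0).tendsto_symm m0).eventually hO)).and
      ((cd_det_gm (K0.1.1.cd hz) (Green.det_ne (K0.2 _ hz)) a1).continuousAt.eventually_ne
        ((hA.repF_self D.g D.x0).symm ▸ hB.rk0))))
  obtain ⟨c1, c10, h1⟩ := hl ι (D.M.ch D.x0 D.x0) R R0
  obtain ⟨c2, c20, h2⟩ := hadj ι L0 L
  refine ⟨c2 / 2 * c1, by positivity, ?_⟩
  rintro g g' hg μ _ rfl hE hg' hμ hO' m a n s hs hm hW hF s1 s2 ε hε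
  have hK := hg _ he
  have hK' := hg' _ he
  let β : V ι → ℝ := fun w =>
    Real.log (‖(D.ρ (D.cf D.x0) (D.Φ (D.M.ch D.x0) (D.cf D.x0) w) D.j ^ a)⁻¹‖ ^ 2) +
      m * Real.log (gm (D.M.repF g (D.M.ch D.x0) w)
        (jr (D.Φ (D.M.ch D.x0) (D.cf D.x0)) w)).det.re + (a + 1) * r ((D.M.ch D.x0).symm w)
  have k : ∀ w ∈ closedBall (D.M.ch D.x0 D.x0) R, (w ∈ (D.M.ch D.x0).target ∧
      AnalyticAt ℂ (D.Φ (D.M.ch D.x0) (D.cf D.x0)) w ∧
      AnalyticAt ℂ (s (D.cf D.x0)) (D.Φ (D.M.ch D.x0) (D.cf D.x0) w) ∧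
      (gm (D.M.repF g' (D.M.ch D.x0) w) (jr (D.Φ (D.M.ch D.x0) (D.cf D.x0)) w)).det ≠ 0 ∧
      ContDiffAt ℝ 1 β w ∧ ∀ b : V ι, c2 * ∑ i, ‖b i‖ ^ 2 ≤ (D.M.repF g' (D.M.ch D.x0) w).det.re *
        (qf (D.M.repF g' (D.M.ch D.x0) w)⁻¹ b b).re) ∧ (D.M.ch D.x0).symm w ∈ O ∧
      (D.S s w ≠ 0 →
      (D.M.ch D.x0).symm w ∈ (D.setG g hg).W m a s ∧ (D.setG g hg).F m a s ((D.M.ch D.x0).symm w) +
        (a + 1) * r ((D.M.ch D.x0).symm w) = Real.log (‖D.S s w‖ ^ 2) + β w) := fun w hw => by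
    obtain ⟨⟨⟨w1, w2, w3⟩, w4⟩, ⟨⟨-, w5⟩, w6⟩, w7⟩ := hR hw
    have w8 := (D.M.ch D.x0).map_target w1
    have ri := (D.M.ch D.x0).right_inv w1
    obtain ⟨b1, b2, -⟩ := hB.an D.x0 _ f1 _ w8 w2 w3
    have t : D.Φ (D.M.ch D.x0) (D.cf D.x0) w ∈ _ := (D.cf D.x0).map_source w3
    have b3 := hr D.x0 _ w5 w8
    have b4 := (hA.trm_rep g' D.g _ he _ w8).trans_le (hO' _ w6)
    have b6 := hE.tau_eq m a s hs D.x0 _ f1 _ w8 w5 w3
    change _ = ‖D.S s w / D.ρ (D.cf D.x0) (D.Φ (D.M.ch D.x0) (D.cf D.x0) w) D.j ^ a‖ ^ 2 *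
      (gm (D.M.repF g (D.M.ch D.x0) (D.M.ch D.x0 _))
        (jr (D.Φ (D.M.ch D.x0) (D.cf D.x0)) (D.M.ch D.x0 _))).det.re ^ m at b6
    rw [ri] at b1 b3 b4 b6
    have pd := hK.2 w w1
    have d0 := ha.gm_inj ι κ _ _ pd (inj w7)
    have d1 := (Green.det_pos (ha.gm_pd ι κ _ _ pd d0)).ne'
    have r0 : D.ρ (D.cf D.x0) (D.Φ (D.M.ch D.x0) (D.cf D.x0) w) D.j ^ a ≠ 0 :=
      pow_ne_zero a (b2.1 w5)
    have r1 := pow_ne_zero 2 (norm_ne_zero_iff.2 (inv_ne_zero r0))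
    refine ⟨⟨w1, b1, hB.sec_an m a s hs _ f1 _ t, ha.gm_inj ι κ _ _ (hK'.2 w w1) (inj w7),
      ((DvA.cd_log ((((analyticAt_pi_iff.1
      (D.hρ.1 _ f1 _ t) D.j).comp b1).pow a).inv r0) (inv_ne_zero r0) 1).add
      (contDiffAt_const.mul ((reCLM.contDiff.contDiffAt.comp w (cd_det_gm (CdM.of_le (hK.1.1.cd w1)
        (by norm_cast)) (Green.det_ne pd) b1)).log d1))).add (contDiffAt_const.mul
          (contDiffAt_ofReal.1 (b3.of_le one_le_two))),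
      fun b => h2 _ _ b (K0.2 w w1) (hK'.2 w w1) w4.1 w4.2 b4⟩, w6, fun q => ?_⟩
    have q1 := pow_ne_zero 2 (norm_ne_zero_iff.2 q)
    rw [div_eq_mul_inv, norm_mul, mul_pow] at b6
    refine ⟨⟨w5, b6 ▸ mul_ne_zero (mul_ne_zero q1 r1) (pow_ne_zero m d1)⟩, ?_⟩
    rw [Dat.F, b6, Real.log_mul (mul_ne_zero q1 r1) (pow_ne_zero m d1), Real.log_mul q1 r1,
      Real.log_pow _ m]
    ring
  obtain ⟨C, hC⟩ := chart ha hK' fun w hw => (k w hw).1
  have an : AnalyticOnNhd ℂ (D.S s) (ball (D.M.ch D.x0 D.x0) R) := fun w hw =>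
    (k w (ball_subset_closedBall hw)).1.2.2.1.comp (k w (ball_subset_closedBall hw)).1.2.1
  have oA : IsOpen (ball (D.M.ch D.x0 D.x0) R ∩ {z | D.S s z ≠ 0}) :=
    an.continuousOn.isOpen_inter_preimage isOpen_ball isOpen_compl_singleton
  have u1 : CkOn D.M 1 ((D.setG g hg).W m a s) fun x => (D.setG g hg).F m a s x + (a + 1) * r x :=
    (hF.mono one_le_two subset_rfl).lin (hr.mono one_le_two fun _ q => q.1) _
  have lim : Tendsto (fun T : ℝ => 2 * C / T * (volume (ball (D.M.ch D.x0 D.x0) R)).toReal) atTop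
      (𝓝 (0 * _)) := (tendsto_const_nhds.div_atTop tendsto_id).mul_const _
  filter_upwards [h1 _ n an s1 s2 (ε / c2) (by positivity), eventually_gt_atTop 0,
    eventually_ge_atTop C,
    lim.eventually_lt_const ((zero_mul _).trans_lt (half_pos hε))] with T t1 t2 t3 t4
  have i1 := ((kV ι X D.M g' hg').2 μ hμ).lint _ he _ oA.measurableSet
    (fun w hw => (k w (ball_subset_closedBall hw.1)).1.1) fun x => ENNReal.ofReal
      (pp 1 (((D.setG g hg).F m a s x + (a + 1) * r x) / T + 2) / T * gp D.M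
        (fun e z => (D.M.repF g' e z)⁻¹)
        (fun x => (D.setG g hg).F m a s x + (a + 1) * r x)
        (fun x => (D.setG g hg).F m a s x + (a + 1) * r x) x)
  refine le_trans ?_ (i1.symm.trans_le (lintegral_mono_set fun x hx => ?_))
  swap
  · exact (D.M.ch D.x0).left_inv hx.1 ▸ ⟨((k _ (ball_subset_closedBall hx.2.1)).2.2 hx.2.2).1,
      (k _ (ball_subset_closedBall hx.2.1)).2.1⟩
  rw [show c2 / 2 * c1 * n - ε = c2 / 2 * (c1 * n - ε / c2) - ε / 2 by field_simp; ring,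
    ENNReal.ofReal_sub _ (half_pos hε).le, tsub_le_iff_right,
    ENNReal.ofReal_mul (half_pos c20).le]
  refine (mul_le_mul_right t1 _).trans ?_
  rw [← lintegral_const_mul' _ _ ENNReal.ofReal_ne_top]
  refine (setLIntegral_mono' oA.measurableSet fun w hw => ?_).trans
    ((lintegral_add_right _ (measurable_const (a := ENNReal.ofReal (2 * C / T)))).trans_le
      (add_le_add_right ?_ _))
  · obtain ⟨k1, k2, k3⟩ := k w (ball_subset_closedBall hw.1)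
    obtain ⟨k4, k5⟩ := k3 hw.2
    have e := (hgp ι X D.M _ _ _ _ hW (Up.ten hg') u1 u1).2 D.x0 _ k4 ((D.M.ch D.x0).map_target k1.1)
    rw [(D.M.ch D.x0).right_inv k1.1] at e
    rw [← ENNReal.ofReal_mul (half_pos c20).le,
      ← ENNReal.ofReal_mul (Green.det_pos (hK'.2 w k1.1)).le, e, k5]
    refine (ENNReal.ofReal_le_ofReal ((hC T t2 t3 w (ball_subset_closedBall hw.1) hw.2 _ ?_).trans
      (add_le_add_left (mul_le_mul_of_nonneg_left (mul_le_mul_of_nonneg_left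
        (ha.qf_sub ι _ _ _ (ha.pj_psd ι κ _ _ (hK'.2 w k1.1) k1.2.2.2.1).2.1)
        (div_nonneg (pp_nonneg 1 _) t2.le)) (Green.det_pos (hK'.2 w k1.1)).le) _))).trans
      ENNReal.ofReal_add_le
    filter_upwards [oA.mem_nhds hw] with y hy
    rw [fn, ((k y (ball_subset_closedBall hy.1)).2.2 hy.2).2, ofReal_add]
    rfl
  · rw [setLIntegral_const]
    refine (mul_le_mul_right (measure_mono inter_subset_left) _).trans ?_
    rw [← ENNReal.ofReal_toReal (measure_ball_lt_top (μ := volume)).ne, mul_comm,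
      ← ENNReal.ofReal_mul ENNReal.toReal_nonneg, mul_comm]
    exact ENNReal.ofReal_le_ofReal t4.le

end Pool.Agent.Lib.MP_d44e50_ag
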