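import Pool.Agent.Lib.MP_d44e50_ag.InvB
import Pool.Agent.Lib.MP_d44e50_ag.Ibp

/-! The mass of a closed positive form depends only on the class of the metric. -/

namespace Pool.Agent.Lib.MP_d44e50_ag

open Pool.Agent.Lib.MP_813db1_ag.HS MeasureTheory Complex Matrix Filter Topology Set
open scoped ContDiff ComplexOrder

set_option linter.unusedSectionVars false

noncomputable section

namespace Inv

variable {ι X : Type} [Fintype ι] [DecidableEq ι] [TopologicalSpace X] {M : Atl ι X} {W : Set X}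
  {P : Ch ι X → V ι → Mat ι} {g h g₁ : X → Mat ι} {f F b ψ : X → ℝ} {x y : X}

theorem cd_md {n : WithTop ℕ∞} {G E : V ι → Mat ι} {z : V ι} (hG : CdM n G z) (hE : CdM n E z)
    (h0 : (G z).det ≠ 0) : CdM n (fun w => md (G w) (E w)) z :=
  CdM.smul hG.det ((CdM.smul (hE.mul (hG.inv h0)).tr (hG.inv h0)).sub
    (((hG.inv h0).mul hE).mul (hG.inv h0)))

theorem cdK (hg : M.IsK g) (hy : x ∈ (M.ch y).source) : CdM 1 (M.repF g (M.ch y)) (M.ch y x) ∧
    (M.repF g (M.ch y) (M.ch y x)).det ≠ 0 :=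
  ⟨((hg _ (M.ch_mem y)).1.1.cd ((M.ch y).map_source hy)).of_le (by norm_cast),
    Green.det_ne ((hg _ (M.ch_mem y)).2 _ ((M.ch y).map_source hy))⟩

/-- the tensor. -/
def Q (M : Atl ι X) (g h g₁ : X → Mat ι) (f : X → ℝ) (e : Ch ι X) (w : V ι) : Mat ι :=
  (M.repF g e w).det⁻¹ • md (M.repF h e w) (M.repF (fun x => g₁ x + M.ddc f x) e w)

theorem Q_self (hg : M.IsK g) (x : X) : Q M g h g₁ f (M.ch x) (M.ch x x) =
    (((g x).det.re⁻¹ : ℝ) : ℂ) • md (h x) (g₁ x + M.ddc f x) := by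
  simp only [Q, (kA ι X M).repF_self, ofReal_inv, ← (Mat.det' (Green.pd (kA ι X M) hg x)).2]

theorem cd_eta (h₁ : M.IsK g₁) (hW : IsOpen W) (hf : CkOn M 3 W f) (hx : x ∈ W)
    (hy : x ∈ (M.ch y).source) :
    CdM 1 (M.repF (fun x => g₁ x + M.ddc f x) (M.ch y)) (M.ch y x) :=
  funext (repF_add g₁ (M.ddc f) (M.ch y)) ▸ (cdK h₁ hy).1.add (cd_ddc hW hf (by norm_num) hx hy)

theorem tenQ (hg : M.IsK g) (hh : M.IsK h) (h₁ : M.IsK g₁) (hW : IsOpen W) (hf : CkOn M 3 W f) :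
    Ten M W (Q M g h g₁ f) where
  sm y x hx hy := CdM.smul ((cdK hg hy).1.det.inv (cdK hg hy).2)
    (cd_md (cdK hh hy).1 (cd_eta h₁ hW hf hx hy) (cdK hh hy).2)
  tr y x _ hy := by
    have e := (kA ι X M).tj_det _ (M.ch_mem y) _ (M.ch_mem x) x hy (M.mem x)
    have e' : ((‖(tj (M.ch y) (M.ch x) x).det‖ ^ 2 : ℝ) : ℂ) ≠ 0 :=
      ofReal_ne_zero.2 (pow_ne_zero _ (norm_ne_zero_iff.2 e))
    simp only [Q, (kA ι X M).repF_self]
    simp only [Atl.repF, (M.ch y).left_inv hy]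
    rw [Matrix.mul_smul, Matrix.smul_mul, md_pull e, (mat.pull_pd ι _ (g x) e).2.2.2.1, smul_smul,
      mul_inv, mul_right_comm, inv_mul_cancel₀ e', one_mul]

theorem dv_loc {G N : V ι → Mat ι} {F : V ι → ℂ} {z : V ι} (hG : ∀ᶠ w in 𝓝 z, (G w).det ≠ 0)
    (hN : DfM N z) (hF : ContDiffAt ℝ 2 F z) (e : ∀ j, ∑ i, dM N i z j i = 0) :
    dvP G (fun w => (G w).det⁻¹ • N w) F z = trace (N z * levi F z) := by
  have c := differentiableAt_dzb hF
  refine Eq.trans (Finset.sum_congr rfl fun i _ => ?_)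
    (?_ : ∑ i, ∑ j, (dM N i z j i * dzb F j z + N z j i * levi F z i j) = _)
  · rw [dz_congr (g := fun w => ∑ j, N w j i * dzb F j w) (hG.mono fun w hw => by
      simp only [Matrix.smul_apply, smul_eq_mul, mul_assoc, ← Finset.mul_sum,
        mul_inv_cancel_left₀ hw]), dz_sum _ fun j _ => (hN j i).fun_mul (c j)]
    exact Finset.sum_congr rfl fun j _ => dz_mul (hN j i) (c j) i
  · rw [Finset.sum_comm]
    simp only [Finset.sum_add_distrib, ← Finset.sum_mul, e, zero_mul, zero_add,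
      trace, diag, Matrix.mul_apply]

theorem dvQ (hg : M.IsK g) (hh : M.IsK h) (h₁ : M.IsK g₁) (hW : IsOpen W) (hf : CkOn M 3 W f)
    (hF : CkOn M 2 W F) (hx : x ∈ W) :
    (dvP (M.repF g (M.ch x)) (Q M g h g₁ f (M.ch x)) (fn F (M.ch x)) (M.ch x x)).re =
      (g x).det.re * (trace (Q M g h g₁ f (M.ch x) (M.ch x x) * M.ddc F x)).re := by
  have hz := (M.ch x).map_source (M.mem x)
  have c2 := cd_eta h₁ hW hf hx (M.mem x)
  have e0 : M.repF (fun x => g₁ x + M.ddc f x) (M.ch x) =ᶠ[𝓝 (M.ch x x)]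
      fun w => M.repF g₁ (M.ch x) w + levi (fn f (M.ch x)) w :=
    (rep_ddc hW (hf.mono (by norm_num) subset_rfl) hx (M.mem x)).mono fun w q => by
      rw [repF_add, q]
  have d : DfM (levi (fn f (M.ch x))) (M.ch x x) := fun i j => (contDiffAt_levi (m := 1)
    (hf x x hx (M.mem x)) (by norm_num) i j).differentiableAt one_ne_zero
  have e := dv_loc (((M.ch x).open_target.eventually_mem hz).mono fun w hw =>
    Green.det_ne ((hg _ (M.ch_mem x)).2 w hw)) ((cd_md (cdK hh (M.mem x)).1 c2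
    (cdK hh (M.mem x)).2).df one_ne_zero) (hF x x hx (M.mem x)) (div_md ((cdK hh (M.mem x)).1.df
    one_ne_zero) (c2.df one_ne_zero) (cdK hh (M.mem x)).2 ((hh _ (M.ch_mem x)).1.2.2 _ hz)
    fun i j k => by
      rw [dM_congr e0 k, dM_congr e0 i, dM_add ((cdK h₁ (M.mem x)).1.df one_ne_zero) d,
        dM_add ((cdK h₁ (M.mem x)).1.df one_ne_zero) d]
      exact congrArg₂ (· + ·) ((h₁ _ (M.ch_mem x)).1.2.2 _ hz i j k)
        (dz_dz_comm (contDiffAt_dzb (hf x x hx (M.mem x)) (by norm_num) j) k i))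
  rw [(kA ι X M).repF_self, (kA ι X M).repF_self] at e
  rw [Q_self hg, Matrix.smul_mul, trace_smul, smul_eq_mul, re_ofReal_mul,
    mul_inv_cancel_left₀ (Mat.det' (Green.pd (kA ι X M) hg x)).1.ne']
  exact congrArg re e

theorem cs (ha : AlgS) {A : Mat ι} (hA : A.PosSemidef) (u v : V ι) (τ : ℝ) :
    -(τ * (qf A u v).re) ≤ (qf A u u).re / 2 + τ ^ 2 / 2 * (qf A v v).re := by
  have := ha.qf_cs ι A (u + (τ : ℂ) • v) v (-τ) hA
  rw [ofReal_neg, neg_smul, add_neg_cancel_right, Ibp.qf_eq A u (_ + _), star_add, star_smul,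
    add_dotProduct, smul_dotProduct, ← Ibp.qf_eq, ← Ibp.qf_eq, RCLike.star_def, conj_ofReal,
    smul_eq_mul, add_re, re_ofReal_mul] at this
  linarith

theorem pp_le' (t : ℝ) : pp 1 (t + 2) ≤ pp 2 (t + 3) := by
  rcases le_total (t + 2) 0 with q | q
  · exact (pp_of_nonpos 0 q).trans_le (pp_nonneg _ _)
  · rw [pp_of_nonneg _ q, pp_of_nonneg _ (by linarith)]
    nlinarith

variable [T2Space X] [CompactSpace X] [MeasurableSpace X] [BorelSpace X] {μ : Measure X}

theorem one (ha : AlgS) (hi : IbpS) {C K B S τ : ℝ} {T : X → ℝ} (hg : M.IsK g) (hμ : M.IsVol g μ)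
    (hb : RE M g W b C) (hP : Ten M W P) (hp : ∀ x ∈ W, (P (M.ch x) (M.ch x x)).PosSemidef)
    (hd : ∀ F, CkOn M 2 W F → ∀ x ∈ W, (dvP (M.repF g (M.ch x)) (P (M.ch x)) (fn F (M.ch x))
      (M.ch x x)).re = (g x).det.re * (trace (P (M.ch x) (M.ch x x) * M.ddc F x)).re)
    (hT : ContinuousOn T W) (hK : ∀ x ∈ W, (trace (P (M.ch x) (M.ch x x) * g x)).re ≤ K * T x)
    (hψ : CkOn M 2 W ψ) (hB : ∀ x ∈ W, (qf (g x)⁻¹ (M.dfn ψ x) (M.dfn ψ x)).re ≤ B) (hS : 0 < S)
    (hτ : 0 < τ) :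
    ∫ x in W, pp 2 (b x / S + 2) * (trace (P (M.ch x) (M.ch x x) * M.ddc ψ x)).re ∂μ ≤
      (C * K / (2 * τ) + τ * B * K / S) * ∫ x in W, pp 2 (b x / S + 3) * T x ∂μ := by
  have := ((kV ι X M g hg).2 μ hμ).fin
  have pd := Green.pd (kA ι X M) hg
  have b1 := hb.ck.mono one_le_two subset_rfl
  obtain ⟨-, i2, i3⟩ := hi ι X M g μ W P ψ b _ _ _ hg hμ hb.opn hP hψ b1
    (cont_tr hb.opn hP fun x hx => cd_ddc hb.opn hψ (zero_add _).le hx (M.mem x))
    (fun x hx => (hd ψ hψ x hx).ge) (hb.cl _) (Up.cut 2 hS).1 (fun _ => pp_nonneg _ _)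
    (Up.cut 2 hS).2.1
  obtain ⟨-, j2, j3⟩ := hi ι X M g μ W P b b (fun x => -(C * K) * T x) _ _ hg hμ hb.opn hP hb.ck b1
    (continuousOn_const.mul hT) (fun x hx => by
      have e := Apr.tr_nonneg (hp x hx) (hb.psd x hx)
      rw [Matrix.mul_add, trace_add, Matrix.mul_smul, trace_smul, smul_eq_mul, add_re,
        re_ofReal_mul] at e
      rw [hd b hb.ck x hx]
      exact mul_le_mul_of_nonneg_left (by nlinarith [mul_le_mul_of_nonneg_left (hK x hx) hb.nn])
        (Mat.det' (pd x)).1.le) (hb.cl _) (Up.cut 3 hS).1 (fun _ => pp_nonneg _ _)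
    (Up.cut 3 hS).2.1
  have k1 : IntegrableOn (fun x => pp 2 (b x / S + 3) * T x) W μ := intP hb hS 1 3 hT
  simp only [(Up.cut 2 hS).2.2, (Up.cut 3 hS).2.2, mul_left_comm _ (-(C * K)),
    integral_const_mul (-(C * K))] at i2 i3 j2 j3
  have k2 := setIntegral_mono_on i2.neg ((j2.const_mul (2 * τ)⁻¹).add
    (k1.const_mul (τ * B * K / S))) hb.opn.measurableSet fun x hx => by
      have e1 := cs ha (hp x hx) (M.dfn b x) (M.dfn ψ x) τ
      have e2 := ha.qf_psd ι _ (M.dfn b x) (hp x hx)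
      have e3 := Apr.tr_nonneg (hp x hx) (pd x).posSemidef
      have e4 := (qf_le (pd x) (hp x hx) (M.dfn ψ x)).trans
        (mul_le_mul (hB x hx) (hK x hx) e3
          ((ha.qf_psd ι _ _ (pd x).inv.posSemidef).trans (hB x hx)))
      have e5 := ha.qf_psd ι _ (M.dfn ψ x) (hp x hx)
      have p0 := div_nonneg (pp_nonneg 1 (b x / S + 2)) hS.le
      have p1 : pp 1 (b x / S + 2) / S ≤ pp 1 (b x / S + 3) / S :=
        div_le_div_of_nonneg_right (pp_mono 1 (by linarith)) hS.le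
      have p2 := div_le_div_of_nonneg_right (pp_le' (b x / S)) hS.le
      refine le_of_mul_le_mul_left ?_ hτ
      simp only [Pi.neg_apply, Pi.add_apply, gp]
      calc _ = 2 * (pp 1 (b x / S + 2) / S) * -(τ * _) := by ring
        _ ≤ _ := mul_le_mul_of_nonneg_left e1 (by positivity)
        _ = pp 1 (b x / S + 2) / S * _ + τ ^ 2 * (pp 1 (b x / S + 2) / S * _) := by ring
        _ ≤ _ := add_le_add (mul_le_mul_of_nonneg_right p1 e2) (mul_le_mul_of_nonneg_left
          (mul_le_mul p2 e4 e5 (p0.trans p2)) (sq_nonneg τ))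
        _ = _ := by field_simp
  rw [integral_neg', integral_add' (j2.const_mul _) (k1.const_mul _), integral_const_mul,
    integral_const_mul (_ / S)] at k2
  rw [neg_mul, neg_add_le_iff_le_add, add_zero] at j3
  have k3 := mul_le_mul_of_nonneg_left j3 (inv_pos.2 (mul_pos two_pos hτ)).le
  rw [add_mul, div_eq_inv_mul (C * K), mul_assoc _ (C * K)]
  linarith

end Inv

open MP_d44e50_ag.Inv Polynomial in
theorem invT (ha : AlgS) (hi : IbpS) : InvT := by
  intro ι X _ _ _ _ _ _ _ M g g' μ φ b W C hg hg' hμ hφ he hb δ hδ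
  have := ((kV ι X M g hg).2 μ hμ).fin
  have A := kA ι X M
  have pd := Green.pd A hg
  have φ2 : CkOn M 2 univ φ := (ckOn hφ).mono (by norm_cast) subset_rfl
  have φ1 := φ2.mono one_le_two subset_rfl
  obtain ⟨l, hl⟩ := (isCompact_range (((cont_trm hg hg').add (cont_trm hg' hg)).add
    (continuousOn_univ.1 (gpS ι X M _ _ φ φ isOpen_univ (Up.ten hg) φ1 φ1).1))).bddAbove
  have bd : ∀ x, 0 ≤ l ∧ trm (g x) (g' x) ≤ l ∧ trm (g' x) (g x) ≤ l ∧
      (qf (g x)⁻¹ (M.dfn φ x) (M.dfn φ x)).re ≤ l := fun x => by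
    have e := hl (mem_range_self x)
    have e1 := Mat.trm_nonneg (pd x) (Green.pd A hg' x).posSemidef
    have e2 := Mat.trm_nonneg (Green.pd A hg' x) (pd x).posSemidef
    have e3 := ha.qf_psd ι _ (M.dfn φ x) (pd x).inv.posSemidef
    simp only [Pi.add_apply, gp, A.repF_self] at e
    exact ⟨by linarith, by linarith, by linarith, by linarith⟩
  obtain ⟨K, K0, hK⟩ := path (ι := ι) |l| (abs_nonneg l)
  have hK' := fun x => hK (g x) (M.ddc φ x) (pd x) (he x ▸ Green.pd A hg' x)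
    (he x ▸ (bd x).2.1.trans (le_abs_self l)) (he x ▸ (bd x).2.2.1.trans (le_abs_self l))
  have ik : ∀ t ∈ Icc (0 : ℝ) 1, M.IsK fun x => g x + (t : ℂ) • M.ddc φ x := fun t ht =>
    (A.isK_iff _).2 ⟨A.clF_add _ _ ((A.isK_iff g).1 hg).1
      (A.clF_smul t _ ((kB ι X M).ddc_cl φ hφ)), fun x => (hK' x t ht).1⟩
  have c0 := mul_nonneg hb.nn K0
  have τ0 : 0 < (C * K + 1) / δ := by positivity
  filter_upwards [eventually_gt_atTop 0, eventually_ge_atTop ((C * K + 1) / δ * l * K / (δ / 2))]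
    with S hS hS' g₁ f h₁ hf hη
  have f2 := hf.mono (show (2 : WithTop ℕ∞) ≤ 3 by norm_num) subset_rfl
  have ct : ∀ {h}, M.IsK h → ContinuousOn (fun x => trm (h x) (g₁ x + M.ddc f x)) W := fun hh => by
    simp only [Apr.trm_add]
    exact (cont_trm hh h₁).continuousOn.add (cont_lap hh hb.opn f2)
  let p : X → ℂ[X] := fun y => Polynomial.C ((pp 2 (b y / S + 2) * (g y).det.re⁻¹ : ℝ) : ℂ) *
    pa (g y) (M.ddc φ y) (g₁ y + M.ddc f y)
  have e : ∀ t ∈ Icc (0 : ℝ) 1, ∀ y ∈ W, (p y).eval (t : ℂ) = ((pp 2 (b y / S + 2) *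
      (trm (g y + (t : ℂ) • M.ddc φ y) (g₁ y + M.ddc f y) *
        rat (fun x => g x + (t : ℂ) • M.ddc φ x) g y) : ℝ) : ℂ) := fun t ht y hy => by
    have q := (hK' y t ht).1
    rw [eval_C_mul, ((pa_spec _ _ _).2 _ q.det_pos.ne').1, (mat.real ι _ _ q.1 (hη y hy).1).1,
      (Mat.det' q).2, rat, div_eq_mul_inv (re _)]
    push_cast
    ring
  have key := poly_mv (μ.restrict W) p (Fintype.card ι)
    (δ := δ * ∫ x in W, pp 2 (b x / S + 3) * trm (g x) (g₁ x + M.ddc f x) ∂μ)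
    (fun y => (natDegree_C_mul_le _ _).trans (pa_spec _ _ _).1)
    (fun t ht => (intP hb hS 1 2 ((ct (ik t ht)).mul
      (rat_cont hg (ik t ht)).continuousOn)).ofReal.congr
        ((ae_restrict_mem hb.opn.measurableSet).mono fun y hy => (e t ht y hy).symm))
    fun t ht => ?_
  · rw [← ofReal_one, ← ofReal_zero, setIntegral_congr_fun hb.opn.measurableSet fun y hy =>
      congrArg re (e 1 (by simp) y hy), setIntegral_congr_fun hb.opn.measurableSet fun y hy =>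
      congrArg re (e 0 (by simp) y hy)] at key
    simpa only [ofReal_re, ofReal_one, ofReal_zero, one_smul, zero_smul, add_zero, ← he, rat,
      div_self (Mat.det' (pd _)).1.ne', mul_one] using key
  have k := fun ψ h1 h2 => (one (ψ := ψ) ha hi hg hμ hb (tenQ hg (ik t ht) h₁ hb.opn hf)
    (fun x hx => Q_self hg x ▸ (md_psd (hK' x t ht).1 (hη x hx)).smul
      (zero_le_real.2 (inv_pos.2 (Mat.det' (pd x)).1).le))
    (fun F hF x hx => dvQ hg (ik t ht) h₁ hb.opn hf hF hx) (ct hg) (K := K) (B := l)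
    (fun x hx => by
      rw [Q_self hg, Matrix.smul_mul, trace_smul, smul_eq_mul, re_ofReal_mul,
        inv_mul_le_iff₀ (Mat.det' (pd x)).1, mul_left_comm]
      exact (hK' x t ht).2 _ (hη x hx)) h1 h2 hS τ0).trans (mul_le_mul_of_nonneg_right
    (show _ ≤ δ by
      have a1 : C * K / (2 * ((C * K + 1) / δ)) ≤ δ / 2 := by
        rw [div_le_iff₀ (by positivity)]
        field_simp
        linarith
      linarith [(div_le_comm₀ (half_pos hδ) hS).1 hS'])
    (setIntegral_nonneg hb.opn.measurableSet fun x hx =>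
      mul_nonneg (pp_nonneg _ _) (Mat.trm_nonneg (pd x) (hη x hx))))
  have n0 : ∀ x, fn (fun y => -φ y) (M.ch x) = fun w => -fn φ (M.ch x) w := fun x =>
    funext fun w => ofReal_neg _
  have k1 := k φ (φ2.mono le_rfl (subset_univ _)) fun x _ => (bd x).2.2.2
  have k2 := k (fun y => -φ y) (fun y x _ hy => n0 y ▸ (φ2 y x trivial hy).neg) fun x _ => by
    have : M.dfn (fun y => -φ y) x = -M.dfn φ x := funext fun i => by
      rw [Atl.dfn, n0, dz_neg]
      rfl
    simpa only [this, qf, Pi.neg_apply, star_neg, mul_neg, neg_mul, neg_neg] using (bd x).2.2.2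
  have n1 : ∀ x, M.ddc (fun y => -φ y) x = -M.ddc φ x := fun x => by
    rw [Atl.ddc, n0, levi_neg]
    rfl
  simp only [n1, trace_neg, neg_re, mul_neg, integral_neg] at k2
  refine (congrArg abs (integral_congr_ae (.of_forall fun y => ?_))).trans_le
    (abs_le.2 ⟨neg_le.1 k2, k1⟩)
  simp only [p, derivative_C_mul, eval_C_mul, ((pa_spec _ _ _).2 _ (hK' y t ht).1.det_pos.ne').2,
    Q_self hg, Matrix.smul_mul, trace_smul, smul_eq_mul, re_ofReal_mul, mul_assoc]

end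

end Pool.Agent.Lib.MP_d44e50_ag
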