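import Pool.Agent.Lib.MP_d44e50_ag.InvB
import Pool.Agent.Lib.MP_d44e50_ag.Ibp

/-! The energy for another metric of the class. -/

namespace Pool.Agent.Lib.MP_d44e50_ag

open Pool.Agent.Lib.MP_813db1_ag.HS MeasureTheory Complex Matrix Filter Topology Set
open scoped ContDiff ComplexOrder

set_option linter.unusedSectionVars false

namespace Mas

variable {ι X : Type} [Fintype ι] [DecidableEq ι]

theorem split (ha : AlgS) {H P : Mat ι} {a b : V ι} (hP : P.PosSemidef) (hQ : (H - P).PosSemidef)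
    (h : (H - P) *ᵥ (a - b) = 0) : (qf H a a).re ≤ (qf P a a).re + (qf H b b).re := by
  have e1 : qf (H - P) a a = qf (H - P) b b := by
    have h1 : (H - P) *ᵥ a = (H - P) *ᵥ b := by rwa [mulVec_sub, sub_eq_zero] at h
    have h2 : star a ᵥ* (H - P) = star b ᵥ* (H - P) := by
      rw [← hQ.1.eq, ← star_mulVec, ← star_mulVec, h1]
    rw [Ibp.qf_eq, Ibp.qf_eq, h1, dotProduct_mulVec, h2, dotProduct_mulVec]
  have e2 : qf H a a = qf P a a + qf (H - P) a a := by
    rw [Ibp.qf_eq, Ibp.qf_eq, Ibp.qf_eq, sub_mulVec, dotProduct_sub, add_sub_cancel]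
  rw [e2, e1, add_re]
  exact add_le_add_right (ha.qf_sub ι _ _ b (by rwa [sub_sub_cancel])) _

theorem psd {G L : Mat ι} {a : V ι} {C w v : ℝ} (hG : G.PosDef) (hC : 0 ≤ C)
    (hL : ((C : ℂ) • G + L).PosSemidef) (h0 : 0 ≤ w) (h1 : w ≤ 108) (hv : 0 ≤ v) :
    (((108 * C + 1 : ℝ) : ℂ) • G + ((w : ℂ) • L + (v : ℂ) • vecMulVec a (star a))).PosSemidef := by
  have e : ((108 * C + 1 : ℝ) : ℂ) • G + ((w : ℂ) • L + (v : ℂ) • vecMulVec a (star a)) =
      ((108 * C + 1 - w * C : ℝ) : ℂ) • G + (w : ℂ) • ((C : ℂ) • G + L) +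
        (v : ℂ) • vecMulVec a (star a) := by
    push_cast
    module
  rw [e]
  exact ((hG.posSemidef.smul (zero_le_real.2 (by nlinarith))).add
    (hL.smul (zero_le_real.2 h0))).add
      ((posSemidef_vecMulVec_self_star a).smul (zero_le_real.2 hv))

theorem low (s : ℝ) : pp 1 (2 * s + 2) ≤ 2 * pp 2 (s + 2) := by
  rcases le_total (2 * s + 2) 0 with h | h
  · rw [pp_of_nonpos 0 h]
    linarith [pp_nonneg 2 (s + 2)]
  · rw [pp_of_nonneg 1 h, pp_of_nonneg 2 (by linarith)]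
    nlinarith

theorem w_le {s T C : ℝ} (hT : 0 < T) (hC : C ≤ T) (hs : s ≤ C) : 4 * pp 3 (s / T + 2) ≤ 108 := by
  linarith [Up.pp_le 3 hT (hs.trans hC) zero_le_two]

theorem lim [MeasurableSpace X] {ν : Measure X} {u F : X → ℝ} {C : ℝ}
    (hu : AEStronglyMeasurable u ν) (hC : ∀ᵐ x ∂ν, u x ≤ C) (hF : Integrable F ν) :
    (∀ T > 0, C ≤ T → Integrable (fun x => (4 * pp 3 (u x / T + 2) - 32) * F x) ν) ∧
      Tendsto (fun T => ∫ x, (4 * pp 3 (u x / T + 2) - 32) * F x ∂ν) atTop (𝓝 0) := by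
  have m : ∀ T, AEStronglyMeasurable (fun x => (4 * pp 3 (u x / T + 2) - 32) * F x) ν := fun T =>
    ((show Continuous fun s : ℝ => 4 * pp 3 (s / T + 2) - 32 from (continuous_const.mul
      ((continuous_pp 3).comp ((continuous_id.div_const T).add continuous_const))).sub
        continuous_const).comp_aestronglyMeasurable hu).mul hF.1
  have bd : ∀ T > 0, C ≤ T → ∀ᵐ x ∂ν, ‖(4 * pp 3 (u x / T + 2) - 32) * F x‖ ≤ 108 * ‖F x‖ :=
    fun T hT h => hC.mono fun x hx => by
      rw [norm_mul]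
      refine mul_le_mul_of_nonneg_right (abs_le.2 ⟨?_, ?_⟩) (norm_nonneg _)
      · linarith [pp_nonneg 3 (u x / T + 2)]
      · linarith [w_le hT h hx]
  refine ⟨fun T hT h => (hF.norm.const_mul 108).mono' (m T) (bd T hT h), ?_⟩
  have := tendsto_integral_filter_of_dominated_convergence (l := atTop) (f := fun _ => (0 : ℝ))
    (fun x => 108 * ‖F x‖) (.of_forall m) (((eventually_gt_atTop 0).and
      (eventually_ge_atTop C)).mono fun T h => bd T h.1 h.2) (hF.norm.const_mul 108)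
    (.of_forall fun x => by
      have := ((continuous_pp 3).tendsto _).comp
        ((tendsto_const_nhds (x := u x).div_atTop tendsto_id).add_const 2)
      have := ((this.const_mul 4).sub_const 32).mul_const (F x)
      rwa [pp_of_nonneg 3 (by norm_num), show (4 : ℝ) * (0 + 2) ^ 3 - 32 = 0 by norm_num,
        zero_mul] at this)
  rwa [integral_zero] at this

variable [TopologicalSpace X] [T2Space X] [CompactSpace X] [MeasurableSpace X] [BorelSpace X]
  {M : Atl ι X} {g g₁ h : X → Mat ι} {μ : Measure X} {G : Set X} {b l f ρ w v : X → ℝ}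
  {d : X → V ι} {C S : ℝ}

theorem ddc2 (hl : CkOn M 3 G l) {x : X} (hx : x ∈ G) :
    M.ddc (fun x => l x + 31 * l x) x = ((32 : ℝ) : ℂ) • M.ddc l x := by
  have l2 : CkOn M 2 G l := hl.mono (by norm_num) subset_rfl
  rw [Inv.ddc_lin l2 l2 31 hx]
  push_cast
  module

theorem diff [IsFiniteMeasure μ] (hh : M.IsK h) (h₁ : M.IsK g₁) (hb : RE M g G b C) (hS : 0 < S)
    (a : ℝ) (hρ : Continuous ρ) (hf : M.Ck 3 f) (hl : CkOn M 3 G l)
    (iA : IntegrableOn (fun x => (w x - 32) *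
      (pp 2 (b x / S + a) * (trm (h x) (M.ddc l x) * ρ x))) G μ)
    (he : ∀ᵐ x ∂μ.restrict G, M.ddc f x =
      (w x : ℂ) • M.ddc l x + (v x : ℂ) • vecMulVec (d x) (star (d x))) :
    IntegrableOn (fun x => pp 2 (b x / S + a) * (v x * (qf (h x)⁻¹ (d x) (d x)).re * ρ x)) G μ ∧
      ∫ x in G, pp 2 (b x / S + a) * (v x * (qf (h x)⁻¹ (d x) (d x)).re * ρ x) ∂μ =
        ∫ x in G, pp 2 (b x / S + a) * (trm (h x) (g₁ x + M.ddc f x) * ρ x) ∂μ -
        ∫ x in G, pp 2 (b x / S + a) *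
          (trm (h x) (g₁ x + M.ddc (fun x => l x + 31 * l x) x) * ρ x) ∂μ -
        ∫ x in G, (w x - 32) * (pp 2 (b x / S + a) * (trm (h x) (M.ddc l x) * ρ x)) ∂μ := by
  have i : ∀ f : X → ℝ, CkOn M 3 G f → IntegrableOn
      (fun x => pp 2 (b x / S + a) * (trm (h x) (g₁ x + M.ddc f x) * ρ x)) G μ := fun f q => by
    simp only [Apr.trm_add]
    exact Inv.intP hb hS 1 a (((Inv.cont_trm hh h₁).continuousOn.add
      (Inv.cont_lap hh hb.opn (q.mono (by norm_num) subset_rfl))).mul hρ.continuousOn)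
  have i1 := i f (Inv.ckOn hf)
  have i2 := i _ (hl.lin hl 31)
  have e : (fun x => pp 2 (b x / S + a) * (v x * (qf (h x)⁻¹ (d x) (d x)).re * ρ x))
      =ᵐ[μ.restrict G] fun x => pp 2 (b x / S + a) * (trm (h x) (g₁ x + M.ddc f x) * ρ x) -
        pp 2 (b x / S + a) * (trm (h x) (g₁ x + M.ddc (fun x => l x + 31 * l x) x) * ρ x) -
        (w x - 32) * (pp 2 (b x / S + a) * (trm (h x) (M.ddc l x) * ρ x)) := by
    filter_upwards [he, ae_restrict_mem hb.opn.measurableSet] with x h1 hx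
    have h2 : trm (h x) (vecMulVec (d x) (star (d x))) = (qf (h x)⁻¹ (d x) (d x)).re := by
      rw [trm, trace_mul_comm, Inv.qf_tr]
    rw [h1, ddc2 hl hx]
    simp only [Apr.trm_add, Apr.trm_smul, h2]
    ring
  exact ⟨((i1.sub i2).sub iA).congr e.symm, (integral_congr_ae e).trans
    ((integral_sub (i1.sub i2) iA).trans (congrArg (· - _) (integral_sub i1 i2)))⟩

theorem bound (hg : M.IsK g) (hμ : M.IsVol g μ) (hb : RE M g G b C) (hS : 0 < S) (hC : C ≤ S)
    (hf : M.Ck 3 f) (c : ℝ) (hp : ∀ x, ((c : ℂ) • g x + M.ddc f x).PosSemidef) :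
    ∫ x in G, pp 2 (b x / S + 3) * trm (g x) ((c : ℂ) • g x + M.ddc f x) ∂μ ≤
      16 * (c * Fintype.card ι * μ.real univ) := by
  have := ((kV ι X M g hg).2 μ hμ).fin
  have pd := Green.pd (kA ι X M) hg
  have f2 : M.Ck 2 f := fun e he z hz => (hf e he z hz).of_le (by norm_num)
  have c1 : Continuous fun x => trm (g x) (M.ddc f x) :=
    continuousOn_univ.1 (Inv.cont_lap hg isOpen_univ (Inv.ckOn f2))
  have i1 : Integrable (fun x => trm (g x) (M.ddc f x)) μ :=
    c1.integrable_of_hasCompactSupport (HasCompactSupport.of_compactSpace _)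
  have e : ∀ x, trm (g x) ((c : ℂ) • g x + M.ddc f x) =
      c * Fintype.card ι + trm (g x) (M.ddc f x) := fun x => by
    rw [Apr.trm_add, Apr.trm_smul, Inv.trm_self (pd x)]
  have n0 : ∀ x, 0 ≤ c * Fintype.card ι + trm (g x) (M.ddc f x) := fun x =>
    e x ▸ Mat.trm_nonneg (pd x) (hp x)
  have i2 := ((integrable_const (c * Fintype.card ι)).add i1).const_mul 16
  simp only [e]
  refine (integral_mono_of_nonneg (.of_forall fun x => mul_nonneg (pp_nonneg _ _) (n0 x))
    i2.integrableOn ((ae_restrict_mem hb.opn.measurableSet).mono fun x hx =>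
      mul_le_mul_of_nonneg_right ((Up.pp_le 2 hS ((hb.le x hx).trans hC) zero_le_three).trans_eq
        (by norm_num)) (n0 x))).trans ((setIntegral_le_integral i2
          (.of_forall fun x => mul_nonneg (by norm_num) (n0 x))).trans_eq ?_)
  simp only [Pi.add_apply]
  rw [integral_const_mul, integral_add (integrable_const _) i1, Inv.mass hg hμ f2, integral_const,
    smul_eq_mul, add_zero, mul_comm (μ.real univ)]

end Mas

open Mas

theorem mas (ha : AlgS) (hg : GpS) (hv : InvT) : MasS := by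
  intro ι X _ _ _ _ _ _ _ M g g' μ μ' φ b u l W G K P C kg kg' hμ hμ' hφ hgg hb hu u3 l3 h0 hK hKG
    hP hl hp ε hε
  have hA := kA ι X M
  have := ((kV ι X M g kg).2 μ hμ).fin
  have pd := Green.pd hA kg
  have pd' := Green.pd hA kg'
  have aW : ∀ᵐ x ∂μ, x ∈ W := h0
  have rW := Measure.restrict_eq_self_of_ae_mem aW
  have aG : ∀ᵐ x ∂μ.restrict G, x ∈ W ∧ x ∈ G :=
    (ae_restrict_of_ae aW).and (ae_restrict_mem hb.opn.measurableSet)
  have k1 : M.IsK fun x => ((108 * C + 1 : ℝ) : ℂ) • g x :=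
    (hA.isK_iff _).2 ⟨hA.clF_smul _ _ ((hA.isK_iff g).1 kg).1,
      fun x => (pd x).smul (zero_lt_real.2 (by linarith [hb.nn]))⟩
  obtain ⟨B, hB⟩ : ∃ B, B = 16 * ((108 * C + 1) * Fintype.card ι * μ.real univ) := ⟨_, rfl⟩
  have B0 : 0 ≤ B := by
    have := hb.nn
    rw [hB]
    positivity
  obtain ⟨m, hm⟩ := hK.bddBelow_image (f := b) fun x hx => (hb.ck.cont (hKG hx)).continuousWithinAt
  obtain ⟨S, ⟨hS, hSC, hSm⟩, hI⟩ := (((eventually_gt_atTop 0).and ((eventually_ge_atTop C).and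
    (eventually_ge_atTop (-m)))).and (hv ι X M g g' μ φ b G C kg kg' hμ hφ hgg hb
      (ε / (2 * B + 1)) (by positivity))).exists
  have mu : AEStronglyMeasurable u (μ.restrict G) := by
    have := (show ContinuousOn u W from fun x hx =>
      (hu.ck.cont hx).continuousWithinAt).aestronglyMeasurable (μ := μ) hu.opn.measurableSet
    rw [rW] at this
    exact this.restrict
  have l2 : CkOn M 2 G l := l3.mono (by norm_num) subset_rfl
  have L : ∀ (h : X → Mat ι) (ρ : X → ℝ) (a : ℝ), M.IsK h → Continuous ρ → _ :=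
    fun h ρ a kh hρ => lim mu (aG.mono fun x hx => hu.le x hx.1)
      (Inv.intP (f := fun x => trm (h x) (M.ddc l x) * ρ x) hb hS 1 a
        ((Inv.cont_lap kh hb.opn l2).mul hρ.continuousOn))
  have L1 := L g' _ 2 kg' (Inv.rat_cont kg kg')
  have L2 := L g (fun _ => 1) 2 kg continuous_const
  have L3 := L g (fun _ => 1) 3 kg continuous_const
  have iD := Inv.intP (μ := μ) hb hS 1 2 (hg ι X M G _ l l hb.opn (Up.ten kg)
    (l3.mono (by norm_num) subset_rfl) (l3.mono (by norm_num) subset_rfl)).1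
  simp only [gp, hA.repF_self] at iD
  filter_upwards [eventually_gt_atTop 0, eventually_ge_atTop C,
    L1.2.eventually_const_lt (show -(ε / 2) < 0 by linarith),
    L2.2.eventually_lt_const (show 0 < ε / 2 by linarith),
    L3.2.eventually_const_lt (show (-1 : ℝ) < 0 by norm_num),
    ((tendsto_const_nhds (x := (36 : ℝ)).div_atTop tendsto_id).mul_const (∫ x in G,
      pp 2 (b x / S + 2) * (qf (g x)⁻¹ (M.dfn l x) (M.dfn l x)).re ∂μ)).eventually_lt_const
        (show 0 * _ < ε / 3 by linarith)] with T hT hTC a1 a2 a3 a4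
  obtain ⟨f, f3, hf⟩ := Inv.cut hu u3 hT
  have v0 : ∀ x, 0 ≤ 12 * (pp 2 (u x / T + 2) / T) := fun x =>
    mul_nonneg (by norm_num) (div_nonneg (pp_nonneg _ _) hT.le)
  have p1 : ∀ x, (((108 * C + 1 : ℝ) : ℂ) • g x + M.ddc f x).PosSemidef := fun x => by
    by_cases hx : x ∈ W
    · rw [(hf x).2 hx]
      exact psd (pd x) hb.nn (hu.psd x hx) (mul_nonneg (by norm_num) (pp_nonneg _ _))
        (w_le hT hTC (hu.le x hx)) (v0 x)
    · rw [(hf x).1 hx, add_zero]
      exact (Green.pd hA k1 x).posSemidef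
  have p2 : ∀ x ∈ G, (((108 * C + 1 : ℝ) : ℂ) • g x +
      M.ddc (fun x => l x + 31 * l x) x).PosSemidef := fun x hx => by
    have := psd (a := 0) (w := 32) (pd x) hb.nn (hl x hx) (by norm_num) (by norm_num) le_rfl
    rwa [ofReal_zero, zero_smul, add_zero, ← ddc2 l3 hx] at this
  have he := aG.mono fun x hx => ((hf x).2 hx.1).trans (by rw [((hp x hx.1).2.2 hx.2).1])
  obtain ⟨i1, e1⟩ := diff kg' k1 hb hS 2 (Inv.rat_cont kg kg') f3 l3 (L1.1 T hT hTC) he
  obtain ⟨i2, e2⟩ := diff kg k1 hb hS 2 continuous_const f3 l3 (L2.1 T hT hTC) he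
  obtain ⟨-, e3⟩ := diff kg k1 hb hS 3 continuous_const f3 l3 (L3.1 T hT hTC) he
  have q0 : ∀ x a, 0 ≤ (qf (g x)⁻¹ a a).re := fun x a => ha.qf_psd ι _ a (pd x).inv.posSemidef
  have q0' : ∀ x a, 0 ≤ (qf (g' x)⁻¹ a a).re := fun x a => ha.qf_psd ι _ a (pd' x).inv.posSemidef
  have n3 := e3 ▸ integral_nonneg (μ := μ.restrict G) fun x => mul_nonneg
    (pp_nonneg 2 (b x / S + 3)) (mul_nonneg (mul_nonneg (v0 x) (q0 x (M.dfn u x))) zero_le_one)
  have j1 := abs_le.1 (hI _ f k1 (Inv.ckOn f3) fun x _ => p1 x)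
  have j2 := abs_le.1 (hI _ _ k1 (l3.lin l3 31) p2)
  have N1 := (bound kg hμ hb hS hSC f3 _ p1).trans_eq hB.symm
  simp only [mul_one] at i2 e2 n3 a2 a3
  have key : (∫ x in G, pp 2 (b x / S + 2) * (12 * (pp 2 (u x / T + 2) / T) *
      (qf (g' x)⁻¹ (M.dfn u x) (M.dfn u x)).re * rat g' g x) ∂μ) / 3 ≤
      (∫ x in G, pp 2 (b x / S + 2) * (12 * (pp 2 (u x / T + 2) / T) *
        (qf (g x)⁻¹ (M.dfn u x) (M.dfn u x)).re) ∂μ) / 3 + 2 * ε / 3 := by
    have δ0 : 0 ≤ ε / (2 * B + 1) := by positivity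
    have δ1 : ε / (2 * B + 1) * (2 * B + 1) = ε := div_mul_cancel₀ _ (by positivity)
    have t1 := mul_le_mul_of_nonneg_left N1 δ0
    have t2 := mul_le_mul_of_nonneg_left (show ∫ x in G, pp 2 (b x / S + 3) * trm (g x)
      (((108 * C + 1 : ℝ) : ℂ) • g x + M.ddc (fun x => l x + 31 * l x) x) ∂μ ≤ B + 1 by
        linarith) δ0
    rw [e1, e2]
    linarith [j1.2, j2.1]
  have lo : en M μ' (W ∩ K) (fun e z => (M.repF g' e z)⁻¹) u (T / 2) ≤ ENNReal.ofReal
      ((∫ x in G, pp 2 (b x / S + 2) * (12 * (pp 2 (u x / T + 2) / T) *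
        (qf (g' x)⁻¹ (M.dfn u x) (M.dfn u x)).re * rat g' g x) ∂μ) / 3) := by
    have mK := hu.opn.measurableSet.inter hK.isClosed.measurableSet
    rw [en, Inv.vol_eq kg kg' hμ hμ', setLIntegral_withDensity_eq_setLIntegral_mul_non_measurable _
      (Inv.rat_cont kg kg').measurable.ennreal_ofReal _ mK
      (.of_forall fun _ => ENNReal.ofReal_lt_top), ← integral_div,
      ofReal_integral_eq_lintegral_ofReal (i1.div_const 3) (.of_forall fun x => div_nonneg
        (mul_nonneg (pp_nonneg _ _) (mul_nonneg (mul_nonneg (v0 x) (q0' x _))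
          (Inv.rat_pos kg kg' x).le)) (by norm_num))]
    refine (setLIntegral_mono' mK fun x hx => ?_).trans
      (lintegral_mono_set fun x hx => hKG hx.2)
    have r0 := (Inv.rat_pos kg kg' x).le
    rw [Pi.mul_apply, ← ENNReal.ofReal_mul r0]
    refine ENNReal.ofReal_le_ofReal ?_
    have c1 : 1 ≤ pp 2 (b x / S + 2) := by
      have : -1 ≤ b x / S := (le_div_iff₀ hS).2 (by linarith [hm (mem_image_of_mem b hx.2)])
      rw [pp_of_nonneg 2 (by linarith)]
      nlinarith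
    have c2 : pp 1 (u x / (T / 2) + 2) / (T / 2) ≤ 4 * (pp 2 (u x / T + 2) / T) := by
      have := div_le_div_of_nonneg_right (low (u x / T)) hT.le
      rw [show u x / (T / 2) = 2 * (u x / T) by ring, show pp 1 (2 * (u x / T) + 2) / (T / 2) =
        2 * (pp 1 (2 * (u x / T) + 2) / T) by ring]
      rw [mul_div_assoc] at this
      linarith
    simp only [gp, hA.repF_self]
    have c3 := mul_nonneg (q0' x (M.dfn u x)) r0
    nlinarith [mul_le_mul_of_nonneg_right c2 c3, mul_le_mul_of_nonneg_right c1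
      (mul_nonneg (v0 x) c3)]
  have iD' := iD.const_mul (36 / T)
  have d0 : ∀ x, 0 ≤ 36 / T * (pp 2 (b x / S + 2) * (qf (g x)⁻¹ (M.dfn l x) (M.dfn l x)).re) :=
    fun x => mul_nonneg (by positivity) (mul_nonneg (pp_nonneg _ _) (q0 x _))
  have up : ENNReal.ofReal ((∫ x in G, pp 2 (b x / S + 2) * (12 * (pp 2 (u x / T + 2) / T) *
      (qf (g x)⁻¹ (M.dfn u x) (M.dfn u x)).re) ∂μ) / 3) ≤
      108 * en M μ W P u T + ENNReal.ofReal (ε / 3) := by
    rw [← integral_div, ofReal_integral_eq_lintegral_ofReal (i2.div_const 3)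
      (.of_forall fun x => div_nonneg (mul_nonneg (pp_nonneg _ _) (mul_nonneg (v0 x) (q0 x _)))
        (by norm_num)), en, rW, ← lintegral_const_mul' _ _ (by norm_num)]
    refine (lintegral_mono_ae (g := fun x => 108 * ENNReal.ofReal
      (pp 1 (u x / T + 2) / T * gp M P u u x) + ENNReal.ofReal (36 / T *
        (pp 2 (b x / S + 2) * (qf (g x)⁻¹ (M.dfn l x) (M.dfn l x)).re)))
      (aG.mono fun x hx => ?_)).trans ?_
    · rw [← ENNReal.ofReal_ofNat 108, ← ENNReal.ofReal_mul (by norm_num)]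
      refine (ENNReal.ofReal_le_ofReal ?_).trans ENNReal.ofReal_add_le
      obtain ⟨s1, s2, s3⟩ := hp x hx.1
      have c1 := split ha s1 s2 (s3 hx.2).2
      have c2 := ha.qf_psd ι _ (M.dfn u x) s1
      have c3 : pp 2 (b x / S + 2) ≤ 9 :=
        (Up.pp_le 2 hS ((hb.le x hx.2).trans hSC) zero_le_two).trans_eq (by norm_num)
      have c4 : pp 1 (u x / T + 2) ≤ 3 :=
        (Up.pp_le 1 hT ((hu.le x hx.1).trans hTC) zero_le_two).trans_eq (by norm_num)
      have c5 := pp_nonneg 1 (u x / T + 2)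
      have c6 : pp 2 (u x / T + 2) / T ≤ 3 * (pp 1 (u x / T + 2) / T) := by
        rw [← mul_div_assoc]
        refine div_le_div_of_nonneg_right ?_ hT.le
        rw [show pp 2 (u x / T + 2) = pp 1 (u x / T + 2) ^ 2 by simp [pp]]
        nlinarith
      have c7 : 12 * (pp 2 (u x / T + 2) / T) ≤ 3 * (36 / T) := by
        have := div_le_div_of_nonneg_right c4 hT.le
        rw [show 36 / T = 12 * (3 / T) by ring]
        linarith
      have c8 := pp_nonneg 2 (b x / S + 2)
      rw [gp]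
      nlinarith [mul_le_mul_of_nonneg_left c1 (mul_nonneg c8 (v0 x)),
        mul_le_mul_of_nonneg_right (mul_le_mul c3 c6 (div_nonneg (pp_nonneg _ _) hT.le)
          (by norm_num)) c2,
        mul_le_mul_of_nonneg_right c7 (mul_nonneg c8 (q0 x (M.dfn l x)))]
    · rw [lintegral_add_right' _ iD'.1.aemeasurable.ennreal_ofReal,
        ← ofReal_integral_eq_lintegral_ofReal iD' (.of_forall d0), integral_const_mul]
      exact add_le_add (setLIntegral_le_lintegral _ _) (ENNReal.ofReal_le_ofReal a4.le)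
  refine lo.trans ((ENNReal.ofReal_le_ofReal key).trans (ENNReal.ofReal_add_le.trans
    ((add_le_add_left up _).trans_eq ?_)))
  rw [add_assoc, ← ENNReal.ofReal_add (by positivity) (by positivity)]
  congr 2
  ring

end Pool.Agent.Lib.MP_d44e50_ag
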