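import Pool.Agent.Lib.MP_d44e50_ag.Top2

/-! Almost nonnegative curvature in the mean, with bounds on the Kaehler classes only. -/

namespace Pool.Agent.Lib.MP_d44e50_ag

open Pool.Agent.Lib.MP_813db1_ag.HS MeasureTheory
open scoped ContDiff

variable {ι X : Type} [Fintype ι] [DecidableEq ι] [TopologicalSpace X] [ChartedSpace (ι → ℂ) X]

/-- `K'` lies in the Kaehler class of `K`: the two metrics differ by the complex Hessian of a
smooth real function on `X`. -/
def SameClass (K K' : Kahler ι X) : Prop :=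
  ∃ u : X → ℝ, ∀ e ∈ atlas (ι → ℂ) X, ContDiffOn ℝ ∞ (fun w => u (e.symm w)) e.target ∧
    ∀ z ∈ e.target, K'.g e z = K.g e z + levi (fun w => (u (e.symm w) : ℂ)) z

/-- there are `L` and a nonempty open set `O` such that for every `ε > 0` some Kaehler metric `K`
with volume measure `μ` has a continuous lower curvature bound `h` with `∫ h ≥ -ε`, and for some
Kaehler metric `K'` in the class of `K` the trace of `K₀` with respect to `K'` has integral at
most `L` and is at most `L` on `O`. -/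
def AlmC [MeasurableSpace X] (κ : Type) [Fintype κ] [DecidableEq κ] (K₀ : Kahler ι X) : Prop :=
  ∃ (L : ℝ) (O : Set X), IsOpen O ∧ O.Nonempty ∧ ∀ ε > 0,
    ∃ (K K' : Kahler ι X) (μ μ' : Measure X) (h : X → ℝ), K.IsVol μ ∧ Continuous h ∧
      (HscGe K h ∨ ScalGe κ K h) ∧ -ε ≤ ∫ x, h x ∂μ ∧ SameClass K K' ∧ K'.IsVol μ' ∧
      ∫ x, trK K' K₀ x ∂μ' ≤ L ∧ ∀ x ∈ O, trK K' K₀ x ≤ L

end Pool.Agent.Lib.MP_d44e50_ag
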