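import Pool.Agent.Lib.MP_d44e50_ag.Pw
import Pool.Agent.Lib.MP_d44e50_ag.Top3

/-! The pointwise condition is a special case. -/

namespace Pool.Agent.Lib.MP_d44e50_ag

open Pool.Agent.Lib.MP_813db1_ag.HS MeasureTheory

theorem almC_of {ι X : Type} {κ : Type} [Fintype ι] [DecidableEq ι] [Fintype κ] [DecidableEq κ]
    [TopologicalSpace X] [MeasurableSpace X] [ChartedSpace (ι → ℂ) X] {K : Kahler ι X}
    (h : Alm κ K) : AlmC κ K := by
  obtain ⟨L, O, o1, o2, h⟩ := h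
  refine ⟨L, O, o1, o2, fun ε e => ?_⟩
  obtain ⟨K', μ, h, k1, k2, k3, k4, k5, k6⟩ := h ε e
  refine ⟨K', K', μ, μ, h, k1, k2, k3, k4, ⟨fun _ => 0, fun e _ => ⟨contDiffOn_const, fun z _ => ?_⟩⟩,
    k1, k5, k6⟩
  rw [levi_const, add_zero]

end Pool.Agent.Lib.MP_d44e50_ag
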