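import Pool.Agent.Lib.MP_d44e50_ag.Main3
import Pool.Agent.Lib.MP_d44e50_ag.Pw3
import Pool.Agent.Lib.MP_d44e50_ag.Alg
import Pool.Agent.Lib.MP_d44e50_ag.Sc
import Pool.Agent.Lib.MP_d44e50_ag.Rad
import Pool.Agent.Lib.MP_d44e50_ag.Lel
import Pool.Agent.Lib.MP_d44e50_ag.Thin
import Pool.Agent.Lib.MP_d44e50_ag.Nls
import Pool.Agent.Lib.MP_d44e50_ag.Bas
import Pool.Agent.Lib.MP_d44e50_ag.Inv
import Pool.Agent.Lib.MP_d44e50_ag.Mas
import Pool.Agent.Lib.MP_d44e50_ag.Qps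
import Pool.Agent.Lib.MP_d44e50_ag.G4l
import Pool.Agent.Lib.MP_d44e50_ag.G4b

/-! The theorem with bounds on the class. -/

namespace Pool.Agent.Lib.MP_d44e50_ag

theorem mainU : MainU :=
  main3 alg (sc alg) (up alg (ibp gpS)) jet (bas alg) rT idS (g1 alg (loc alg)) (g2 alg thin)
    (g3 alg (nul thin)) (invT alg (ibp gpS))
    (g4b alg (g1 alg (loc alg)) (g2 alg thin) (g3 alg (nul thin)) (qps alg)
      (mas alg gpS (invT alg (ibp gpS))) (g4l alg adjS gpS (lel rad)))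

end Pool.Agent.Lib.MP_d44e50_ag
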