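import Pool.Agent.Lib.MP_d44e50_ag.Top
import Pool.Agent.Lib.MP_813db1_ag.HS.Stmt2

/-! Internal definitions. -/

namespace Pool.Agent.Lib.MP_d44e50_ag

open Pool.Agent.Lib.MP_813db1_ag.HS MeasureTheory Complex Matrix Filter Topology Set
open scoped ContDiff ComplexOrder

noncomputable section

variable {ι κ : Type} [Fintype ι] [DecidableEq ι] [Fintype κ] [DecidableEq κ]

/-- the matrix `∂ Φ_α / ∂ z_i`. -/
def jr (Φ : V ι → V κ) (z : V ι) : Matrix ι κ ℂ :=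
  Matrix.of fun i α => fderiv ℂ Φ z (Pi.single i 1) α

/-- the Gram matrix of the columns of `B` as covectors. -/
def gm (G : Mat ι) (B : Matrix ι κ ℂ) : Mat κ := Bᴴ * G⁻¹ * B

/-- the inverse metric restricted to the span of the columns of `B`. -/
def pj (G : Mat ι) (B : Matrix ι κ ℂ) : Mat ι := G⁻¹ * B * (gm G B)⁻¹ * Bᴴ * G⁻¹

/-- the pairing of two covectors. -/
def qf (P : Mat ι) (a b : V ι) : ℂ := ∑ i, ∑ j, P j i * a i * star (b j)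

/-- the divergence of `P dbar F` times the volume density. -/
def dvP (G P : V ι → Mat ι) (F : V ι → ℂ) (z : V ι) : ℂ :=
  ∑ i, dz (fun w => (G w).det * ∑ j, P w j i * dzb F j w) i z

/-- powers of the positive part. -/
def pp (k : ℕ) (t : ℝ) : ℝ := max t 0 ^ k

/-- the square of the Euclidean norm. -/
def eq2 (y : V ι) : ℝ := ∑ i, ‖y i‖ ^ 2

/-- the radial kernel. -/
def ker (r : ℝ) (y : V ι) : ℝ := pp 2 (1 - eq2 y / r) / r ^ Fintype.card ι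

/-- its radial primitive. -/
def kerP (r : ℝ) (y : V ι) : ℝ := r * pp 3 (1 - eq2 y / r) / 3 / r ^ Fintype.card ι

/-- small sets. -/
def Thin (E : Set (V ι)) : Prop := E.Nonempty → dimH E + 2 < 2 * Fintype.card ι

variable {X Y : Type} [TopologicalSpace X] [TopologicalSpace Y]

/-- the pairing of two differentials. -/
def gp (M : Atl ι X) (P : Ch ι X → V ι → Mat ι) (u v : X → ℝ) (x : X) : ℝ :=
  (qf (P (M.ch x) (M.ch x x)) (M.dfn u x) (M.dfn v x)).re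

/-- functions of class `C^k` on `W`. -/
def CkOn (M : Atl ι X) (k : WithTop ℕ∞) (W : Set X) (u : X → ℝ) : Prop :=
  ∀ y, ∀ x ∈ W, x ∈ (M.ch y).source → ContDiffAt ℝ k (fn u (M.ch y)) (M.ch y x)

/-- contravariant tensors on `W`. -/
structure Ten (M : Atl ι X) (W : Set X) (P : Ch ι X → V ι → Mat ι) : Prop where
  sm : ∀ y, ∀ x ∈ W, x ∈ (M.ch y).source → ∀ i j,
    ContDiffAt ℝ 1 (fun w => P (M.ch y) w i j) (M.ch y x)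
  tr : ∀ y, ∀ x ∈ W, x ∈ (M.ch y).source → (tj (M.ch y) (M.ch x) x).map star *
    P (M.ch y) (M.ch y x) * (tj (M.ch y) (M.ch x) x)ᵀ = P (M.ch x) (M.ch x x)

/-- the divergence of `P dbar F` is at least `c` on `W`. -/
def DvGe (M : Atl ι X) (g : X → Mat ι) (W : Set X) (P : Ch ι X → V ι → Mat ι) (F c : X → ℝ) :
    Prop :=
  ∀ x ∈ W, (g x).det.re * c x ≤ (dvP (M.repF g (M.ch x)) (P (M.ch x)) (fn F (M.ch x)) (M.ch x x)).re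

/-- a proper function with Laplacian bounded below. -/
structure RD (M : Atl ι X) (g : X → Mat ι) (W : Set X) (r : X → ℝ) (C : ℝ) : Prop where
  opn : IsOpen W
  ck : CkOn M 2 W r
  le : ∀ x ∈ W, r x ≤ C
  lap : ∀ x ∈ W, -C ≤ M.lap g r x
  cl : ∀ t, IsClosed {x | x ∈ W ∧ t ≤ r x}

/-- the energy. -/
def en [MeasurableSpace X] (M : Atl ι X) (μ : Measure X) (W : Set X) (P : Ch ι X → V ι → Mat ι)
    (u : X → ℝ) (T : ℝ) : ENNReal :=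
  ∫⁻ x in W, ENNReal.ofReal (pp 1 (u x / T + 2) / T * gp M P u u x) ∂μ

/-- the data of the theorem. -/
structure Dat (ι κ X Y : Type) [Fintype ι] [DecidableEq ι] [Fintype κ] [DecidableEq κ]
    [TopologicalSpace X] [ChartedSpace (ι → ℂ) X] [TopologicalSpace Y] [ChartedSpace (κ → ℂ) Y]
    (N : ℕ) where
  M : Atl ι X
  g : X → Mat ι
  σ : Ch ι X → V ι → Fin N → ℂ
  ρ : Ch κ Y → V κ → Fin N → ℂ
  φ : X → Y
  j : Fin N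
  x0 : X
  chA : ∀ x, M.ch x ∈ atlas (ι → ℂ) X
  isK : M.IsK g
  hσ : Lift σ
  hρ : Lift ρ
  ρ0 : ∀ f ∈ atlas (κ → ℂ) Y, ∀ z ∈ f.target, ρ f z ≠ 0
  anY : ∀ f ∈ atlas (κ → ℂ) Y, ∀ f' ∈ atlas (κ → ℂ) Y, ∀ y ∈ f.source, y ∈ f'.source →
    AnalyticAt ℂ (f' ∘ f.symm) (f y)
  mero : Mero σ ρ φ
  j0 : σ (M.ch x0) (M.ch x0 x0) j ≠ 0
  surj : Function.Surjective
    (fderiv ℂ (chartAt (κ → ℂ) (φ x0) ∘ φ ∘ (M.ch x0).symm) (M.ch x0 x0))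

namespace Dat

variable [ChartedSpace (ι → ℂ) X] [ChartedSpace (κ → ℂ) Y] {N : ℕ} (D : Dat ι κ X Y N)

/-- the preferred chart at the image point. -/
def cf (x : X) : Ch κ Y := chartAt (κ → ℂ) (D.φ x)

/-- the map in charts. -/
def Φ (e : Ch ι X) (f : Ch κ Y) : V ι → V κ := f ∘ D.φ ∘ e.symm

/-- the horizontal part of the inverse metric. -/
def P (e : Ch ι X) (z : V ι) : Mat ι := pj (D.M.repF D.g e z) (jr (D.Φ e (D.cf (e.symm z))) z)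

/-- the indeterminacy set. -/
def I : Set X := {x | D.σ (D.M.ch x) (D.M.ch x x) = 0}

/-- the complement of the hyperplane section. -/
def Wr : Set X := {x | D.σ (D.M.ch x) (D.M.ch x x) D.j ≠ 0}

/-- the squared norm of the pull back of `s / ρ_j ^ a`. -/
def tau (m a : ℕ) (s : Ch κ Y → V κ → ℂ) (x : X) : ℝ :=
  ‖s (D.cf x) (D.cf x (D.φ x)) / D.ρ (D.cf x) (D.cf x (D.φ x)) D.j ^ a‖ ^ 2 *
    (gm (D.g x) (jr (D.Φ (D.M.ch x) (D.cf x)) (D.M.ch x x))).det.re ^ m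

/-- the good set. -/
def W (m a : ℕ) (s : Ch κ Y → V κ → ℂ) : Set X := {x | x ∈ D.Wr ∧ D.tau m a s x ≠ 0}

/-- the logarithm of the squared norm. -/
def F (m a : ℕ) (s : Ch κ Y → V κ → ℂ) (x : X) : ℝ := Real.log (D.tau m a s x)

/-- `r` is `log |σ_j|²` for a smooth metric. -/
def RL (r : X → ℝ) : Prop :=
  ∀ y, ∃ β : V ι → ℝ, ContDiffAt ℝ ∞ β (D.M.ch y y) ∧ ∀ᶠ w in 𝓝 (D.M.ch y y),
    D.σ (D.M.ch y) w D.j ≠ 0 → r ((D.M.ch y).symm w) = Real.log (‖D.σ (D.M.ch y) w D.j‖ ^ 2) + β w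

/-- the section pulled back to the chart at the base point. -/
def S (s : Ch κ Y → V κ → ℂ) (z : V ι) : ℂ := s (D.cf D.x0) (D.Φ (D.M.ch D.x0) (D.cf D.x0) z)

/-- change of charts. -/
structure Bas : Prop where
  memI : ∀ y, ∀ x ∈ (D.M.ch y).source, x ∈ D.I ↔ D.σ (D.M.ch y) (D.M.ch y x) = 0
  memW : ∀ y, ∀ x ∈ (D.M.ch y).source, x ∈ D.Wr ↔ D.σ (D.M.ch y) (D.M.ch y x) D.j ≠ 0
  clI : IsClosed D.I
  opW : IsOpen D.Wr
  thin : ∀ y, Thin {z | z ∈ (D.M.ch y).target ∧ (D.M.ch y).symm z ∈ D.I}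
  cfA : ∀ x, D.cf x ∈ atlas (κ → ℂ) Y ∧ D.φ x ∈ (D.cf x).source
  val : ∀ y f, ∀ x ∈ (D.M.ch y).source, D.Φ (D.M.ch y) f (D.M.ch y x) = f (D.φ x)
  an : ∀ y, ∀ f ∈ atlas (κ → ℂ) Y, ∀ x ∈ (D.M.ch y).source, x ∉ D.I → D.φ x ∈ f.source →
    AnalyticAt ℂ (D.Φ (D.M.ch y) f) (D.M.ch y x) ∧ (x ∈ D.Wr ↔ D.ρ f (f (D.φ x)) D.j ≠ 0) ∧
    ∀ᶠ w in 𝓝 (D.M.ch y x), w ∈ (D.M.ch y).target ∧ (D.M.ch y).symm w ∉ D.I ∧
      D.φ ((D.M.ch y).symm w) ∈ f.source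
  jrX : ∀ y, ∀ f ∈ atlas (κ → ℂ) Y, ∀ x ∈ (D.M.ch y).source, x ∉ D.I → D.φ x ∈ f.source →
    jr (D.Φ (D.M.ch y) f) (D.M.ch y x) =
      (tj (D.M.ch y) (D.M.ch x) x)ᵀ * jr (D.Φ (D.M.ch x) f) (D.M.ch x x)
  jrY : ∀ y, ∀ f ∈ atlas (κ → ℂ) Y, ∀ f' ∈ atlas (κ → ℂ) Y, ∀ x ∈ (D.M.ch y).source, x ∉ D.I →
    D.φ x ∈ f.source → D.φ x ∈ f'.source → (jac (f' ∘ f.symm) (f (D.φ x))).det ≠ 0 ∧
    jr (D.Φ (D.M.ch y) f') (D.M.ch y x) =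
      jr (D.Φ (D.M.ch y) f) (D.M.ch y x) * (jac (f' ∘ f.symm) (f (D.φ x)))ᵀ
  P_eq : ∀ y, ∀ f ∈ atlas (κ → ℂ) Y, ∀ x ∈ (D.M.ch y).source, x ∉ D.I → D.φ x ∈ f.source →
    D.P (D.M.ch y) (D.M.ch y x) =
      pj (D.M.repF D.g (D.M.ch y) (D.M.ch y x)) (jr (D.Φ (D.M.ch y) f) (D.M.ch y x))
  tau_eq : ∀ m a s, IsSec D.ρ m a s → ∀ y, ∀ f ∈ atlas (κ → ℂ) Y, ∀ x ∈ (D.M.ch y).source,
    x ∈ D.Wr → D.φ x ∈ f.source → D.tau m a s x = ‖s f (f (D.φ x)) / D.ρ f (f (D.φ x)) D.j ^ a‖ ^ 2 *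
      (gm (D.M.repF D.g (D.M.ch y) (D.M.ch y x)) (jr (D.Φ (D.M.ch y) f) (D.M.ch y x))).det.re ^ m
  sec_an : ∀ m a s, IsSec D.ρ m a s → ∀ f ∈ atlas (κ → ℂ) Y, AnalyticOnNhd ℂ (s f) f.target
  rk0 : (gm (D.g D.x0) (jr (D.Φ (D.M.ch D.x0) (D.cf D.x0)) (D.M.ch D.x0 D.x0))).det ≠ 0

end Dat

end

end Pool.Agent.Lib.MP_d44e50_ag
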