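import Pool.Agent.Lib.MP_d44e50_ag.St3
import Pool.Agent.Lib.MP_813db1_ag.HS.Apr

/-! The derivative of the adjugate. -/

namespace Pool.Agent.Lib.MP_d44e50_ag

open Pool.Agent.Lib.MP_813db1_ag.HS MeasureTheory Complex Matrix Filter Topology Set
open scoped ContDiff ComplexOrder

set_option linter.unusedSectionVars false

noncomputable section

namespace Inv

variable {ι : Type} [Fintype ι] [DecidableEq ι] {G E A : Mat ι}

/-- the derivative of the adjugate at `G` in the direction `E`. -/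
def md (G E : Mat ι) : Mat ι := G.det • (trace (E * G⁻¹) • G⁻¹ - G⁻¹ * E * G⁻¹)

theorem md_symm (G E L : Mat ι) : trace (md G E * L) = trace (md G L * E) := by
  simp only [md, Matrix.smul_mul, Matrix.sub_mul, trace_smul, trace_sub, smul_eq_mul,
    trace_mul_comm G⁻¹ L, trace_mul_comm G⁻¹ E]
  rw [Matrix.mul_assoc (G⁻¹ * E), trace_mul_comm (G⁻¹ * E), ← Matrix.mul_assoc, mul_comm (trace _)]

theorem adj_eq (h : G.det ≠ 0) : G.adjugate = G.det • G⁻¹ := by
  rw [Matrix.inv_def, Ring.inverse_eq_inv', smul_smul, mul_inv_cancel₀ h, one_smul]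

theorem md_psd (hG : G.PosDef) (hE : E.PosSemidef) : (md G E).PosSemidef := by
  have p := (Mat.le_trm hG hE).mul_mul_conjTranspose_same G⁻¹
  rw [hG.inv.1.eq, Matrix.mul_sub, Matrix.sub_mul, Matrix.mul_smul, Matrix.smul_mul,
    nonsing_inv_mul _ hG.det_pos.ne'.isUnit, Matrix.one_mul, ← (mat.real ι G E hG.1 hE.1).1] at p
  exact p.smul hG.det_pos.le

theorem md_le (hG : G.PosDef) (hE : E.PosSemidef) (hA : A.PosSemidef) :
    (trace (md G E * A)).re ≤ G.det.re * (trm G E * trm G A) := by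
  have p := Apr.trm_mid hG hE hA
  rw [md, Matrix.smul_mul, trace_smul, (Mat.det' hG).2, smul_eq_mul, re_ofReal_mul, ofReal_re,
    Matrix.sub_mul, trace_sub, Matrix.smul_mul, trace_smul, (mat.real ι G E hG.1 hE.1).1,
    smul_eq_mul, sub_re, re_ofReal_mul, trace_mul_comm G⁻¹ A, Matrix.mul_assoc, Matrix.mul_assoc,
    trace_mul_comm G⁻¹, ← Matrix.mul_assoc E]
  exact mul_le_mul_of_nonneg_left (sub_le_self _ p) (Mat.det' hG).1.le

theorem trm_le {B : Mat ι} (hG : G.PosDef) (hA : A.PosDef) (hB : B.PosSemidef) :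
    trm G B ≤ trm A B * trm G A := by
  have := Mat.trm_nonneg hG (Mat.le_trm hA hB)
  rwa [Apr.trm_sub, Apr.trm_smul, sub_nonneg] at this

theorem trm_self (hG : G.PosDef) : trm G G = Fintype.card ι := by
  rw [trm, mul_nonsing_inv _ hG.det_pos.ne'.isUnit, trace_one, natCast_re]

theorem path (l : ℝ) (hl : 0 ≤ l) : ∃ K ≥ 0, ∀ G L : Mat ι, G.PosDef → (G + L).PosDef →
    trm G (G + L) ≤ l → trm (G + L) G ≤ l → ∀ t ∈ Icc (0 : ℝ) 1, (G + (t : ℂ) • L).PosDef ∧
    ∀ E, E.PosSemidef → (trace (md (G + (t : ℂ) • L) E * G)).re ≤ K * (G.det.re * trm G E) := by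
  refine ⟨(Fintype.card ι + l) ^ Fintype.card ι * ((1 + l) * Fintype.card ι) ^ 2, by positivity,
    fun G L hG hL h1 h2 t ht => ?_⟩
  have e : G + (t : ℂ) • L = ((1 - t : ℝ) : ℂ) • G + (t : ℂ) • (G + L) := by
    rw [ofReal_sub, ofReal_one, sub_smul, one_smul, smul_add]
    abel
  have t1 : (0 : ℂ) ≤ ((1 - t : ℝ) : ℂ) := zero_le_real.2 (sub_nonneg.2 ht.2)
  have t0 : (0 : ℂ) ≤ (t : ℂ) := zero_le_real.2 ht.1
  have pA : (G + (t : ℂ) • L).PosDef := by
    rcases ht.1.eq_or_lt with rfl | q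
    · simpa using hG
    · exact e ▸ PosDef.posSemidef_add (hG.posSemidef.smul t1) (hL.smul (zero_lt_real.2 q))
  refine ⟨pA, fun E hE => (md_le pA hE hG.posSemidef).trans ?_⟩
  have n0 : (0 : ℝ) ≤ Fintype.card ι := Nat.cast_nonneg _
  have a1 : trm G (G + (t : ℂ) • L) ≤ Fintype.card ι + l := by
    rw [e, Apr.trm_add, Apr.trm_smul, Apr.trm_smul, trm_self hG]
    nlinarith [ht.1, ht.2, mul_le_mul_of_nonneg_left h1 ht.1]
  have a2 : trm (G + (t : ℂ) • L) G ≤ (1 + l) * Fintype.card ι := by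
    have p := ((hG.posSemidef.smul (zero_le_real.2 (mul_nonneg hl (sub_nonneg.2 ht.2)))).add
      (((hL.posSemidef.smul (zero_le_real.2 (show 0 ≤ 1 + l - trm (G + L) G by linarith))).add
        (Mat.le_trm hL hG.posSemidef)).smul t0))
    have q : ((l * (1 - t) : ℝ) : ℂ) • G + (t : ℂ) • (((1 + l - trm (G + L) G : ℝ) : ℂ) • (G + L) +
        (((trm (G + L) G : ℝ) : ℂ) • (G + L) - G)) = ((1 + l : ℝ) : ℂ) • (G + (t : ℂ) • L) - G := by
      push_cast
      module
    have := Mat.trm_nonneg pA (q ▸ p)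
    rwa [Apr.trm_sub, Apr.trm_smul, trm_self pA, sub_nonneg] at this
  have a3 := (div_le_iff₀ (Mat.det' hG).1).1 ((Apr.det_le_trm hG pA.posSemidef).trans
    (pow_le_pow_left₀ (Mat.trm_nonneg hG pA.posSemidef) a1 _))
  have a4 := trm_le pA hG hE
  have a5 := Mat.trm_nonneg pA hG.posSemidef
  have a6 := Mat.trm_nonneg hG hE
  calc _ ≤ ((Fintype.card ι + l) ^ Fintype.card ι * G.det.re) * ((trm G E *
        ((1 + l) * Fintype.card ι)) * ((1 + l) * Fintype.card ι)) :=
        mul_le_mul a3 (mul_le_mul (a4.trans (mul_le_mul_of_nonneg_left a2 a6)) a2 a5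
          (by positivity)) (mul_nonneg (Mat.trm_nonneg pA hE) a5)
          (mul_nonneg (by positivity) (Mat.det' hG).1.le)
    _ = _ := by ring

theorem md_pull {J : Mat ι} (h : J.det ≠ 0) (G E : Mat ι) :
    J.map star * md (pull J G) (pull J E) * Jᵀ = ((‖J.det‖ ^ 2 : ℝ) : ℂ) • md G E := by
  have h' : IsUnit (J.map star).det := (Mat.det_star J ▸ star_ne_zero.2 h).isUnit
  have h2 := isUnit_det_transpose _ h.isUnit
  obtain ⟨-, -, -, e1, e2, -⟩ := mat.pull_pd ι J G h
  have e3 : trace (pull J E * (pull J G)⁻¹) = trace (E * G⁻¹) := by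
    rw [e2, pull]
    simp only [Matrix.mul_assoc]
    rw [mul_nonsing_inv_cancel_left _ _ h', trace_mul_comm]
    simp only [Matrix.mul_assoc]
    rw [nonsing_inv_mul _ h2, Matrix.mul_one]
  rw [md, md, e1, e3, e2, pull, mul_smul]
  simp only [Matrix.mul_smul, Matrix.smul_mul, Matrix.mul_sub, Matrix.sub_mul, Matrix.mul_assoc,
    mul_nonsing_inv_cancel_left _ _ h', nonsing_inv_mul_cancel_left _ _ h2, nonsing_inv_mul _ h2,
    Matrix.mul_one]

theorem sym {Y : ι → Mat ι} (hY : ∀ i j k, Y k i j = Y i k j) (A B : Mat ι) (j : ι) :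
    ∑ i, (A * Y i * B) j i = ∑ i, trace (Y i * B) * A j i := by
  simp only [Matrix.mul_apply, trace, diag, Finset.sum_mul]
  rw [Finset.sum_congr rfl fun i _ => Finset.sum_comm, Finset.sum_comm]
  exact Finset.sum_congr rfl fun k _ => Finset.sum_congr rfl fun i _ =>
    Finset.sum_congr rfl fun l _ => by rw [hY k l i]; ring

theorem div_md {G E : V ι → Mat ι} {z : V ι} (hG : DfM G z) (hE : DfM E z) (h0 : (G z).det ≠ 0)
    (sG : ∀ i j k, dM G k z i j = dM G i z k j) (sE : ∀ i j k, dM E k z i j = dM E i z k j)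
    (j : ι) : ∑ i, dM (fun w => md (G w) (E w)) i z j i = 0 := by
  have hH := hG.inv h0
  have ht := (hE.mul hH).tr
  simp only [md]
  simp only [dM_smul hG.det ((hH.smul ht).sub ((hH.mul hE).mul hH)),
    dM_sub (hH.smul ht) ((hH.mul hE).mul hH), dM_smul ht hH, dM_mul (hH.mul hE) hH, dM_mul hH hE,
    dz_trace (hE.mul hH), dM_mul hE hH, dM_inv hG h0, dz_det hG, adj_eq h0]
  have a1 := sym sG (G z)⁻¹ (G z)⁻¹ j
  have a2 := sym sG (G z)⁻¹ ((G z)⁻¹ * E z * (G z)⁻¹) j
  have a3 := sym sE (G z)⁻¹ (G z)⁻¹ j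
  have a4 : ∑ i, ((G z)⁻¹ * E z * ((G z)⁻¹ * dM G i z * (G z)⁻¹)) j i =
      ∑ i, trace (dM G i z * (G z)⁻¹) * ((G z)⁻¹ * E z * (G z)⁻¹) j i := by
    rw [← sym sG]
    simp only [Matrix.mul_assoc]
  have a5 : ∀ i, trace (E z * ((G z)⁻¹ * dM G i z * (G z)⁻¹)) =
      trace (dM G i z * ((G z)⁻¹ * E z * (G z)⁻¹)) := fun i => by
    rw [Matrix.mul_assoc, ← Matrix.mul_assoc (E z), trace_mul_comm]
    simp only [Matrix.mul_assoc]
  simp only [Matrix.mul_assoc] at a1 a2 a3 a4 a5
  simp only [Matrix.add_apply, Matrix.sub_apply, Matrix.smul_apply, Matrix.neg_apply, smul_eq_mul,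
    trace_add, trace_neg, Matrix.smul_mul,
    trace_smul, trace_mul_comm (G z)⁻¹, a5, mul_sub, mul_add, add_mul, mul_neg,
    neg_mul, mul_assoc, Finset.sum_add_distrib, Finset.sum_sub_distrib, Finset.sum_neg_distrib,
    ← Finset.mul_sum, a1, a2, a3, a4, mul_left_comm _ (trace (E z * (G z)⁻¹))]
  ring

open Polynomial in
/-- the trace of a form against the adjugate of a pencil. -/
def pa (B L E : Mat ι) : ℂ[X] :=
  ∑ i, ∑ j, C (E j i) * Green.pen (B.updateRow j (Pi.single i 1)) (L.updateRow j 0)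

open Polynomial in
theorem pa_spec (B L E : Mat ι) : (pa B L E).natDegree ≤ Fintype.card ι ∧ ∀ t : ℂ,
    (B + t • L).det ≠ 0 → (pa B L E).eval t = (B + t • L).det * trace (E * (B + t • L)⁻¹) ∧
      (derivative (pa B L E)).eval t = trace (md (B + t • L) E * L) := by
  let N : ι → ι → ℂ[X] := fun i j => Green.pen (B.updateRow j (Pi.single i 1)) (L.updateRow j 0)
  have e : ∀ i j t, (N i j).eval t = (B + t • L).adjugate i j := fun i j t => by
    rw [Green.pen_eval, adjugate_apply]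
    congr 1
    ext a b
    by_cases q : a = j <;> simp [updateRow_apply, q]
  refine ⟨natDegree_sum_le_of_forall_le _ _ fun i _ => natDegree_sum_le_of_forall_le _ _ fun j _ =>
    (natDegree_C_mul_le _ _).trans (natDegree_det_X_add_C_le _ _), fun t h => ⟨?_, ?_⟩⟩
  · rw [← smul_eq_mul, ← trace_smul, ← Matrix.mul_smul, ← adj_eq h, trace_mul_comm]
    simp only [pa, eval_finsetSum, eval_mul, eval_C, trace, diag, Matrix.mul_apply, ← e, mul_comm]
    rfl
  · have k : (Matrix.of fun i j => (derivative (N i j)).eval t) * (B + t • L) +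
        (B + t • L).adjugate * L = trace ((B + t • L).adjugate * L) • (1 : Mat ι) := by
      ext i k
      have p : ∑ j, N i j * (X * C (L j k) + C (B j k)) = C ((1 : Mat ι) i k) * Green.pen B L :=
        Polynomial.funext fun s => by
          have := congrFun (congrFun (adjugate_mul (B + s • L)) i) k
          simp only [Matrix.mul_apply, Matrix.smul_apply, Matrix.add_apply, smul_eq_mul] at this
          simp only [eval_finsetSum, eval_mul, eval_add, eval_X, eval_C, e, Green.pen_eval,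
            add_comm (s * _)]
          rw [this, mul_comm]
      have := congrArg (fun q => (derivative q).eval t) p
      simp only [derivative_sum, derivative_mul, derivative_add, derivative_X, derivative_C,
        eval_finsetSum, eval_add, eval_mul, eval_X, eval_C, e, mul_zero,
        zero_mul, add_zero, zero_add, one_mul, Green.pen_deriv, Finset.sum_add_distrib] at this
      simp only [Matrix.add_apply, Matrix.mul_apply, of_apply, Matrix.smul_apply, smul_eq_mul,
        add_comm (B _ _), this, mul_comm (trace _)]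
    have k2 : (Matrix.of fun i j => (derivative (N i j)).eval t) = md (B + t • L) L := by
      rw [← mul_nonsing_inv_cancel_right _ (Matrix.of _) h.isUnit, eq_sub_of_add_eq k, adj_eq h, md]
      simp only [Matrix.sub_mul, Matrix.smul_mul, trace_smul, Matrix.one_mul, smul_sub, smul_smul,
        smul_eq_mul, trace_mul_comm _ L]
    rw [md_symm, ← k2]
    simp only [pa, derivative_sum, derivative_C_mul, eval_finsetSum, eval_mul, eval_C, trace, diag,
      Matrix.mul_apply, of_apply, mul_comm]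
    rfl

open Polynomial in
theorem poly_mv {Y : Type} [MeasurableSpace Y] (μ : Measure Y) (p : Y → ℂ[X]) (n : ℕ) {δ : ℝ}
    (hn : ∀ y, (p y).natDegree ≤ n)
    (hi : ∀ t ∈ Icc (0 : ℝ) 1, Integrable (fun y => (p y).eval (t : ℂ)) μ)
    (h0 : ∀ t ∈ Icc (0 : ℝ) 1, |∫ y, ((derivative (p y)).eval (t : ℂ)).re ∂μ| ≤ δ) :
    |∫ y, ((p y).eval 1).re ∂μ - ∫ y, ((p y).eval 0).re ∂μ| ≤ δ := by
  let s := Finset.range (n + 1)
  let v : ℕ → ℂ := fun k => ((k / (n + 1) : ℝ) : ℂ)
  let b := Lagrange.basis s v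
  have n0 : (0 : ℝ) < n + 1 := by positivity
  have hp : ∀ y, p y = ∑ k ∈ s, C ((p y).eval (v k)) * b k := fun y =>
    Lagrange.eq_interpolate (fun _ _ _ _ h => Nat.cast_injective
      ((div_left_inj' n0.ne').1 (ofReal_injective h))) (by
      rw [Finset.card_range]
      exact degree_le_natDegree.trans_lt (by exact_mod_cast Nat.lt_succ_of_le (hn y)))
  have hi' : ∀ k ∈ s, Integrable (fun y => (p y).eval (v k)) μ := fun k hk =>
    hi _ ⟨by positivity, (div_le_one n0).2 (by exact_mod_cast (Finset.mem_range.1 hk).le)⟩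
  let q : ℂ[X] := ∑ k ∈ s, C (∫ y, (p y).eval (v k) ∂μ) * b k
  have key : ∀ (D : ℂ[X] →ₗ[ℂ] ℂ), ∫ y, (D (p y)).re ∂μ = (D q).re := fun D => by
    have e : ∀ y, D (p y) = ∑ k ∈ s, (p y).eval (v k) * D (b k) := fun y => by
      conv_lhs => rw [hp y]
      simp only [map_sum, ← smul_eq_C_mul, map_smul, smul_eq_mul]
    simp only [e]
    refine (reCLM.integral_comp_comm (integrable_finsetSum _ fun k hk =>
      (hi' k hk).mul_const _)).trans ?_
    rw [integral_finsetSum _ fun k hk => (hi' k hk).mul_const _]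
    simp only [q, map_sum, ← smul_eq_C_mul, map_smul, smul_eq_mul, integral_mul_const, reCLM_apply,
      re_sum]
  obtain ⟨t, ht, e⟩ := exists_hasDerivAt_eq_slope (fun t : ℝ => (q.eval (t : ℂ)).re)
    (fun t => ((derivative q).eval (t : ℂ)).re) zero_lt_one
    (fun t _ => (q.hasDerivAt (t : ℂ)).real_of_complex.continuousAt.continuousWithinAt)
    fun t _ => (q.hasDerivAt (t : ℂ)).real_of_complex
  have h1 := key (leval 1)
  have h2 := key (leval 0)
  have h3 := key ((leval (t : ℂ)).comp derivative)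
  simp only [leval_apply, LinearMap.comp_apply] at h1 h2 h3
  rw [sub_zero, div_one, ofReal_one, ofReal_zero, ← h1, ← h2, ← h3] at e
  exact e ▸ h0 t (Ioo_subset_Icc_self ht)

end Inv

end

end Pool.Agent.Lib.MP_d44e50_ag
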