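import Pool.Agent.Lib.MP_d44e50_ag.InvA
import Pool.Agent.Lib.MP_d44e50_ag.Up
import Pool.Agent.Lib.MP_813db1_ag.HS.Green

/-! Continuity and integrability on an open set. -/

namespace Pool.Agent.Lib.MP_d44e50_ag

open Pool.Agent.Lib.MP_813db1_ag.HS MeasureTheory Complex Matrix Filter Topology Set
open scoped ContDiff ComplexOrder

set_option linter.unusedSectionVars false

namespace Inv

variable {ι X : Type} [Fintype ι] [DecidableEq ι] [TopologicalSpace X] {M : Atl ι X} {W : Set X}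
  {P : Ch ι X → V ι → Mat ι} {g B : X → Mat ι} {f u : X → ℝ} {x y : X}

theorem repF_add (B B' : X → Mat ι) (e : Ch ι X) (z : V ι) :
    M.repF (fun x => B x + B' x) e z = M.repF B e z + M.repF B' e z := by
  simp only [Atl.repF, pull, Matrix.mul_add, Matrix.add_mul]

theorem rep_ddc (hW : IsOpen W) (hf : CkOn M 2 W f) (hx : x ∈ W) (hy : x ∈ (M.ch y).source) :
    M.repF (M.ddc f) (M.ch y) =ᶠ[𝓝 (M.ch y x)] levi (fn f (M.ch y)) :=
  (ev_mem hW hx hy).mono fun w hw => by
    have := (kB ι X M).ddc_rep f _ (M.ch_mem y) _ ((M.ch y).map_target hw.1)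
      (hf y _ hw.2 ((M.ch y).map_target hw.1))
    rwa [(M.ch y).right_inv hw.1] at this

theorem cont_tr (hW : IsOpen W) (hP : Ten M W P)
    (hB : ∀ x ∈ W, CdM 0 (M.repF B (M.ch x)) (M.ch x x)) :
    ContinuousOn (fun x => (trace (P (M.ch x) (M.ch x x) * B x)).re) W := fun x hx => by
  have c : ContDiffAt ℝ 0 (fun w => trace (P (M.ch x) w * M.repF B (M.ch x) w)) (M.ch x x) :=
    CdM.tr (CdM.mul (fun i j => (hP.sm x x hx (M.mem x) i j).of_le zero_le) (hB x hx))
  refine ((continuous_re.continuousAt.comp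
    (c.continuousAt.comp ((M.ch x).continuousAt (M.mem x)))).congr ?_).continuousWithinAt
  filter_upwards [(M.ch x).open_source.mem_nhds (M.mem x), hW.mem_nhds hx] with y h1 h2
  simp only [Function.comp, ← hP.tr x y h2 h1, Atl.repF, (M.ch x).left_inv h1, pull,
    Matrix.mul_assoc]
  rw [trace_mul_comm (Matrix.map _ _)]
  simp only [Matrix.mul_assoc]

theorem cd_ddc {m n : WithTop ℕ∞} (hW : IsOpen W) (hf : CkOn M n W f) (hn : m + 2 ≤ n) (hx : x ∈ W)
    (hy : x ∈ (M.ch y).source) : CdM m (M.repF (M.ddc f) (M.ch y)) (M.ch y x) := fun i j =>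
  (contDiffAt_levi (hf y x hx hy) (by rwa [add_assoc, one_add_one_eq_two]) i j).congr_of_eventuallyEq
    ((rep_ddc hW (hf.mono (le_add_self.trans hn) subset_rfl) hx hy).mono fun _ q =>
      congrFun (congrFun q i) j)

theorem cont_lap (hg : M.IsK g) (hW : IsOpen W) (hf : CkOn M 2 W f) :
    ContinuousOn (fun x => trm (g x) (M.ddc f x)) W := by
  have := cont_tr hW (Up.ten hg) fun x hx => cd_ddc hW hf (zero_add _).le hx (M.mem x)
  simpa only [(kA ι X M).repF_self, trm, trace_mul_comm (g _)⁻¹] using this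

theorem cont_trm {g₁ : X → Mat ι} (hg : M.IsK g) (h₁ : M.IsK g₁) :
    Continuous fun x => trm (g x) (g₁ x) := (kA ι X M).cont _ fun e he z hz =>
  ((kA ι X M).ck_trm g g₁ hg (fun e he => (h₁ e he).1.1) e he z hz).of_le zero_le

theorem intOn [T2Space X] [CompactSpace X] [MeasurableSpace X] [BorelSpace X] {μ : Measure X}
    [IsFiniteMeasure μ] {t : ℝ} (hW : IsOpen W) (hcl : IsClosed {x | x ∈ W ∧ t ≤ u x})
    (h1 : ContinuousOn f W) (h2 : ∀ x ∈ W, u x < t → f x = 0) : IntegrableOn f W μ :=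
  ((h1.mono fun _ q => q.1).integrableOn_compact hcl.isCompact).of_forall_sdiff_eq_zero
    hW.measurableSet fun x hx => h2 x hx.1 (not_le.1 fun q => hx.2 ⟨hx.1, q⟩)

/-- integrability against a cutoff. -/
theorem intP [T2Space X] [CompactSpace X] [MeasurableSpace X] [BorelSpace X] {μ : Measure X}
    [IsFiniteMeasure μ] {C S : ℝ} (h : RE M g W u C) (hS : 0 < S) (k : ℕ) (a : ℝ)
    (h1 : ContinuousOn f W) : IntegrableOn (fun x => pp (k + 1) (u x / S + a) * f x) W μ :=
  intOn h.opn (h.cl (-a * S)) (((continuous_pp _).comp_continuousOn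
    (((continuousOn_of_forall_continuousAt fun _ q => h.ck.cont q).div_const S).add
      continuousOn_const)).mul h1) fun x _ q => by
      rw [pp_of_nonpos k (by linarith [(div_lt_iff₀ hS).2 q]), zero_mul]

theorem qf_tr (Q : Mat ι) (a : V ι) : qf Q a a = trace (Q * vecMulVec a (star a)) := by
  simp only [qf, trace, diag, Matrix.mul_apply, vecMulVec_apply, Pi.star_apply, mul_assoc]
  exact Finset.sum_comm

theorem qf_le {G Q : Mat ι} (hG : G.PosDef) (hQ : Q.PosSemidef) (a : V ι) :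
    (qf Q a a).re ≤ (qf G⁻¹ a a).re * (trace (Q * G)).re := by
  have := Apr.tr_nonneg hQ (Mat.le_trm hG (posSemidef_vecMulVec_self_star a))
  rwa [Matrix.mul_sub, trace_sub, Matrix.mul_smul, trace_smul, smul_eq_mul, sub_re, re_ofReal_mul,
    sub_nonneg, ← qf_tr, trm, trace_mul_comm _ G⁻¹, ← qf_tr] at this

theorem ddc_lin (hf : CkOn M 2 W f) (hu : CkOn M 2 W u) (b : ℝ) (hx : x ∈ W) :
    M.ddc (fun x => f x + b * u x) x = M.ddc f x + (b : ℂ) • M.ddc u x := by
  have e : fn (fun x => f x + b * u x) (M.ch x) =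
      fun w => fn f (M.ch x) w + b * fn u (M.ch x) w := by
    funext w
    simp only [fn, ofReal_add, ofReal_mul]
  rw [Atl.ddc, e, levi_add (hf x x hx (M.mem x)) (contDiffAt_const.mul (hu x x hx (M.mem x))),
    levi_cmul _ (hu x x hx (M.mem x))]
  rfl

theorem ckOn {n : WithTop ℕ∞} (h : M.Ck n f) : CkOn M n W f := fun y _ _ hy =>
  h _ (M.ch_mem y) _ ((M.ch y).map_source hy)

/-- the cutoff of a proper function. -/
theorem cut {C T : ℝ} (h : RE M g W u C) (h3 : CkOn M 3 W u) (hT : 0 < T) :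
    ∃ f : X → ℝ, M.Ck 3 f ∧ ∀ x, (x ∉ W → M.ddc f x = 0) ∧ (x ∈ W → M.ddc f x =
      ((4 * pp 3 (u x / T + 2) : ℝ) : ℂ) • M.ddc u x +
        ((12 * (pp 2 (u x / T + 2) / T) : ℝ) : ℂ) • vecMulVec (M.dfn u x) (star (M.dfn u x))) := by
  have d : ∀ k s, HasDerivAt (fun s => pp (k + 2) (s / T + 2))
      ((k + 2) * pp (k + 1) (s / T + 2) * (1 / T)) s := fun k s =>
    (hasDerivAt_pp k _).comp s (((hasDerivAt_id s).div_const T).add_const 2)
  have c4 : ContDiff ℝ 3 (pp 4) := (contDiff_succ_iff_deriv (n := 2)).2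
    ⟨fun t => (hasDerivAt_pp 2 t).differentiableAt, by simp,
      deriv_pp 2 ▸ contDiff_const.mul (contDiff_pp2 0)⟩
  let f : X → ℝ := W.indicator fun x => T * pp 4 (u x / T + 2)
  have z0 : ∀ x ∉ W, fn f (M.ch x) =ᶠ[𝓝 (M.ch x x)] fun _ => 0 := fun x hn => by
    filter_upwards [((M.ch x).tendsto_symm (M.mem x)).eventually
      ((h.cl (-2 * T)).isOpen_compl.mem_nhds fun q => hn q.1)] with w hw
    refine ofReal_eq_zero.2 (indicator_apply_eq_zero.2 fun q => mul_eq_zero_of_right _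
      (pp_of_nonpos 3 ?_))
    linarith [(div_lt_iff₀ hT).2 (not_le.1 fun r => hw ⟨q, r⟩)]
  have z1 : ∀ x ∈ W, fn f (M.ch x) =ᶠ[𝓝 (M.ch x x)]
      fun w => ((T * pp 4 (u ((M.ch x).symm w) / T + 2) : ℝ) : ℂ) := fun x hx =>
    (ev_mem h.opn hx (M.mem x)).mono fun w hw => by simp only [fn, f, indicator_of_mem hw.2]
  refine ⟨f, (kA ι X M).ck_loc 3 f fun x => ⟨_, M.ch_mem x, M.mem x, ?_⟩, fun x =>
    ⟨fun hn => (levi_congr (z0 x hn)).trans (levi_const _ _), fun hx => ?_⟩⟩
  · by_cases hx : x ∈ W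
    · exact (contDiffAt_ofReal.2 (contDiffAt_const.mul (c4.contDiffAt.comp _
        (((contDiffAt_ofReal.1 (h3 x x hx (M.mem x))).div_const T).add
          contDiffAt_const)))).congr_of_eventuallyEq (z1 x hx)
    · exact contDiffAt_const.congr_of_eventuallyEq (z0 x hx)
  · ext i j
    rw [Atl.ddc, levi_congr (z1 x hx), levi_real_comp (Φ := fun s => T * pp 4 (s / T + 2))
      (Φ₁ := fun s => 4 * pp 3 (s / T + 2)) (u := fun w => u ((M.ch x).symm w))
      (.of_forall fun s => ((d 2 s).const_mul T).congr_deriv (by norm_num; field_simp))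
      ((d 1 _).const_mul 4) (contDiffAt_ofReal.1 (h.ck x x hx (M.mem x))), dzb_ofReal,
      (M.ch x).left_inv (M.mem x)]
    congr 2
    norm_num
    ring

variable [T2Space X] [CompactSpace X] [MeasurableSpace X] [BorelSpace X] {h : X → Mat ι}
  {μ ν : Measure X}

theorem rat_cont (hg : M.IsK g) (hh : M.IsK h) : Continuous (rat h g) :=
  (kA ι X M).cont _ fun e he z hz =>
    ((kA ι X M).ck_rat h g (fun e he => (hh e he).1.1) hg e he z hz).of_le zero_le

theorem rat_pos (hg : M.IsK g) (hh : M.IsK h) (x : X) : 0 < rat h g x :=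
  div_pos (Mat.det' (Green.pd (kA ι X M) hh x)).1 (Mat.det' (Green.pd (kA ι X M) hg x)).1

theorem vol_eq (hg : M.IsK g) (hh : M.IsK h) (hμ : M.IsVol g μ) (hν : M.IsVol h ν) :
    ν = μ.withDensity fun x => ENNReal.ofReal (rat h g x) := by
  have Vh := (kV ι X M h hh).2 ν hν
  refine (Vh.uniq _ fun x => ?_).symm
  have he := M.ch_mem x
  set e := M.ch x
  have hs : e.source ∩ e ⁻¹' e.target = e.source :=
    inter_eq_left.2 fun y hy => e.map_source hy
  ext S hS
  have h1 := ((kV ι X M g hg).2 μ hμ).lint e he e.target e.open_target.measurableSet Subset.rfl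
    (S.indicator fun y => ENNReal.ofReal (rat h g y))
  have h2 := Vh.lint e he e.target e.open_target.measurableSet Subset.rfl (S.indicator 1)
  rw [hs] at h1 h2
  rw [lintegral_indicator_one hS] at h2
  rw [restrict_withDensity e.open_source.measurableSet, withDensity_apply _ hS,
    ← lintegral_indicator hS, h1, h2]
  refine setLIntegral_congr_fun e.open_target.measurableSet fun z hz => ?_
  by_cases hz' : e.symm z ∈ S
  · have h3 := (kA ι X M).rat_rep h g e he _ (e.map_target hz)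
    rw [e.right_inv hz] at h3
    have h4 := (Mat.det' ((hg e he).2 z hz)).1
    simp only [indicator_of_mem hz', Pi.one_apply, mul_one]
    rw [← h3, ← ENNReal.ofReal_mul h4.le, mul_div_cancel₀ _ h4.ne']
  · simp only [indicator_of_notMem hz', mul_zero]

theorem vol_int (hg : M.IsK g) (hh : M.IsK h) (hμ : M.IsVol g μ) (hν : M.IsVol h ν)
    (f : X → ℝ) : ∫ x, f x ∂ν = ∫ x, f x * rat h g x ∂μ := by
  rw [vol_eq hg hh hμ hν, integral_withDensity_eq_integral_toReal_smul
    (rat_cont hg hh).measurable.ennreal_ofReal (Eventually.of_forall fun _ => ENNReal.ofReal_lt_top)]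
  refine integral_congr_ae (Eventually.of_forall fun x => ?_)
  simp only [ENNReal.toReal_ofReal (rat_pos hg hh x).le, smul_eq_mul, mul_comm]

/-- the integral of a Laplacian vanishes. -/
theorem mass (hg : M.IsK g) (hμ : M.IsVol g μ) (hf : M.Ck 2 f) :
    ∫ x, trm (g x) (M.ddc f x) ∂μ = 0 := by
  refine Eq.trans (integral_congr_ae (.of_forall fun x => ?_)) ((green kA kB kD kC mat kV).real
    ι X M g g μ f (fun _ => 1) hg hg hμ hf fun _ _ _ _ => contDiffAt_const).2.2
  have : M.dfn (fun _ => 1) x = 0 := funext fun i => dz_const _ _ _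
  simp only [rat, div_self (Mat.det' (Green.pd (kA ι X M) hg x)).1.ne', Atl.grad, this, grL,
    Pi.zero_apply, star_zero, mul_zero, Finset.sum_const_zero, zero_re, add_zero, mul_one, one_mul,
    Atl.lap]

end Inv

end Pool.Agent.Lib.MP_d44e50_ag
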