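import Pool.Agent.Lib.MP_d44e50_ag.Defs

/-! Powers of the positive part. -/

namespace Pool.Agent.Lib.MP_d44e50_ag

open Filter Topology Asymptotics

theorem pp_nonneg (k : ℕ) (t : ℝ) : 0 ≤ pp k t := pow_nonneg (le_max_right _ _) _

theorem pp_mono (k : ℕ) : Monotone (pp k) := fun _ _ h =>
  pow_le_pow_left₀ (le_max_right _ _) (max_le_max h le_rfl) _

theorem pp_of_nonneg (k : ℕ) {t : ℝ} (h : 0 ≤ t) : pp k t = t ^ k := by rw [pp, max_eq_left h]

theorem pp_of_nonpos (k : ℕ) {t : ℝ} (h : t ≤ 0) : pp (k + 1) t = 0 := by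
  rw [pp, max_eq_right h, zero_pow k.succ_ne_zero]

theorem continuous_pp (k : ℕ) : Continuous (pp k) := (continuous_id.max continuous_const).pow k

theorem hasDerivAt_pp (k : ℕ) (t : ℝ) : HasDerivAt (pp (k + 2)) ((k + 2) * pp (k + 1) t) t := by
  rcases lt_trichotomy t 0 with h | rfl | h
  · rw [pp_of_nonpos k h.le, mul_zero]
    exact (hasDerivAt_const t (0 : ℝ)).congr_of_eventuallyEq
      ((eventually_lt_nhds h).mono fun s q => pp_of_nonpos (k + 1) q.le)
  · rw [pp_of_nonpos k le_rfl, mul_zero, hasDerivAt_iff_isLittleO_nhds_zero]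
    simp only [zero_add, pp_of_nonpos (k + 1) le_rfl, smul_zero, sub_zero]
    refine (IsBigO.of_bound' (.of_forall fun s => ?_)).trans_isLittleO
      (isLittleO_pow_id (show 1 < k + 2 by omega))
    rw [Real.norm_of_nonneg (pp_nonneg _ _), norm_pow]
    exact pow_le_pow_left₀ (le_max_right _ _) (max_le (le_abs_self s) (norm_nonneg s)) _
  · have := (hasDerivAt_pow (k + 2) t).congr_of_eventuallyEq
      ((eventually_gt_nhds h).mono fun s q => pp_of_nonneg (k + 2) q.le)
    rw [pp_of_nonneg _ h.le]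
    simpa using this

theorem deriv_pp (k : ℕ) : deriv (pp (k + 2)) = fun t => (k + 2) * pp (k + 1) t :=
  funext fun t => (hasDerivAt_pp k t).deriv

theorem contDiff_pp1 (k : ℕ) : ContDiff ℝ 1 (pp (k + 2)) :=
  contDiff_one_iff_deriv.2 ⟨fun t => (hasDerivAt_pp k t).differentiableAt,
    deriv_pp k ▸ continuous_const.mul (continuous_pp _)⟩

theorem contDiff_pp2 (k : ℕ) : ContDiff ℝ 2 (pp (k + 3)) :=
  (contDiff_succ_iff_deriv (n := 1)).2 ⟨fun t => (hasDerivAt_pp (k + 1) t).differentiableAt,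
    by simp, deriv_pp (k + 1) ▸ contDiff_const.mul (contDiff_pp1 k)⟩

end Pool.Agent.Lib.MP_d44e50_ag
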