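import Pool.Agent.Lib.MP_d44e50_ag.Stmt
import Pool.Agent.Lib.MP_d44e50_ag.Pp
import Pool.Agent.Lib.MP_813db1_ag.HS.Mat
import Pool.Agent.Lib.MP_813db1_ag.HS.Max
import Pool.Agent.Lib.MP_813db1_ag.HS.Roy
import Pool.Agent.Lib.MP_813db1_ag.HS.RepA
import Pool.Agent.Lib.MP_813db1_ag.HS.RepB
import Pool.Agent.Lib.MP_813db1_ag.HS.Cov
import Pool.Agent.Lib.MP_813db1_ag.HS.Vol
import Pool.Agent.Lib.MP_813db1_ag.HS.Div
import Pool.Agent.Lib.MP_813db1_ag.HS.Green_A
import Pool.Agent.Lib.MP_813db1_ag.HS.Sub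
import Pool.Agent.Lib.MP_bbd4b9_ag.LC.Dv_A

/-! Tools shared by the steps. -/

namespace Pool.Agent.Lib.MP_d44e50_ag

open Pool.Agent.Lib.MP_813db1_ag.HS MeasureTheory Complex Matrix Filter Topology Set
open scoped ContDiff ComplexOrder

set_option linter.unusedSectionVars false

theorem kC : CurvS := curvS mat

theorem kA : RepA := repA mat

theorem kB : RepB := repB kA kC mat maxS

theorem kP : PouS := pou kA kB

theorem kV : VolS := volS kA mat

theorem kD : DivS := divS kA kV kP mat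

variable {ι κ : Type} [Fintype ι] [DecidableEq ι] [Fintype κ] [DecidableEq κ] {Φ : V ι → V κ}
  {z : V ι} {G : V ι → Mat ι} {n : WithTop ℕ∞}

theorem jr_an (h : AnalyticAt ℂ Φ z) (i : ι) (α : κ) : AnalyticAt ℂ (fun w => jr Φ w i α) z :=
  analyticAt_pi_iff.1
    (((ContinuousLinearMap.apply ℂ (V κ) (Pi.single i 1 : V ι)).analyticAt _).comp h.fderiv) α

theorem jr_eq_dz (h : DifferentiableAt ℂ Φ z) (i : ι) (α : κ) :
    jr Φ z i α = dz (fun w => Φ w α) i z := by
  rw [dz_hol (differentiableAt_pi.1 h α), fderiv_apply h]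
  rfl

theorem dz_comp_jr {s : V κ → ℂ} (hs : DifferentiableAt ℂ s (Φ z)) (h : DifferentiableAt ℂ Φ z)
    (i : ι) : dz (fun w => s (Φ w)) i z =
      (jr Φ z *ᵥ fun α => fderiv ℂ s (Φ z) (Pi.single α 1)) i := by
  have e : fderiv ℂ Φ z (Pi.single i 1) = ∑ α, jr Φ z i α • (Pi.single α 1 : V κ) := by
    funext β
    simp [jr, Pi.single_apply]
  rw [dz_hol (hs.fun_comp' z h), fderiv_fun_comp z hs h, ContinuousLinearMap.comp_apply, e,
    map_sum]
  simp only [map_smul, smul_eq_mul, mulVec, dotProduct]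

theorem cd_gm (hG : CdM n G z) (h0 : (G z).det ≠ 0) (h : AnalyticAt ℂ Φ z) (α β : κ) :
    ContDiffAt ℝ n (fun w => gm (G w) (jr Φ w) α β) z := by
  have c : ∀ i α, ContDiffAt ℝ n (fun w => jr Φ w i α) z := fun i α =>
    (jr_an h i α).contDiffAt.restrict_scalars ℝ
  simp only [gm, Matrix.mul_apply, conjTranspose_apply]
  exact ContDiffAt.sum fun j _ => (ContDiffAt.sum fun i _ =>
    (Green.cd_star (c i α)).mul (hG.inv h0 i j)).mul (c j β)

theorem cd_det_gm (hG : CdM n G z) (h0 : (G z).det ≠ 0) (h : AnalyticAt ℂ Φ z) :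
    ContDiffAt ℝ n (fun w => (gm (G w) (jr Φ w)).det) z := by
  simp only [det_apply']
  exact ContDiffAt.sum fun _ _ => contDiffAt_const.mul
    (contDiffAt_prod fun _ _ => cd_gm hG h0 h _ _)

/-- local bounds on a compact set are uniform. -/
theorem unif_bd {X : Type} [TopologicalSpace X] {K : Set X} (hK : IsCompact K) {p : ℝ → X → Prop}
    (hm : ∀ a b x, a ≤ b → p a x → p b x) (h : ∀ x ∈ K, ∃ C, ∀ᶠ y in 𝓝 x, p C y) :
    ∃ C, ∀ x ∈ K, p C x := by
  refine hK.induction_on (p := fun S => ∃ C, ∀ x ∈ S, p C x) ⟨0, fun _ q => q.elim⟩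
    (fun _ _ e ⟨C, q⟩ => ⟨C, fun x hx => q x (e hx)⟩)
    (fun _ _ ⟨C, q⟩ ⟨C', q'⟩ => ⟨max C C', fun x hx => hx.elim
      (fun a => hm _ _ _ (le_max_left _ _) (q x a)) fun a => hm _ _ _ (le_max_right _ _) (q' x a)⟩)
    fun x hx => ?_
  obtain ⟨C, q⟩ := h x hx
  exact ⟨_, mem_nhdsWithin_of_mem_nhds q, C, fun _ a => a⟩

/-- entries of a continuous matrix function and of its inverse are locally bounded. -/
theorem loc_bd (hG : CdM 0 G z) (h0 : (G z).det ≠ 0) :
    ∃ L, ∀ᶠ w in 𝓝 z, Bd L (G w) ∧ Bd L (G w)⁻¹ := by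
  have c : ContinuousAt (fun w => ∑ i, ∑ j, (‖G w i j‖ + ‖(G w)⁻¹ i j‖)) z :=
    tendsto_finsetSum _ fun i _ => tendsto_finsetSum _ fun j _ =>
      (hG i j).continuousAt.norm.add (hG.inv h0 i j).continuousAt.norm
  refine ⟨∑ i, ∑ j, (‖G z i j‖ + ‖(G z)⁻¹ i j‖) + 1,
    (c.eventually_lt_const (lt_add_one _)).mono fun w hw => ?_⟩
  have e : ∀ i j, ‖G w i j‖ + ‖(G w)⁻¹ i j‖ ≤ ∑ i, ∑ j, (‖G w i j‖ + ‖(G w)⁻¹ i j‖) := fun i j =>
    (Finset.single_le_sum (f := fun j => ‖G w i j‖ + ‖(G w)⁻¹ i j‖) (fun _ _ => by positivity)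
      (Finset.mem_univ j)).trans (Finset.single_le_sum
        (f := fun i => ∑ j, (‖G w i j‖ + ‖(G w)⁻¹ i j‖)) (fun _ _ => by positivity)
        (Finset.mem_univ i))
  exact ⟨fun i j => by linarith [e i j, norm_nonneg ((G w)⁻¹ i j)],
    fun i j => by linarith [e i j, norm_nonneg (G w i j)]⟩

variable {X : Type} [TopologicalSpace X] {M : Atl ι X} {W : Set X} {u v : X → ℝ}

theorem CkOn.cont (h : CkOn M n W u) {x : X} (hx : x ∈ W) : ContinuousAt u x := by
  have c := continuous_re.continuousAt.comp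
    ((h x x hx (M.mem x)).continuousAt.comp ((M.ch x).continuousAt (M.mem x)))
  refine c.congr ?_
  filter_upwards [(M.ch x).open_source.mem_nhds (M.mem x)] with y hy
  simp only [Function.comp, fn, (M.ch x).left_inv hy, ofReal_re]

theorem CkOn.mono {m : WithTop ℕ∞} {W' : Set X} (h : CkOn M n W u) (hm : m ≤ n) (hW : W' ⊆ W) :
    CkOn M m W' u := fun y x hx hy => (h y x (hW hx) hy).of_le hm

theorem CkOn.lin (h : CkOn M n W u) (h' : CkOn M n W v) (b : ℝ) :
    CkOn M n W fun x => u x + b * v x := fun y x hx hy => by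
  have := (h y x hx hy).add ((contDiffAt_const (c := (b : ℂ))).mul (h' y x hx hy))
  refine this.congr_of_eventuallyEq (.of_forall fun w => ?_)
  simp only [fn, ofReal_add, ofReal_mul]

/-- points of a chart near a point of an open set. -/
theorem ev_mem (hW : IsOpen W) {e : Ch ι X} {x : X} (hx : x ∈ W) (he : x ∈ e.source) :
    ∀ᶠ w in 𝓝 (e x), w ∈ e.target ∧ e.symm w ∈ W :=
  (e.open_target.eventually_mem (e.map_source he)).and
    ((e.tendsto_symm he).eventually (hW.mem_nhds hx))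

end Pool.Agent.Lib.MP_d44e50_ag
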