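import Pool.Agent.Lib.MP_d44e50_ag.Kit
import Pool.Agent.Lib.MP_813db1_ag.HS.Main

/-! Assembly. -/

namespace Pool.Agent.Lib.MP_d44e50_ag

open Pool.Agent.Lib.MP_813db1_ag.HS MeasureTheory Complex Matrix Filter Topology Set Asymptotics
open scoped ContDiff ComplexOrder Manifold

theorem main (hsc' : ScS) (hup : UpS) (hjet : JetS) (hbas : BasS) (hr : RS) (hid : IdS)
    (h1 : G1S) (h2 : G2S) (h3 : G3S) (h4 : G4S) : MainS := by
  intro ι κ X Y _ _ _ _ _ _ _ _ _ _ _ _ _ _ _ _ K μ h N σ ρ φ hμ hc hK h0 hσ hρ hρ0 hφ a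
  obtain ⟨M, g, hA, hch, hg, hrep⟩ := maxAtl kA ι X K
  have hev : ∀ x, M.repF g (M.ch x) =ᶠ[𝓝 (M.ch x x)] K.g (M.ch x) := fun x => by
    rw [hch x]
    filter_upwards [(chartAt (ι → ℂ) x).open_target.mem_nhds (mem_chart_target _ x)] with w hw
    exact hrep _ (chart_mem_atlas _ x) w hw
  have cA : ∀ x, M.ch x ∈ atlas (ι → ℂ) X := fun x => hch x ▸ chart_mem_atlas _ x
  have hμ' : M.IsVol g μ := by
    obtain ⟨⟨ν, hν⟩, hV⟩ := kV ι X M g hg
    refine (hV ν hν).uniq μ (fun x => ?_) ▸ hν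
    rw [hν _ (M.ch_mem x), hμ _ (cA x)]
    congr 1
    refine withDensity_congr_ae ?_
    filter_upwards [ae_restrict_mem (M.ch x).open_target.measurableSet] with w hw
    rw [hrep _ (cA x) w hw]
  obtain ⟨x0, hx0, hs0⟩ := hφ.dom
  obtain ⟨j, hj⟩ := Function.ne_iff.1 hx0
  let D : Dat ι κ X Y N := ⟨M, g, σ, ρ, φ, j, x0, cA, hg, hσ, hρ, hρ0,
    fun f hf f' hf' y hy hy' => CovJ.atl_an hf hf' hy hy', hφ, by rw [hch]; exact hj,
    by rw [hch]; exact hs0⟩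
  have hB : D.Bas := hbas ι κ X Y N D
  have gx : ∀ x, M.repF g (M.ch x) (M.ch x x) = g x := (kA ι X M).repF_self g
  obtain ⟨c, c1, c2, c3, c4⟩ : ∃ c : X → ℝ, Continuous c ∧ 0 ≤ ∫ x, c x ∂μ ∧
      (0 < ∫ x, h x ∂μ → Nonempty κ → 0 < ∫ x, c x ∂μ) ∧ ∀ x (B : Matrix ι κ ℂ),
      (gm (g x) B).det ≠ 0 → c x ≤ rq (M.repF g (M.ch x)) (M.ch x x) (pj (g x) B) := by
    have k := fun x (B : Matrix ι κ ℂ) (hB : (gm (g x) B).det ≠ 0) => hsc' ι κ _ _ _ B (h x)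
      (M.ch x).open_target (hg _ (M.ch_mem x)) ((M.ch x).map_source (M.mem x)) ((gx x).symm ▸ hB)
    rcases hK with hK | hK
    · refine ⟨fun x => (Fintype.card κ * (Fintype.card κ + 1) / 2 : ℝ) * h x,
        continuous_const.mul hc, ?_, fun p q => ?_, fun x B hB => gx x ▸ (k x B hB).1 fun v => ?_⟩
      · rw [integral_const_mul]
        positivity
      · have : 0 < Fintype.card κ := Fintype.card_pos
        rw [integral_const_mul]
        positivity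
      · have := hK _ (cA x) x (M.mem x) v
        simp only [hsc, Main.curv_cg (hev x), (hev x).eq_of_nhds] at this ⊢
        exact this
    · refine ⟨h, hc, h0, fun p _ => p, fun x B hB => gx x ▸ (k x B hB).2 fun ξ q => ?_⟩
      simp only [Main.curv_cg (hev x), (hev x).eq_of_nhds] at q ⊢
      exact hK _ (cA x) x (M.mem x) ξ q
  obtain ⟨r, C, r1, r2⟩ := hr ι κ X Y N D hB
  obtain ⟨A, hA'⟩ := hup ι X M g μ D.Wr r C (a + 1) hg hμ' r2
  obtain ⟨γ, γ0, hγ⟩ := h4 ι κ X Y N D μ r C hB hμ' r2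
  have key : ∀ m ≥ 1, ∀ s, IsSec ρ m a s → (∃ f ∈ atlas (κ → ℂ) Y, ∃ z ∈ f.target, s f z ≠ 0) →
      4 * (m * ∫ x, c x ∂μ) ≤ A ∧ ∀ n : ℕ,
        (D.S s =O[𝓝 (M.ch x0 x0)] fun z => ‖z - M.ch x0 x0‖ ^ n) → γ * n ≤ A + 2 := by
    intro m hm s hs hn
    have f1 := hid ι κ X Y N D m a s hB hs hn
    obtain ⟨g1, g2, g3, g4, g5, g6⟩ := h1 ι κ X Y N D m a s c hB hs hm c4
    obtain ⟨⟨C0, g7⟩, g8⟩ := h2 ι κ X Y N D m a s r C hB hs hm r1 r2 g2
    obtain ⟨u1, u2⟩ := hA' _ D.P (D.F m a s) (fun x => m * c x) C0 g1 (fun _ q => q.1)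
      (h3 ι κ X Y N D μ m a s hB hμ' hs hm f1) g3 g4 g5 (continuous_const.mul c1) g6 g7 g8
    rw [integral_const_mul] at u1 u2
    refine ⟨u1, fun n hn => ?_⟩
    obtain ⟨T, t1, t2⟩ := ((hγ m a n s hs hm g1 g3 g5 f1 hn 1 one_pos).and (u2 1 one_pos)).exists
    have := (ENNReal.ofReal_le_ofReal_iff (by linarith)).1 (t1.trans t2)
    have : 0 ≤ m * ∫ x, c x ∂μ := by positivity
    linarith
  refine ⟨?_, fun p q => ?_⟩
  · obtain ⟨n, hn⟩ := exists_nat_gt ((A + 2) / γ)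
    obtain ⟨d, hd⟩ := hjet ι n
    refine ⟨d, fun m hm Q s hs hi => not_lt.1 fun hQ => ?_⟩
    have x1 : x0 ∉ D.I := fun q => D.j0 (congrFun q j)
    obtain ⟨b, b0, hb⟩ := hd Q (fun i => D.S (s i)) (M.ch x0 x0) hQ fun i =>
      AnalyticAt.comp_of_eq (hB.sec_an m a _ (hs i) _ (hB.cfA x0).1 _
        ((D.cf x0).map_source (hB.cfA x0).2))
        (hB.an x0 _ (hB.cfA x0).1 x0 (M.mem x0) x1 (hB.cfA x0).2).1 (hB.val x0 _ x0 (M.mem x0))
    have := (key m hm (fun f z => ∑ i, b i * s i f z) ⟨fun f hf => DifferentiableOn.fun_sum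
      fun i _ => ((hs i).1 f hf).const_mul _, fun f hf f' hf' y hy hy' t ht => by
        rw [Finset.mul_sum]
        exact Finset.sum_congr rfl fun i _ => by
          rw [(hs i).2 f hf f' hf' y hy hy' t ht, mul_left_comm]⟩
      (by
        by_contra q
        exact b0 (hi b fun f hf z hz => not_not.1 fun e => q ⟨f, hf, z, hz, e⟩))).2 n hb
    rw [div_lt_iff₀ γ0] at hn
    linarith
  · obtain ⟨n, hn⟩ := exists_nat_gt (A / (4 * ∫ x, c x ∂μ))
    refine ⟨n + 1, fun m hm s hs f hf z hz => not_not.1 fun e => ?_⟩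
    have := (key m (by omega) s hs ⟨f, hf, z, hz, e⟩).1
    have t := c3 p q
    have : (n : ℝ) ≤ m := by exact_mod_cast (by omega : n ≤ m)
    rw [div_lt_iff₀ (by positivity)] at hn
    nlinarith

end Pool.Agent.Lib.MP_d44e50_ag
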