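import Pool.Agent.Lib.MP_d44e50_ag.St2
import Pool.Agent.Lib.MP_813db1_ag.HS.Main

/-! Assembly. -/

namespace Pool.Agent.Lib.MP_d44e50_ag

open Pool.Agent.Lib.MP_813db1_ag.HS MeasureTheory Complex Matrix Filter Topology Set Asymptotics
open scoped ContDiff ComplexOrder Manifold

namespace Main2

variable {ι κ X : Type} [Fintype ι] [DecidableEq ι] [Fintype κ] [DecidableEq κ]
  [TopologicalSpace X]

omit [DecidableEq ι] in
theorem atl_eq {M M' : Atl ι X} (h : ∀ x, M.ch x = M'.ch x) : M = M' := by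
  have k : ∀ {M M' : Atl ι X}, (∀ x, M.ch x = M'.ch x) → M.A ⊆ M'.A := fun {M M'} h e he =>
    M'.max e fun x hx => h x ▸ ⟨M.hol _ (M.ch_mem x) e he x (M.mem x) hx,
      M.hol e he _ (M.ch_mem x) x hx (M.mem x)⟩
  have a := (k h).antisymm (k fun x => (h x).symm)
  have b : M.ch = M'.ch := funext h
  cases M
  cases M'
  congr

theorem surj (ha : AlgS) {G : Mat ι} {Φ : V ι → V κ} {z : V ι} (hG : G.PosDef)
    (h : (gm G (jr Φ z)).det ≠ 0) : Function.Surjective (fderiv ℂ Φ z) := fun y => by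
  obtain ⟨ξ, -, -, e⟩ := ha.frame ι κ G _ hG h
  have u : IsUnit (ξᴴ * jr Φ z).det := Ne.isUnit fun q => (Green.det_pos (ha.gm_pd _ _ _ _ hG h)).ne'
    (by rw [← e, q, norm_zero, zero_pow two_ne_zero])
  refine ⟨y ᵥ* (ξᴴ * jr Φ z)⁻¹ ᵥ* ξᴴ, ?_⟩
  have : ∀ v, fderiv ℂ Φ z v = v ᵥ* jr Φ z := fun v => by
    conv_lhs => rw [pi_eq_sum_univ' v, map_sum]
    funext α
    simp only [map_smul, Finset.sum_apply, Pi.smul_apply, smul_eq_mul, vecMul, dotProduct, jr,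
      of_apply]
  rw [this, vecMul_vecMul, vecMul_vecMul, Matrix.nonsing_inv_mul _ u, vecMul_one]

variable [T2Space X] [CompactSpace X] [MeasurableSpace X] [BorelSpace X] [ChartedSpace (ι → ℂ) X]
  [IsManifold 𝓘(ℂ, ι → ℂ) ω X]

/-- a metric of the statement in terms of the maximal atlas. -/
theorem toM (hs : ScS) {M : Atl ι X} (hch : ∀ x, M.ch x = chartAt (ι → ℂ) x) (K : Kahler ι X)
    {μ : Measure X} (hμ : K.IsVol μ) {h : X → ℝ} (hK : HscGe K h ∨ ScalGe κ K h) :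
    ∃ (g : X → Mat ι) (t : ℝ), M.IsK g ∧ M.IsVol g μ ∧
      (∀ x, g x = K.g (chartAt (ι → ℂ) x) (chartAt (ι → ℂ) x x)) ∧ 0 ≤ t ∧
      t ≤ (Fintype.card κ + 1) ^ 2 ∧ ∀ x (B : Matrix ι κ ℂ), (gm (g x) B).det ≠ 0 →
        t * h x ≤ rq (M.repF g (M.ch x)) (M.ch x x) (pj (g x) B) := by
  obtain ⟨M', g, -, hch', hg, hrep⟩ := maxAtl kA ι X K
  obtain rfl : M = M' := atl_eq fun x => (hch x).trans (hch' x).symm
  have cA : ∀ x, M.ch x ∈ atlas (ι → ℂ) X := fun x => hch x ▸ chart_mem_atlas _ x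
  have hev : ∀ x, M.repF g (M.ch x) =ᶠ[𝓝 (M.ch x x)] K.g (M.ch x) := fun x =>
    ((M.ch x).open_target.eventually_mem ((M.ch x).map_source (M.mem x))).mono (hrep _ (cA x))
  have hμ' : M.IsVol g μ := by
    obtain ⟨⟨ν, hν⟩, hV⟩ := kV ι X M g hg
    refine (hV ν hν).uniq μ (fun x => ?_) ▸ hν
    rw [hν _ (M.ch_mem x), hμ _ (cA x)]
    congr 1
    refine withDensity_congr_ae ?_
    filter_upwards [ae_restrict_mem (M.ch x).open_target.measurableSet] with w hw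
    rw [hrep _ (cA x) w hw]
  have gx : ∀ x, M.repF g (M.ch x) (M.ch x x) = g x := (kA ι X M).repF_self g
  have gK : ∀ x, g x = K.g (chartAt (ι → ℂ) x) (chartAt (ι → ℂ) x x) := fun x => by
    rw [← gx, (hev x).eq_of_nhds, hch]
  have k := fun x (B : Matrix ι κ ℂ) (hB : (gm (g x) B).det ≠ 0) => hs ι κ _ _ _ B (h x)
    (M.ch x).open_target (hg _ (M.ch_mem x)) ((M.ch x).map_source (M.mem x)) ((gx x).symm ▸ hB)
  have p : (0 : ℝ) ≤ Fintype.card κ := Nat.cast_nonneg _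
  rcases hK with hK | hK
  · refine ⟨g, _, hg, hμ', gK, by positivity, by nlinarith,
      fun x B hB => gx x ▸ (k x B hB).1 fun v => ?_⟩
    have := hK _ (cA x) x (M.mem x) v
    simp only [hsc, Main.curv_cg (hev x), (hev x).eq_of_nhds] at this ⊢
    exact this
  · refine ⟨g, 1, hg, hμ', gK, zero_le_one, by nlinarith,
      fun x B hB => (one_mul _).trans_le (gx x ▸ (k x B hB).2 fun ξ q => ?_)⟩
    simp only [Main.curv_cg (hev x), (hev x).eq_of_nhds] at q ⊢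
    exact hK _ (cA x) x (M.mem x) ξ q

end Main2

open Main2 in
theorem main2 (ha : AlgS) (hsc' : ScS) (hup : UpT) (hjet : JetS) (hbas : BasS) (hr : RT)
    (hid : IdS) (h1 : G1S) (h2 : G2T) (h3 : G3S) (h4 : G4T) : MainT := by
  intro ι κ X Y _ _ _ _ _ _ _ _ _ _ _ _ _ _ _ _ K₀ N σ ρ φ ⟨L, O, o1, o2, hL⟩ hσ hρ hρ0 hφ a
  obtain ⟨M, g₀, -, hch, hg, hrep⟩ := maxAtl kA ι X K₀
  have cA : ∀ x, M.ch x ∈ atlas (ι → ℂ) X := fun x => hch x ▸ chart_mem_atlas _ x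
  have gK : ∀ x, g₀ x = K₀.g (chartAt (ι → ℂ) x) (chartAt (ι → ℂ) x x) := fun x => by
    rw [← (kA ι X M).repF_self g₀ x, hrep _ (cA x) _ ((M.ch x).map_source (M.mem x)), hch]
  have nz : ∀ {Q : ℕ} {s : Fin Q → Ch κ Y → V κ → ℂ}, Indep s → ∀ b : Fin Q → ℂ, b ≠ 0 →
      ∃ f ∈ atlas (κ → ℂ) Y, ∃ z ∈ f.target, ∑ i, b i * s i f z ≠ 0 := fun hi b b0 => by
    by_contra q
    exact b0 (hi b fun f hf z hz => not_not.1 fun e => q ⟨f, hf, z, hz, e⟩)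
  by_cases ex : ∃ m ≥ 1, ∃ s, IsSec ρ m a s ∧ ∃ f ∈ atlas (κ → ℂ) Y, ∃ z ∈ f.target, s f z ≠ 0
  swap
  · refine ⟨0, fun m hm Q s hs hi => not_lt.1 fun hQ => ex ⟨m, hm, _, hs ⟨0, hQ⟩, ?_⟩⟩
    simpa [Pi.single_apply] using nz hi (Pi.single ⟨0, hQ⟩ 1) (by simp)
  obtain ⟨m1, m2, s1, s2, s3⟩ := ex
  obtain ⟨x1, hx1, hs1⟩ := hφ.dom
  obtain ⟨j, hj⟩ := Function.ne_iff.1 hx1
  let D1 : Dat ι κ X Y N := ⟨M, g₀, σ, ρ, φ, j, x1, cA, hg, hσ, hρ, hρ0,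
    fun f hf f' hf' y hy hy' => CovJ.atl_an hf hf' hy hy', hφ, by rw [hch]; exact hj,
    by rw [hch]; exact hs1⟩
  obtain ⟨x0, xO, xW⟩ : ∃ x0 ∈ O, x0 ∈ D1.W m1 a s1 := by
    obtain ⟨⟨ν, hν⟩, hV⟩ := kV ι X M g₀ hg
    have := (hV ν hν).pos
    have b1 := hbas ι κ X Y N D1
    by_contra q
    exact o1.measure_ne_zero ν o2 (measure_mono_null (fun x hx e => q ⟨x, hx, e⟩)
      (h3 ι κ X Y N D1 ν m1 a s1 b1 hν s2 m2 (hid ι κ X Y N D1 m1 a s1 b1 s2 s3)))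
  let D : Dat ι κ X Y N := { D1 with
    x0 := x0, j0 := xW.1, surj := surj ha (((kA ι X M).isK_iff g₀).1 hg |>.2 x0) fun q => xW.2 (by
      rw [Dat.tau, show (gm (D1.g x0) (jr (D1.Φ (D1.M.ch x0) (D1.cf x0)) (D1.M.ch x0 x0))).det = 0
        from q, zero_re, zero_pow (by omega), mul_zero]) }
  have hB : D.Bas := hbas ι κ X Y N D
  obtain ⟨r, C, r1, r2⟩ := hr ι κ X Y N D hB
  obtain ⟨γ, γ0, hγ⟩ := h4 ι κ X Y N D r O L hB r2.ck (o1.mem_nhds xO)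
  obtain ⟨n, hn⟩ := exists_nat_gt ((8 * (a + 1 : ℝ) ^ 2 * C * |L| + 6) / γ)
  obtain ⟨d, hd⟩ := hjet ι n
  refine ⟨d, fun m hm Q s hs hi => not_lt.1 fun hQ => ?_⟩
  have x1 : x0 ∉ D.I := fun q => D.j0 (congrFun q j)
  obtain ⟨b, b0, hb⟩ := hd Q (fun i => D.S (s i)) (M.ch x0 x0) hQ fun i =>
    AnalyticAt.comp_of_eq (hB.sec_an m a _ (hs i) _ (hB.cfA x0).1 _
      ((D.cf x0).map_source (hB.cfA x0).2))
      (hB.an x0 _ (hB.cfA x0).1 x0 (M.mem x0) x1 (hB.cfA x0).2).1 (hB.val x0 _ x0 (M.mem x0))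
  have ht : IsSec ρ m a fun f z => ∑ i, b i * s i f z := ⟨fun f hf => DifferentiableOn.fun_sum
    fun i _ => ((hs i).1 f hf).const_mul _, fun f hf f' hf' y hy hy' t ht => by
      rw [Finset.mul_sum]
      exact Finset.sum_congr rfl fun i _ => by
        rw [(hs i).2 f hf f' hf' y hy hy' t ht, mul_left_comm]⟩
  have m0 : (0 : ℝ) < m := Nat.cast_pos.2 hm
  obtain ⟨K, μ, h, k1, k2, k3, k4, k5, k6⟩ := hL (m * (Fintype.card κ + 1) ^ 2)⁻¹ (by positivity)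
  obtain ⟨g, t, g1, g2, g3, g4, g5, g6⟩ := toM hsc' hch K k1 k3
  have tr : ∀ x, trm (g x) (g₀ x) = trK K K₀ x := fun x => by rw [g3, gK]; rfl
  have hE := hbas ι κ X Y N (D.setG g g1)
  have f1 := hid ι κ X Y N D m a _ hB ht (nz hi b b0)
  obtain ⟨e1, e2, e3, e4, e5, e6⟩ := h1 ι κ X Y N (D.setG g g1) m a _ (fun x => t * h x) hE ht hm g6
  obtain ⟨⟨C0, e7⟩, e8⟩ := h2 ι κ X Y N (D.setG g g1) m a _ g₀ r C hE ht hm r1 r2 e2
  obtain ⟨T, t1, t2⟩ := ((hγ g g1 μ _ rfl hE g2 (fun x hx => (tr x).trans_le (k6 x hx)) m a n _ ht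
    hm e1 e3 e5 f1 hb 1 one_pos).and (hup ι X M g₀ g μ _ _ r _ (fun x => m * (t * h x)) _ C (a + 1)
      C0 hg g1 g2 r2 e1 (fun _ q => q.1) (h3 ι κ X Y N (D.setG g g1) μ m a _ hE g2 ht hm f1) e3 e4 e5
      (continuous_const.mul (continuous_const.mul k2)) e6 e7 e8 1 one_pos)).exists
  have c0 := r2.nn
  have u1 : -1 ≤ ∫ x, m * (t * h x) ∂μ := by
    rw [integral_const_mul, integral_const_mul]
    have := mul_le_mul_of_nonneg_left k4 (mul_nonneg m0.le g4)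
    have q : m * t * (m * (Fintype.card κ + 1) ^ 2 : ℝ)⁻¹ ≤ 1 := by
      rw [mul_inv_le_iff₀ (by positivity), one_mul]
      exact mul_le_mul_of_nonneg_left g5 m0.le
    linarith
  have u2 : 8 * (a + 1 : ℝ) ^ 2 * C * ∫ x, trm (g x) (g₀ x) ∂μ ≤ 8 * (a + 1 : ℝ) ^ 2 * C * |L| := by
    simp only [tr]
    exact mul_le_mul_of_nonneg_left (k5.trans (le_abs_self L)) (by positivity)
  have := (ENNReal.ofReal_le_ofReal_iff (by positivity)).1 ((t1.trans t2).trans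
    (ENNReal.ofReal_le_ofReal (q := 8 * (a + 1 : ℝ) ^ 2 * C * |L| + 5) (by linarith)))
  rw [div_lt_iff₀ γ0] at hn
  linarith

end Pool.Agent.Lib.MP_d44e50_ag
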