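import Pool.Agent.Lib.MP_d44e50_ag.InvB
import Pool.Agent.Lib.MP_d44e50_ag.Main2

/-! Assembly, with bounds on the Kaehler classes only. -/

namespace Pool.Agent.Lib.MP_d44e50_ag

open Pool.Agent.Lib.MP_813db1_ag.HS MeasureTheory Complex Matrix Filter Topology Set Asymptotics
open scoped ContDiff ComplexOrder Manifold

namespace Main3

variable {ι X : Type} [Fintype ι] [DecidableEq ι] [TopologicalSpace X] [T2Space X]
  [CompactSpace X] [MeasurableSpace X] [BorelSpace X]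

/-- the mass of a metric in a fixed class. -/
theorem mass (hv : InvT) {M : Atl ι X} {g g' g₀ : X → Mat ι} {μ μ' : Measure X} {u : X → ℝ}
    (hg : M.IsK g) (hg' : M.IsK g') (h₀ : M.IsK g₀) (hμ : M.IsVol g μ) (hμ' : M.IsVol g' μ')
    (hu : M.Ck ∞ u) (e : ∀ x, g' x = g x + M.ddc u x) :
    ∫ x, trm (g x) (g₀ x) ∂μ ≤ 2 * ∫ x, trm (g' x) (g₀ x) ∂μ' := by
  have z : ∀ x, M.ddc (fun _ => 0) x = 0 := (kB ι X M).ddc_const 0
  have c : ∀ k, CkOn M k univ fun _ => (0 : ℝ) := fun _ _ _ _ _ => contDiffAt_const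
  have r : RE M g univ (fun _ => 0) 0 := ⟨le_rfl, isOpen_univ, c 2, fun _ _ => le_rfl,
    fun x _ => by rw [z, ofReal_zero, zero_smul, add_zero]; exact PosSemidef.zero,
    fun t => by simp only [mem_univ, true_and]; exact isClosed_const⟩
  obtain ⟨S, hS⟩ := (hv ι X M g g' μ u _ univ 0 hg hg' hμ hu e r (2 / 9) (by norm_num)).exists
  have := hS g₀ _ h₀ (c 3) fun x _ => by
    rw [z, add_zero]
    exact (Green.pd (kA ι X M) h₀ x).posSemidef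
  simp only [z, add_zero, zero_div, zero_add, Measure.restrict_univ, integral_const_mul] at this
  rw [← Inv.vol_int hg hg' hμ hμ', show pp 2 2 = 4 by norm_num [pp],
    show pp 2 3 = 9 by norm_num [pp]] at this
  linarith [(abs_le.1 this).1]

variable [ChartedSpace (ι → ℂ) X] [IsManifold 𝓘(ℂ, ι → ℂ) ω X]

/-- a metric of the statement in terms of the maximal atlas. -/
theorem toM {M : Atl ι X} (hch : ∀ x, M.ch x = chartAt (ι → ℂ) x) (K : Kahler ι X)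
    {μ : Measure X} (hμ : K.IsVol μ) : ∃ g : X → Mat ι, M.IsK g ∧ M.IsVol g μ ∧
      ∀ x, g x = K.g (chartAt (ι → ℂ) x) (chartAt (ι → ℂ) x x) := by
  obtain ⟨M', g, -, hch', hg, hrep⟩ := maxAtl kA ι X K
  obtain rfl : M = M' := Main2.atl_eq fun x => (hch x).trans (hch' x).symm
  have cA : ∀ x, M.ch x ∈ atlas (ι → ℂ) X := fun x => hch x ▸ chart_mem_atlas _ x
  refine ⟨g, hg, ?_, fun x => ?_⟩
  · obtain ⟨⟨ν, hν⟩, hV⟩ := kV ι X M g hg
    refine (hV ν hν).uniq μ (fun x => ?_) ▸ hν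
    rw [hν _ (M.ch_mem x), hμ _ (cA x)]
    congr 1
    refine withDensity_congr_ae ?_
    filter_upwards [ae_restrict_mem (M.ch x).open_target.measurableSet] with w hw
    rw [hrep _ (cA x) w hw]
  · rw [← (kA ι X M).repF_self g x, hrep _ (cA x) _ ((M.ch x).map_source (M.mem x)), hch]

end Main3

open Main2 in
theorem main3 (ha : AlgS) (hsc' : ScS) (hup : UpT) (hjet : JetS) (hbas : BasS) (hr : RT)
    (hid : IdS) (h1 : G1S) (h2 : G2T) (h3 : G3S) (hv : InvT) (h4 : G4B) : MainU := by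
  intro ι κ X Y _ _ _ _ _ _ _ _ _ _ _ _ _ _ _ _ K₀ N σ ρ φ ⟨L, O, o1, o2, hL⟩ hσ hρ hρ0 hφ a
  obtain ⟨M, g₀, -, hch, hg, hrep⟩ := maxAtl kA ι X K₀
  have cA : ∀ x, M.ch x ∈ atlas (ι → ℂ) X := fun x => hch x ▸ chart_mem_atlas _ x
  have gK : ∀ x, g₀ x = K₀.g (chartAt (ι → ℂ) x) (chartAt (ι → ℂ) x x) := fun x => by
    rw [← (kA ι X M).repF_self g₀ x, hrep _ (cA x) _ ((M.ch x).map_source (M.mem x)), hch]
  have nz : ∀ {Q : ℕ} {s : Fin Q → Ch κ Y → V κ → ℂ}, Indep s → ∀ b : Fin Q → ℂ, b ≠ 0 →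
      ∃ f ∈ atlas (κ → ℂ) Y, ∃ z ∈ f.target, ∑ i, b i * s i f z ≠ 0 := fun hi b b0 => by
    by_contra q
    exact b0 (hi b fun f hf z hz => not_not.1 fun e => q ⟨f, hf, z, hz, e⟩)
  by_cases ex : ∃ m ≥ 1, ∃ s, IsSec ρ m a s ∧ ∃ f ∈ atlas (κ → ℂ) Y, ∃ z ∈ f.target, s f z ≠ 0
  swap
  · refine ⟨0, fun m hm Q s hs hi => not_lt.1 fun hQ => ex ⟨m, hm, _, hs ⟨0, hQ⟩, ?_⟩⟩
    simpa [Pi.single_apply] using nz hi (Pi.single ⟨0, hQ⟩ 1) (by simp)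
  obtain ⟨m1, m2, s1, s2, s3⟩ := ex
  obtain ⟨x1, hx1, hs1⟩ := hφ.dom
  obtain ⟨j, hj⟩ := Function.ne_iff.1 hx1
  let D1 : Dat ι κ X Y N := ⟨M, g₀, σ, ρ, φ, j, x1, cA, hg, hσ, hρ, hρ0,
    fun f hf f' hf' y hy hy' => CovJ.atl_an hf hf' hy hy', hφ, by rw [hch]; exact hj,
    by rw [hch]; exact hs1⟩
  obtain ⟨x0, xO, xW⟩ : ∃ x0 ∈ O, x0 ∈ D1.W m1 a s1 := by
    obtain ⟨⟨ν, hν⟩, hV⟩ := kV ι X M g₀ hg
    have := (hV ν hν).pos
    have b1 := hbas ι κ X Y N D1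
    by_contra q
    exact o1.measure_ne_zero ν o2 (measure_mono_null (fun x hx e => q ⟨x, hx, e⟩)
      (h3 ι κ X Y N D1 ν m1 a s1 b1 hν s2 m2 (hid ι κ X Y N D1 m1 a s1 b1 s2 s3)))
  let D : Dat ι κ X Y N := { D1 with
    x0 := x0, j0 := xW.1, surj := surj ha (((kA ι X M).isK_iff g₀).1 hg |>.2 x0) fun q => xW.2 (by
      rw [Dat.tau, show (gm (D1.g x0) (jr (D1.Φ (D1.M.ch x0) (D1.cf x0)) (D1.M.ch x0 x0))).det = 0
        from q, zero_re, zero_pow (by omega), mul_zero]) }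
  have hB : D.Bas := hbas ι κ X Y N D
  obtain ⟨r, C, r1, r2⟩ := hr ι κ X Y N D hB
  obtain ⟨γ, γ0, hγ⟩ := h4 ι κ X Y N D r C O L m1 a s1 hB r1 r2 (o1.mem_nhds xO) s2 m2 xW
  obtain ⟨n, hn⟩ := exists_nat_gt ((8 * (a + 1 : ℝ) ^ 2 * C * (2 * |L|) + 6) / γ)
  obtain ⟨d, hd⟩ := hjet ι n
  refine ⟨d, fun m hm Q s hs hi => not_lt.1 fun hQ => ?_⟩
  have x1 : x0 ∉ D.I := fun q => D.j0 (congrFun q j)
  obtain ⟨b, b0, hb⟩ := hd Q (fun i => D.S (s i)) (M.ch x0 x0) hQ fun i =>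
    AnalyticAt.comp_of_eq (hB.sec_an m a _ (hs i) _ (hB.cfA x0).1 _
      ((D.cf x0).map_source (hB.cfA x0).2))
      (hB.an x0 _ (hB.cfA x0).1 x0 (M.mem x0) x1 (hB.cfA x0).2).1 (hB.val x0 _ x0 (M.mem x0))
  have ht : IsSec ρ m a fun f z => ∑ i, b i * s i f z := ⟨fun f hf => DifferentiableOn.fun_sum
    fun i _ => ((hs i).1 f hf).const_mul _, fun f hf f' hf' y hy hy' t ht => by
      rw [Finset.mul_sum]
      exact Finset.sum_congr rfl fun i _ => by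
        rw [(hs i).2 f hf f' hf' y hy hy' t ht, mul_left_comm]⟩
  have m0 : (0 : ℝ) < m := Nat.cast_pos.2 hm
  obtain ⟨K, K', μ, μ', h, k1, k2, k3, k4, ⟨u, hu⟩, k7, k5, k6⟩ :=
    hL (m * (Fintype.card κ + 1) ^ 2)⁻¹ (by positivity)
  obtain ⟨g, t, g1, g2, g3, g4, g5, g6⟩ := toM hsc' hch K k1 k3
  obtain ⟨g', p1, p2, p3⟩ := Main3.toM hch K' k7
  have tr : ∀ x, trm (g' x) (g₀ x) = trK K' K₀ x := fun x => by rw [p3, gK]; rfl
  have p4 : M.Ck ∞ u := (kA ι X M).ck_loc ⊤ u fun x => ⟨_, M.ch_mem x, M.mem x,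
    ofRealCLM.contDiff.contDiffAt.comp _ ((hu _ (cA x)).1.contDiffAt
      ((M.ch x).open_target.mem_nhds ((M.ch x).map_source (M.mem x))))⟩
  have p5 : ∀ x, g' x = g x + M.ddc u x := fun x => by
    rw [p3, g3, Atl.ddc, hch]
    exact (hu _ (chart_mem_atlas _ x)).2 _ (mem_chart_target _ x)
  have hE := hbas ι κ X Y N (D.setG g g1)
  have f1 := hid ι κ X Y N D m a _ hB ht (nz hi b b0)
  obtain ⟨e1, e2, e3, e4, e5, e6⟩ := h1 ι κ X Y N (D.setG g g1) m a _ (fun x => t * h x) hE ht hm g6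
  obtain ⟨⟨C0, e7⟩, e8⟩ := h2 ι κ X Y N (D.setG g g1) m a _ g₀ r C hE ht hm r1 r2 e2
  obtain ⟨T, t1, t2⟩ := ((hγ g g' g1 μ _ u (fun x => t * h x) rfl hE g2 p1 p4 p5
    (fun x hx => (tr x).trans_le (k6 x hx)) g6 m n _ ht hm f1 hb 1 one_pos).and (hup ι X M g₀ g μ _ _ r _ (fun x => m * (t * h x)) _ C (a + 1)
      C0 hg g1 g2 r2 e1 (fun _ q => q.1) (h3 ι κ X Y N (D.setG g g1) μ m a _ hE g2 ht hm f1) e3 e4 e5
      (continuous_const.mul (continuous_const.mul k2)) e6 e7 e8 1 one_pos)).exists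
  have c0 := r2.nn
  have u1 : -1 ≤ ∫ x, m * (t * h x) ∂μ := by
    rw [integral_const_mul, integral_const_mul]
    have := mul_le_mul_of_nonneg_left k4 (mul_nonneg m0.le g4)
    have q : m * t * (m * (Fintype.card κ + 1) ^ 2 : ℝ)⁻¹ ≤ 1 := by
      rw [mul_inv_le_iff₀ (by positivity), one_mul]
      exact mul_le_mul_of_nonneg_left g5 m0.le
    linarith
  have u2 : 8 * (a + 1 : ℝ) ^ 2 * C * ∫ x, trm (g x) (g₀ x) ∂μ ≤
      8 * (a + 1 : ℝ) ^ 2 * C * (2 * |L|) := by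
    refine mul_le_mul_of_nonneg_left ((Main3.mass hv g1 p1 hg g2 p2 p4 p5).trans ?_) (by positivity)
    simp only [tr]
    linarith [le_abs_self L]
  have := (ENNReal.ofReal_le_ofReal_iff (by positivity)).1 ((t1.trans t2).trans
    (ENNReal.ofReal_le_ofReal (q := 8 * (a + 1 : ℝ) ^ 2 * C * (2 * |L|) + 5) (by linarith)))
  rw [div_lt_iff₀ γ0] at hn
  linarith

end Pool.Agent.Lib.MP_d44e50_ag

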