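import Pool.Agent.Lib.MP_d44e50_ag.St3
import Pool.Agent.Lib.MP_d44e50_ag.Loc
import Pool.Agent.Lib.MP_d44e50_ag.Rf
import Pool.Agent.Lib.MP_d44e50_ag.G12

/-! The Levi form of the logarithm of the norm. -/

namespace Pool.Agent.Lib.MP_d44e50_ag

open Pool.Agent.Lib.MP_813db1_ag.HS Pool.Agent.Lib.MP_bbd4b9_ag.LC
open Complex Matrix Filter Topology Set
open scoped ContDiff ComplexOrder

set_option linter.unusedSectionVars false

namespace Qps

variable {ι κ : Type} [Fintype ι] [DecidableEq ι] [Fintype κ] [DecidableEq κ]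
  {G : V ι → Mat ι} {U : Set (V ι)} {z : V ι} {Φ : V ι → V κ}

theorem gramP {A : Mat κ} {S : Mat ι} (hA : A.PosSemidef) (hS : S.PosSemidef)
    (N : ι → Matrix ι κ ℂ) :
    (Matrix.of fun k l => trace (A * ((N l)ᴴ * S * (N k)ᴴᴴ))).PosSemidef := by
  obtain ⟨T, rfl⟩ := Mat.fac hA
  obtain ⟨R, rfl⟩ := Mat.fac hS
  convert posSemidef_self_mul_conjTranspose
    (Matrix.of fun k (p : ι × κ) => (R * N k * Tᴴ) p.1 p.2) using 1
  ext k l
  have e : trace (Tᴴ * T * ((N l)ᴴ * (Rᴴ * R) * (N k)ᴴᴴ)) =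
      trace (R * N k * Tᴴ * (R * N l * Tᴴ)ᴴ) := by
    simp only [conjTranspose_mul, conjTranspose_conjTranspose, ← Matrix.mul_assoc]
    rw [Matrix.mul_assoc _ R, trace_mul_comm]
    simp only [Matrix.mul_assoc]
  rw [of_apply, e, Matrix.mul_apply, Fintype.sum_prod_type]
  rfl

theorem lv (ha : AlgS) (L : ℝ) : ∃ C : ℝ, ∀ (G : V ι → Mat ι) (U : Set (V ι)) (z : V ι)
    (Φ : V ι → V κ), IsOpen U → KOn G U → z ∈ U → AnalyticAt ℂ Φ z →
    (gm (G z) (jr Φ z)).det ≠ 0 → Bd L (G z) → Bd L (G z)⁻¹ →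
    (∀ k l, ∑ i, ∑ j, ‖curv G z i j k l‖ ≤ L) →
    ((C : ℂ) • G z + levi (Loc.lgm G Φ) z).PosSemidef := by
  obtain ⟨C, hC⟩ := Rf.dom (ι := ι) (max L (L * L))
  refine ⟨C, fun G U z Φ hU hK hz h h0 b1 b2 b3 => ?_⟩
  obtain ⟨p1, p2, -⟩ := ha.pj_psd _ _ _ _ (hK.2 z hz) h0
  have g := gramP (ha.gm_pd _ _ _ _ (hK.2 z hz) h0).inv.posSemidef p2 fun k => Loc.cv G Φ k z
  have hh : (levi (Loc.lgm G Φ) z).IsHermitian :=
    levi_herm_ofReal ((contDiffAt_ofReal.2 (Loc.cdL hK hz h ha h0)).of_le (by norm_cast))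
  have b4 : Bd L (pj (G z) (jr Φ z)) := fun i j => by
    have k : ∀ i, (pj (G z) (jr Φ z) i i).re ≤ L := fun i => by
      have a1 := (Complex.nonneg_iff.1 (p2.diag_nonneg (i := i))).1
      rw [Matrix.sub_apply, sub_re] at a1
      linarith [(re_le_norm _).trans (b2 i i)]
    linarith [Mat.ent p1 i j, k i, k j]
  have q := hC (G z) _ (hK.2 z hz) (hh.sub g.1) (fun i j => (b1 i j).trans (le_max_left _ _))
    (fun i j => (b2 i j).trans (le_max_left _ _)) fun k l => le_max_of_le_right (by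
      have hL : 0 ≤ L := (norm_nonneg _).trans (b1 k l)
      rw [Matrix.sub_apply, Loc.lev hK hz h ha hU h0, of_apply, add_sub_cancel_left]
      refine le_trans ?_ (mul_le_mul_of_nonneg_right (b3 k l) hL)
      simp only [trace, diag, Matrix.mul_apply, of_apply, Finset.sum_mul]
      refine (norm_sum_le _ _).trans (Finset.sum_le_sum fun i _ =>
        (norm_sum_le _ _).trans (Finset.sum_le_sum fun j _ => ?_))
      rw [norm_mul]
      exact mul_le_mul_of_nonneg_left (b4 j i) (norm_nonneg _))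
  have := q.add g
  rwa [add_assoc, sub_add_cancel] at this

theorem loc2 (ha : AlgS) {s : V κ → ℂ} {m : ℕ} {F : V ι → ℝ} (hU : IsOpen U) (hK : KOn G U)
    (hz : z ∈ U) (h : AnalyticAt ℂ Φ z) (h0 : (gm (G z) (jr Φ z)).det ≠ 0)
    (hs : AnalyticAt ℂ s (Φ z)) (s0 : s (Φ z) ≠ 0) (hP : ∀ᶠ w in 𝓝 z,
      F w = Real.log (‖s (Φ w)‖ ^ 2 * (gm (G w) (jr Φ w)).det.re ^ m)) :
    levi (fun w => (F w : ℂ)) z = (m : ℂ) • levi (Loc.lgm G Φ) z ∧ ∃ v : V κ, ∀ i,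
      dz (fun w => (F w : ℂ)) i z = (jr Φ z *ᵥ v) i + m * dz (Loc.lgm G Φ) i z := by
  have t1 : AnalyticAt ℂ (fun w => s (Φ w)) z := hs.comp h
  have eC : (fun w => (F w : ℂ)) =ᶠ[𝓝 z]
      fun w => (Real.log (‖s (Φ w)‖ ^ 2) : ℂ) + m * Loc.lgm G Φ w := by
    filter_upwards [hP, Loc.ev hK hz h hU h0, t1.continuousAt.eventually_ne s0] with w q1 q2 q3
    rw [q1, Real.log_mul (by positivity) (pow_ne_zero _
      (Green.det_pos (ha.gm_pd _ _ _ _ (hK.2 w q2.1) q2.2.2)).ne'), Real.log_pow _ m]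
    simp only [Loc.lgm, ofReal_add, ofReal_mul, ofReal_natCast]
  have c2L : ContDiffAt ℝ 2 (Loc.lgm G Φ) z :=
    (contDiffAt_ofReal.2 (Loc.cdL hK hz h ha h0)).of_le (by norm_cast)
  have c2s := contDiffAt_ofReal.2 (DvA.cd_log t1 s0 2)
  refine ⟨by rw [levi_congr eC, levi_add c2s (contDiffAt_const.mul c2L), DvA.levi_log t1 s0,
    zero_add, levi_cmul _ c2L], (((‖s (Φ z)‖ ^ 2)⁻¹ : ℝ) * star (s (Φ z))) •
      fun α => fderiv ℂ s (Φ z) (Pi.single α 1), fun i => ?_⟩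
  rw [dz_congr eC, dz_add (c2s.differentiableAt two_ne_zero)
    ((c2L.differentiableAt two_ne_zero).const_mul _), dz_cmul _ (c2L.differentiableAt two_ne_zero),
    dz_real_comp (u := fun w => ‖s (Φ w)‖ ^ 2) (Real.hasDerivAt_log (by positivity))
    ((DvA.cd_nsq t1 1).differentiableAt one_ne_zero), DvA.dz_nsq t1,
    dz_comp_jr hs.differentiableAt h.differentiableAt, mulVec_smul, Pi.smul_apply, smul_eq_mul]
  ring

variable {X Y : Type} [TopologicalSpace X] [ChartedSpace (ι → ℂ) X] [TopologicalSpace Y]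
  [ChartedSpace (κ → ℂ) Y] {N : ℕ} {D : Dat ι κ X Y N} {m a : ℕ} {s : Ch κ Y → V κ → ℂ}

theorem chart (ha : AlgS) (hb : D.Bas) (hs : IsSec D.ρ m a s) (hm : 1 ≤ m) {y x : X}
    (hy : x ∈ (D.M.ch y).source) (hx : x ∈ D.W m a s) :
    (gm (D.M.repF D.g (D.M.ch y) (D.M.ch y x)) (jr (D.Φ (D.M.ch y) (D.cf x)) (D.M.ch y x))).det ≠ 0 ∧
    levi (fn (D.F m a s) (D.M.ch y)) (D.M.ch y x) = (m : ℂ) •
      levi (Loc.lgm (D.M.repF D.g (D.M.ch y)) (D.Φ (D.M.ch y) (D.cf x))) (D.M.ch y x) ∧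
    ∃ v : V κ, ∀ i, dz (fn (D.F m a s) (D.M.ch y)) i (D.M.ch y x) =
      (jr (D.Φ (D.M.ch y) (D.cf x)) (D.M.ch y x) *ᵥ v) i +
        m * dz (Loc.lgm (D.M.repF D.g (D.M.ch y)) (D.Φ (D.M.ch y) (D.cf x))) i (D.M.ch y x) := by
  obtain ⟨h1, h2, h3⟩ := G12.loc hb hs hy hx.1
  have h4 := h3.self_of_nhds.2
  rw [(D.M.ch y).left_inv hy] at h4
  obtain ⟨n1, n2⟩ := G12.ne_of hm (h4 ▸ hx.2)
  exact ⟨n2, loc2 ha (F := fun w => D.F m a s ((D.M.ch y).symm w)) (D.M.ch y).open_target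
    (G12.kon y) ((D.M.ch y).map_source hy) h1 n2 h2
    (fun q => n1 (by rw [q, norm_zero]; norm_num)) (h3.mono fun w hw => congrArg Real.log hw.2)⟩

theorem ck3 (ha : AlgS) (hb : D.Bas) (hs : IsSec D.ρ m a s) (hm : 1 ≤ m) :
    CkOn D.M 3 (D.W m a s) (D.F m a s) := fun _ _ hx hy =>
  contDiffAt_ofReal.2 ((G12.main (loc ha) hb hs hm hy hx).2.1.of_le (by norm_cast))

theorem bd (ha : AlgS) (hb : D.Bas) (y : X) : ∃ C : ℝ, ∀ᶠ x in 𝓝 y, ∀ (m a : ℕ)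
    (s : Ch κ Y → V κ → ℂ), IsSec D.ρ m a s → 1 ≤ m → x ∈ D.W m a s →
    (((m * C : ℝ) : ℂ) • D.g x + D.M.ddc (D.F m a s) x).PosSemidef := by
  have hA := kA ι X D.M
  have he := D.M.ch_mem y
  obtain ⟨c1, c2⟩ := G12.cdm (D := D) (n := ∞) le_rfl (D.M.mem y)
  obtain ⟨L, hL⟩ := loc_bd (c1.of_le zero_le) c2
  have c3 : ContinuousAt (fun w => ∑ k, ∑ l, ∑ i, ∑ j,
      ‖curv (D.M.repF D.g (D.M.ch y)) w i j k l‖) (D.M.ch y y) :=
    tendsto_finsetSum _ fun k _ => tendsto_finsetSum _ fun l _ => tendsto_finsetSum _ fun i _ =>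
      tendsto_finsetSum _ fun j _ => ((contDiffAt_dz_top (contDiffAt_dzb_top (c1 i j) l) k).neg.add
        (ContDiffAt.sum fun p _ => ContDiffAt.sum fun q _ => ((c1.inv c2 q p).mul
          (contDiffAt_dz_top (c1 i q) k)).mul (contDiffAt_dzb_top (c1 p j) l))).continuousAt.norm
  have hL' := c3.eventually_lt_const (lt_add_one _)
  generalize _ + (1 : ℝ) = L' at hL'
  obtain ⟨C, hC⟩ := lv (ι := ι) (κ := κ) ha (max L L')
  refine ⟨C, ?_⟩
  filter_upwards [((D.M.ch y).continuousAt (D.M.mem y)).eventually (hL.and hL'),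
    (D.M.ch y).open_source.mem_nhds (D.M.mem y)] with x ⟨x1, x2⟩ hx m a s hs hm hW
  obtain ⟨n, e, -⟩ := chart ha hb hs hm hx hW
  have p1 := hC _ _ _ _ (D.M.ch y).open_target (G12.kon y) ((D.M.ch y).map_source hx)
    (G12.loc hb hs hx hW.1).1 n (fun i j => (x1.1 i j).trans (le_max_left _ _))
    (fun i j => (x1.2 i j).trans (le_max_left _ _)) fun k l => le_max_of_le_right
      (le_trans ((Finset.single_le_sum (f := fun l => ∑ i, ∑ j,
        ‖curv (D.M.repF D.g (D.M.ch y)) (D.M.ch y x) i j k l‖) (fun _ _ => by positivity)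
        (Finset.mem_univ l)).trans (Finset.single_le_sum (f := fun k => ∑ l, ∑ i, ∑ j,
          ‖curv (D.M.repF D.g (D.M.ch y)) (D.M.ch y x) i j k l‖) (fun _ _ => by positivity)
          (Finset.mem_univ k))) x2.le)
  have p2 := p1.smul (zero_le_real.2 (Nat.cast_nonneg (α := ℝ) m))
  rw [smul_add, smul_smul, ← ofReal_mul, ofReal_natCast, ← e, ← (kB ι X D.M).ddc_rep _ _ he x hx
    ((ck3 ha hb hs hm y x hW hx).of_le (by norm_num))] at p2
  have p3 := (mat.pull_pd ι _ _ (hA.tj_det _ (D.M.ch_mem x) _ he x (D.M.mem x) hx)).2.1 p2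
  have t := fun B => (hA.repF_self B x).symm.trans
    (hA.repF_tr B _ (D.M.ch_mem x) _ he x (D.M.mem x) hx)
  rwa [t D.g, t (D.M.ddc _), pull, pull, ← Matrix.smul_mul, ← Matrix.mul_smul, ← Matrix.add_mul,
    ← Matrix.mul_add]

theorem ckr {r : X → ℝ} (h : D.RL r) : CkOn D.M 3 D.Wr r := fun y x hx hy => by
  obtain ⟨β, b1, b2⟩ := h x
  have an := Rf.an D x ((D.M.ch x).map_source (D.M.mem x))
  have c : ContDiffAt ℝ 3 (fn r (D.M.ch x)) (D.M.ch x x) := by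
    refine (contDiffAt_ofReal.2 ((DvA.cd_log an hx 3).add
      (b1.of_le (by norm_cast)))).congr_of_eventuallyEq ?_
    filter_upwards [b2, an.continuousAt.eventually_ne hx] with v v1 v2
    rw [fn, v1 v2]
  have a := D.M.hol _ (D.M.ch_mem y) _ (D.M.ch_mem x) x hy (D.M.mem x)
  have e : (D.M.ch x ∘ (D.M.ch y).symm) (D.M.ch y x) = D.M.ch x x :=
    congrArg _ ((D.M.ch y).left_inv hy)
  refine (ContDiffAt.comp _ (e ▸ c) (a.contDiffAt.restrict_scalars ℝ)).congr_of_eventuallyEq ?_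
  filter_upwards [ev_mem (D.M.ch x).open_source (D.M.mem x) hy] with w hw
  simp only [fn, Function.comp, (D.M.ch x).left_inv hw.2]

end Qps

open Qps

theorem qps (ha : AlgS) : QpS := by
  intro ι κ X Y _ _ _ _ _ _ _ _ _ N D hb
  have mo : ∀ (C C' : ℝ) (x : X), C ≤ C' → (∀ (m a : ℕ) (s : Ch κ Y → V κ → ℂ), IsSec D.ρ m a s →
      1 ≤ m → x ∈ D.W m a s → (((m * C : ℝ) : ℂ) • D.g x + D.M.ddc (D.F m a s) x).PosSemidef) →
      ∀ (m a : ℕ) (s : Ch κ Y → V κ → ℂ), IsSec D.ρ m a s → 1 ≤ m → x ∈ D.W m a s →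
      (((m * C' : ℝ) : ℂ) • D.g x + D.M.ddc (D.F m a s) x).PosSemidef := by
    intro C C' x hC q m a s hs hm hx
    have := ((G12.pd (D := D) x).posSemidef.smul (zero_le_real.2 (sub_nonneg.2
      (mul_le_mul_of_nonneg_left hC (Nat.cast_nonneg (α := ℝ) m))))).add (q m a s hs hm hx)
    rwa [← add_assoc, ← add_smul, ← ofReal_add, sub_add_cancel] at this
  obtain ⟨C, hC⟩ := unif_bd isCompact_univ mo fun y _ => bd ha hb y
  refine ⟨fun r => ckr, max C 0, le_max_right _ _, fun m a s hs hm => ⟨ck3 ha hb hs hm,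
    fun x hx => mo C _ x (le_max_left C 0) (hC x trivial) m a s hs hm hx,
    fun m' a' s' hs' hm' x hx hx' => ?_⟩⟩
  obtain ⟨n, e, v, hv⟩ := chart ha hb hs hm (D.M.mem x) hx
  obtain ⟨-, e', v', hv'⟩ := chart ha hb hs' hm' (D.M.mem x) hx'
  have k : ((m / m' : ℝ) : ℂ) * m' = m := by
    have : (m' : ℂ) ≠ 0 := by exact_mod_cast (by omega : m' ≠ 0)
    push_cast
    field_simp
  refine ⟨by rw [Atl.ddc, Atl.ddc, e, e', smul_smul, k], ?_⟩
  rw [RepA.repF_self] at n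
  have d : D.M.dfn (D.F m a s) x - ((m / m' : ℝ) : ℂ) • D.M.dfn (D.F m' a' s') x =
      jr (D.Φ (D.M.ch x) (D.cf x)) (D.M.ch x x) *ᵥ (v - ((m / m' : ℝ) : ℂ) • v') := by
    funext i
    rw [mulVec_sub, mulVec_smul]
    simp only [Atl.dfn, Pi.sub_apply, Pi.smul_apply, smul_eq_mul, hv, hv', mul_add, ← mul_assoc, k]
    ring
  rw [d, mulVec_mulVec, G12.P_self hb hx.1, Matrix.sub_mul,
    (ha.pj_psd ι κ _ _ (G12.pd x) n).2.2, sub_self, zero_mulVec]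

end Pool.Agent.Lib.MP_d44e50_ag
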