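import Pool.Agent.Lib.MP_d44e50_ag.Top

/-! Almost nonnegative curvature in the mean. -/

namespace Pool.Agent.Lib.MP_d44e50_ag

open Pool.Agent.Lib.MP_813db1_ag.HS MeasureTheory

variable {ι X : Type} [Fintype ι] [DecidableEq ι] [TopologicalSpace X] [ChartedSpace (ι → ℂ) X]

/-- the trace of `K₀` with respect to `K` at `x`. -/
noncomputable def trK (K K₀ : Kahler ι X) (x : X) : ℝ :=
  (K₀.g (chartAt (ι → ℂ) x) (chartAt (ι → ℂ) x x) *
    (K.g (chartAt (ι → ℂ) x) (chartAt (ι → ℂ) x x))⁻¹).trace.re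

/-- there are `L` and a nonempty open set `O` such that for every `ε > 0` some Kaehler metric `K`
with volume measure `μ` has a continuous lower curvature bound `h` with `∫ h ≥ -ε`, while the trace
of `K₀` with respect to `K` has integral at most `L` and is at most `L` on `O`. -/
def Alm [MeasurableSpace X] (κ : Type) [Fintype κ] [DecidableEq κ] (K₀ : Kahler ι X) : Prop :=
  ∃ (L : ℝ) (O : Set X), IsOpen O ∧ O.Nonempty ∧ ∀ ε > 0,
    ∃ (K : Kahler ι X) (μ : Measure X) (h : X → ℝ), K.IsVol μ ∧ Continuous h ∧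
      (HscGe K h ∨ ScalGe κ K h) ∧ -ε ≤ ∫ x, h x ∂μ ∧ ∫ x, trK K K₀ x ∂μ ≤ L ∧
      ∀ x ∈ O, trK K K₀ x ≤ L

end Pool.Agent.Lib.MP_d44e50_ag
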