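import Pool.Agent.Lib.MP_d44e50_ag.Kit
import Pool.Agent.Lib.MP_d44e50_ag.Top2

/-! Statements with constants that do not depend on the metric. -/

namespace Pool.Agent.Lib.MP_d44e50_ag

open Pool.Agent.Lib.MP_813db1_ag.HS MeasureTheory Complex Matrix Filter Topology Set Metric
open Asymptotics
open scoped ContDiff ComplexOrder Manifold

/-- a proper function with Levi form bounded below. -/
structure RE {ι X : Type} [Fintype ι] [DecidableEq ι] [TopologicalSpace X] (M : Atl ι X)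
    (g : X → Mat ι) (W : Set X) (r : X → ℝ) (C : ℝ) : Prop where
  nn : 0 ≤ C
  opn : IsOpen W
  ck : CkOn M 2 W r
  le : ∀ x ∈ W, r x ≤ C
  psd : ∀ x ∈ W, ((C : ℂ) • g x + M.ddc r x).PosSemidef
  cl : ∀ t, IsClosed {x | x ∈ W ∧ t ≤ r x}

/-- the same data with another metric. -/
def Dat.setG {ι κ X Y : Type} [Fintype ι] [DecidableEq ι] [Fintype κ] [DecidableEq κ]
    [TopologicalSpace X] [ChartedSpace (ι → ℂ) X] [TopologicalSpace Y] [ChartedSpace (κ → ℂ) Y]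
    {N : ℕ} (D : Dat ι κ X Y N) (g : X → Mat ι) (hg : D.M.IsK g) : Dat ι κ X Y N :=
  { D with g := g, isK := hg }

/-- a lower bound for the adjugate. -/
def AdjS : Prop := ∀ (ι : Type) [Fintype ι] [DecidableEq ι] (L L' : ℝ), ∃ c > 0,
  ∀ (G₀ G : Mat ι) (a : V ι), G₀.PosDef → G.PosDef → Bd L G₀ → Bd L G₀⁻¹ → trm G G₀ ≤ L' →
    c * ∑ i, ‖a i‖ ^ 2 ≤ G.det.re * (qf G⁻¹ a a).re

/-- the upper bound for the energy. -/
def UpT : Prop := ∀ (ι X : Type) [Fintype ι] [DecidableEq ι] [TopologicalSpace X] [T2Space X]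
  [CompactSpace X] [MeasurableSpace X] [BorelSpace X] (M : Atl ι X) (g₀ g : X → Mat ι)
  (μ : Measure X) (Wr W : Set X) (r F c : X → ℝ) (P : Ch ι X → V ι → Mat ι) (C b C0 : ℝ),
  M.IsK g₀ → M.IsK g → M.IsVol g μ → RE M g₀ Wr r C → IsOpen W → W ⊆ Wr → μ Wᶜ = 0 → Ten M W P →
  (∀ x ∈ W, (P (M.ch x) (M.ch x x)).PosSemidef ∧ ((g x)⁻¹ - P (M.ch x) (M.ch x x)).PosSemidef) →
  CkOn M 2 W F → Continuous c → DvGe M g W P F c → (∀ x ∈ W, F x + b * r x ≤ C0 + r x) →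
  (∀ t, IsClosed {x | x ∈ W ∧ t ≤ F x + b * r x}) → ∀ ε > 0, ∀ᶠ T in atTop,
    en M μ W P (fun x => F x + b * r x) T ≤ ENNReal.ofReal
      (8 * b ^ 2 * C * ∫ x, trm (g x) (g₀ x) ∂μ - 4 * ∫ x, c x ∂μ + ε)

/-- a smooth metric on the line bundle. -/
def RT : Prop := ∀ (ι κ X Y : Type) [Fintype ι] [DecidableEq ι] [Fintype κ] [DecidableEq κ]
  [TopologicalSpace X] [T2Space X] [CompactSpace X] [ChartedSpace (ι → ℂ) X] [TopologicalSpace Y]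
  [ChartedSpace (κ → ℂ) Y] (N : ℕ) (D : Dat ι κ X Y N), D.Bas →
  ∃ r C, D.RL r ∧ RE D.M D.g D.Wr r C

/-- the upper bound and properness. -/
def G2T : Prop := ∀ (ι κ X Y : Type) [Fintype ι] [DecidableEq ι] [Fintype κ] [DecidableEq κ]
  [TopologicalSpace X] [CompactSpace X] [ChartedSpace (ι → ℂ) X] [TopologicalSpace Y]
  [ChartedSpace (κ → ℂ) Y] (N : ℕ) (D : Dat ι κ X Y N) (m a : ℕ) (s : Ch κ Y → V κ → ℂ)
  (g₀ : X → Mat ι) (r : X → ℝ) (C : ℝ), D.Bas → IsSec D.ρ m a s → 1 ≤ m → D.RL r →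
  RE D.M g₀ D.Wr r C → ContinuousOn (D.tau m a s) D.Wr →
  (∃ C0, ∀ x ∈ D.W m a s, D.F m a s x + (a + 1) * r x ≤ C0 + r x) ∧
    ∀ t, IsClosed {x | x ∈ D.W m a s ∧ t ≤ D.F m a s x + (a + 1) * r x}

/-- the lower bound for the energy. -/
def G4T : Prop := ∀ (ι κ X Y : Type) [Fintype ι] [DecidableEq ι] [Fintype κ] [DecidableEq κ]
  [TopologicalSpace X] [T2Space X] [CompactSpace X] [MeasurableSpace X] [BorelSpace X]
  [ChartedSpace (ι → ℂ) X] [TopologicalSpace Y] [ChartedSpace (κ → ℂ) Y] (N : ℕ)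
  (D : Dat ι κ X Y N) (r : X → ℝ) (O : Set X) (L : ℝ), D.Bas → CkOn D.M 2 D.Wr r → O ∈ 𝓝 D.x0 →
  ∃ c > 0, ∀ (g : X → Mat ι) (hg : D.M.IsK g) (μ : Measure X) (E : Dat ι κ X Y N),
    E = D.setG g hg → E.Bas → D.M.IsVol g μ → (∀ x ∈ O, trm (g x) (D.g x) ≤ L) →
    ∀ (m a n : ℕ) (s : Ch κ Y → V κ → ℂ), IsSec D.ρ m a s → 1 ≤ m → IsOpen (E.W m a s) →
    Ten D.M (E.W m a s) E.P → CkOn D.M 2 (E.W m a s) (E.F m a s) →
    (∃ᶠ z in 𝓝 (D.M.ch D.x0 D.x0), D.S s z ≠ 0) →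
    (D.S s =O[𝓝 (D.M.ch D.x0 D.x0)] fun z => ‖z - D.M.ch D.x0 D.x0‖ ^ n) → ∀ ε > 0,
    ∀ᶠ T in atTop, ENNReal.ofReal (c * n - ε) ≤
      en D.M μ (E.W m a s) E.P (fun x => E.F m a s x + (a + 1) * r x) T

/-- the theorem. -/
def MainT : Prop := ∀ (ι κ X Y : Type) [Fintype ι] [DecidableEq ι] [Fintype κ] [DecidableEq κ]
  [TopologicalSpace X] [T2Space X] [CompactSpace X] [ConnectedSpace X] [MeasurableSpace X]
  [BorelSpace X] [ChartedSpace (ι → ℂ) X] [IsManifold 𝓘(ℂ, ι → ℂ) ω X]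
  [TopologicalSpace Y] [ConnectedSpace Y] [ChartedSpace (κ → ℂ) Y] [IsManifold 𝓘(ℂ, κ → ℂ) ω Y]
  (K₀ : Kahler ι X) (N : ℕ) (σ : OpenPartialHomeomorph X (ι → ℂ) → (ι → ℂ) → Fin N → ℂ)
  (ρ : OpenPartialHomeomorph Y (κ → ℂ) → (κ → ℂ) → Fin N → ℂ) (φ : X → Y),
  Alm κ K₀ → Lift σ → Lift ρ → (∀ f ∈ atlas (κ → ℂ) Y, ∀ z ∈ f.target, ρ f z ≠ 0) →
  Mero σ ρ φ → ∀ a : ℕ, ∃ C : ℕ, ∀ m ≥ 1,
    ∀ (Q : ℕ) (s : Fin Q → OpenPartialHomeomorph Y (κ → ℂ) → (κ → ℂ) → ℂ),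
      (∀ j, IsSec ρ m a (s j)) → Indep s → Q ≤ C

end Pool.Agent.Lib.MP_d44e50_ag
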