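import Pool.Agent.Lib.MP_d44e50_ag.St2
import Pool.Agent.Lib.MP_d44e50_ag.Top3

/-! Statements for bounds on the Kaehler class. -/

namespace Pool.Agent.Lib.MP_d44e50_ag

open Pool.Agent.Lib.MP_813db1_ag.HS MeasureTheory Complex Matrix Filter Topology Set Metric
open Asymptotics
open scoped ContDiff ComplexOrder Manifold

/-- the mass of a closed positive form depends only on the class of the metric. -/
def InvT : Prop := ∀ (ι X : Type) [Fintype ι] [DecidableEq ι] [TopologicalSpace X] [T2Space X]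
  [CompactSpace X] [MeasurableSpace X] [BorelSpace X] (M : Atl ι X) (g g' : X → Mat ι)
  (μ : Measure X) (φ b : X → ℝ) (W : Set X) (C : ℝ), M.IsK g → M.IsK g' → M.IsVol g μ →
  M.Ck ∞ φ → (∀ x, g' x = g x + M.ddc φ x) → RE M g W b C → ∀ δ > 0, ∀ᶠ S : ℝ in atTop,
    ∀ (g₁ : X → Mat ι) (f : X → ℝ), M.IsK g₁ → CkOn M 3 W f →
    (∀ x ∈ W, (g₁ x + M.ddc f x).PosSemidef) →
    |∫ x in W, pp 2 (b x / S + 2) * (trm (g' x) (g₁ x + M.ddc f x) * rat g' g x) ∂μ -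
      ∫ x in W, pp 2 (b x / S + 2) * trm (g x) (g₁ x + M.ddc f x) ∂μ| ≤
      δ * ∫ x in W, pp 2 (b x / S + 3) * trm (g x) (g₁ x + M.ddc f x) ∂μ

/-- the energy for another metric of the class. -/
def MasS : Prop := ∀ (ι X : Type) [Fintype ι] [DecidableEq ι] [TopologicalSpace X] [T2Space X]
  [CompactSpace X] [MeasurableSpace X] [BorelSpace X] (M : Atl ι X) (g g' : X → Mat ι)
  (μ μ' : Measure X) (φ b u l : X → ℝ) (W G K : Set X) (P : Ch ι X → V ι → Mat ι) (C : ℝ),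
  M.IsK g → M.IsK g' → M.IsVol g μ → M.IsVol g' μ' → M.Ck ∞ φ → (∀ x, g' x = g x + M.ddc φ x) →
  RE M g G b C → RE M g W u C → CkOn M 3 W u → CkOn M 3 G l → μ Wᶜ = 0 → IsCompact K → K ⊆ G →
  Ten M W P → (∀ x ∈ G, ((C : ℂ) • g x + M.ddc l x).PosSemidef) →
  (∀ x ∈ W, (P (M.ch x) (M.ch x x)).PosSemidef ∧ ((g x)⁻¹ - P (M.ch x) (M.ch x x)).PosSemidef ∧
    (x ∈ G → M.ddc u x = M.ddc l x ∧
      ((g x)⁻¹ - P (M.ch x) (M.ch x x)) *ᵥ (M.dfn u x - M.dfn l x) = 0)) →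
  ∀ ε > 0, ∀ᶠ T in atTop, en M μ' (W ∩ K) (fun e z => (M.repF g' e z)⁻¹) u (T / 2) ≤
    108 * en M μ W P u T + ENNReal.ofReal ε

/-- the Levi form of the logarithm of the norm. -/
def QpS : Prop := ∀ (ι κ X Y : Type) [Fintype ι] [DecidableEq ι] [Fintype κ] [DecidableEq κ]
  [TopologicalSpace X] [CompactSpace X] [ChartedSpace (ι → ℂ) X] [TopologicalSpace Y]
  [ChartedSpace (κ → ℂ) Y] (N : ℕ) (D : Dat ι κ X Y N), D.Bas →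
  (∀ r, D.RL r → CkOn D.M 3 D.Wr r) ∧ ∃ C ≥ (0 : ℝ), ∀ (m a : ℕ) (s : Ch κ Y → V κ → ℂ),
    IsSec D.ρ m a s → 1 ≤ m → CkOn D.M 3 (D.W m a s) (D.F m a s) ∧
    (∀ x ∈ D.W m a s, (((m * C : ℝ) : ℂ) • D.g x + D.M.ddc (D.F m a s) x).PosSemidef) ∧
    ∀ (m' a' : ℕ) (s' : Ch κ Y → V κ → ℂ), IsSec D.ρ m' a' s' → 1 ≤ m' → ∀ x ∈ D.W m a s,
      x ∈ D.W m' a' s' →
      D.M.ddc (D.F m a s) x = ((m / m' : ℝ) : ℂ) • D.M.ddc (D.F m' a' s') x ∧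
      ((D.g x)⁻¹ - D.P (D.M.ch x) (D.M.ch x x)) *ᵥ
        (D.M.dfn (D.F m a s) x - ((m / m' : ℝ) : ℂ) • D.M.dfn (D.F m' a' s') x) = 0

/-- the lower bound for the energy near the base point, for a second metric. -/
def G4L : Prop := ∀ (ι κ X Y : Type) [Fintype ι] [DecidableEq ι] [Fintype κ] [DecidableEq κ]
  [TopologicalSpace X] [T2Space X] [CompactSpace X] [MeasurableSpace X] [BorelSpace X]
  [ChartedSpace (ι → ℂ) X] [TopologicalSpace Y] [ChartedSpace (κ → ℂ) Y] (N : ℕ)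
  (D : Dat ι κ X Y N) (r : X → ℝ) (O : Set X) (L : ℝ), D.Bas → CkOn D.M 2 D.Wr r → O ∈ 𝓝 D.x0 →
  ∃ c > 0, ∀ (g g' : X → Mat ι) (hg : D.M.IsK g) (μ' : Measure X) (E : Dat ι κ X Y N),
    E = D.setG g hg → E.Bas → D.M.IsK g' → D.M.IsVol g' μ' →
    (∀ x ∈ O, trm (g' x) (D.g x) ≤ L) →
    ∀ (m a n : ℕ) (s : Ch κ Y → V κ → ℂ), IsSec D.ρ m a s → 1 ≤ m → IsOpen (E.W m a s) →
    CkOn D.M 2 (E.W m a s) (E.F m a s) → (∃ᶠ z in 𝓝 (D.M.ch D.x0 D.x0), D.S s z ≠ 0) →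
    (D.S s =O[𝓝 (D.M.ch D.x0 D.x0)] fun z => ‖z - D.M.ch D.x0 D.x0‖ ^ n) → ∀ ε > 0,
    ∀ᶠ T in atTop, ENNReal.ofReal (c * n - ε) ≤ en D.M μ' (E.W m a s ∩ O)
      (fun e z => (D.M.repF g' e z)⁻¹) (fun x => E.F m a s x + (a + 1) * r x) T

/-- the lower bound for the energy. -/
def G4B : Prop := ∀ (ι κ X Y : Type) [Fintype ι] [DecidableEq ι] [Fintype κ] [DecidableEq κ]
  [TopologicalSpace X] [T2Space X] [CompactSpace X] [ConnectedSpace X] [MeasurableSpace X]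
  [BorelSpace X] [ChartedSpace (ι → ℂ) X] [TopologicalSpace Y] [ChartedSpace (κ → ℂ) Y] (N : ℕ)
  (D : Dat ι κ X Y N) (r : X → ℝ) (C : ℝ) (O : Set X) (L : ℝ) (m' a : ℕ)
  (s' : Ch κ Y → V κ → ℂ), D.Bas → D.RL r → RE D.M D.g D.Wr r C → O ∈ 𝓝 D.x0 →
  IsSec D.ρ m' a s' → 1 ≤ m' → D.x0 ∈ D.W m' a s' →
  ∃ c > 0, ∀ (g g' : X → Mat ι) (hg : D.M.IsK g) (μ : Measure X) (E : Dat ι κ X Y N)
    (φ h : X → ℝ), E = D.setG g hg → E.Bas → D.M.IsVol g μ → D.M.IsK g' → D.M.Ck ∞ φ →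
    (∀ x, g' x = g x + D.M.ddc φ x) → (∀ x ∈ O, trm (g' x) (D.g x) ≤ L) →
    (∀ x (B : Matrix ι κ ℂ), (gm (g x) B).det ≠ 0 →
      h x ≤ rq (D.M.repF g (D.M.ch x)) (D.M.ch x x) (pj (g x) B)) →
    ∀ (m n : ℕ) (s : Ch κ Y → V κ → ℂ), IsSec D.ρ m a s → 1 ≤ m →
    (∃ᶠ z in 𝓝 (D.M.ch D.x0 D.x0), D.S s z ≠ 0) →
    (D.S s =O[𝓝 (D.M.ch D.x0 D.x0)] fun z => ‖z - D.M.ch D.x0 D.x0‖ ^ n) → ∀ ε > 0,
    ∀ᶠ T in atTop, ENNReal.ofReal (c * n - ε) ≤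
      en D.M μ (E.W m a s) E.P (fun x => E.F m a s x + (a + 1) * r x) T

/-- the theorem. -/
def MainU : Prop := ∀ (ι κ X Y : Type) [Fintype ι] [DecidableEq ι] [Fintype κ] [DecidableEq κ]
  [TopologicalSpace X] [T2Space X] [CompactSpace X] [ConnectedSpace X] [MeasurableSpace X]
  [BorelSpace X] [ChartedSpace (ι → ℂ) X] [IsManifold 𝓘(ℂ, ι → ℂ) ω X]
  [TopologicalSpace Y] [ConnectedSpace Y] [ChartedSpace (κ → ℂ) Y] [IsManifold 𝓘(ℂ, κ → ℂ) ω Y]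
  (K₀ : Kahler ι X) (N : ℕ) (σ : OpenPartialHomeomorph X (ι → ℂ) → (ι → ℂ) → Fin N → ℂ)
  (ρ : OpenPartialHomeomorph Y (κ → ℂ) → (κ → ℂ) → Fin N → ℂ) (φ : X → Y),
  AlmC κ K₀ → Lift σ → Lift ρ → (∀ f ∈ atlas (κ → ℂ) Y, ∀ z ∈ f.target, ρ f z ≠ 0) →
  Mero σ ρ φ → ∀ a : ℕ, ∃ C : ℕ, ∀ m ≥ 1,
    ∀ (Q : ℕ) (s : Fin Q → OpenPartialHomeomorph Y (κ → ℂ) → (κ → ℂ) → ℂ),
      (∀ j, IsSec ρ m a (s j)) → Indep s → Q ≤ C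

end Pool.Agent.Lib.MP_d44e50_ag
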