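import Pool.Agent.Lib.MP_d44e50_ag.Defs

/-! Statements of the steps of the proof. -/

namespace Pool.Agent.Lib.MP_d44e50_ag

open Pool.Agent.Lib.MP_813db1_ag.HS MeasureTheory Complex Matrix Filter Topology Set Metric
open Asymptotics
open scoped ContDiff ComplexOrder Manifold

/-- linear algebra. -/
structure AlgS : Prop where
  gm_psd : ∀ (ι κ : Type) [Fintype ι] [DecidableEq ι] [Fintype κ] (G : Mat ι) (B : Matrix ι κ ℂ),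
    G.PosDef → (gm G B).PosSemidef
  gm_pd : ∀ (ι κ : Type) [Fintype ι] [DecidableEq ι] [Fintype κ] [DecidableEq κ] (G : Mat ι)
    (B : Matrix ι κ ℂ), G.PosDef → (gm G B).det ≠ 0 → (gm G B).PosDef
  gm_inj : ∀ (ι κ : Type) [Fintype ι] [DecidableEq ι] [Fintype κ] [DecidableEq κ] (G : Mat ι)
    (B : Matrix ι κ ℂ), G.PosDef → Function.Injective B.mulVec → (gm G B).det ≠ 0
  gm_zero : ∀ (ι κ : Type) [Fintype ι] [DecidableEq ι] [Fintype κ] [DecidableEq κ] (G : Mat ι)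
    (B ξ : Matrix ι κ ℂ), G.PosDef → (gm G B).det = 0 → (ξᴴ * B).det = 0
  pj_psd : ∀ (ι κ : Type) [Fintype ι] [DecidableEq ι] [Fintype κ] [DecidableEq κ] (G : Mat ι)
    (B : Matrix ι κ ℂ), G.PosDef → (gm G B).det ≠ 0 →
    (pj G B).PosSemidef ∧ (G⁻¹ - pj G B).PosSemidef ∧ pj G B * B = G⁻¹ * B
  trX : ∀ (ι κ : Type) [Fintype ι] [DecidableEq ι] [Fintype κ] [DecidableEq κ] (G J : Mat ι)
    (B : Matrix ι κ ℂ), J.det ≠ 0 → gm (pull J G) (Jᵀ * B) = gm G B ∧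
    J.map star * pj (pull J G) (Jᵀ * B) * Jᵀ = pj G B
  trY : ∀ (ι κ : Type) [Fintype ι] [DecidableEq ι] [Fintype κ] [DecidableEq κ] (G : Mat ι)
    (B : Matrix ι κ ℂ) (A : Mat κ), A.det ≠ 0 →
    (gm G (B * A)).det.re = ‖A.det‖ ^ 2 * (gm G B).det.re ∧ pj G (B * A) = pj G B
  frame : ∀ (ι κ : Type) [Fintype ι] [DecidableEq ι] [Fintype κ] [DecidableEq κ] (G : Mat ι)
    (B : Matrix ι κ ℂ), G.PosDef → (gm G B).det ≠ 0 → ∃ ξ : Matrix ι κ ℂ, ξᴴ * G * ξ = 1 ∧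
    pj G B = ξ * ξᴴ ∧ ‖(ξᴴ * B).det‖ ^ 2 = (gm G B).det.re
  bd : ∀ (ι κ : Type) [Fintype ι] [DecidableEq ι] [Fintype κ] [DecidableEq κ] (L : ℝ), ∃ C,
    ∀ (G : Mat ι) (ξ : Matrix ι κ ℂ), G.PosDef → Bd L G → Bd L G⁻¹ → ξᴴ * G * ξ = 1 →
    ∀ i a, ‖ξ i a‖ ≤ C
  qf_psd : ∀ (ι : Type) [Fintype ι] (P : Mat ι) (a : V ι), P.PosSemidef → 0 ≤ (qf P a a).re
  qf_sub : ∀ (ι : Type) [Fintype ι] (P Q : Mat ι) (a : V ι),
    (Q - P).PosSemidef → (qf P a a).re ≤ (qf Q a a).re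
  qf_cs : ∀ (ι : Type) [Fintype ι] (P : Mat ι) (a b : V ι) (t : ℝ), P.PosSemidef →
    (qf P (a + (t : ℂ) • b) (a + (t : ℂ) • b)).re / 2 - t ^ 2 / 2 * (qf P b b).re ≤
      (qf P (a + (t : ℂ) • b) a).re
  qf_add : ∀ (ι : Type) [Fintype ι] (P : Mat ι) (a b : V ι), P.PosSemidef →
    (qf P a a).re / 2 - (qf P b b).re ≤ (qf P (a + b) (a + b)).re
  qf_bas : ∀ (ι κ : Type) [Fintype ι] [DecidableEq ι] [Fintype κ] [DecidableEq κ] (L : ℝ),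
    ∃ c > 0, ∀ (G : Mat ι) (B : Matrix ι κ ℂ) (v : V κ) (b : V ι), G.PosDef → Bd L G → Bd L G⁻¹ →
    (gm G B).det ≠ 0 → c * ∑ i, ‖(B *ᵥ v) i‖ ^ 2 ≤ (qf (pj G B) (B *ᵥ v) (B *ᵥ v)).re ∧
      c * (qf (pj G B) b b).re ≤ ∑ i, ‖b i‖ ^ 2

/-- the horizontal scalar curvature. -/
def ScS : Prop := ∀ (ι κ : Type) [Fintype ι] [DecidableEq ι] [Fintype κ] [DecidableEq κ]
  (G : V ι → Mat ι) (U : Set (V ι)) (z : V ι) (B : Matrix ι κ ℂ) (c : ℝ), IsOpen U → KOn G U →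
  z ∈ U → (gm (G z) B).det ≠ 0 →
  ((∀ v : V ι, c * (∑ i, ∑ j, G z i j * v i * star (v j)).re ^ 2 ≤ hsc G z v) →
    (Fintype.card κ * (Fintype.card κ + 1) / 2 : ℝ) * c ≤ rq G z (pj (G z) B)) ∧
  ((∀ ξ : κ → ι → ℂ,
    (∀ a b, ∑ i, ∑ j, G z i j * ξ a i * star (ξ b j) = if a = b then 1 else 0) →
    c ≤ (∑ a, ∑ b, ∑ i, ∑ j, ∑ k, ∑ l,
      curv G z i j k l * ξ a i * star (ξ a j) * ξ b k * star (ξ b l)).re) →
    c ≤ rq G z (pj (G z) B))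

/-- the local inequality. -/
def LocS : Prop := ∀ (ι κ : Type) [Fintype ι] [DecidableEq ι] [Fintype κ] [DecidableEq κ]
  (G P : V ι → Mat ι) (U : Set (V ι)) (z : V ι) (Φ : V ι → V κ) (s : V κ → ℂ) (m : ℕ)
  (F : V ι → ℝ), IsOpen U → KOn G U → z ∈ U → AnalyticAt ℂ Φ z → (gm (G z) (jr Φ z)).det ≠ 0 →
  AnalyticAt ℂ s (Φ z) → s (Φ z) ≠ 0 → (∀ᶠ w in 𝓝 z, P w = pj (G w) (jr Φ w) ∧
    F w = Real.log (‖s (Φ w)‖ ^ 2 * (gm (G w) (jr Φ w)).det.re ^ m)) →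
  (∀ i j, ContDiffAt ℝ ∞ (fun w => P w i j) z) ∧ ContDiffAt ℝ ∞ F z ∧
    (G z).det.re * (m * rq G z (P z)) ≤ (dvP G P (fun w => (F w : ℂ)) z).re

/-- the pairing of differentials in other charts. -/
def GpS : Prop := ∀ (ι X : Type) [Fintype ι] [DecidableEq ι] [TopologicalSpace X] (M : Atl ι X)
  (W : Set X) (P : Ch ι X → V ι → Mat ι) (u v : X → ℝ), IsOpen W → Ten M W P → CkOn M 1 W u →
  CkOn M 1 W v → ContinuousOn (gp M P u v) W ∧ ∀ y, ∀ x ∈ W, x ∈ (M.ch y).source →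
    gp M P u v x = (qf (P (M.ch y) (M.ch y x)) (fun i => dz (fn u (M.ch y)) i (M.ch y x))
      fun i => dz (fn v (M.ch y)) i (M.ch y x)).re

/-- integration by parts. -/
def IbpS : Prop := ∀ (ι X : Type) [Fintype ι] [DecidableEq ι] [TopologicalSpace X] [T2Space X]
  [CompactSpace X] [MeasurableSpace X] [BorelSpace X] (M : Atl ι X) (g : X → Mat ι)
  (μ : Measure X) (W : Set X) (P : Ch ι X → V ι → Mat ι) (F u c : X → ℝ) (θ : ℝ → ℝ) (t : ℝ),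
  M.IsK g → M.IsVol g μ → IsOpen W → Ten M W P → CkOn M 2 W F → CkOn M 1 W u → ContinuousOn c W →
  DvGe M g W P F c → IsClosed {x | x ∈ W ∧ t ≤ u x} → ContDiff ℝ 1 θ → (∀ s, 0 ≤ θ s) →
  (∀ s ≤ t, θ s = 0) → IntegrableOn (fun x => θ (u x) * c x) W μ ∧
    IntegrableOn (fun x => deriv θ (u x) * gp M P u F x) W μ ∧
    ∫ x in W, θ (u x) * c x ∂μ + ∫ x in W, deriv θ (u x) * gp M P u F x ∂μ ≤ 0

/-- the upper bound for the energy. -/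
def UpS : Prop := ∀ (ι X : Type) [Fintype ι] [DecidableEq ι] [TopologicalSpace X] [T2Space X]
  [CompactSpace X] [MeasurableSpace X] [BorelSpace X] (M : Atl ι X) (g : X → Mat ι)
  (μ : Measure X) (Wr : Set X) (r : X → ℝ) (C b : ℝ), M.IsK g → M.IsVol g μ → RD M g Wr r C →
  ∃ A : ℝ, ∀ (W : Set X) (P : Ch ι X → V ι → Mat ι) (F c : X → ℝ) (C0 : ℝ), IsOpen W → W ⊆ Wr →
    μ Wᶜ = 0 → Ten M W P → (∀ x ∈ W, (P (M.ch x) (M.ch x x)).PosSemidef ∧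
      ((g x)⁻¹ - P (M.ch x) (M.ch x x)).PosSemidef) → CkOn M 2 W F → Continuous c →
    DvGe M g W P F c → (∀ x ∈ W, F x + b * r x ≤ C0 + r x) →
    (∀ t, IsClosed {x | x ∈ W ∧ t ≤ F x + b * r x}) → 4 * ∫ x, c x ∂μ ≤ A ∧
    ∀ ε > 0, ∀ᶠ T in atTop, en M μ W P (fun x => F x + b * r x) T ≤
      ENNReal.ofReal (A - 4 * ∫ x, c x ∂μ + ε)

/-- radial means of plurisubharmonic functions. -/
def RadS : Prop := ∀ (ι : Type) [Fintype ι] [DecidableEq ι], ∃ m > 0,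
  (∀ (p : V ι), ∀ r > 0, ∫ y : V ι, ker r (y - p) = m) ∧
  ∀ (O : Set (V ι)) (w : V ι → ℝ) (p : V ι) (r : ℝ), IsOpen O → 0 < r →
    (∀ y, eq2 (y - p) ≤ r → y ∈ O) →
    (∀ y ∈ O, ContDiffAt ℝ 2 w y ∧ (levi (fun x => (w x : ℂ)) y).PosSemidef) →
    m * w p ≤ ∫ y, w y * ker r (y - p) ∧ ∀ r0 ∈ Ioc 0 r,
      (∫ y, w y * ker r (y - p)) - ∫ y, w y * ker r0 (y - p) ≤ Real.log (r / r0) *
        ∫ y, (trace (levi (fun x => (w x : ℂ)) y)).re * kerP r (y - p)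

/-- the lower bound for the energy by the order of vanishing. -/
def LelS : Prop := ∀ (ι : Type) [Fintype ι] [DecidableEq ι] (z0 : V ι) (R : ℝ), 0 < R → ∃ c > 0,
  ∀ (S : V ι → ℂ) (n : ℕ), AnalyticOnNhd ℂ S (ball z0 R) → (∃ᶠ z in 𝓝 z0, S z ≠ 0) →
  (S =O[𝓝 z0] fun z => ‖z - z0‖ ^ n) → ∀ ε > 0, ∀ᶠ T : ℝ in atTop,
    ENNReal.ofReal (c * n - ε) ≤ ∫⁻ z in ball z0 R ∩ {z | S z ≠ 0},
      ENNReal.ofReal (pp 1 (Real.log (‖S z‖ ^ 2) / T + 1) / T *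
        ∑ i, ‖dz (fun w => (Real.log (‖S w‖ ^ 2) : ℂ)) i z‖ ^ 2)

/-- small sets do not matter for holomorphic functions. -/
structure ThinS : Prop where
  rem : ∀ (ι : Type) [Fintype ι] (U E : Set (V ι)) (p : V ι), IsOpen U → IsOpen (U \ E) → Thin E →
    p ∈ U → ∃ K, IsCompact K ∧ K ⊆ U \ E ∧ ∀ᶠ z in 𝓝 p, z ∉ E → ∀ (h : V ι → ℂ) (B : ℝ),
      DifferentiableOn ℂ h (U \ E) → (∀ w ∈ K, ‖h w‖ ≤ B) → ‖h z‖ ≤ B
  conn : ∀ (ι : Type) [Fintype ι] (U E : Set (V ι)), Convex ℝ U → IsOpen (U \ E) → IsOpen U →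
    Thin E → IsPreconnected (U \ E)
  dense : ∀ (ι : Type) [Fintype ι] (E : Set (V ι)) (p : V ι), Thin E → ∃ᶠ z in 𝓝 p, z ∉ E

/-- analytic sets outside a small set are null. -/
def NulS : Prop := ∀ (ι X : Type) [Fintype ι] [DecidableEq ι] [TopologicalSpace X] [T2Space X]
  [CompactSpace X] [ConnectedSpace X] [MeasurableSpace X] [BorelSpace X] (M : Atl ι X)
  (g : X → Mat ι) (μ : Measure X) (I Z : Set X) (A : Type) (x0 : X), M.IsK g → M.IsVol g μ →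
  IsClosed I → (∀ y, Thin {z | z ∈ (M.ch y).target ∧ (M.ch y).symm z ∈ I}) → x0 ∉ I →
  (∀ x ∉ I, ∃ h : A → V ι → ℂ, ∀ᶠ w in 𝓝 (M.ch x x), (∀ a, AnalyticAt ℂ (h a) w) ∧
    ((M.ch x).symm w ∈ Z ↔ ∀ a, h a w = 0)) → (∃ᶠ x in 𝓝 x0, x ∉ Z) → μ (Z \ I) = 0

/-- jets. -/
def JetS : Prop := ∀ (ι : Type) [Fintype ι] (n : ℕ), ∃ d : ℕ, ∀ (Q : ℕ) (S : Fin Q → V ι → ℂ)
  (z0 : V ι), d < Q → (∀ j, AnalyticAt ℂ (S j) z0) →
  ∃ c : Fin Q → ℂ, c ≠ 0 ∧ (fun z => ∑ j, c j * S j z) =O[𝓝 z0] fun z => ‖z - z0‖ ^ n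

/-- change of charts. -/
def BasS : Prop := ∀ (ι κ X Y : Type) [Fintype ι] [DecidableEq ι] [Fintype κ] [DecidableEq κ]
  [TopologicalSpace X] [ChartedSpace (ι → ℂ) X] [TopologicalSpace Y] [ChartedSpace (κ → ℂ) Y]
  (N : ℕ) (D : Dat ι κ X Y N), D.Bas

/-- a smooth metric on the line bundle. -/
def RS : Prop := ∀ (ι κ X Y : Type) [Fintype ι] [DecidableEq ι] [Fintype κ] [DecidableEq κ]
  [TopologicalSpace X] [T2Space X] [CompactSpace X] [ChartedSpace (ι → ℂ) X] [TopologicalSpace Y]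
  [ChartedSpace (κ → ℂ) Y] (N : ℕ) (D : Dat ι κ X Y N), D.Bas →
  ∃ r C, D.RL r ∧ RD D.M D.g D.Wr r C

/-- a section which is not zero does not vanish near the base point. -/
def IdS : Prop := ∀ (ι κ X Y : Type) [Fintype ι] [DecidableEq ι] [Fintype κ] [DecidableEq κ]
  [TopologicalSpace X] [ChartedSpace (ι → ℂ) X] [TopologicalSpace Y] [ConnectedSpace Y]
  [ChartedSpace (κ → ℂ) Y] (N : ℕ) (D : Dat ι κ X Y N) (m a : ℕ) (s : Ch κ Y → V κ → ℂ), D.Bas →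
  IsSec D.ρ m a s → (∃ f ∈ atlas (κ → ℂ) Y, ∃ z ∈ f.target, s f z ≠ 0) →
  ∃ᶠ z in 𝓝 (D.M.ch D.x0 D.x0), D.S s z ≠ 0

/-- the local inequality on the manifold. -/
def G1S : Prop := ∀ (ι κ X Y : Type) [Fintype ι] [DecidableEq ι] [Fintype κ] [DecidableEq κ]
  [TopologicalSpace X] [ChartedSpace (ι → ℂ) X] [TopologicalSpace Y] [ChartedSpace (κ → ℂ) Y]
  (N : ℕ) (D : Dat ι κ X Y N) (m a : ℕ) (s : Ch κ Y → V κ → ℂ) (c : X → ℝ), D.Bas →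
  IsSec D.ρ m a s → 1 ≤ m → (∀ x (B : Matrix ι κ ℂ), (gm (D.g x) B).det ≠ 0 →
    c x ≤ rq (D.M.repF D.g (D.M.ch x)) (D.M.ch x x) (pj (D.g x) B)) →
  IsOpen (D.W m a s) ∧ ContinuousOn (D.tau m a s) D.Wr ∧ Ten D.M (D.W m a s) D.P ∧
    (∀ x ∈ D.W m a s, (D.P (D.M.ch x) (D.M.ch x x)).PosSemidef ∧
      ((D.g x)⁻¹ - D.P (D.M.ch x) (D.M.ch x x)).PosSemidef) ∧ CkOn D.M 2 (D.W m a s) (D.F m a s) ∧
    DvGe D.M D.g (D.W m a s) D.P (D.F m a s) fun x => m * c x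

/-- the upper bound and properness. -/
def G2S : Prop := ∀ (ι κ X Y : Type) [Fintype ι] [DecidableEq ι] [Fintype κ] [DecidableEq κ]
  [TopologicalSpace X] [CompactSpace X] [ChartedSpace (ι → ℂ) X] [TopologicalSpace Y]
  [ChartedSpace (κ → ℂ) Y] (N : ℕ) (D : Dat ι κ X Y N) (m a : ℕ) (s : Ch κ Y → V κ → ℂ)
  (r : X → ℝ) (C : ℝ), D.Bas → IsSec D.ρ m a s → 1 ≤ m → D.RL r → RD D.M D.g D.Wr r C →
  ContinuousOn (D.tau m a s) D.Wr →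
  (∃ C0, ∀ x ∈ D.W m a s, D.F m a s x + (a + 1) * r x ≤ C0 + r x) ∧
    ∀ t, IsClosed {x | x ∈ D.W m a s ∧ t ≤ D.F m a s x + (a + 1) * r x}

/-- the good set has full measure. -/
def G3S : Prop := ∀ (ι κ X Y : Type) [Fintype ι] [DecidableEq ι] [Fintype κ] [DecidableEq κ]
  [TopologicalSpace X] [T2Space X] [CompactSpace X] [ConnectedSpace X] [MeasurableSpace X]
  [BorelSpace X] [ChartedSpace (ι → ℂ) X] [TopologicalSpace Y] [ChartedSpace (κ → ℂ) Y] (N : ℕ)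
  (D : Dat ι κ X Y N) (μ : Measure X) (m a : ℕ) (s : Ch κ Y → V κ → ℂ), D.Bas → D.M.IsVol D.g μ →
  IsSec D.ρ m a s → 1 ≤ m → (∃ᶠ z in 𝓝 (D.M.ch D.x0 D.x0), D.S s z ≠ 0) → μ (D.W m a s)ᶜ = 0

/-- the lower bound for the energy. -/
def G4S : Prop := ∀ (ι κ X Y : Type) [Fintype ι] [DecidableEq ι] [Fintype κ] [DecidableEq κ]
  [TopologicalSpace X] [T2Space X] [CompactSpace X] [MeasurableSpace X] [BorelSpace X]
  [ChartedSpace (ι → ℂ) X] [TopologicalSpace Y] [ChartedSpace (κ → ℂ) Y] (N : ℕ)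
  (D : Dat ι κ X Y N) (μ : Measure X) (r : X → ℝ) (C : ℝ), D.Bas → D.M.IsVol D.g μ →
  RD D.M D.g D.Wr r C → ∃ c > 0, ∀ (m a n : ℕ) (s : Ch κ Y → V κ → ℂ), IsSec D.ρ m a s → 1 ≤ m →
    IsOpen (D.W m a s) → Ten D.M (D.W m a s) D.P → CkOn D.M 2 (D.W m a s) (D.F m a s) →
    (∃ᶠ z in 𝓝 (D.M.ch D.x0 D.x0), D.S s z ≠ 0) →
    (D.S s =O[𝓝 (D.M.ch D.x0 D.x0)] fun z => ‖z - D.M.ch D.x0 D.x0‖ ^ n) → ∀ ε > 0,
    ∀ᶠ T in atTop, ENNReal.ofReal (c * n - ε) ≤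
      en D.M μ (D.W m a s) D.P (fun x => D.F m a s x + (a + 1) * r x) T

/-- the theorem. -/
def MainS : Prop := ∀ (ι κ X Y : Type) [Fintype ι] [DecidableEq ι] [Fintype κ] [DecidableEq κ]
  [TopologicalSpace X] [T2Space X] [CompactSpace X] [ConnectedSpace X] [MeasurableSpace X]
  [BorelSpace X] [ChartedSpace (ι → ℂ) X] [IsManifold 𝓘(ℂ, ι → ℂ) ω X]
  [TopologicalSpace Y] [ConnectedSpace Y] [ChartedSpace (κ → ℂ) Y] [IsManifold 𝓘(ℂ, κ → ℂ) ω Y]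
  (K : Kahler ι X) (μ : Measure X) (h : X → ℝ) (N : ℕ)
  (σ : OpenPartialHomeomorph X (ι → ℂ) → (ι → ℂ) → Fin N → ℂ)
  (ρ : OpenPartialHomeomorph Y (κ → ℂ) → (κ → ℂ) → Fin N → ℂ) (φ : X → Y),
  K.IsVol μ → Continuous h → HscGe K h ∨ ScalGe κ K h → 0 ≤ ∫ x, h x ∂μ → Lift σ → Lift ρ →
  (∀ f ∈ atlas (κ → ℂ) Y, ∀ z ∈ f.target, ρ f z ≠ 0) → Mero σ ρ φ → ∀ a : ℕ,
  (∃ C : ℕ, ∀ m ≥ 1, ∀ (Q : ℕ) (s : Fin Q → OpenPartialHomeomorph Y (κ → ℂ) → (κ → ℂ) → ℂ),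
    (∀ j, IsSec ρ m a (s j)) → Indep s → Q ≤ C) ∧
  (0 < ∫ x, h x ∂μ → Nonempty κ → ∃ m0 : ℕ, ∀ m ≥ m0, ∀ s, IsSec ρ m a s →
    ∀ f ∈ atlas (κ → ℂ) Y, ∀ z ∈ f.target, s f z = 0)

end Pool.Agent.Lib.MP_d44e50_ag
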