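import Pool.Agent.Lib.MP_813db1_ag.HS.Top

/-! Lower curvature bounds, meromorphic maps and twisted pluricanonical sections. -/

namespace Pool.Agent.Lib.MP_d44e50_ag

open Pool.Agent.Lib.MP_813db1_ag.HS Filter Topology

variable {ι κ X Y : Type} [Fintype ι] [DecidableEq ι] [Fintype κ] [DecidableEq κ]
  [TopologicalSpace X] [ChartedSpace (ι → ℂ) X] [TopologicalSpace Y] [ChartedSpace (κ → ℂ) Y]
  {N : ℕ}

/-- the holomorphic sectional curvature at `x` is at least `h x`: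
`h x |v|^4 ≤ R(v, vbar, v, vbar)`. -/
def HscGe (K : Kahler ι X) (h : X → ℝ) : Prop :=
  ∀ e ∈ atlas (ι → ℂ) X, ∀ x ∈ e.source, ∀ v : ι → ℂ,
    h x * (∑ i, ∑ j, K.g e (e x) i j * v i * star (v j)).re ^ 2 ≤ hsc (K.g e) (e x) v

/-- `h x ≤ ∑ a b, R(ξ a, ξ a bar, ξ b, ξ b bar)` for all unitary frames `ξ` at `x` indexed by `κ`. -/
def ScalGe (κ : Type) [Fintype κ] [DecidableEq κ] (K : Kahler ι X) (h : X → ℝ) : Prop :=
  ∀ e ∈ atlas (ι → ℂ) X, ∀ x ∈ e.source, ∀ ξ : κ → ι → ℂ,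
    (∀ a b, ∑ i, ∑ j, K.g e (e x) i j * ξ a i * star (ξ b j) = if a = b then 1 else 0) →
    h x ≤ (∑ a, ∑ b, ∑ i, ∑ j, ∑ k, ∑ l,
      curv (K.g e) (e x) i j k l * ξ a i * star (ξ a j) * ξ b k * star (ξ b l)).re

/-- `N` holomorphic sections of a holomorphic line bundle which is trivial on each chart: `σ e` are
their values in the chart `e`, and they change by holomorphic units. -/
def Lift (σ : OpenPartialHomeomorph X (ι → ℂ) → (ι → ℂ) → Fin N → ℂ) : Prop :=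
  (∀ e ∈ atlas (ι → ℂ) X, AnalyticOnNhd ℂ (σ e) e.target) ∧
    ∀ e ∈ atlas (ι → ℂ) X, ∀ e' ∈ atlas (ι → ℂ) X, ∀ x ∈ e.source, x ∈ e'.source →
      ∃ c : (ι → ℂ) → ℂ, AnalyticAt ℂ c (e x) ∧ c (e x) ≠ 0 ∧
        ∀ᶠ w in 𝓝 (e x), σ e w = c w • σ e' (e' (e.symm w))

/-- `φ` is a dominant meromorphic map from `X` to `Y`, where `Y` maps to projective space by the
homogeneous coordinates `ρ`: the common zeros of `σ` have Hausdorff dimension less than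
`2 dim X - 2`, outside them `φ` is holomorphic and `ρ ∘ φ` is proportional to `σ`, and the
differential of `φ` is onto at some point. -/
structure Mero (σ : OpenPartialHomeomorph X (ι → ℂ) → (ι → ℂ) → Fin N → ℂ)
    (ρ : OpenPartialHomeomorph Y (κ → ℂ) → (κ → ℂ) → Fin N → ℂ) (φ : X → Y) : Prop where
  codim : ∀ e ∈ atlas (ι → ℂ) X, {z ∈ e.target | σ e z = 0}.Nonempty →
    dimH {z ∈ e.target | σ e z = 0} + 2 < 2 * Fintype.card ι
  hol : ∀ e ∈ atlas (ι → ℂ) X, ∀ x ∈ e.source, σ e (e x) ≠ 0 → ContinuousAt φ x ∧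
    ∀ f ∈ atlas (κ → ℂ) Y, φ x ∈ f.source → AnalyticAt ℂ (f ∘ φ ∘ e.symm) (e x) ∧
      ∃ c : ℂ, σ e (e x) = c • ρ f (f (φ x))
  dom : ∃ x, σ (chartAt (ι → ℂ) x) (chartAt (ι → ℂ) x x) ≠ 0 ∧ Function.Surjective
    (fderiv ℂ (chartAt (κ → ℂ) (φ x) ∘ φ ∘ (chartAt (ι → ℂ) x).symm) (chartAt (ι → ℂ) x x))

/-- `s` is a holomorphic section of `m K_Y + a H`, where `H` is the line bundle with the sections
`ρ`: `s f` is the coefficient of `(dy_1 ∧ ... ∧ dy_k)^m` in the chart `f`. -/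
def IsSec (ρ : OpenPartialHomeomorph Y (κ → ℂ) → (κ → ℂ) → Fin N → ℂ) (m a : ℕ)
    (s : OpenPartialHomeomorph Y (κ → ℂ) → (κ → ℂ) → ℂ) : Prop :=
  (∀ f ∈ atlas (κ → ℂ) Y, DifferentiableOn ℂ (s f) f.target) ∧
    ∀ f ∈ atlas (κ → ℂ) Y, ∀ f' ∈ atlas (κ → ℂ) Y, ∀ y ∈ f.source, y ∈ f'.source → ∀ c : ℂ,
      ρ f (f y) = c • ρ f' (f' y) →
        s f (f y) = (jac (f' ∘ f.symm) (f y)).det ^ m * c ^ a * s f' (f' y)

end Pool.Agent.Lib.MP_d44e50_ag
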